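import Mathlib

/-! ROW E1: moments of the divisor function -/

set_option autoImplicit false

namespace Pool.Agent.Lib.MP_648c71_nt.Qap

open Finset

/-- `τ(ef) ≤ τ(e)τ(f)` -/
private theorem card_divisors_mul_le (e f : ℕ) :
    ((e * f).divisors.card) ≤ e.divisors.card * f.divisors.card := by
  rw [Nat.divisors_mul]
  exact Finset.card_mul_le

private theorem card_antidiag (d : ℕ) : d.divisorsAntidiagonal.card = d.divisors.card := by
  rw [← Nat.image_fst_divisorsAntidiagonal, Finset.card_image_of_injOn]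
  rintro ⟨a, b⟩ hx ⟨a', b'⟩ hy h
  simp only [Finset.mem_coe, Nat.mem_divisorsAntidiagonal] at hx hy h
  subst h
  have ha : 0 < a := by
    rcases Nat.eq_zero_or_pos a with h | h
    · rw [h, zero_mul] at hx; exact absurd hx.1.symm hx.2
    · exact h
  have : b = b' := Nat.eq_of_mul_eq_mul_left ha (by rw [hx.1, hy.1])
  rw [this]

/-- ROW E1.  `∑_{d ≤ Z} τ(d)^k / d ≤ (1 + log Z)^(2^k)`.
Proof.  Induction on `k`: `∑ τ(d)^{k+1}/d = ∑_{ef = d ≤ Z} τ(ef)^k/(ef) ≤ (∑_{e ≤ Z} τ(e)^k/e)²` by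
`τ(ef) ≤ τ(e)τ(f)` (`Nat.divisors_mul`, `Finset.card_mul_le`); `k = 0`: harmonic sum. -/
theorem sum_tau_pow_div_le (k Z : ℕ) (hZ : 1 ≤ Z) :
    ∑ d ∈ Icc 1 Z, ((d.divisors.card : ℝ)) ^ k / d ≤ (1 + Real.log Z) ^ (2 ^ k) := by
  induction k with
  | zero =>
    have h := harmonic_le_one_add_log Z
    rw [harmonic_eq_sum_Icc] at h
    push_cast at h
    simpa [one_div] using h
  | succ k ih =>
    have hnn : 0 ≤ ∑ d ∈ Icc 1 Z, ((d.divisors.card : ℝ)) ^ k / d :=
      Finset.sum_nonneg (fun d _ => by positivity)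
    have hsq : ∑ d ∈ Icc 1 Z, ((d.divisors.card : ℝ)) ^ (k + 1) / d ≤
        (∑ d ∈ Icc 1 Z, ((d.divisors.card : ℝ)) ^ k / d) ^ 2 := by
      have h1 : ∀ d ∈ Icc 1 Z, ((d.divisors.card : ℝ)) ^ (k + 1) / d =
          ∑ x ∈ d.divisorsAntidiagonal, ((d.divisors.card : ℝ)) ^ k / d := by
        intro d _
        rw [Finset.sum_const, nsmul_eq_mul, card_antidiag]
        ring
      rw [Finset.sum_congr rfl h1, Finset.sum_sigma', sq, Finset.sum_mul_sum, ← Finset.sum_product']
      have h2 : ∑ x ∈ (Icc 1 Z).sigma (fun d => d.divisorsAntidiagonal),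
          ((x.1.divisors.card : ℝ)) ^ k / x.1 ≤
          ∑ x ∈ (Icc 1 Z).sigma (fun d => d.divisorsAntidiagonal),
          (((x.2.1.divisors.card : ℝ)) ^ k / x.2.1) * (((x.2.2.divisors.card : ℝ)) ^ k / x.2.2) := by
        apply Finset.sum_le_sum
        rintro ⟨d, x⟩ hx
        simp only [Finset.mem_sigma, Finset.mem_Icc, Nat.mem_divisorsAntidiagonal] at hx
        obtain ⟨⟨hd1, hd2⟩, hxd, hd0⟩ := hx
        simp only
        subst hxd
        rw [div_mul_div_comm, ← mul_pow]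
        push_cast
        apply div_le_div_of_nonneg_right _ (by positivity)
        apply pow_le_pow_left₀ (by positivity)
        exact_mod_cast card_divisors_mul_le x.1 x.2
      refine h2.trans ?_
      rw [← Finset.sum_image (f := fun y : ℕ × ℕ => (((y.1.divisors.card : ℝ)) ^ k / y.1) *
        (((y.2.divisors.card : ℝ)) ^ k / y.2)) (g := fun x : (Σ _ : ℕ, ℕ × ℕ) => x.2)]
      · apply Finset.sum_le_sum_of_subset_of_nonneg
        · intro y hy
          simp only [Finset.mem_image, Finset.mem_sigma, Finset.mem_Icc,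
            Nat.mem_divisorsAntidiagonal] at hy
          obtain ⟨⟨d, x⟩, ⟨⟨hd1, hd2⟩, hxd, hd0⟩, rfl⟩ := hy
          simp only at hxd hd1 hd2 ⊢
          simp only [Finset.mem_product, Finset.mem_Icc]
          have hx1 : x.1 ≠ 0 := by
            intro h; rw [h, zero_mul] at hxd; omega
          have hx2 : x.2 ≠ 0 := by
            intro h; rw [h, mul_zero] at hxd; omega
          have h3 : x.1 ≤ x.1 * x.2 := Nat.le_mul_of_pos_right _ (Nat.pos_of_ne_zero hx2)
          have h4 : x.2 ≤ x.1 * x.2 := Nat.le_mul_of_pos_left _ (Nat.pos_of_ne_zero hx1)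
          omega
        · intros; positivity
      · rintro ⟨d, x⟩ hx ⟨d', x'⟩ hx' h
        simp only [Finset.coe_sigma, Set.mem_sigma_iff, Finset.mem_coe, Finset.mem_Icc,
          Nat.mem_divisorsAntidiagonal] at hx hx' h
        subst h
        have : d = d' := by rw [← hx.2.1, ← hx'.2.1]
        subst this
        rfl
    calc _ ≤ (∑ d ∈ Icc 1 Z, ((d.divisors.card : ℝ)) ^ k / d) ^ 2 := hsq
      _ ≤ ((1 + Real.log Z) ^ (2 ^ k)) ^ 2 := pow_le_pow_left₀ hnn ih 2
      _ = (1 + Real.log Z) ^ (2 ^ (k + 1)) := by rw [← pow_mul, pow_succ]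

end Pool.Agent.Lib.MP_648c71_nt.Qap
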