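import Mathlib

/-! ROW E2: a small divisor with many divisors -/

set_option autoImplicit false

namespace Pool.Agent.Lib.MP_648c71_nt.Qap

open Finset

open scoped Pointwise in
private theorem tau_mul_le (m n : ℕ) :
    (m * n).divisors.card ≤ m.divisors.card * n.divisors.card := by
  rw [Nat.divisors_mul]
  exact Finset.card_mul_le

private theorem tau_le_of_dvd {m n : ℕ} (hn : n ≠ 0) (h : m ∣ n) :
    m.divisors.card ≤ n.divisors.card :=
  Finset.card_le_card (Nat.divisors_subset_of_dvd hn h)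

private theorem tau_prod (T : Finset ℕ) (hT : ∀ p ∈ T, p.Prime) :
    (∏ p ∈ T, p).divisors.card = 2 ^ T.card := by
  classical
  induction T using Finset.induction_on with
  | empty => simp
  | insert a T ha ih =>
    have h1 : a.Prime := hT a (Finset.mem_insert_self _ _)
    have h2 : ∀ p ∈ T, p.Prime := fun p hp => hT p (Finset.mem_insert_of_mem hp)
    rw [Finset.prod_insert ha, Finset.card_insert_of_notMem ha, Nat.Coprime.card_divisors_mul,
      ih h2, h1.divisors, Finset.card_pair h1.one_lt.ne, pow_succ, mul_comm]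
    refine Nat.Coprime.prod_right fun p hp => ?_
    exact (Nat.coprime_primes h1 (h2 p hp)).2 fun h => ha (h ▸ hp)

private theorem exists_sqfree_divisor (s : ℕ) (hs : Squarefree s) :
    ∃ t, t ∣ s ∧ t ^ 2 ≤ s ∧ s.divisors.card ≤ 2 * t.divisors.card ^ 2 := by
  classical
  have hs0 : s ≠ 0 := hs.ne_zero
  have hP : ∀ p ∈ s.primeFactors, p.Prime := fun p hp => Nat.prime_of_mem_primeFactors hp
  obtain ⟨T, hTs, hT⟩ := Finset.exists_subset_card_eq (s := s.primeFactors)
    (n := s.primeFactors.card / 2) (Nat.div_le_self _ _)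
  have hprod : ∏ p ∈ s.primeFactors, p = s := Nat.prod_primeFactors_of_squarefree hs
  have hsplit : (∏ p ∈ s.primeFactors \ T, p) * ∏ p ∈ T, p = s := by
    rw [Finset.prod_sdiff hTs, hprod]
  have htau : s.divisors.card = 2 ^ s.primeFactors.card := by
    conv_lhs => rw [← hprod]
    exact tau_prod _ hP
  have hcard : (s.primeFactors \ T).card = s.primeFactors.card - s.primeFactors.card / 2 := by
    rw [Finset.card_sdiff_of_subset hTs, hT]
  have key : ∀ U : Finset ℕ, U ⊆ s.primeFactors → s.primeFactors.card / 2 ≤ U.card →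
      s.divisors.card ≤ 2 * (∏ p ∈ U, p).divisors.card ^ 2 := by
    intro U hU hc
    rw [htau, tau_prod U fun p hp => hP p (hU hp), ← pow_mul]
    calc 2 ^ s.primeFactors.card ≤ 2 ^ (U.card * 2 + 1) :=
          Nat.pow_le_pow_right (by norm_num) (by omega)
      _ = 2 * 2 ^ (U.card * 2) := by ring
  set e := ∏ p ∈ T, p with he
  set f := ∏ p ∈ s.primeFactors \ T, p with hf
  rcases le_total e f with h | h
  · refine ⟨e, ⟨f, by rw [mul_comm]; exact hsplit.symm⟩, ?_, key T hTs hT.ge⟩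
    rw [← hsplit, sq]
    exact Nat.mul_le_mul_right e h
  · refine ⟨f, ⟨e, hsplit.symm⟩, ?_, key _ Finset.sdiff_subset (by rw [hcard]; omega)⟩
    rw [← hsplit, sq]
    exact Nat.mul_le_mul_left f h

/-- ROW E2.  Every `n ≥ 1` has a divisor `d` with `d² ≤ n` and `τ(n) ≤ 2 τ(d)^4`.
Proof.  `n = ∏ p^{a_p}`, `d₁ = ∏ p^{⌊a_p/2⌋}`, `s = ∏_{a_p odd} p = n/d₁²` squarefree, `s₁` the product of the
`⌊ω(s)/2⌋` smallest prime factors of `s` (`s₁² ≤ s`), `d = d₁ s₁`, `d² ≤ n`, `d ∣ n`.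
`a + 1 ≤ (⌊a/2⌋+1)²` for `a ≠ 1`, so `τ(n) ≤ τ(d₁)² 2^{ω(s)}`, `2^{ω(s)} ≤ 2·4^{ω(s₁)} = 2 τ(s₁)²`;
`τ(d₁), τ(s₁) ≤ τ(d)`.  (Any other proof with `2 τ(d)^4` replaced by `C τ(d)^k` is fine too: then change
the exponents here.) -/
theorem exists_small_divisor (n : ℕ) (hn : 0 < n) :
    ∃ d, d ∣ n ∧ d ^ 2 ≤ n ∧ n.divisors.card ≤ 2 * d.divisors.card ^ 4 := by
  obtain ⟨s, d₁, hd, hs⟩ := Nat.sq_mul_squarefree n
  obtain ⟨t, ht, ht2, ht3⟩ := exists_sqfree_divisor s hs
  have hd0 : d₁ * t ∣ n := by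
    rw [← hd, sq, mul_assoc]
    exact mul_dvd_mul_left d₁ (ht.mul_left d₁)
  have hne : d₁ * t ≠ 0 := fun h => by
    rw [h, zero_dvd_iff] at hd0
    omega
  refine ⟨d₁ * t, hd0, ?_, ?_⟩
  · rw [mul_pow]
    calc d₁ ^ 2 * t ^ 2 ≤ d₁ ^ 2 * s := Nat.mul_le_mul_left _ ht2
      _ = n := hd
  · have h1 : n.divisors.card ≤ d₁.divisors.card ^ 2 * s.divisors.card := by
      rw [← hd]
      refine (tau_mul_le _ _).trans (Nat.mul_le_mul_right _ ?_)
      rw [sq, sq]
      exact tau_mul_le _ _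
    have h2 : d₁.divisors.card ≤ (d₁ * t).divisors.card := tau_le_of_dvd hne (dvd_mul_right _ _)
    have h3 : t.divisors.card ≤ (d₁ * t).divisors.card := tau_le_of_dvd hne (dvd_mul_left _ _)
    calc n.divisors.card ≤ d₁.divisors.card ^ 2 * s.divisors.card := h1
      _ ≤ (d₁ * t).divisors.card ^ 2 * (2 * (d₁ * t).divisors.card ^ 2) :=
          Nat.mul_le_mul (Nat.pow_le_pow_left h2 2)
            (ht3.trans (Nat.mul_le_mul_left 2 (Nat.pow_le_pow_left h3 2)))
      _ = 2 * (d₁ * t).divisors.card ^ 4 := by ring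

end Pool.Agent.Lib.MP_648c71_nt.Qap
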