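import Pool.Agent.Lib.MP_648c71_nt.Qap.Basic

set_option autoImplicit false

namespace Pool.Agent.Lib.MP_648c71_nt.Qap

open Finset

namespace Par

variable (P : Par)

theorem lam_Qn (m n : ℕ) (hm : 0 < m) :
    lam ((P.Q (m * P.A * n) m : ℕ) : ℤ) = lam (P.A : ℤ) * lam ((P.A * n ^ 2 + P.B * n + 1 : ℕ) : ℤ) := by
  have h : ((P.Q (m * P.A * n) m : ℕ) : ℤ) = (m : ℤ) ^ 2 * ((P.A : ℤ) * ((P.A * n ^ 2 + P.B * n + 1 : ℕ) : ℤ)) := by
    unfold Q; push_cast; ring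
  rw [h, lam_sq_mul (by exact_mod_cast hm.ne'), lam_mul]

theorem lemA {m x E : ℕ} (hm : 0 < m) (hx : x.Coprime (m * P.A)) (hE : 0 < E)
    (hd : E ∣ P.Q x m) (hle : E ≤ x) (hmod : m ^ 2 * P.A ∣ x - E) :
    P.l x m = 1 ∨ P.XP m x E := by
  have hA := P.hA
  obtain ⟨z, hz⟩ : ∃ z, z = x - E := ⟨_, rfl⟩
  have hxz : x = z + E := by omega
  have hQ1 : P.Q x m = P.Q z m + E * (2 * z + E + P.B * m) := by rw [hxz]; unfold Q; ring
  have hdz : E ∣ P.Q z m := by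
    rw [hQ1] at hd
    exact (Nat.dvd_add_left (dvd_mul_right _ _)).mp hd
  obtain ⟨e, he⟩ := hdz
  have hQpos : 0 < P.Q z m := P.Q_pos (Or.inr hm)
  have he0 : 0 < e := by
    rcases Nat.eq_zero_or_pos e with h | h
    · rw [h, mul_zero] at he; omega
    · exact h
  -- E is coprime to m * A
  have hEcop : E.Coprime (m ^ 2 * P.A) := by
    rw [Nat.coprime_iff_gcd_eq_one]
    by_contra hne
    obtain ⟨p, hp, hpd⟩ := Nat.exists_prime_and_dvd hne
    have h1 : p ∣ E := hpd.trans (Nat.gcd_dvd_left _ _)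
    have h2 : p ∣ m ^ 2 * P.A := hpd.trans (Nat.gcd_dvd_right _ _)
    have h3 : p ∣ z := h2.trans (hz ▸ hmod)
    have h4 : p ∣ x := by rw [hxz]; exact dvd_add h3 h1
    have h5 : p ∣ m * P.A := by
      rcases (Nat.Prime.dvd_mul hp).mp h2 with h | h
      · exact (hp.dvd_of_dvd_pow h).mul_right _
      · exact h.mul_left _
    have := Nat.dvd_gcd h4 h5
    rw [hx] at this
    exact hp.one_lt.ne' (Nat.dvd_one.1 this)
  have hmz : m ^ 2 * P.A ∣ z := hz ▸ hmod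
  have hme : m ^ 2 * P.A ∣ e := by
    have h1 : m ^ 2 * P.A ∣ P.Q z m := by
      unfold Q
      refine dvd_add (dvd_add ?_ ?_) ?_
      · exact dvd_pow hmz two_ne_zero
      · exact (hmz.mul_left _).mul_right _
      · exact ⟨1, by ring⟩
    rw [he] at h1
    exact hEcop.symm.dvd_of_dvd_mul_left h1
  obtain ⟨n1, hn1⟩ : m * P.A ∣ z := Dvd.dvd.trans ⟨m, by ring⟩ hmz
  obtain ⟨n2, hn2⟩ : m * P.A ∣ z + e := dvd_add ⟨n1, hn1⟩ (Dvd.dvd.trans ⟨m, by ring⟩ hme)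
  by_cases h1 : P.Exc n1
  · right
    exact ⟨n1, e, hE, hle, by rw [← hz, he]; ring, Or.inl ⟨by rw [← hz]; exact hn1, h1⟩⟩
  by_cases h2 : P.Exc n2
  · right
    exact ⟨n2, e, hE, hle, by rw [← hz, he]; ring, Or.inr ⟨by rw [← hz]; exact hn2, h2⟩⟩
  left
  unfold Exc at h1 h2
  rw [not_not] at h1 h2
  have a1 := P.lam_Qn m n1 hm
  have a2 := P.lam_Qn m n2 hm
  rw [← hn1, h1, mul_one] at a1
  rw [← hn2, h2, mul_one] at a2
  -- the square
  have hQ2 : P.Q (z + e) m = e * (E + e + 2 * z + P.B * m) := by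
    have : P.Q (z + e) m = P.Q z m + e * (2 * z + e + P.B * m) := by unfold Q; ring
    rw [this, he]; ring
  have hQ3 : P.Q x m = E * (E + e + 2 * z + P.B * m) := by
    rw [hQ1, he]; ring
  have hsq : ((P.Q x m : ℕ) : ℤ) * ((P.Q z m : ℕ) : ℤ) * ((P.Q (z + e) m : ℕ) : ℤ) =
      ((E * e * (E + e + 2 * z + P.B * m) : ℕ) : ℤ) ^ 2 := by
    rw [hQ3, hQ2, he]; push_cast; ring
  have hne : ((E * e * (E + e + 2 * z + P.B * m) : ℕ) : ℤ) ≠ 0 := by
    have : 0 < E * e * (E + e + 2 * z + P.B * m) := by positivity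
    exact_mod_cast this.ne'
  have h3 : lam (((P.Q x m : ℕ) : ℤ) * ((P.Q z m : ℕ) : ℤ) * ((P.Q (z + e) m : ℕ) : ℤ)) = 1 := by
    rw [hsq, lam_sq hne]
  rw [lam_mul, lam_mul, a1, a2, mul_assoc, lam_mul_self (by exact_mod_cast hA.ne'), mul_one] at h3
  exact h3

/-- the rational part of `conj(x_h + mω) (x + mω)`, `x_h = x + hmA` -/
def sX (m h x : ℕ) : ℕ := x * (x + h * m * P.A) + P.B * m * x + P.A * m ^ 2

theorem shift_id (m h x : ℕ) :
    P.Q (x + h * m * P.A) m * P.Q x m = P.Q (P.sX m h x) (h * m ^ 2 * P.A) := by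
  unfold Q sX; ring

/-- ROW A1.  `X = sX m A^i x` is coprime to `mA`: modulo a prime `p ∣ mA` it is `≡ x²`
(`p ∣ m` or `p ∣ A`, `p ∣ B`). -/
theorem sX_coprime {m h x : ℕ} (hx : x.Coprime (m * P.A)) : (P.sX m h x).Coprime (m * P.A) := by
  rw [Nat.coprime_iff_gcd_eq_one]
  by_contra hne
  obtain ⟨p, hp, hpd⟩ := Nat.exists_prime_and_dvd hne
  have h1 : p ∣ P.sX m h x := hpd.trans (Nat.gcd_dvd_left _ _)
  have h2 : p ∣ m * P.A := hpd.trans (Nat.gcd_dvd_right _ _)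
  have h3 : p ∣ x * (h * m * P.A) + P.B * m * x + P.A * m ^ 2 := by
    rcases (Nat.Prime.dvd_mul hp).mp h2 with h | h
    · refine dvd_add (dvd_add ?_ ?_) ?_
      · exact (((h.mul_left _).mul_right _)).mul_left _
      · exact (h.mul_left _).mul_right _
      · exact (dvd_pow h two_ne_zero).mul_left _
    · refine dvd_add (dvd_add ?_ ?_) ?_
      · exact (h.mul_left _).mul_left _
      · exact ((P.hrad p hp h).mul_right _).mul_right _
      · exact h.mul_right _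
  have h4 : p ∣ x ^ 2 := by
    have : P.sX m h x = x ^ 2 + (x * (h * m * P.A) + P.B * m * x + P.A * m ^ 2) := by unfold sX; ring
    rw [this] at h1
    exact (Nat.dvd_add_left h3).mp h1
  have h5 := hp.dvd_of_dvd_pow h4
  have := Nat.dvd_gcd h5 h2
  rw [hx] at this
  exact hp.one_lt.ne' (Nat.dvd_one.1 this)

theorem four_delta_dvd_B : 4 * P.Δ.natAbs ∣ P.B := by
  have h := Int.natAbs_dvd_natAbs.mpr P.hdB
  simpa [Int.natAbs_mul] using h

/-- ROW A1.  `ξ(X) = ξ(x)² = 1`, since `X ≡ x²` mod `4Δ`. -/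
theorem xi_sX {m h x : ℕ} (hx0 : 0 < x) (hx : x.Coprime (m * P.A)) : P.xi (P.sX m h x) = 1 := by
  have hxA : x.Coprime P.A := Nat.Coprime.coprime_mul_left_right hx
  have hX : (P.sX m h x).Coprime P.A := Nat.Coprime.coprime_mul_left_right (P.sX_coprime hx)
  have hmod : P.sX m h x ≡ x ^ 2 [MOD 4 * P.Δ.natAbs] := by
    have h1 : 4 * P.Δ.natAbs ∣ x * (h * m * P.A) + P.B * m * x + P.A * m ^ 2 := by
      refine dvd_add (dvd_add ?_ ?_) ?_
      · exact (P.four_delta_dvd.mul_left _).mul_left _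
      · exact (P.four_delta_dvd_B.mul_right _).mul_right _
      · exact P.four_delta_dvd.mul_right _
    have h2 : P.sX m h x = x ^ 2 + (x * (h * m * P.A) + P.B * m * x + P.A * m ^ 2) := by unfold sX; ring
    rw [h2]
    have h3 := (Nat.modEq_zero_iff_dvd.mpr h1)
    simpa using (Nat.ModEq.refl (x ^ 2)).add h3
  rw [P.xi_mod hX hmod, P.xi_sq hxA hx0.ne']

end Par

end Pool.Agent.Lib.MP_648c71_nt.Qap
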