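import Pool.Agent.Lib.MP_648c71_nt.Qap.A1

/-! ROW A2: the classes with xi = 1; roots -/

set_option autoImplicit false

namespace Pool.Agent.Lib.MP_648c71_nt.Qap

open Finset

namespace Par

variable (P : Par)

/-- the modulus for `J` shifts -/
def MM (m J : ℕ) : ℕ := (P.A ^ J * m ^ 2 * P.A) ^ 2 * P.A

/-- the classes mod `M` with `ξ = 1` -/
def K (M : ℕ) [NeZero M] : Finset (ZMod M)ˣ :=
  (Finset.univ : Finset (ZMod M)ˣ).filter (fun c => P.xi (c : ZMod M).val = 1)

instance (m J : ℕ) [NeZero m] : NeZero (P.MM m J) :=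
  ⟨by have := P.hA; have := NeZero.pos m; unfold MM; positivity⟩

theorem one_lt_of_A_dvd {M : ℕ} (hM0 : M ≠ 0) (hM : P.A ∣ M) : 1 < M := by
  have h4 : 4 ∣ M := P.four_dvd_A.trans hM
  have := Nat.le_of_dvd (Nat.pos_of_ne_zero hM0) h4
  omega

theorem unit_val_coprime {M : ℕ} [NeZero M] (c : (ZMod M)ˣ) : ((c : ZMod M).val).Coprime M := by
  have h : IsUnit ((((c : ZMod M).val : ℕ) : ZMod M)) := by
    rw [ZMod.natCast_zmod_val]; exact c.isUnit
  exact (ZMod.isUnit_iff_coprime _ _).1 h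

theorem unit_val_coprime_A {M : ℕ} [NeZero M] (hM : P.A ∣ M) (c : (ZMod M)ˣ) :
    ((c : ZMod M).val).Coprime P.A :=
  Nat.Coprime.coprime_dvd_right hM (unit_val_coprime c)

theorem unit_val_ne_zero {M : ℕ} [NeZero M] (hM : P.A ∣ M) (c : (ZMod M)ˣ) :
    (c : ZMod M).val ≠ 0 := by
  intro h
  have h1 := unit_val_coprime c
  rw [h, Nat.coprime_zero_left] at h1
  exact absurd h1 (P.one_lt_of_A_dvd (NeZero.ne M) hM).ne'

theorem xi_unit_mul {M : ℕ} [NeZero M] (hM : P.A ∣ M) (c d : (ZMod M)ˣ) :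
    P.xi ((c * d : (ZMod M)ˣ) : ZMod M).val = P.xi (c : ZMod M).val * P.xi (d : ZMod M).val := by
  rw [← P.xi_mul (P.unit_val_ne_zero hM c) (P.unit_val_ne_zero hM d)]
  apply P.xi_mod_A (P.unit_val_coprime_A hM (c * d))
  refine Nat.ModEq.of_dvd hM ?_
  rw [Units.val_mul, ZMod.val_mul]
  exact Nat.mod_modEq _ _

/-- ROW A2.  `ξ` is a character of `(ℤ/M)ˣ` with values `±1`, so its kernel has index at most 2:
if `c₀` is a class with `ξ(c₀) = -1` then `c ↦ c₀ c` maps the complement of the kernel into the kernel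
(use `xi_mul`, `xi_mod`; all units mod `M` are coprime to `A ∣ M`). -/
theorem card_K (M : ℕ) [NeZero M] (hM : P.A ∣ M) : M.totient ≤ 2 * (P.K M).card := by
  classical
  have hcard : (Finset.univ : Finset (ZMod M)ˣ).card = M.totient := by
    rw [Finset.card_univ, ZMod.card_units_eq_totient]
  have hsplit := Finset.card_filter_add_card_filter_not (s := (Finset.univ : Finset (ZMod M)ˣ))
    (fun c => P.xi (c : ZMod M).val = 1)
  set K' : Finset (ZMod M)ˣ := (Finset.univ : Finset (ZMod M)ˣ).filter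
    (fun c => ¬ P.xi (c : ZMod M).val = 1) with hK'
  have hle : K'.card ≤ (P.K M).card := by
    by_cases hne : K'.Nonempty
    · obtain ⟨c0, hc0⟩ := hne
      have hneg : ∀ c ∈ K', P.xi (c : ZMod M).val = -1 := by
        intro c hc
        rw [hK', Finset.mem_filter] at hc
        exact (P.xi_eq_or (P.unit_val_coprime_A hM c)).resolve_left hc.2
      refine Finset.card_le_card_of_injOn (fun c => c0 * c) ?_ ?_
      · intro c hc
        show c0 * c ∈ P.K M
        unfold K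
        rw [Finset.mem_filter]
        refine ⟨Finset.mem_univ _, ?_⟩
        rw [P.xi_unit_mul hM, hneg c0 hc0, hneg c hc]
        norm_num
      · intro c _ d _ h
        exact mul_left_cancel h
    · rw [Finset.not_nonempty_iff_eq_empty] at hne
      rw [hne]; simp
  have hKdef : (P.K M).card = ((Finset.univ : Finset (ZMod M)ˣ).filter
    (fun c : (ZMod M)ˣ => P.xi (c : ZMod M).val = 1)).card := rfl
  omega

/-- ROW A2.  The class of a prime (more generally of any `E` coprime to `M` with `ξ(E) = 1`) lies in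
the kernel. -/
theorem mem_K (M : ℕ) [NeZero M] (hM : P.A ∣ M) {E : ℕ} (hE0 : 0 < E) (hE : E.Coprime M)
    (hxi : P.xi E = 1) : ZMod.unitOfCoprime E hE ∈ P.K M := by
  unfold K
  rw [Finset.mem_filter]
  refine ⟨Finset.mem_univ _, ?_⟩
  rw [← hxi]
  apply P.xi_mod_A (P.unit_val_coprime_A hM _)
  refine Nat.ModEq.of_dvd hM ?_
  rw [ZMod.coe_unitOfCoprime, ZMod.val_natCast]
  exact Nat.mod_modEq _ _

/-- ROW A2.  A prime `p` with `ξ(p) = 1`, `p ∤ mA`, has a root of `Q(·,m)`. -/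
theorem exists_root {p m : ℕ} (hp : p.Prime) (hpm : ¬ p ∣ m * P.A) (hxi : P.xi p = 1) :
    ∃ ρ, ρ < p ∧ p ∣ P.Q ρ m := by
  have : Fact p.Prime := ⟨hp⟩
  have hpint : Prime (p : ℤ) := Nat.prime_iff_prime_int.mp hp
  have hpA : ¬ p ∣ P.A := fun h => hpm (h.mul_left _)
  have hp2 : (2 : ZMod p) ≠ 0 := by
    intro h
    have h1 : ((2 : ℕ) : ZMod p) = 0 := by exact_mod_cast h
    rw [ZMod.natCast_eq_zero_iff] at h1
    exact hpA (h1.trans P.two_dvd_A)
  have hpD : ((P.Δ : ℤ) : ZMod p) ≠ 0 := by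
    rw [Ne, ZMod.intCast_zmod_eq_zero_iff_dvd]
    intro h
    have h1 : (p : ℤ) ∣ (P.A : ℤ) := (h.mul_left 4).trans P.hdA
    exact hpA (by exact_mod_cast h1)
  unfold xi at hxi
  rw [← jacobiSym.legendreSym.to_jacobiSym, legendreSym.eq_one_iff _ hpD] at hxi
  obtain ⟨y, hy⟩ := hxi
  set r : ZMod p := (-(P.B : ZMod p) * m + m * P.N * y) / 2 with hr
  have h2r : 2 * r = -(P.B : ZMod p) * m + m * P.N * y := by
    rw [hr]; field_simp
  have hdisc : ((P.B : ZMod p)) ^ 2 - 4 * P.A = (P.N : ZMod p) ^ 2 * (y * y) := by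
    have h := congrArg (fun z : ℤ => (z : ZMod p)) P.hD
    push_cast at h
    rw [h, hy]
  have h4 : (2 : ZMod p) ^ 2 * (r ^ 2 + P.B * r * m + P.A * m ^ 2) = 0 := by
    have e1 : (2 : ZMod p) ^ 2 * (r ^ 2 + P.B * r * m + P.A * m ^ 2)
        = (2 * r + P.B * m) ^ 2 - m ^ 2 * ((P.B : ZMod p) ^ 2 - 4 * P.A) := by ring
    rw [e1, h2r, hdisc]; ring
  have h5 : r ^ 2 + P.B * r * m + P.A * m ^ 2 = 0 :=
    (mul_eq_zero.1 h4).resolve_left (pow_ne_zero 2 hp2)
  refine ⟨r.val, ZMod.val_lt r, ?_⟩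
  rw [← ZMod.natCast_eq_zero_iff]
  unfold Q
  push_cast
  rw [ZMod.natCast_zmod_val]
  exact h5

end Par

end Pool.Agent.Lib.MP_648c71_nt.Qap
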