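import Pool.Agent.Lib.MP_648c71_nt.Qap.A2

/-! ROW A3: the dichotomy -/

set_option autoImplicit false

namespace Pool.Agent.Lib.MP_648c71_nt.Qap

open Finset

namespace Par

variable (P : Par)

/-- membership in the kernel through any representative -/
private theorem mem_K_iff {M : ℕ} [NeZero M] (hM : P.A ∣ M) {E : ℕ} (hE : E.Coprime P.A)
    (w : (ZMod M)ˣ) (h : (w : ZMod M) = (E : ZMod M)) : w ∈ P.K M ↔ P.xi E = 1 := by
  unfold K
  simp only [mem_filter, mem_univ, true_and]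
  have h1 : (w : ZMod M).val ≡ E [MOD M] := by
    rw [h, ZMod.val_natCast]
    exact Nat.mod_modEq _ _
  rw [← P.xi_mod_A hE (h1.of_dvd hM).symm]

private theorem val_coprime {M : ℕ} [NeZero M] (hM : P.A ∣ M) (w : (ZMod M)ˣ) :
    ((w : ZMod M).val).Coprime P.A :=
  Nat.Coprime.coprime_dvd_right hM (ZMod.val_coe_unit_coprime w)

private theorem one_lt_A : 1 < P.A := by
  have h1 := P.hA
  have h2 := Nat.le_of_dvd h1 P.two_dvd_A
  omega

private theorem ne_zero_of_coprime {x : ℕ} (h : x.Coprime P.A) : x ≠ 0 := by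
  rintro rfl
  have := P.one_lt_A
  simp at h
  omega

private theorem mul_mem_K {M : ℕ} [NeZero M] (hM : P.A ∣ M) {a b : (ZMod M)ˣ} (ha : a ∈ P.K M)
    (hb : b ∈ P.K M) : a * b ∈ P.K M := by
  have hva := P.val_coprime hM a
  have hvb := P.val_coprime hM b
  rw [P.mem_K_iff hM hva a (by rw [ZMod.natCast_val, ZMod.cast_id])] at ha
  rw [P.mem_K_iff hM hvb b (by rw [ZMod.natCast_val, ZMod.cast_id])] at hb
  rw [P.mem_K_iff hM (Nat.Coprime.mul_left hva hvb) (a * b) (by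
    push_cast; rw [ZMod.natCast_val, ZMod.cast_id, ZMod.natCast_val, ZMod.cast_id])]
  rw [P.xi_mul (P.ne_zero_of_coprime hva) (P.ne_zero_of_coprime hvb), ha, hb, one_mul]

private theorem inv_mem_K {M : ℕ} [NeZero M] (hM : P.A ∣ M) {a : (ZMod M)ˣ} (ha : a ∈ P.K M) :
    a⁻¹ ∈ P.K M := by
  have hva := P.val_coprime hM a
  have hvb := P.val_coprime hM a⁻¹
  have h1 : (a * a⁻¹) ∈ P.K M := by
    rw [mul_inv_cancel]
    rw [P.mem_K_iff hM (E := 1) (Nat.coprime_one_left _) 1 (by push_cast; rfl)]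
    exact P.xi_one
  rw [P.mem_K_iff hM (Nat.Coprime.mul_left hva hvb) (a * a⁻¹) (by
    push_cast; rw [ZMod.natCast_val, ZMod.cast_id, ZMod.natCast_val, ZMod.cast_id])] at h1
  rw [P.xi_mul (P.ne_zero_of_coprime hva) (P.ne_zero_of_coprime hvb)] at h1
  rw [P.mem_K_iff hM hva a (by rw [ZMod.natCast_val, ZMod.cast_id])] at ha
  rw [P.mem_K_iff hM hvb a⁻¹ (by rw [ZMod.natCast_val, ZMod.cast_id])]
  rw [ha, one_mul] at h1
  exact h1

/-- two subsets of more than half of `K` represent every class of `K` -/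
private theorem meet {M : ℕ} [NeZero M] (hM : P.A ∣ M) {R1 R2 : Finset (ZMod M)ˣ}
    (h1 : R1 ⊆ P.K M) (h2 : R2 ⊆ P.K M) (c1 : (P.K M).card < 2 * R1.card)
    (c2 : (P.K M).card < 2 * R2.card) {c : (ZMod M)ˣ} (hc : c ∈ P.K M) :
    ∃ r1 ∈ R1, ∃ r2 ∈ R2, r1 * r2 = c := by
  classical
  set R2' := R2.image (fun r => c * r⁻¹) with hR2'
  have hcard : R2'.card = R2.card := by
    apply card_image_of_injective
    intro a b hab
    simpa using hab
  have hsub : R2' ⊆ P.K M := by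
    intro y hy
    rw [hR2', mem_image] at hy
    obtain ⟨r, hr, rfl⟩ := hy
    exact P.mul_mem_K hM hc (P.inv_mem_K hM (h2 hr))
  have hnd : ¬ Disjoint R1 R2' := by
    intro hd
    have h3 := card_union_of_disjoint hd
    have h4 := card_le_card (union_subset h1 hsub)
    omega
  rw [not_disjoint_iff] at hnd
  obtain ⟨y, hy1, hy2⟩ := hnd
  rw [hR2', mem_image] at hy2
  obtain ⟨r, hr, hry⟩ := hy2
  refine ⟨y, hy1, r, hr, ?_⟩
  rw [← hry]
  simp

private theorem coprime_MM {m J E : ℕ} (h : E.Coprime (m * P.A)) : E.Coprime (P.MM m J) := by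
  have hm : E.Coprime m := Nat.Coprime.coprime_mul_right_right h
  have hA : E.Coprime P.A := Nat.Coprime.coprime_mul_left_right h
  unfold MM
  exact Nat.Coprime.mul_right (Nat.Coprime.pow_right _ (Nat.Coprime.mul_right
    (Nat.Coprime.mul_right (Nat.Coprime.pow_right _ hA) (Nat.Coprime.pow_right _ hm)) hA)) hA

private theorem dvd_sub_of_cast_eq {M a b : ℕ} (h : (a : ZMod M) = (b : ZMod M)) (hba : b ≤ a) :
    M ∣ a - b := by
  rw [ZMod.natCast_eq_natCast_iff] at h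
  exact (Nat.modEq_iff_dvd' hba).mp h.symm

/-- ROW A3.  The dichotomy.  `h = A^i`, `x_h = x + hmA`, `X = sX m h x`, `m''' = h m² A`.
Let `R₁, R₂ ⊆ K` be the sets of classes of primes of `P₁`, `P₂` dividing `Q(x_h,m)` (they lie in `K` by
`xi_of_dvd` and `mem_K`; `gcd(x_h,m) = 1`).  If `|K| < 2|R₁|` and `|K| < 2|R₂|` then for every `c ∈ K` the
sets `R₁` and `c R₂⁻¹` meet (both in `K`), so there are `p₁ ∈ P₁`, `p₂ ∈ P₂` dividing `Q(x_h,m)` with
`p₁ p₂ ≡ c` mod `M`, and `p₁ p₂ ∣ Q(x_h,m)` as `P₁`, `P₂` are disjoint.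
(1) `c = [x_h]`: `E = p₁p₂ ≤ Z ≤ x ≤ x_h`, `m²A ∣ M ∣ x_h - E`; `lemA` gives `l x_h m = 1` or the first
exceptional case.
(2) `c = [Q(x_h,m)] [X]⁻¹` (both are coprime to `M`, whose prime factors all divide `mA`; `ξ(c) = 1`
because `ξ(Q(x_h,m)) = 1` by `xi_of_dvd`): `E₂ = Q(x_h,m)/(p₁p₂)` divides `Q(X,m''')` (`shift_id`),
`E₂ ≡ X` mod `M` so `m'''²A ∣ M ∣ X - E₂`, and `E₂ ≤ Q(x_h,m)/4 ≤ X` since `x_h ≤ 2x`
(`Q(x_h,m) = x_h² + Bmx_h + Am² ≤ 2(x x_h + Bmx + Am²) = 2X`); `lemA` gives `l X m''' = 1` or the second exceptional case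
(`Q(X,m''') = Q(x_h,m) Q(x,m) ≤ E₂ Z Q(x,m)`).
If both `λ`-values are `1` then `l x m = l x_h m * l x m = l X m''' = 1` by `shift_id`, but
`l x m = -1`.  So `2|R_ι| ≤ |K|` for some `ι`; take `W = K \ R_ι`. -/
theorem dich {m J i : ℕ} [NeZero m] (hi : 1 ≤ i) (hiJ : i ≤ J) {x : ℕ} (hx : x ∈ P.S m)
    (Z : ℕ) (P1 P2 : Finset ℕ) (h1 : ∀ p ∈ P1, p.Prime ∧ p.Coprime (P.MM m J))
    (h2 : ∀ p ∈ P2, p.Prime ∧ p.Coprime (P.MM m J)) (h12 : Disjoint P1 P2)
    (hZ : ∀ p ∈ P1, ∀ q ∈ P2, p * q ≤ Z) (hZx : Z ≤ x)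
    (hx1 : P.A ^ i * m * P.A ≤ x) :
    (∃ E, P.XP m (x + P.A ^ i * m * P.A) E ∧
      P.Q (x + P.A ^ i * m * P.A) m ≤ E * P.Q (x + P.A ^ i * m * P.A) m) ∨
    (∃ E, P.XP (P.A ^ i * m ^ 2 * P.A) (P.sX m (P.A ^ i) x) E ∧
      P.Q (P.sX m (P.A ^ i) x) (P.A ^ i * m ^ 2 * P.A) ≤ E * (Z * P.Q x m)) ∨
    ∃ W : Finset (ZMod (P.MM m J))ˣ, W ⊆ P.K (P.MM m J) ∧ (P.K (P.MM m J)).card ≤ 2 * W.card ∧
      ((∀ p ∈ P1, (∃ w ∈ W, (w : ZMod (P.MM m J)) = (p : ZMod (P.MM m J))) →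
          ¬ p ∣ P.Q (x + P.A ^ i * m * P.A) m) ∨
       (∀ p ∈ P2, (∃ w ∈ W, (w : ZMod (P.MM m J)) = (p : ZMod (P.MM m J))) →
          ¬ p ∣ P.Q (x + P.A ^ i * m * P.A) m)) := by
  classical
  have hm : 0 < m := NeZero.pos m
  have hA : 0 < P.A := P.hA
  obtain ⟨hx0, hxc, hxi, hl⟩ := hx
  set M := P.MM m J with hMdef
  set xh := x + P.A ^ i * m * P.A with hxh
  have hAM : P.A ∣ M := by rw [hMdef]; unfold MM; exact dvd_mul_left _ _
  have hmA : m ^ 2 * P.A ∣ M := by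
    rw [hMdef]; unfold MM
    apply mul_dvd_mul_right
    rw [sq (P.A ^ J * m ^ 2 * P.A)]
    exact Dvd.dvd.mul_right (Dvd.dvd.mul_right (dvd_mul_left _ _) _) _
  have hmA3 : (P.A ^ i * m ^ 2 * P.A) ^ 2 * P.A ∣ M := by
    rw [hMdef]; unfold MM
    apply mul_dvd_mul_right
    apply pow_dvd_pow_of_dvd
    apply mul_dvd_mul_right
    apply mul_dvd_mul_right
    exact pow_dvd_pow _ hiJ
  have hxhc : xh.Coprime (m * P.A) := by
    rw [hxh, show P.A ^ i * m * P.A = P.A ^ i * (m * P.A) by ring]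
    simpa using hxc
  have hxhA : xh.Coprime P.A := Nat.Coprime.coprime_mul_left_right hxhc
  have hxhm : xh.Coprime m := Nat.Coprime.coprime_mul_right_right hxhc
  have hxA : x.Coprime P.A := Nat.Coprime.coprime_mul_left_right hxc
  have hxhxi : P.xi xh = 1 := by
    rw [← hxi]
    apply P.xi_mod_A hxhA
    rw [hxh]
    unfold Nat.ModEq
    simp
  have hQh0 : 0 < P.Q xh m := P.Q_pos (Or.inr hm)
  have hQhc : (P.Q xh m).Coprime (m * P.A) := P.Q_coprime hxhc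
  have hQhA : (P.Q xh m).Coprime P.A := Nat.Coprime.coprime_mul_left_right hQhc
  have hXc := P.sX_coprime (h := P.A ^ i) hxc
  set X := P.sX m (P.A ^ i) x with hX
  have hXA : X.Coprime P.A := Nat.Coprime.coprime_mul_left_right hXc
  have hXxi : P.xi X = 1 := P.xi_sX hx0 hxc
  have hQhxi : P.xi (P.Q xh m) = 1 := P.xi_of_dvd hQh0.ne' hQhA hxhm dvd_rfl
  have hshift : P.Q xh m * P.Q x m = P.Q X (P.A ^ i * m ^ 2 * P.A) := P.shift_id m (P.A ^ i) x
  -- the class sets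
  set R1 := (P.K M).filter (fun w : (ZMod M)ˣ => ∃ p ∈ P1, p ∣ P.Q xh m ∧ (w : ZMod M) = (p : ZMod M)) with hR1
  set R2 := (P.K M).filter (fun w : (ZMod M)ˣ => ∃ p ∈ P2, p ∣ P.Q xh m ∧ (w : ZMod M) = (p : ZMod M)) with hR2
  have hR1K : R1 ⊆ P.K M := filter_subset _ _
  have hR2K : R2 ⊆ P.K M := filter_subset _ _
  by_cases hc1 : 2 * R1.card ≤ (P.K M).card
  · right; right
    refine ⟨P.K M \ R1, sdiff_subset, ?_, Or.inl ?_⟩
    · have h5 := card_sdiff_add_card_eq_card hR1K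
      change (P.K M).card ≤ 2 * (P.K M \ R1).card
      omega
    · rintro p hp ⟨w, hw, hwp⟩ hd
      rw [mem_sdiff] at hw
      exact hw.2 (by rw [hR1, mem_filter]; exact ⟨hw.1, p, hp, hd, hwp⟩)
  by_cases hc2 : 2 * R2.card ≤ (P.K M).card
  · right; right
    refine ⟨P.K M \ R2, sdiff_subset, ?_, Or.inr ?_⟩
    · have h5 := card_sdiff_add_card_eq_card hR2K
      change (P.K M).card ≤ 2 * (P.K M \ R2).card
      omega
    · rintro p hp ⟨w, hw, hwp⟩ hd
      rw [mem_sdiff] at hw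
      exact hw.2 (by rw [hR2, mem_filter]; exact ⟨hw.1, p, hp, hd, hwp⟩)
  rw [not_le] at hc1 hc2
  -- products of two primes in a given class
  have key : ∀ c : (ZMod M)ˣ, c ∈ P.K M → ∃ p ∈ P1, ∃ q ∈ P2, p * q ∣ P.Q xh m ∧
      ((p * q : ℕ) : ZMod M) = (c : ZMod M) := by
    intro c hc
    obtain ⟨r1, hr1, r2, hr2, hrr⟩ := P.meet hAM hR1K hR2K hc1 hc2 hc
    rw [hR1, mem_filter] at hr1
    rw [hR2, mem_filter] at hr2
    obtain ⟨_, p, hp, hpd, hpr⟩ := hr1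
    obtain ⟨_, q, hq, hqd, hqr⟩ := hr2
    refine ⟨p, hp, q, hq, ?_, ?_⟩
    · apply Nat.Coprime.mul_dvd_of_dvd_of_dvd _ hpd hqd
      rw [Nat.coprime_primes (h1 p hp).1 (h2 q hq).1]
      rintro rfl
      exact (Finset.disjoint_left.mp h12 hp) hq
    · rw [← hrr]; push_cast; rw [hpr, hqr]
  by_cases hl1 : P.l xh m = 1
  swap
  · -- (1)
    left
    have hcx : xh.Coprime M := P.coprime_MM hxhc
    obtain ⟨p, hp, q, hq, hd, hcl⟩ := key (ZMod.unitOfCoprime xh hcx)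
      ((P.mem_K_iff hAM hxhA _ (ZMod.coe_unitOfCoprime _ _)).mpr hxhxi)
    rw [ZMod.coe_unitOfCoprime] at hcl
    have hE0 : 0 < p * q := Nat.mul_pos (h1 p hp).1.pos (h2 q hq).1.pos
    have hEx : p * q ≤ xh := by
      have := hZ p hp q hq
      omega
    have hmod : m ^ 2 * P.A ∣ xh - p * q := hmA.trans (dvd_sub_of_cast_eq hcl.symm hEx)
    rcases P.lemA hm hxhc hE0 hd hEx hmod with h | h
    · exact absurd h hl1
    · exact ⟨p * q, h, Nat.le_mul_of_pos_left _ hE0⟩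
  · -- (2)
    right; left
    have hcQ : (P.Q xh m).Coprime M := P.coprime_MM hQhc
    have hcX : X.Coprime M := P.coprime_MM hXc
    have hmem : ZMod.unitOfCoprime (P.Q xh m) hcQ * (ZMod.unitOfCoprime X hcX)⁻¹ ∈ P.K M :=
      P.mul_mem_K hAM ((P.mem_K_iff hAM hQhA _ (ZMod.coe_unitOfCoprime _ _)).mpr hQhxi)
        (P.inv_mem_K hAM ((P.mem_K_iff hAM hXA _ (ZMod.coe_unitOfCoprime _ _)).mpr hXxi))
    obtain ⟨p, hp, q, hq, hd, hcl⟩ := key _ hmem
    have hE0 : 0 < p * q := Nat.mul_pos (h1 p hp).1.pos (h2 q hq).1.pos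
    have hpqc : (p * q).Coprime M := Nat.Coprime.mul_left (h1 p hp).2 (h2 q hq).2
    obtain ⟨E2, hE2⟩ := hd
    have hE20 : 0 < E2 := by
      rcases Nat.eq_zero_or_pos E2 with h | h
      · rw [h, mul_zero] at hE2; omega
      · exact h
    have hcl2 : ((p * q : ℕ) : ZMod M) * (X : ZMod M) = ((P.Q xh m : ℕ) : ZMod M) := by
      rw [hcl]
      have h3 : (X : ZMod M) = ((ZMod.unitOfCoprime X hcX : (ZMod M)ˣ) : ZMod M) :=
        (ZMod.coe_unitOfCoprime _ _).symm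
      rw [h3, ← Units.val_mul, inv_mul_cancel_right, ZMod.coe_unitOfCoprime]
    have hXE : (X : ZMod M) = (E2 : ZMod M) := by
      have h3 : ((ZMod.unitOfCoprime (p * q) hpqc : (ZMod M)ˣ) : ZMod M) * (X : ZMod M) =
          ((ZMod.unitOfCoprime (p * q) hpqc : (ZMod M)ˣ) : ZMod M) * (E2 : ZMod M) := by
        rw [ZMod.coe_unitOfCoprime, hcl2, hE2]; push_cast; ring
      exact (Units.mul_right_inj _).mp h3
    have hxh2 : xh ≤ 2 * x := by omega
    have hQle : P.Q xh m ≤ 2 * X := by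
      have e1 : P.Q xh m = xh * xh + P.B * xh * m + P.A * m ^ 2 := by unfold Q; ring
      have e2 : X = x * xh + P.B * m * x + P.A * m ^ 2 := by rw [hX, hxh]; unfold sX; ring
      have i1 : xh * xh ≤ 2 * (x * xh) := by
        rw [← mul_assoc]; exact Nat.mul_le_mul_right _ hxh2
      have i2 : P.B * xh * m ≤ 2 * (P.B * m * x) := by
        have : P.B * xh * m ≤ P.B * (2 * x) * m :=
          Nat.mul_le_mul_right _ (Nat.mul_le_mul_left _ hxh2)
        calc P.B * xh * m ≤ P.B * (2 * x) * m := this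
          _ = 2 * (P.B * m * x) := by ring
      rw [e1, e2]
      generalize xh * xh = t1 at *
      generalize x * xh = t2 at *
      generalize P.B * xh * m = t3 at *
      generalize P.B * m * x = t4 at *
      generalize P.A * m ^ 2 = t5 at *
      omega
    have hpq2 : 2 ≤ p * q := by
      have h7 := (h1 p hp).1.two_le
      have h8 := (h2 q hq).1.pos
      calc 2 = 2 * 1 := rfl
        _ ≤ p * q := Nat.mul_le_mul h7 h8
    have hE2X : E2 ≤ X := by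
      have : 2 * E2 ≤ 2 * X := by
        calc 2 * E2 ≤ p * q * E2 := Nat.mul_le_mul_right _ hpq2
          _ = P.Q xh m := hE2.symm
          _ ≤ 2 * X := hQle
      omega
    have hm3 : 0 < P.A ^ i * m ^ 2 * P.A := by positivity
    have hXm3 : X.Coprime (P.A ^ i * m ^ 2 * P.A * P.A) := by
      have hXm : X.Coprime m := Nat.Coprime.coprime_mul_right_right hXc
      exact Nat.Coprime.mul_right (Nat.Coprime.mul_right (Nat.Coprime.mul_right
        (Nat.Coprime.pow_right _ hXA) (Nat.Coprime.pow_right _ hXm)) hXA) hXA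
    have hE2d : E2 ∣ P.Q X (P.A ^ i * m ^ 2 * P.A) := by
      rw [← hshift, hE2]
      exact Dvd.dvd.mul_right (dvd_mul_left _ _) _
    have hmod : (P.A ^ i * m ^ 2 * P.A) ^ 2 * P.A ∣ X - E2 :=
      hmA3.trans (dvd_sub_of_cast_eq hXE hE2X)
    rcases P.lemA hm3 hXm3 hE20 hE2d hE2X hmod with h | h
    · exfalso
      have h3 : P.l X (P.A ^ i * m ^ 2 * P.A) = P.l xh m * P.l x m := by
        unfold l
        rw [← hshift]
        push_cast
        exact lam_mul _ _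
      rw [h, hl1, hl] at h3
      norm_num at h3
    · refine ⟨E2, h, ?_⟩
      rw [← hshift, hE2]
      calc p * q * E2 * P.Q x m = E2 * ((p * q) * P.Q x m) := by ring
        _ ≤ E2 * (Z * P.Q x m) :=
          Nat.mul_le_mul_left _ (Nat.mul_le_mul_right _ (hZ p hp q hq))

end Par

end Pool.Agent.Lib.MP_648c71_nt.Qap
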