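import Pool.Agent.Lib.MP_648c71_nt.Qap.Basic

/-! ROW A4: exceptional points are rare -/

set_option autoImplicit false

namespace Pool.Agent.Lib.MP_648c71_nt.Qap

open Finset

private theorem tau_bound {ε : ℝ} (hε : 0 < ε) (K : ℕ) : ∃ C : ℝ, 0 < C ∧
    ∀ M q : ℕ, 1 ≤ M → q ≠ 0 → q ≤ K * M ^ 2 → (q.divisors.card : ℝ) ≤ C * (M : ℝ) ^ ε := by
  obtain ⟨k, hk⟩ := exists_nat_gt (2 / ε)
  have hkpos : (0 : ℝ) < k := lt_trans (by positivity) hk
  have hk0 : k ≠ 0 := by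
    intro h
    rw [h] at hkpos
    simp at hkpos
  obtain ⟨C, hC1, hC⟩ := card_divisors_pow_le k
  refine ⟨((C * K + 1 : ℕ) : ℝ) ^ ((1 : ℝ) / k), by positivity, fun M q hM hq hqK => ?_⟩
  have hM' : (1 : ℝ) ≤ M := by exact_mod_cast hM
  have hMpos : (0 : ℝ) < M := by linarith
  have h1 : (q.divisors.card : ℝ) ^ k ≤ ((C * K + 1 : ℕ) : ℝ) * (M : ℝ) ^ 2 := by
    have h2 : q.divisors.card ^ k ≤ (C * K + 1) * M ^ 2 := by
      calc q.divisors.card ^ k ≤ C * q := hC q hq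
        _ ≤ C * (K * M ^ 2) := by gcongr
        _ ≤ (C * K + 1) * M ^ 2 := by nlinarith
    exact_mod_cast h2
  have h3 : (q.divisors.card : ℝ) = ((q.divisors.card : ℝ) ^ k) ^ ((1 : ℝ) / k) := by
    rw [← Real.rpow_natCast, ← Real.rpow_mul (by positivity)]
    rw [mul_one_div_cancel hkpos.ne', Real.rpow_one]
  rw [h3]
  calc ((q.divisors.card : ℝ) ^ k) ^ ((1 : ℝ) / k)
      ≤ (((C * K + 1 : ℕ) : ℝ) * (M : ℝ) ^ 2) ^ ((1 : ℝ) / k) := by
        exact Real.rpow_le_rpow (pow_nonneg (Nat.cast_nonneg _) _) h1 (one_div_nonneg.2 hkpos.le)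
    _ = ((C * K + 1 : ℕ) : ℝ) ^ ((1 : ℝ) / k) * ((M : ℝ) ^ 2) ^ ((1 : ℝ) / k) := by
        rw [Real.mul_rpow (Nat.cast_nonneg _) (by positivity)]
    _ ≤ ((C * K + 1 : ℕ) : ℝ) ^ ((1 : ℝ) / k) * (M : ℝ) ^ ε := by
        gcongr
        rw [← Real.rpow_natCast, ← Real.rpow_mul hMpos.le]
        apply Real.rpow_le_rpow_of_exponent_le hM'
        rw [div_lt_iff₀ hε] at hk
        push_cast
        rw [mul_one_div, div_le_iff₀ hkpos]
        linarith

namespace Par

variable (P : Par)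

/-- ROW A4.  Exceptional points are rare.
Proof.  Let `XP m x E` with witnesses `n, e`, `z = x - E`, and `Q(x,m) ≤ E F`.  Then
`e E = Q(z,m) ≤ Q(x,m) ≤ E F`, so `e ≤ F` and `mAn ≤ z + e ≤ Y + F`, `n ≤ Y + F`.
Case `z = mAn`: `E ∣ Q(mAn,m)`, `x = mAn + E`; so for given `n` there are at most `τ(Q(mAn,m))` such `x`.
Case `z + e = mAn`: `e ∣ Q(z+e,m) = Q(mAn,m)` (`Q(z+e,m) = Q(z,m) + e(2z+e+Bm)`), and `e` determines
`z = mAn - e`, then `E = Q(z,m)/e` (`e > 0`) and `x = z + E`.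
So the count is at most `2 ∑_{n ≤ Y+F, Exc n} τ(Q(mAn,m))` and `τ(k) ≤ C_η k^η`
(`card_divisors_pow_le`, `Lam.lean`), `Q(mAn,m) ≤ C (Y+F)²`. -/
theorem exc_count {δ ε : ℝ} (hδ : 0 ≤ δ) (hε : 0 < ε) (hs : P.Sparse δ) {m : ℕ} (hm : 0 < m) :
    ∃ C : ℝ, 0 < C ∧ ∀ Y F : ℕ, 1 ≤ Y → ∀ s : Finset ℕ,
      (∀ x ∈ s, x ≤ Y ∧ ∃ E, P.XP m x E ∧ P.Q x m ≤ E * F) →
      (s.card : ℝ) ≤ C * ((Y + F : ℕ) : ℝ) ^ (δ + ε) := by
  classical
  obtain ⟨C1, hC1, hT⟩ := hs
  set K : ℕ := (m * P.A) ^ 2 + P.B * (m * P.A) * m + P.A * m ^ 2 with hK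
  obtain ⟨C2, hC2, htau⟩ := tau_bound hε K
  refine ⟨2 * (C1 * C2), by positivity, fun Y F hY s hsx => ?_⟩
  set M : ℕ := Y + F with hM
  have hM1 : 1 ≤ M := by omega
  set T : Finset ℕ := (range (M + 1)).filter (fun n => P.Exc n) with hTdef
  set W : Finset (ℕ × ℕ) := T.biUnion
    (fun n => (P.Q (m * P.A * n) m).divisors.image (fun e => (n, e))) with hW
  have hmA : 0 < m * P.A := Nat.mul_pos hm P.hA
  have hQpos : ∀ z, 0 < P.Q z m := fun z => P.Q_pos (Or.inr hm)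
  -- the covering
  have hcov : s ⊆ W.image (fun t => m * P.A * t.1 + t.2) ∪
      W.image (fun t => m * P.A * t.1 - t.2 + P.Q (m * P.A * t.1 - t.2) m / t.2) := by
    intro x hx
    obtain ⟨hxY, E, ⟨n, e, hE, hEx, heE, hcase⟩, hEF⟩ := hsx x hx
    have heF : e ≤ F := by
      have h1 : e * E ≤ E * F := by
        rw [heE]
        exact (P.Q_mono (Nat.sub_le x E)).trans hEF
      rw [mul_comm] at h1
      exact Nat.le_of_mul_le_mul_left h1 hE
    have hepos : 0 < e := by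
      rcases Nat.eq_zero_or_pos e with h0 | h0
      · rw [h0, zero_mul] at heE
        exact absurd heE (hQpos _).ne
      · exact h0
    rw [mem_union]
    rcases hcase with ⟨hz, hexc⟩ | ⟨hz, hexc⟩
    · left
      rw [mem_image]
      refine ⟨(n, E), ?_, ?_⟩
      · rw [hW, mem_biUnion]
        refine ⟨n, ?_, mem_image.2 ⟨E, ?_, rfl⟩⟩
        · rw [hTdef, mem_filter, mem_range]
          refine ⟨?_, hexc⟩
          have : n ≤ m * P.A * n := Nat.le_mul_of_pos_left _ hmA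
          omega
        · rw [Nat.mem_divisors]
          refine ⟨⟨e, ?_⟩, (hQpos _).ne'⟩
          rw [← hz, ← heE, mul_comm]
      · change m * P.A * n + E = x
        omega
    · right
      rw [mem_image]
      have hze : m * P.A * n - e = x - E := by omega
      refine ⟨(n, e), ?_, ?_⟩
      · rw [hW, mem_biUnion]
        refine ⟨n, ?_, mem_image.2 ⟨e, ?_, rfl⟩⟩
        · rw [hTdef, mem_filter, mem_range]
          refine ⟨?_, hexc⟩
          have : n ≤ m * P.A * n := Nat.le_mul_of_pos_left _ hmA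
          omega
        · rw [Nat.mem_divisors]
          refine ⟨?_, (hQpos _).ne'⟩
          rw [← hz]
          have h2 : P.Q (x - E + e) m = P.Q (x - E) m + e * (2 * (x - E) + e + P.B * m) := by
            unfold Q; ring
          rw [h2, ← heE]
          exact dvd_add (Dvd.intro _ rfl) (Dvd.intro _ rfl)
      · change m * P.A * n - e + P.Q (m * P.A * n - e) m / e = x
        rw [hze, ← heE, Nat.mul_div_cancel_left _ hepos]
        omega
  have hWcard : (W.card : ℝ) ≤ C1 * C2 * ((M : ℕ) : ℝ) ^ (δ + ε) := by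
    have hMpos : (0 : ℝ) < M := by exact_mod_cast hM1
    have h1 : (W.card : ℝ) ≤ ∑ n ∈ T, (C2 * (M : ℝ) ^ ε) := by
      have h2 : W.card ≤ ∑ n ∈ T, (P.Q (m * P.A * n) m).divisors.card := by
        refine (card_biUnion_le).trans (Finset.sum_le_sum fun n _ => card_image_le)
      calc (W.card : ℝ) ≤ ((∑ n ∈ T, (P.Q (m * P.A * n) m).divisors.card : ℕ) : ℝ) := by
            exact_mod_cast h2
        _ = ∑ n ∈ T, ((P.Q (m * P.A * n) m).divisors.card : ℝ) := by push_cast; rfl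
        _ ≤ ∑ n ∈ T, (C2 * (M : ℝ) ^ ε) := by
            apply Finset.sum_le_sum
            intro n hn
            apply htau M _ hM1 (hQpos _).ne'
            have hnM : n ≤ M := by
              rw [hTdef, mem_filter, mem_range] at hn
              omega
            have hnM2 : n * n ≤ M * M := Nat.mul_le_mul hnM hnM
            have hnM3 : n ≤ M * M := hnM.trans (Nat.le_mul_of_pos_left _ hM1)
            have hnM4 : 1 ≤ M * M := Nat.mul_pos hM1 hM1
            unfold Q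
            rw [hK]
            calc (m * P.A * n) ^ 2 + P.B * (m * P.A * n) * m + P.A * m ^ 2
                = (m * P.A) ^ 2 * (n * n) + P.B * (m * P.A) * m * n + P.A * m ^ 2 * 1 := by ring
              _ ≤ (m * P.A) ^ 2 * (M * M) + P.B * (m * P.A) * m * (M * M) +
                  P.A * m ^ 2 * (M * M) := by gcongr
              _ = _ := by ring
    have h3 := hT M hM1
    calc (W.card : ℝ) ≤ ∑ n ∈ T, (C2 * (M : ℝ) ^ ε) := h1
      _ = (T.card : ℝ) * (C2 * (M : ℝ) ^ ε) := by rw [Finset.sum_const, nsmul_eq_mul]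
      _ ≤ (C1 * (M : ℝ) ^ δ) * (C2 * (M : ℝ) ^ ε) := by
          gcongr
      _ = C1 * C2 * ((M : ℝ) ^ δ * (M : ℝ) ^ ε) := by ring
      _ = C1 * C2 * ((M : ℕ) : ℝ) ^ (δ + ε) := by rw [Real.rpow_add hMpos]
  have h4 : s.card ≤ W.card + W.card := by
    refine (card_le_card hcov).trans ((card_union_le _ _).trans ?_)
    exact Nat.add_le_add card_image_le card_image_le
  calc (s.card : ℝ) ≤ (W.card : ℝ) + W.card := by exact_mod_cast h4
    _ ≤ C1 * C2 * ((M : ℕ) : ℝ) ^ (δ + ε) + C1 * C2 * ((M : ℕ) : ℝ) ^ (δ + ε) :=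
        add_le_add hWcard hWcard
    _ = 2 * (C1 * C2) * ((M : ℕ) : ℝ) ^ (δ + ε) := by ring

end Par

end Pool.Agent.Lib.MP_648c71_nt.Qap
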