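import Mathlib

/-! ROW B1: Chebyshev type upper bounds -/

set_option autoImplicit false

namespace Pool.Agent.Lib.MP_648c71_nt.Qap

open Finset

/-- primes in `(2^(b^i), 2^(b^(i+1))]` -/
def blk (b i : ℕ) : Finset ℕ := (Ioc (2 ^ (b ^ i)) (2 ^ (b ^ (i + 1)))).filter Nat.Prime

private theorem dyadic_le (k : ℕ) :
    ∑ n ∈ Ioc (2 ^ k) (2 ^ (k + 1)), ArithmeticFunction.vonMangoldt n / n ≤
      2 * (Real.log 4 + 4) := by
  have hpos : (0 : ℝ) < (2 : ℝ) ^ k := by positivity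
  have h1 : ∑ n ∈ Ioc (2 ^ k) (2 ^ (k + 1)), ArithmeticFunction.vonMangoldt n / n ≤
      ∑ n ∈ Ioc (2 ^ k) (2 ^ (k + 1)), ArithmeticFunction.vonMangoldt n / (2 : ℝ) ^ k := by
    refine sum_le_sum fun n hn => ?_
    rw [mem_Ioc] at hn
    refine div_le_div_of_nonneg_left ArithmeticFunction.vonMangoldt_nonneg hpos ?_
    have : ((2 ^ k : ℕ) : ℝ) ≤ (n : ℝ) := by exact_mod_cast hn.1.le
    simpa using this
  have h2 : ∑ n ∈ Ioc (2 ^ k) (2 ^ (k + 1)), ArithmeticFunction.vonMangoldt n ≤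
      Chebyshev.psi ((2 ^ (k + 1) : ℕ) : ℝ) := by
    rw [Chebyshev.psi, Nat.floor_natCast]
    refine sum_le_sum_of_subset_of_nonneg ?_ (fun _ _ _ => ArithmeticFunction.vonMangoldt_nonneg)
    intro n hn
    rw [mem_Ioc] at hn ⊢
    exact ⟨by omega, hn.2⟩
  have h3 := Chebyshev.psi_le_const_mul_self (x := ((2 ^ (k + 1) : ℕ) : ℝ)) (by positivity)
  have h4 : ((2 ^ (k + 1) : ℕ) : ℝ) = 2 * (2 : ℝ) ^ k := by push_cast; ring
  rw [h4] at h2 h3
  refine h1.trans ?_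
  rw [← sum_div, div_le_iff₀ hpos]
  calc _ ≤ _ := h2
    _ ≤ _ := h3
    _ = _ := by ring

/-- ROW B1.  `∑_{n ≤ 2^k} Λ(n)/n ≤ C k`.
Proof.  Dyadic: `∑_{2^j < n ≤ 2^(j+1)} Λ(n)/n ≤ ψ(2^(j+1))/2^j ≤ C` by `Chebyshev.psi_le_const_mul_self`. -/
theorem sum_vonMangoldt_div_le : ∃ C : ℝ, 0 < C ∧ ∀ k : ℕ, 1 ≤ k →
    ∑ n ∈ Icc 1 (2 ^ k), ArithmeticFunction.vonMangoldt n / n ≤ C * k := by
  have hl : 0 < Real.log 4 := Real.log_pos (by norm_num)
  refine ⟨2 * (Real.log 4 + 4), by positivity, ?_⟩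
  intro k _
  induction k with
  | zero => simp
  | succ k ih =>
    have hle : (2 : ℕ) ^ k ≤ 2 ^ (k + 1) := Nat.pow_le_pow_right (by norm_num) (by omega)
    have hone : 1 ≤ (2 : ℕ) ^ k := Nat.one_le_two_pow
    have hU : Icc 1 (2 ^ (k + 1)) = Icc 1 (2 ^ k) ∪ Ioc (2 ^ k) (2 ^ (k + 1)) := by
      ext n
      simp only [mem_Icc, mem_union, mem_Ioc]
      omega
    have hD : Disjoint (Icc 1 (2 ^ k)) (Ioc (2 ^ k) (2 ^ (k + 1))) := by
      rw [Finset.disjoint_left]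
      intro n hn
      simp only [mem_Icc, mem_Ioc] at hn ⊢
      omega
    rw [hU, sum_union hD]
    have := dyadic_le k
    rcases Nat.eq_zero_or_pos k with rfl | hk
    · simp only [pow_zero, Icc_self, sum_singleton, ArithmeticFunction.vonMangoldt_apply_one] at *
      push_cast
      simp only [zero_div, zero_add, mul_one]
      simpa using this
    · have := ih hk
      push_cast
      linarith [this, dyadic_le k]

/-- ROW B1.  Upper bound for the primes of a block: from `sum_vonMangoldt_div_le`, since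
`Λ(p) = log p ≥ b^i log 2` for `p` in the block. -/
theorem block_upper : ∃ C : ℝ, 0 < C ∧ ∀ b i : ℕ, 2 ≤ b →
    ∑ p ∈ blk b i, (1 : ℝ) / p ≤ C * b := by
  obtain ⟨C, hC, h⟩ := sum_vonMangoldt_div_le
  have hl2 : 0 < Real.log 2 := Real.log_pos (by norm_num)
  refine ⟨C / Real.log 2, by positivity, ?_⟩
  intro b i hb
  have hbi : (0 : ℝ) < (b : ℝ) ^ i := by positivity
  have hk : 1 ≤ b ^ (i + 1) := Nat.one_le_pow _ _ (by omega)
  have h1 : ∑ p ∈ blk b i, (1 : ℝ) / p ≤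
      ∑ p ∈ blk b i, (ArithmeticFunction.vonMangoldt p / p) / ((b : ℝ) ^ i * Real.log 2) := by
    refine sum_le_sum fun p hp => ?_
    rw [blk, mem_filter, mem_Ioc] at hp
    obtain ⟨⟨hp1, hp2⟩, hpp⟩ := hp
    have hp0 : (0 : ℝ) < (p : ℝ) := by exact_mod_cast hpp.pos
    rw [ArithmeticFunction.vonMangoldt_apply_prime hpp, div_div, div_le_div_iff₀ hp0 (by positivity)]
    have hlog : (b : ℝ) ^ i * Real.log 2 ≤ Real.log p := by
      have : ((2 ^ (b ^ i) : ℕ) : ℝ) ≤ (p : ℝ) := by exact_mod_cast hp1.le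
      have h2 := Real.log_le_log (by positivity) this
      rw [Nat.cast_pow, Real.log_pow] at h2
      push_cast at h2
      exact h2
    nlinarith [mul_le_mul_of_nonneg_left hlog hp0.le]
  have h2 : ∑ p ∈ blk b i, ArithmeticFunction.vonMangoldt p / p ≤ C * ((b ^ (i + 1) : ℕ) : ℝ) := by
    refine le_trans ?_ (h (b ^ (i + 1)) hk)
    refine sum_le_sum_of_subset_of_nonneg ?_ (fun n _ _ =>
      div_nonneg ArithmeticFunction.vonMangoldt_nonneg (Nat.cast_nonneg n))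
    intro p hp
    rw [blk, mem_filter, mem_Ioc] at hp
    rw [mem_Icc]
    exact ⟨hp.2.one_le, hp.1.2⟩
  refine h1.trans ?_
  rw [← sum_div, div_le_iff₀ (by positivity)]
  refine h2.trans (le_of_eq ?_)
  push_cast
  field_simp
  ring

end Pool.Agent.Lib.MP_648c71_nt.Qap
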