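import Pool.Agent.Lib.MP_648c71_nt.Qap.B1

/-! ROW B2: primes in residue classes, lower bound over blocks -/

set_option autoImplicit false

namespace Pool.Agent.Lib.MP_648c71_nt.Qap

open Finset

open ArithmeticFunction ArithmeticFunction.vonMangoldt in
private lemma b2_rc_zero {M : ℕ} (W : Finset (ZMod M)ˣ) (n : ℕ)
    (h : ¬ ∃ w ∈ W, (w : ZMod M) = ((n : ℕ) : ZMod M)) :
    ∑ w ∈ W, residueClass (w : ZMod M) n = 0 := by
  refine Finset.sum_eq_zero fun w hw => ?_
  refine Set.indicator_of_notMem ?_ _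
  intro hn
  exact h ⟨w, hw, hn.symm⟩

open ArithmeticFunction ArithmeticFunction.vonMangoldt in
private lemma b2_rc_le {M : ℕ} (W : Finset (ZMod M)ˣ) (n : ℕ) :
    ∑ w ∈ W, residueClass (w : ZMod M) n ≤ ArithmeticFunction.vonMangoldt n := by
  by_cases h : ∃ w ∈ W, (w : ZMod M) = ((n : ℕ) : ZMod M)
  · obtain ⟨w, hw, he⟩ := h
    rw [Finset.sum_eq_single_of_mem w hw]
    · exact residueClass_le _ _
    · intro v hv hne
      refine Set.indicator_of_notMem ?_ _
      intro hn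
      apply hne
      apply Units.ext
      rw [he]; exact hn.symm
  · rw [b2_rc_zero W n h]; exact vonMangoldt_nonneg

private lemma b2_summ {x : ℝ} (hx : 1 < x) :
    Summable fun n : ℕ => ArithmeticFunction.vonMangoldt n / (n : ℝ) ^ x := by
  have h := (ArithmeticFunction.LSeriesSummable_vonMangoldt (s := (x : ℂ))
    (by simpa using hx)).norm
  refine h.congr fun n => ?_
  rw [LSeries.norm_term_eq]
  by_cases hn : n = 0
  · subst hn; simp
  · rw [if_neg hn]
    simp only [Complex.norm_real, Real.norm_eq_abs, Complex.ofReal_re]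
    rw [abs_of_nonneg ArithmeticFunction.vonMangoldt_nonneg]

/-- a dyadic block -/
private lemma b2_dyadic (t : ℕ) (ht : 1 ≤ t) (j : ℕ) :
    ∑ n ∈ Ioc (2 ^ j) (2 ^ (j + 1)), ArithmeticFunction.vonMangoldt n / (n : ℝ) ^ (1 + 1 / (t : ℝ)) ≤
      2 * (Real.log 4 + 4) * ((2 : ℝ) ^ (-(1 / (t : ℝ)))) ^ j := by
  have ht0 : (0 : ℝ) < t := by exact_mod_cast ht
  have hexp : (0 : ℝ) < 1 + 1 / (t : ℝ) := by positivity
  have h2 : ((2 : ℝ) ^ j) ^ (1 + 1 / (t : ℝ)) = 2 ^ j / ((2 : ℝ) ^ (-(1 / (t : ℝ)))) ^ j := by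
    rw [Real.rpow_add (by positivity), Real.rpow_one, ← Real.rpow_natCast ((2 : ℝ) ^ (-(1 / (t : ℝ)))) j,
      ← Real.rpow_mul (by norm_num), neg_mul, Real.rpow_neg (by norm_num), ← Real.rpow_natCast 2 j,
      ← Real.rpow_mul (by norm_num), div_inv_eq_mul, mul_comm (1 / (t : ℝ)) (j : ℝ)]
  have hr : (0 : ℝ) < ((2 : ℝ) ^ (-(1 / (t : ℝ)))) ^ j := by positivity
  calc ∑ n ∈ Ioc (2 ^ j) (2 ^ (j + 1)), ArithmeticFunction.vonMangoldt n / (n : ℝ) ^ (1 + 1 / (t : ℝ))
      ≤ ∑ n ∈ Ioc (2 ^ j) (2 ^ (j + 1)), ArithmeticFunction.vonMangoldt n *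
          (((2 : ℝ) ^ (-(1 / (t : ℝ)))) ^ j / 2 ^ j) := by
        refine Finset.sum_le_sum fun n hn => ?_
        rw [div_eq_mul_inv]
        refine mul_le_mul_of_nonneg_left ?_ ArithmeticFunction.vonMangoldt_nonneg
        have hn1 : (2 : ℝ) ^ j ≤ n := by
          have := (Finset.mem_Ioc.mp hn).1.le
          exact_mod_cast this
        have h3 : ((2 : ℝ) ^ j) ^ (1 + 1 / (t : ℝ)) ≤ (n : ℝ) ^ (1 + 1 / (t : ℝ)) :=
          Real.rpow_le_rpow (by positivity) hn1 hexp.le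
        rw [h2] at h3
        calc ((n : ℝ) ^ (1 + 1 / (t : ℝ)))⁻¹ ≤ (2 ^ j / ((2 : ℝ) ^ (-(1 / (t : ℝ)))) ^ j)⁻¹ :=
              inv_anti₀ (by positivity) h3
          _ = _ := by rw [inv_div]
    _ = (∑ n ∈ Ioc (2 ^ j) (2 ^ (j + 1)), ArithmeticFunction.vonMangoldt n) *
          (((2 : ℝ) ^ (-(1 / (t : ℝ)))) ^ j / 2 ^ j) := by rw [Finset.sum_mul]
    _ ≤ ((Real.log 4 + 4) * 2 ^ (j + 1)) * (((2 : ℝ) ^ (-(1 / (t : ℝ)))) ^ j / 2 ^ j) := by
        refine mul_le_mul_of_nonneg_right ?_ (by positivity)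
        have h4 := Chebyshev.psi_le_const_mul_self (x := (2 : ℝ) ^ (j + 1)) (by positivity)
        refine le_trans ?_ h4
        rw [Chebyshev.psi_eq_sum_Icc]
        have h5 : ⌊(2 : ℝ) ^ (j + 1)⌋₊ = 2 ^ (j + 1) := by
          have := Nat.floor_natCast (R := ℝ) (2 ^ (j + 1))
          push_cast at this
          exact this
        rw [h5]
        refine Finset.sum_le_sum_of_subset_of_nonneg ?_ fun _ _ _ => ArithmeticFunction.vonMangoldt_nonneg
        intro n hn
        simp only [mem_Ioc, mem_Icc] at hn ⊢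
        omega
    _ = 2 * (Real.log 4 + 4) * ((2 : ℝ) ^ (-(1 / (t : ℝ)))) ^ j := by
        rw [pow_succ]; field_simp

private lemma b2_r (t : ℕ) (ht : 1 ≤ t) :
    (2 : ℝ) ^ (-(1 / (t : ℝ))) ≤ 1 - 1 / (2 * t) := by
  have ht0 : (0 : ℝ) < t := by exact_mod_cast ht
  -- 2^(-u) ≤ 1 - u/2 for u in [0,1], by convexity
  have hu0 : (0 : ℝ) ≤ 1 / (t : ℝ) := by positivity
  have hu1 : 1 / (t : ℝ) ≤ 1 := by
    rw [div_le_one ht0]; exact_mod_cast ht
  have hconv : ConvexOn ℝ Set.univ (fun y : ℝ => (2 : ℝ) ^ y) := by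
    have h := convexOn_exp.comp_linearMap (Real.log 2 • (LinearMap.id : ℝ →ₗ[ℝ] ℝ))
    refine (h.congr ?_)
    intro y _
    simp [Real.rpow_def_of_pos]
  have h := hconv.2 (Set.mem_univ (-1 : ℝ)) (Set.mem_univ (0 : ℝ)) hu0
    (show (0 : ℝ) ≤ 1 - 1 / (t : ℝ) by linarith) (by ring)
  simp only [smul_eq_mul, mul_neg, mul_one, mul_zero, add_zero, Real.rpow_zero] at h
  refine h.trans ?_
  have h1 : (2 : ℝ) ^ (-1 : ℝ) = 1 / 2 := by
    rw [Real.rpow_neg_one]; norm_num
  rw [h1]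
  have : 1 / (2 * (t : ℝ)) = 1 / t * (1 / 2) := by field_simp
  rw [this]; linarith

private lemma b2_tail (t : ℕ) (ht : 1 ≤ t) (K : ℕ) :
    ∑' n : ℕ, (if 2 ^ (K * t) < n then
      ArithmeticFunction.vonMangoldt n / (n : ℝ) ^ (1 + 1 / (t : ℝ)) else 0) ≤
      4 * (Real.log 4 + 4) * t * (1 / 2) ^ K := by
  have ht0 : (0 : ℝ) < t := by exact_mod_cast ht
  set r : ℝ := (2 : ℝ) ^ (-(1 / (t : ℝ))) with hr
  set D : ℝ := 2 * (Real.log 4 + 4) with hD
  have hlog : 0 ≤ Real.log 4 := Real.log_nonneg (by norm_num)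
  have hD0 : 0 ≤ D := by positivity
  have hr0 : 0 < r := by positivity
  have hr1 : r ≤ 1 - 1 / (2 * t) := b2_r t ht
  have h1r : 0 < 1 - r := by
    have : 0 < 1 / (2 * (t : ℝ)) := by positivity
    linarith
  have hrt : r ^ (K * t) = (1 / 2) ^ K := by
    rw [mul_comm, pow_mul]
    congr 1
    rw [hr, ← Real.rpow_natCast, ← Real.rpow_mul (by norm_num)]
    have : -(1 / (t : ℝ)) * t = -1 := by field_simp
    rw [this, Real.rpow_neg_one]; norm_num
  have key : ∀ m : ℕ, ∑ n ∈ Ioc (2 ^ (K * t)) (2 ^ (K * t + m)),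
      ArithmeticFunction.vonMangoldt n / (n : ℝ) ^ (1 + 1 / (t : ℝ)) + D * r ^ (K * t + m) / (1 - r) ≤
      D * r ^ (K * t) / (1 - r) := by
    intro m
    induction m with
    | zero => simp
    | succ m ih =>
      have hsplit : Ioc (2 ^ (K * t)) (2 ^ (K * t + (m + 1))) =
          Ioc (2 ^ (K * t)) (2 ^ (K * t + m)) ∪ Ioc (2 ^ (K * t + m)) (2 ^ (K * t + m + 1)) := by
        rw [Finset.Ioc_union_Ioc_eq_Ioc]
        · rfl
        · exact Nat.pow_le_pow_right (by norm_num) (by omega)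
        · exact Nat.pow_le_pow_right (by norm_num) (by omega)
      have hdisj : Disjoint (Ioc (2 ^ (K * t)) (2 ^ (K * t + m)))
          (Ioc (2 ^ (K * t + m)) (2 ^ (K * t + m + 1))) := by
        rw [Finset.disjoint_left]
        intro n h1 h2
        simp only [mem_Ioc] at h1 h2
        omega
      rw [hsplit, Finset.sum_union hdisj]
      have h3 := b2_dyadic t ht (K * t + m)
      rw [← hr, ← hD] at h3
      have h4 : D * r ^ (K * t + m) / (1 - r) =
          D * r ^ (K * t + m) + D * r ^ (K * t + (m + 1)) / (1 - r) := by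
        field_simp
        ring
      linarith
  refine (Real.tsum_le_of_sum_range_le (c := D * r ^ (K * t) / (1 - r)) ?_ ?_).trans ?_
  · intro n
    split_ifs
    · have := @ArithmeticFunction.vonMangoldt_nonneg n
      positivity
    · exact le_rfl
  · intro N
    have h1 : ∑ n ∈ range N, (if 2 ^ (K * t) < n then
        ArithmeticFunction.vonMangoldt n / (n : ℝ) ^ (1 + 1 / (t : ℝ)) else 0) ≤
        ∑ n ∈ Ioc (2 ^ (K * t)) (2 ^ (K * t + N)),
          ArithmeticFunction.vonMangoldt n / (n : ℝ) ^ (1 + 1 / (t : ℝ)) := by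
      rw [← Finset.sum_filter]
      refine Finset.sum_le_sum_of_subset_of_nonneg ?_ fun n _ _ => ?_
      · intro n hn
        simp only [mem_filter, mem_range, mem_Ioc] at hn ⊢
        refine ⟨hn.2, hn.1.le.trans ?_⟩
        exact (Nat.lt_two_pow_self).le.trans (Nat.pow_le_pow_right (by norm_num) (by omega))
      · have := @ArithmeticFunction.vonMangoldt_nonneg n
        positivity
    have h2 := key N
    have h3 : 0 ≤ D * r ^ (K * t + N) / (1 - r) := by positivity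
    linarith
  · rw [hrt, div_le_iff₀ h1r]
    have h5 : 1 ≤ 2 * t * (1 - r) := by
      have : 1 / (2 * (t : ℝ)) ≤ 1 - r := by linarith
      calc (1 : ℝ) = 2 * t * (1 / (2 * t)) := by field_simp
        _ ≤ 2 * t * (1 - r) := by gcongr
    have h6 : 0 ≤ D * (1 / 2) ^ K := by positivity
    calc D * (1 / 2) ^ K = D * (1 / 2) ^ K * 1 := by ring
      _ ≤ D * (1 / 2) ^ K * (2 * t * (1 - r)) := by gcongr
      _ = _ := by rw [hD]; ring

open ArithmeticFunction ArithmeticFunction.vonMangoldt in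
private lemma b2_main (M : ℕ) [NeZero M] : ∃ C : ℝ, 0 ≤ C ∧ ∀ (W : Finset (ZMod M)ˣ) (C₁ : ℝ)
    (_ : ∀ k : ℕ, 1 ≤ k → ∑ n ∈ Icc 1 (2 ^ k), ArithmeticFunction.vonMangoldt n / n ≤ C₁ * k)
    (k t K b i : ℕ) (_ : 1 ≤ k) (_ : 1 ≤ t) (_ : b ^ i = k) (_ : b ^ (i + 1) = K * t),
    (W.card : ℝ) / M.totient * t ≤ C + C₁ * k + 4 * (Real.log 4 + 4) * t * (1 / 2) ^ K +
      ∑ p ∈ (blk b i).filter (fun p => ∃ w ∈ W, (w : ZMod M) = ((p : ℕ) : ZMod M)),
        ArithmeticFunction.vonMangoldt p / p := by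
  classical
  choose C hC using fun u : (ZMod M)ˣ => LSeries_residueClass_lower_bound (q := M) u.isUnit
  have hnpnn : ∀ (u : (ZMod M)ˣ) (n : ℕ),
      0 ≤ (if n.Prime then 0 else residueClass (u : ZMod M) n) / (n : ℝ) := by
    intro u n
    have := residueClass_nonneg (u : ZMod M) n
    split_ifs <;> positivity
  refine ⟨∑ u : (ZMod M)ˣ, (|C u| + ∑' n : ℕ, (if n.Prime then 0 else residueClass (u : ZMod M) n) / n),
    Finset.sum_nonneg fun u _ => add_nonneg (abs_nonneg _) (tsum_nonneg (hnpnn u)), ?_⟩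
  intro W C₁ hC₁ k t K b i hk ht hbk hbK
  have ht0 : (0 : ℝ) < t := by exact_mod_cast ht
  set x : ℝ := 1 + 1 / (t : ℝ) with hx
  have hx1 : 1 < x := by
    have : 0 < 1 / (t : ℝ) := by positivity
    rw [hx]; linarith
  have hx2 : x ∈ Set.Ioc (1 : ℝ) 2 := by
    refine ⟨hx1, ?_⟩
    have : 1 / (t : ℝ) ≤ 1 := by rw [div_le_one ht0]; exact_mod_cast ht
    rw [hx]; linarith
  have hsW : ∀ w ∈ W, Summable fun n : ℕ => residueClass (w : ZMod M) n / (n : ℝ) ^ x := by
    intro w _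
    refine Summable.of_nonneg_of_le (fun n => ?_) (fun n => ?_) (b2_summ hx1)
    · have := residueClass_nonneg (w : ZMod M) n
      positivity
    · exact div_le_div_of_nonneg_right (residueClass_le _ _) (by positivity)
  -- lower bound
  have hlow : (W.card : ℝ) / M.totient * t ≤ (∑ u : (ZMod M)ˣ, |C u|) +
      ∑' n : ℕ, ∑ w ∈ W, residueClass (w : ZMod M) n / (n : ℝ) ^ x := by
    rw [Summable.tsum_finsetSum hsW]
    have h1 : ∀ w ∈ W, (M.totient : ℝ)⁻¹ * t ≤ |C w| +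
        ∑' n : ℕ, residueClass (w : ZMod M) n / (n : ℝ) ^ x := by
      intro w _
      have h := hC w hx2
      have hxx : (M.totient : ℝ)⁻¹ / (x - 1) = (M.totient : ℝ)⁻¹ * t := by
        rw [hx]; simp
      rw [hxx] at h
      have := le_abs_self (C w)
      linarith
    have h2 := Finset.sum_le_sum h1
    rw [Finset.sum_const, nsmul_eq_mul, Finset.sum_add_distrib] at h2
    have h3 : ∑ w ∈ W, |C w| ≤ ∑ u : (ZMod M)ˣ, |C u| :=
      Finset.sum_le_sum_of_subset_of_nonneg (Finset.subset_univ _) fun _ _ _ => abs_nonneg _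
    calc (W.card : ℝ) / M.totient * t = W.card * ((M.totient : ℝ)⁻¹ * t) := by
          rw [div_eq_mul_inv]; ring
      _ ≤ _ := by linarith
  -- the four pieces
  set A : Finset ℕ := (blk b i).filter (fun p => ∃ w ∈ W, (w : ZMod M) = ((p : ℕ) : ZMod M)) with hA
  let F1 : ℕ → ℝ := fun n => if n ∈ Icc 1 (2 ^ k) then ArithmeticFunction.vonMangoldt n / n else 0
  let F2 : ℕ → ℝ := fun n => ∑ w ∈ W, (if n.Prime then 0 else residueClass (w : ZMod M) n) / n
  let F3 : ℕ → ℝ := fun n => if 2 ^ (K * t) < n then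
      ArithmeticFunction.vonMangoldt n / (n : ℝ) ^ x else 0
  let F4 : ℕ → ℝ := fun n => if n ∈ A then ArithmeticFunction.vonMangoldt n / n else 0
  have hΛ : ∀ n : ℕ, 0 ≤ ArithmeticFunction.vonMangoldt n := fun n => vonMangoldt_nonneg
  have hF1 : ∀ n, 0 ≤ F1 n := by
    intro n
    have := hΛ n
    simp only [F1]; split_ifs <;> positivity
  have hF2 : ∀ n, 0 ≤ F2 n := fun n => Finset.sum_nonneg fun w _ => hnpnn w n
  have hF3 : ∀ n, 0 ≤ F3 n := by
    intro n
    have := hΛ n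
    simp only [F3]; split_ifs <;> positivity
  have hF4 : ∀ n, 0 ≤ F4 n := by
    intro n
    have := hΛ n
    simp only [F4]; split_ifs <;> positivity
  have hs1 : Summable F1 := summable_of_ne_finset_zero (s := Icc 1 (2 ^ k)) fun n hn => by
    simp only [F1]; rw [if_neg hn]
  have hs4 : Summable F4 := summable_of_ne_finset_zero (s := A) fun n hn => by
    simp only [F4]; rw [if_neg hn]
  have hs2 : Summable F2 := by
    refine summable_sum fun w _ => ?_
    exact summable_residueClass_non_primes_div (w : ZMod M)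
  have hs3 : Summable F3 := by
    refine Summable.of_nonneg_of_le hF3 (fun n => ?_) (b2_summ hx1)
    have := hΛ n
    simp only [F3]; split_ifs
    · exact le_rfl
    · positivity
  have hpt : ∀ n : ℕ, ∑ w ∈ W, residueClass (w : ZMod M) n / (n : ℝ) ^ x ≤ F1 n + F2 n + F3 n + F4 n := by
    intro n
    have e1 := hF1 n
    have e2 := hF2 n
    have e3 := hF3 n
    have e4 := hF4 n
    rcases Nat.eq_zero_or_pos n with rfl | hn
    · have : ∑ w ∈ W, residueClass (w : ZMod M) 0 / ((0 : ℕ) : ℝ) ^ x = 0 := by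
        refine Finset.sum_eq_zero fun w _ => ?_
        rw [residueClass_apply_zero, zero_div]
      rw [this]; linarith
    have hn0 : (0 : ℝ) < n := by exact_mod_cast hn
    have hn1 : (1 : ℝ) ≤ n := by exact_mod_cast hn
    have hnx : (n : ℝ) ≤ (n : ℝ) ^ x := by
      calc (n : ℝ) = (n : ℝ) ^ (1 : ℝ) := (Real.rpow_one _).symm
        _ ≤ (n : ℝ) ^ x := Real.rpow_le_rpow_of_exponent_le hn1 hx1.le
    by_cases hp : n.Prime
    · rw [← Finset.sum_div]
      by_cases hw : ∃ w ∈ W, (w : ZMod M) = ((n : ℕ) : ZMod M)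
      · have hle : (∑ w ∈ W, residueClass (w : ZMod M) n) / (n : ℝ) ^ x ≤
            ArithmeticFunction.vonMangoldt n / (n : ℝ) ^ x :=
          div_le_div_of_nonneg_right (b2_rc_le W n) (by positivity)
        have hle2 : ArithmeticFunction.vonMangoldt n / (n : ℝ) ^ x ≤ ArithmeticFunction.vonMangoldt n / n :=
          div_le_div_of_nonneg_left (hΛ n) hn0 hnx
        by_cases h1 : n ≤ 2 ^ k
        · have : F1 n = ArithmeticFunction.vonMangoldt n / n := by
            simp only [F1]; rw [if_pos (Finset.mem_Icc.mpr ⟨hn, h1⟩)]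
          linarith
        · by_cases h2 : 2 ^ (K * t) < n
          · have : F3 n = ArithmeticFunction.vonMangoldt n / (n : ℝ) ^ x := by
              simp only [F3]; rw [if_pos h2]
            linarith
          · have hmem : n ∈ A := by
              rw [hA, Finset.mem_filter, blk, Finset.mem_filter, Finset.mem_Ioc, hbk, hbK]
              exact ⟨⟨⟨not_le.mp h1, not_lt.mp h2⟩, hp⟩, hw⟩
            have : F4 n = ArithmeticFunction.vonMangoldt n / n := by
              simp only [F4]; rw [if_pos hmem]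
            linarith
      · rw [b2_rc_zero W n hw, zero_div]
        linarith
    · have : ∑ w ∈ W, residueClass (w : ZMod M) n / (n : ℝ) ^ x ≤ F2 n := by
        simp only [F2]
        refine Finset.sum_le_sum fun w _ => ?_
        rw [if_neg hp]
        exact div_le_div_of_nonneg_left (residueClass_nonneg _ _) hn0 hnx
      linarith
  have hT : ∑' n : ℕ, ∑ w ∈ W, residueClass (w : ZMod M) n / (n : ℝ) ^ x ≤
      ∑' n, F1 n + ∑' n, F2 n + ∑' n, F3 n + ∑' n, F4 n := by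
    rw [← hs1.tsum_add hs2, ← (hs1.add hs2).tsum_add hs3, ← ((hs1.add hs2).add hs3).tsum_add hs4]
    exact Summable.tsum_le_tsum hpt (summable_sum hsW) (((hs1.add hs2).add hs3).add hs4)
  have hT1 : ∑' n, F1 n ≤ C₁ * k := by
    rw [tsum_eq_sum (s := Icc 1 (2 ^ k)) (fun n hn => by simp only [F1]; rw [if_neg hn])]
    refine le_trans (le_of_eq ?_) (hC₁ k hk)
    refine Finset.sum_congr rfl fun n hn => ?_
    simp only [F1]; rw [if_pos hn]
  have hT4 : ∑' n, F4 n = ∑ p ∈ A, ArithmeticFunction.vonMangoldt p / p := by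
    rw [tsum_eq_sum (s := A) (fun n hn => by simp only [F4]; rw [if_neg hn])]
    refine Finset.sum_congr rfl fun n hn => ?_
    simp only [F4]; rw [if_pos hn]
  have hT2 : ∑' n, F2 n ≤ ∑ u : (ZMod M)ˣ, ∑' n : ℕ,
      (if n.Prime then 0 else residueClass (u : ZMod M) n) / n := by
    have : ∑' n, F2 n = ∑ w ∈ W, ∑' n : ℕ,
        (if n.Prime then 0 else residueClass (w : ZMod M) n) / n :=
      Summable.tsum_finsetSum fun w _ => summable_residueClass_non_primes_div (w : ZMod M)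
    rw [this]
    exact Finset.sum_le_sum_of_subset_of_nonneg (Finset.subset_univ _)
      fun u _ _ => tsum_nonneg (hnpnn u)
  have hT3 : ∑' n, F3 n ≤ 4 * (Real.log 4 + 4) * t * (1 / 2) ^ K := b2_tail t ht K
  rw [Finset.sum_add_distrib]
  linarith

/-- ROW B2.  Lower bound with an absolute constant for the primes of a block in a set `W` of residue
classes of density `≥ 1/4`.
Proof.  Put `s = 1 + 1/log T`.  Summing `LSeries_residueClass_lower_bound`
(Mathlib.NumberTheory.LSeries.PrimesInAP) over `W` gives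
`∑_{n mod M ∈ W} Λ(n) n^{-s} ≥ (|W|/φ(M)) log T - C_M ≥ (1/4) log T - C_M`.
The part `n ≤ T^η` is at most `∑_{n ≤ T^η} Λ(n)/n ≤ C₁ η log T + C₁` (B1); the part `n > T^K` is at most
`∑_{j ≥ K log₂T} ∑_{2^j < n ≤ 2^{j+1}} Λ(n) n^{-s} ≤ ∑_{j ≥ K log₂ T} C₂ 2^{-j/log T} ≤ C₃ e^{-K/2} log T`
(Chebyshev); prime powers `p^k`, `k ≥ 2` contribute `O(1)`
(`summable_residueClass_non_primes_div` or directly).  Choose `η` small and `K` large, absolute, so that
`∑_{T^η < p ≤ T^K, p mod M ∈ W} log p/p ≥ (1/8) log T - C_M' ≥ (1/16) log T` for `T ≥ T₀(M)`.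
With `b = ⌈K/η⌉` (an integer), `T^η = 2^(b^i)`, this gives `∑ 1/p ≥ 1/(16 K)` over the block `i`. -/
theorem block_lower : ∃ (b : ℕ) (c : ℝ), 2 ≤ b ∧ 0 < c ∧ ∀ (M : ℕ) [NeZero M], ∃ i₀ : ℕ,
    ∀ i : ℕ, i₀ ≤ i → ∀ W : Finset (ZMod M)ˣ, M.totient ≤ 4 * W.card →
      c ≤ ∑ p ∈ (blk b i).filter (fun p => ∃ w ∈ W, (w : ZMod M) = ((p : ℕ) : ZMod M)), (1 : ℝ) / p := by
  obtain ⟨C₁, hC₁, hB1⟩ := sum_vonMangoldt_div_le
  have hlog4 : 0 ≤ Real.log 4 := Real.log_nonneg (by norm_num)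
  obtain ⟨L, hL⟩ := exists_nat_ge (32 * C₁)
  obtain ⟨K, hK⟩ := exists_pow_lt_of_lt_one (show (0 : ℝ) < 1 / (128 * (Real.log 4 + 4)) by positivity)
    (show (1 / 2 : ℝ) < 1 by norm_num)
  have hL1 : 1 ≤ L := by
    rcases Nat.eq_zero_or_pos L with h | h
    · subst h
      simp at hL
      linarith
    · exact h
  -- K' = K + 2 so that b ≥ 2
  set K' : ℕ := K + 2 with hK'
  have hK'2 : 4 * (Real.log 4 + 4) * (1 / 2) ^ K' ≤ 1 / 32 := by
    have h1 : (1 / 2 : ℝ) ^ K' ≤ (1 / 2) ^ K := by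
      rw [hK']
      exact pow_le_pow_of_le_one (by norm_num) (by norm_num) (by omega)
    have h2 : (1 / 2 : ℝ) ^ K' ≤ 1 / (128 * (Real.log 4 + 4)) := h1.trans hK.le
    calc 4 * (Real.log 4 + 4) * (1 / 2) ^ K' ≤ 4 * (Real.log 4 + 4) * (1 / (128 * (Real.log 4 + 4))) := by
          gcongr
      _ = 1 / 32 := by field_simp; norm_num
  have hL0 : (0 : ℝ) < L := by exact_mod_cast hL1
  have hK'0 : (0 : ℝ) < K' := by rw [hK']; positivity
  refine ⟨K' * L, 1 / (8 * K'), ?_, by positivity, ?_⟩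
  · calc 2 ≤ K' * 1 := by omega
      _ ≤ K' * L := Nat.mul_le_mul_left _ hL1
  intro M _
  obtain ⟨C, hC0, hC⟩ := b2_main M
  obtain ⟨i₀, hi₀⟩ := exists_nat_ge (16 * C)
  refine ⟨i₀, fun i hi W hW => ?_⟩
  set b : ℕ := K' * L with hb
  have hb2 : 2 ≤ b := by
    calc 2 ≤ K' * 1 := by omega
      _ ≤ K' * L := Nat.mul_le_mul_left _ hL1
  have hbi : 1 ≤ b ^ i := Nat.one_le_pow _ _ (by omega)
  set t : ℕ := L * b ^ i with ht
  have ht1 : 1 ≤ t := by
    calc 1 = 1 * 1 := rfl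
      _ ≤ L * b ^ i := Nat.mul_le_mul hL1 hbi
  have ht0 : (0 : ℝ) < t := by exact_mod_cast ht1
  have hbK : b ^ (i + 1) = K' * t := by rw [pow_succ, ht, hb]; ring
  have hmain := hC W C₁ hB1 (b ^ i) t K' b i hbi ht1 rfl hbK
  have hW' : (1 : ℝ) / 4 ≤ (W.card : ℝ) / M.totient := by
    have htot : (0 : ℝ) < M.totient := by
      have := Nat.totient_pos.mpr (Nat.pos_of_ne_zero (NeZero.ne M))
      exact_mod_cast this
    rw [div_le_div_iff₀ (by norm_num) htot]
    have : (M.totient : ℝ) ≤ 4 * W.card := by exact_mod_cast hW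
    linarith
  have h16 : 16 * C ≤ t := by
    have h1 : i < b ^ i := Nat.lt_pow_self (by omega)
    have h2 : (i₀ : ℝ) ≤ t := by
      have : i₀ ≤ t := by
        calc i₀ ≤ i := hi
          _ ≤ b ^ i := h1.le
          _ = 1 * b ^ i := by ring
          _ ≤ L * b ^ i := Nat.mul_le_mul_right _ hL1
      exact_mod_cast this
    linarith
  have hC₁k : C₁ * ((b ^ i : ℕ) : ℝ) ≤ t / 32 := by
    rw [ht]; push_cast
    have hbi0 : (0 : ℝ) ≤ (b : ℝ) ^ i := by positivity
    nlinarith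
  have htail : 4 * (Real.log 4 + 4) * t * (1 / 2) ^ K' ≤ t / 32 := by
    calc 4 * (Real.log 4 + 4) * t * (1 / 2) ^ K' = (4 * (Real.log 4 + 4) * (1 / 2) ^ K') * t := by ring
      _ ≤ 1 / 32 * t := by gcongr
      _ = t / 32 := by ring
  have hlow : (t : ℝ) / 4 ≤ (W.card : ℝ) / M.totient * t := by
    calc (t : ℝ) / 4 = 1 / 4 * t := by ring
      _ ≤ _ := by gcongr
  have hsum : (t : ℝ) / 8 ≤ ∑ p ∈ (blk b i).filter (fun p => ∃ w ∈ W, (w : ZMod M) = ((p : ℕ) : ZMod M)),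
        ArithmeticFunction.vonMangoldt p / p := by linarith
  have hup : ∑ p ∈ (blk b i).filter (fun p => ∃ w ∈ W, (w : ZMod M) = ((p : ℕ) : ZMod M)),
        ArithmeticFunction.vonMangoldt p / p ≤
      (K' * t) * ∑ p ∈ (blk b i).filter (fun p => ∃ w ∈ W, (w : ZMod M) = ((p : ℕ) : ZMod M)), (1 : ℝ) / p := by
    rw [Finset.mul_sum]
    refine Finset.sum_le_sum fun p hp => ?_
    have hp1 := (Finset.mem_filter.mp hp).1
    rw [blk, Finset.mem_filter, Finset.mem_Ioc, hbK] at hp1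
    obtain ⟨⟨_, hple⟩, hpp⟩ := hp1
    have hp0 : (0 : ℝ) < p := by exact_mod_cast hpp.pos
    rw [ArithmeticFunction.vonMangoldt_apply_prime hpp, div_eq_mul_one_div]
    refine mul_le_mul_of_nonneg_right ?_ (by positivity)
    have h1 : (p : ℝ) ≤ 2 ^ (K' * t) := by exact_mod_cast hple
    calc Real.log p ≤ Real.log (2 ^ (K' * t)) := Real.log_le_log hp0 h1
      _ = ((K' * t : ℕ) : ℝ) * Real.log 2 := by rw [Real.log_pow]
      _ ≤ ((K' * t : ℕ) : ℝ) * 1 := by
          gcongr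
          have := Real.log_two_lt_d9
          linarith
      _ = (K' : ℝ) * t := by push_cast; ring
  rw [div_le_iff₀ (by positivity)]
  have h9 := hsum.trans hup
  have h10 : (t : ℝ) * 1 ≤ t * ((∑ p ∈ (blk b i).filter
      (fun p => ∃ w ∈ W, (w : ZMod M) = ((p : ℕ) : ZMod M)), (1 : ℝ) / p) * (8 * K')) := by
    nlinarith
  exact le_of_mul_le_mul_left h10 ht0

end Pool.Agent.Lib.MP_648c71_nt.Qap
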