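import Pool.Agent.Lib.MP_648c71_nt.Qap.Defs

/-!
# Basic facts on `Q`, `ξ`
-/

set_option autoImplicit false

namespace Pool.Agent.Lib.MP_648c71_nt.Qap

open Finset

namespace Par

variable (P : Par)

theorem Q_pos {x y : ℕ} (h : 0 < x ∨ 0 < y) : 0 < P.Q x y := by
  unfold Q
  rcases h with h | h
  · positivity
  · have := P.hA
    positivity

theorem Q_mono {x x' y : ℕ} (h : x ≤ x') : P.Q x y ≤ P.Q x' y := by
  unfold Q; gcongr

theorem Q_cast (x y : ℕ) : ((P.Q x y : ℕ) : ℤ) = nm (⟨(x : ℤ), (y : ℤ)⟩ : O (P.B : ℤ) (P.A : ℤ)) := by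
  simp only [Q, nm]; push_cast; ring

theorem l_eq_hh (x y : ℕ) : P.l x y = hh (⟨(x : ℤ), (y : ℤ)⟩ : O (P.B : ℤ) (P.A : ℤ)) := by
  rw [l, hh, Q_cast]

theorem l_eq_or {x y : ℕ} (h : 0 < x ∨ 0 < y) : P.l x y = 1 ∨ P.l x y = -1 := by
  apply lam_eq_one_or
  have := P.Q_pos h
  exact_mod_cast this.ne'

theorem delta_ne_zero : P.Δ ≠ 0 := by
  intro h
  exact P.hsq ⟨0, by rw [h]; norm_num⟩

theorem two_dvd_A : 2 ∣ P.A := by
  have h : (2 : ℤ) ∣ (P.A : ℤ) := Dvd.dvd.trans ⟨2 * P.Δ, by ring⟩ P.hdA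
  exact_mod_cast h

theorem four_dvd_A : 4 ∣ P.A := by
  have h : (4 : ℤ) ∣ (P.A : ℤ) := Dvd.dvd.trans ⟨P.Δ, by ring⟩ P.hdA
  exact_mod_cast h

theorem odd_of_coprime {x : ℕ} (h : x.Coprime P.A) : Odd x := by
  rw [← Nat.not_even_iff_odd]
  intro he
  have h2 : 2 ∣ x := he.two_dvd
  have := Nat.dvd_gcd h2 P.two_dvd_A
  rw [h] at this
  norm_num at this

theorem four_delta_dvd : 4 * P.Δ.natAbs ∣ P.A := by
  have h := Int.natAbs_dvd_natAbs.mpr P.hdA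
  simpa [Int.natAbs_mul] using h

theorem xi_mul {x y : ℕ} (hx : x ≠ 0) (hy : y ≠ 0) : P.xi (x * y) = P.xi x * P.xi y := by
  have : NeZero x := ⟨hx⟩
  have : NeZero y := ⟨hy⟩
  exact jacobiSym.mul_right _ _ _

theorem xi_mod {x y : ℕ} (hx : x.Coprime P.A) (h : x ≡ y [MOD 4 * P.Δ.natAbs]) : P.xi x = P.xi y := by
  have hxo := P.odd_of_coprime hx
  have hyo : Odd y := by
    have h2 : x ≡ y [MOD 2] := h.of_dvd ⟨2 * P.Δ.natAbs, by ring⟩
    rw [Nat.odd_iff] at hxo ⊢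
    rw [← hxo]; exact h2.symm
  unfold xi
  rw [jacobiSym.mod_right _ hxo, jacobiSym.mod_right _ hyo]
  have h' : x % (4 * P.Δ.natAbs) = y % (4 * P.Δ.natAbs) := h
  rw [h']

theorem xi_mod_A {x y : ℕ} (hx : x.Coprime P.A) (h : x ≡ y [MOD P.A]) : P.xi x = P.xi y :=
  P.xi_mod hx (h.of_dvd P.four_delta_dvd)

theorem xi_one : P.xi 1 = 1 := by unfold xi; exact jacobiSym.one_right _

theorem xi_eq_or {x : ℕ} (hx : x.Coprime P.A) : P.xi x = 1 ∨ P.xi x = -1 := by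
  apply jacobiSym.eq_one_or_neg_one
  have h1 : Nat.Coprime x P.Δ.natAbs :=
    Nat.Coprime.coprime_dvd_right ((Dvd.intro_left 4 rfl).trans P.four_delta_dvd) hx
  rw [Int.gcd_comm]
  simpa [Int.gcd] using h1

/-- multiplication by a perfect square -/
theorem xi_sq {x : ℕ} (hx : x.Coprime P.A) (h0 : x ≠ 0) : P.xi (x ^ 2) = 1 := by
  rw [sq, P.xi_mul h0 h0]
  rcases P.xi_eq_or hx with h | h <;> rw [h] <;> norm_num

theorem coprime_prime_iff {p : ℕ} (hp : p.Prime) {x : ℕ} : x.Coprime p ↔ ¬ p ∣ x := by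
  rw [Nat.coprime_comm, hp.coprime_iff_not_dvd]

/-- (F1), signed version: a prime `p ∤ A` dividing the norm of a primitive vector has `ξ(p) = 1`. -/
theorem xi_prime_of_dvd_nm {p : ℕ} (hp : p.Prime) (hpA : ¬ p ∣ P.A)
    {v : O (P.B : ℤ) (P.A : ℤ)} (hv : IsCoprime v.re v.im) (hd : (p : ℤ) ∣ nm v) : P.xi p = 1 := by
  have : Fact p.Prime := ⟨hp⟩
  have hpint : Prime (p : ℤ) := Nat.prime_iff_prime_int.mp hp
  have hpA' : ¬ (p : ℤ) ∣ (P.A : ℤ) := by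
    intro h; exact hpA (by exact_mod_cast h)
  have hpim : ¬ (p : ℤ) ∣ v.im := by
    intro h
    have h1 : (p : ℤ) ∣ v.re ^ 2 := by
      have : v.re ^ 2 = nm v - v.im * (P.B * v.re + P.A * v.im) := by unfold nm; ring
      rw [this]
      exact dvd_sub hd (h.mul_right _)
    have h2 := hpint.dvd_of_dvd_pow h1
    obtain ⟨a, b, hab⟩ := hv
    have : (p : ℤ) ∣ 1 := by rw [← hab]; exact dvd_add (h2.mul_left _) (h.mul_left _)
    exact hpint.not_isUnit (isUnit_of_dvd_one this)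
  have hpN : ¬ (p : ℤ) ∣ (P.N : ℤ) := by
    intro h
    exact hpA' (h.trans (by exact_mod_cast P.hNA))
  have hpD : ¬ (p : ℤ) ∣ P.Δ := by
    intro h
    exact hpA' ((h.mul_left 4).trans P.hdA)
  unfold xi
  rw [← jacobiSym.legendreSym.to_jacobiSym]
  rw [legendreSym.eq_one_iff]
  · -- the square root
    have key : ((2 * v.re + P.B * v.im : ℤ) : ZMod p) ^ 2 =
        (P.Δ : ZMod p) * (((P.N : ℤ) * v.im : ℤ) : ZMod p) ^ 2 := by
      have h1 : (2 * v.re + P.B * v.im) ^ 2 - P.Δ * ((P.N : ℤ) * v.im) ^ 2 = 4 * nm v := by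
        have h2 : P.Δ * ((P.N : ℤ) * v.im) ^ 2 = ((P.N : ℤ) ^ 2 * P.Δ) * v.im ^ 2 := by ring
        rw [h2, ← P.hD]; unfold nm; ring
      have h3 : (((2 * v.re + P.B * v.im) ^ 2 - P.Δ * ((P.N : ℤ) * v.im) ^ 2 : ℤ) : ZMod p) = 0 := by
        rw [h1, ZMod.intCast_zmod_eq_zero_iff_dvd]
        exact hd.mul_left 4
      push_cast at h3 ⊢
      exact sub_eq_zero.mp h3
    have hne : (((P.N : ℤ) * v.im : ℤ) : ZMod p) ≠ 0 := by
      intro h
      rw [ZMod.intCast_zmod_eq_zero_iff_dvd] at h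
      rcases hpint.dvd_or_dvd h with h | h
      · exact hpN h
      · exact hpim h
    refine ⟨((2 * v.re + P.B * v.im : ℤ) : ZMod p) / (((P.N : ℤ) * v.im : ℤ) : ZMod p), ?_⟩
    rw [← sq, div_pow, key, mul_div_assoc, div_self (pow_ne_zero 2 hne), mul_one]
  · rw [Ne, ZMod.intCast_zmod_eq_zero_iff_dvd]
    exact hpD

theorem xi_of_primes {E : ℕ} (hE : E ≠ 0) (h : ∀ p : ℕ, p.Prime → p ∣ E → P.xi p = 1) : P.xi E = 1 := by
  induction E using Nat.recOnMul with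
  | zero => exact absurd rfl hE
  | one => exact P.xi_one
  | prime p hp => exact h p hp dvd_rfl
  | mul a b iha ihb =>
    have ha : a ≠ 0 := left_ne_zero_of_mul hE
    have hb : b ≠ 0 := right_ne_zero_of_mul hE
    rw [P.xi_mul ha hb, iha ha (fun p hp hd => h p hp (hd.mul_right _)),
      ihb hb (fun p hp hd => h p hp (hd.mul_left _)), one_mul]

/-- (F1) for arbitrary divisors, signed version -/
theorem xi_of_dvd_nm {E : ℕ} (hE0 : E ≠ 0) (hE : E.Coprime P.A)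
    {v : O (P.B : ℤ) (P.A : ℤ)} (hv : IsCoprime v.re v.im) (hd : (E : ℤ) ∣ nm v) : P.xi E = 1 := by
  apply P.xi_of_primes hE0
  intro p hp hpE
  apply P.xi_prime_of_dvd_nm hp _ hv (Dvd.dvd.trans (by exact_mod_cast hpE) hd)
  intro hpA
  have := Nat.dvd_gcd hpE hpA
  rw [hE] at this
  exact hp.one_lt.ne' (Nat.dvd_one.1 this)

/-- (F1) for natural vectors -/
theorem xi_of_dvd {E x y : ℕ} (hE0 : E ≠ 0) (hE : E.Coprime P.A) (hxy : x.Coprime y)
    (hd : E ∣ P.Q x y) : P.xi E = 1 := by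
  apply P.xi_of_dvd_nm hE0 hE (v := ⟨(x : ℤ), (y : ℤ)⟩)
  · exact Nat.isCoprime_iff_coprime.mpr hxy
  · rw [← Q_cast]; exact_mod_cast hd

/-- `Q(x,m) ≡ x²` modulo every prime factor of `mA` -/
theorem Q_coprime {x m : ℕ} (hx : x.Coprime (m * P.A)) : (P.Q x m).Coprime (m * P.A) := by
  rw [Nat.coprime_iff_gcd_eq_one]
  by_contra hne
  obtain ⟨p, hp, hpd⟩ := Nat.exists_prime_and_dvd hne
  have h1 : p ∣ P.Q x m := hpd.trans (Nat.gcd_dvd_left _ _)
  have h2 : p ∣ m * P.A := hpd.trans (Nat.gcd_dvd_right _ _)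
  have h3 : p ∣ P.B * x * m + P.A * m ^ 2 := by
    rcases (Nat.Prime.dvd_mul hp).mp h2 with h | h
    · exact dvd_add (h.mul_left _) (dvd_mul_of_dvd_right (dvd_pow h two_ne_zero) _)
    · exact dvd_add (((P.hrad p hp h).mul_right _).mul_right _) (h.mul_right _)
  have h4 : p ∣ x ^ 2 := by
    have : P.Q x m = x ^ 2 + (P.B * x * m + P.A * m ^ 2) := by unfold Q; ring
    rw [this] at h1
    exact (Nat.dvd_add_left h3).mp h1
  have h5 := hp.dvd_of_dvd_pow h4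
  have := Nat.dvd_gcd h5 h2
  rw [hx] at this
  exact hp.one_lt.ne' (Nat.dvd_one.1 this)

end Par

end Pool.Agent.Lib.MP_648c71_nt.Qap
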