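import Mathlib

/-! ROW C1: truncated alternating sums -/

set_option autoImplicit false

namespace Pool.Agent.Lib.MP_648c71_nt.Qap

open Finset

/-- elementary symmetric function -/
private noncomputable def es (a : ℕ → ℝ) (j : ℕ) (s : Finset ℕ) : ℝ :=
  ∑ t ∈ s.powersetCard j, ∏ p ∈ t, a p

private theorem es_zero (a : ℕ → ℝ) (s : Finset ℕ) : es a 0 s = 1 := by
  simp [es]

private theorem es_empty (a : ℕ → ℝ) (j : ℕ) : es a (j + 1) ∅ = 0 := by
  unfold es
  rw [Finset.powersetCard_eq_empty.2 (by simp)]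
  simp

private theorem es_insert (a : ℕ → ℝ) (j : ℕ) {p : ℕ} {s : Finset ℕ} (hp : p ∉ s) :
    es a (j + 1) (insert p s) = es a (j + 1) s + a p * es a j s := by
  unfold es
  rw [Finset.powersetCard_succ_insert hp, Finset.sum_union, Finset.sum_image, Finset.mul_sum]
  · congr 1
    refine Finset.sum_congr rfl fun t ht => ?_
    rw [Finset.prod_insert]
    intro h
    exact hp ((Finset.mem_powersetCard.1 ht).1 h)
  · intro t ht t' ht' h
    have h1 : p ∉ t := fun h => hp ((Finset.mem_powersetCard.1 ht).1 h)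
    have h2 : p ∉ t' := fun h => hp ((Finset.mem_powersetCard.1 ht').1 h)
    have h3 : (insert p t).erase p = (insert p t').erase p := by
      show Finset.erase (insert p t) p = Finset.erase (insert p t') p
      rw [show insert p t = insert p t' from h]
    rwa [Finset.erase_insert h1, Finset.erase_insert h2] at h3
  · rw [Finset.disjoint_left]
    intro t ht ht'
    obtain ⟨u, -, rfl⟩ := Finset.mem_image.1 ht'
    exact hp ((Finset.mem_powersetCard.1 ht).1 (Finset.mem_insert_self p u))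

private theorem pow_add_ge {S a : ℝ} (hS : 0 ≤ S) (ha : 0 ≤ a) (m : ℕ) :
    S ^ (m + 1) + (m + 1) * (a * S ^ m) ≤ (S + a) ^ (m + 1) := by
  induction m with
  | zero => simp
  | succ m ih =>
    have h1 : (S + a) * (S ^ (m + 1) + (m + 1) * (a * S ^ m)) ≤ (S + a) ^ (m + 1 + 1) := by
      rw [pow_succ' (S + a)]
      exact mul_le_mul_of_nonneg_left ih (by positivity)
    refine le_trans ?_ h1
    push_cast
    have h2 : 0 ≤ ((m : ℝ) + 1) * a ^ 2 * S ^ m := by positivity
    have h3 : (S + a) * (S ^ (m + 1) + (m + 1) * (a * S ^ m)) =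
      S ^ (m + 1 + 1) + (m + 1 + 1) * (a * S ^ (m + 1)) + (m + 1) * a ^ 2 * S ^ m := by ring
    rw [h3]
    linarith

private theorem es_nonneg (a : ℕ → ℝ) (j : ℕ) (s : Finset ℕ) (h0 : ∀ p ∈ s, 0 ≤ a p) :
    0 ≤ es a j s :=
  Finset.sum_nonneg fun _ ht => Finset.prod_nonneg fun p hp =>
    h0 p ((Finset.mem_powersetCard.1 ht).1 hp)

private theorem es_le (a : ℕ → ℝ) (s : Finset ℕ) (h0 : ∀ p ∈ s, 0 ≤ a p) :
    ∀ m, es a m s ≤ (∑ p ∈ s, a p) ^ m / m.factorial := by
  induction s using Finset.induction_on with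
  | empty =>
    intro m
    cases m with
    | zero => simp [es_zero]
    | succ m => rw [es_empty]; simp
  | insert p s hp ih =>
    have h0' : ∀ q ∈ s, 0 ≤ a q := fun q hq => h0 q (Finset.mem_insert_of_mem hq)
    have hap : 0 ≤ a p := h0 p (Finset.mem_insert_self p s)
    intro m
    cases m with
    | zero => simp [es_zero]
    | succ m =>
      rw [es_insert a m hp, Finset.sum_insert hp]
      have hS : 0 ≤ ∑ q ∈ s, a q := Finset.sum_nonneg h0'
      have h1 := ih h0' (m + 1)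
      have h2 := mul_le_mul_of_nonneg_left (ih h0' m) hap
      have h3 := pow_add_ge hS hap m
      have hf : (0 : ℝ) < (m + 1).factorial := by exact_mod_cast Nat.factorial_pos _
      have hf' : (0 : ℝ) < m.factorial := by exact_mod_cast Nat.factorial_pos _
      have hff : ((m + 1).factorial : ℝ) = (m + 1) * m.factorial := by
        rw [Nat.factorial_succ]; push_cast; ring
      calc es a (m + 1) s + a p * es a m s
          ≤ (∑ q ∈ s, a q) ^ (m + 1) / (m + 1).factorial +
            a p * ((∑ q ∈ s, a q) ^ m / m.factorial) := add_le_add h1 h2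
        _ = ((∑ q ∈ s, a q) ^ (m + 1) + (m + 1) * (a p * (∑ q ∈ s, a q) ^ m)) /
            (m + 1).factorial := by
            rw [hff]
            field_simp
        _ ≤ _ := by
            rw [add_comm (a p)]
            exact div_le_div_of_nonneg_right h3 hf.le

/-- truncated alternating sum -/
private noncomputable def alt (a : ℕ → ℝ) (n : ℕ) (s : Finset ℕ) : ℝ :=
  ∑ j ∈ range (n + 1), (-1 : ℝ) ^ j * es a j s

private theorem alt_zero (a : ℕ → ℝ) (s : Finset ℕ) : alt a 0 s = 1 := by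
  simp [alt, es_zero]

private theorem alt_succ (a : ℕ → ℝ) (n : ℕ) (s : Finset ℕ) :
    alt a (n + 1) s = alt a n s + (-1 : ℝ) ^ (n + 1) * es a (n + 1) s := by
  unfold alt
  rw [Finset.sum_range_succ]

private theorem alt_insert (a : ℕ → ℝ) (n : ℕ) {p : ℕ} {s : Finset ℕ} (hp : p ∉ s) :
    alt a (n + 1) (insert p s) = alt a (n + 1) s - a p * alt a n s := by
  induction n with
  | zero =>
    rw [alt_succ, alt_succ, alt_zero, alt_zero, es_insert a 0 hp, es_zero]
    ring
  | succ n ih =>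
    rw [alt_succ, ih, alt_succ a (n + 1) s, alt_succ a n s, es_insert a (n + 1) hp]
    ring

private theorem alt_sign (a : ℕ → ℝ) (s : Finset ℕ) (h0 : ∀ p ∈ s, 0 ≤ a p)
    (h1 : ∀ p ∈ s, a p ≤ 1) :
    (0 ≤ ∏ p ∈ s, (1 - a p) ∧ ∏ p ∈ s, (1 - a p) ≤ 1) ∧
      ∀ n, 0 ≤ (-1 : ℝ) ^ n * (alt a n s - ∏ p ∈ s, (1 - a p)) := by
  induction s using Finset.induction_on with
  | empty =>
    refine ⟨by simp, fun n => ?_⟩
    have : alt a n ∅ = 1 := by
      induction n with
      | zero => exact alt_zero a ∅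
      | succ n ih => rw [alt_succ, ih, es_empty]; simp
    rw [this]
    simp
  | insert p s hp ih =>
    obtain ⟨⟨h2, h3⟩, h4⟩ := ih (fun q hq => h0 q (Finset.mem_insert_of_mem hq))
      (fun q hq => h1 q (Finset.mem_insert_of_mem hq))
    have hap : 0 ≤ a p := h0 p (Finset.mem_insert_self p s)
    have hap1 : a p ≤ 1 := h1 p (Finset.mem_insert_self p s)
    rw [Finset.prod_insert hp]
    have h5 : 0 ≤ (1 - a p) * ∏ q ∈ s, (1 - a q) := mul_nonneg (by linarith) h2
    have h6 : (1 - a p) * ∏ q ∈ s, (1 - a q) ≤ 1 := by nlinarith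
    refine ⟨⟨h5, h6⟩, fun n => ?_⟩
    cases n with
    | zero =>
      rw [alt_zero]
      simp only [pow_zero, one_mul]
      linarith
    | succ n =>
      rw [alt_insert a n hp]
      have h7 := h4 (n + 1)
      have h8 := mul_nonneg hap (h4 n)
      have h9 : (-1 : ℝ) ^ (n + 1) * (alt a (n + 1) s - a p * alt a n s -
          (1 - a p) * ∏ q ∈ s, (1 - a q)) =
          (-1 : ℝ) ^ (n + 1) * (alt a (n + 1) s - ∏ q ∈ s, (1 - a q)) +
          a p * ((-1 : ℝ) ^ n * (alt a n s - ∏ q ∈ s, (1 - a q))) := by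
        rw [pow_succ]
        ring
      rw [h9]
      linarith

/-- ROW C1.  Truncated alternating sums of elementary symmetric functions.
Proof: for `0 ≤ a_p ≤ 1`, induction on `s` of: `∑_{j ≤ n} (-1)^j e_j(s)` is `≥ ∏(1-a)` for even `n` and
`≤` for odd `n` (`e_j(insert p s) = e_j(s) + a_p e_{j-1}(s)`), so for even `n = 2k` the difference is at
most `e_{2k+1}(s) ≤ (∑ a)^{2k+1}/(2k+1)!`; and `∏ (1-a) ≤ exp(-∑ a)`. -/
theorem esymm_alt_le (s : Finset ℕ) (a : ℕ → ℝ) (h0 : ∀ p ∈ s, 0 ≤ a p) (h1 : ∀ p ∈ s, a p ≤ 1) (k : ℕ) :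
    ∑ j ∈ range (2 * k + 1), (-1 : ℝ) ^ j * ∑ t ∈ s.powersetCard j, ∏ p ∈ t, a p ≤
      Real.exp (-∑ p ∈ s, a p) + (∑ p ∈ s, a p) ^ (2 * k + 1) / (2 * k + 1).factorial := by
  have h2 := (alt_sign a s h0 h1).2 (2 * k + 1)
  have h3 := es_le a s h0 (2 * k + 1)
  have h4 : ∏ p ∈ s, (1 - a p) ≤ Real.exp (-∑ p ∈ s, a p) := by
    rw [← Finset.sum_neg_distrib, Real.exp_sum]
    refine Finset.prod_le_prod (fun p hp => ?_) (fun p _ => ?_)
    · linarith [h1 p hp]
    · have := Real.add_one_le_exp (-a p)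
      linarith
  rw [alt_succ] at h2
  have h5 : (-1 : ℝ) ^ (2 * k + 1) = -1 := by
    rw [pow_succ, pow_mul]
    simp
  rw [h5] at h2
  have h6 : alt a (2 * k) s = ∑ j ∈ range (2 * k + 1), (-1 : ℝ) ^ j *
      ∑ t ∈ s.powersetCard j, ∏ p ∈ t, a p := rfl
  rw [← h6]
  linarith

end Pool.Agent.Lib.MP_648c71_nt.Qap
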