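import Mathlib

/-! ROW C2: Chinese remainder count -/

set_option autoImplicit false

namespace Pool.Agent.Lib.MP_648c71_nt.Qap

open Finset

private theorem C2_base (m r X : ℕ) (hm : 0 < m) :
    |(((Icc 1 X).filter (fun x => x ≡ r [MOD m])).card : ℝ) - X / m| ≤ 1 := by
  have h0 : Icc 1 X = Ioc 0 X := by
    ext x; simp [Nat.succ_le_iff]
  rw [h0]
  have h1 := Nat.Ioc_filter_modEq_card 0 X hm r
  have h2 : (((Ioc 0 X).filter (fun x => x ≡ r [MOD m])).card : ℤ) =
    max (⌊((X : ℚ) - r) / m⌋ - ⌊((0 : ℕ) - (r : ℚ)) / m⌋) 0 := h1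
  have hm' : (0 : ℚ) < m := by exact_mod_cast hm
  have a1 := Int.floor_le (((X : ℚ) - r) / m)
  have a2 := Int.lt_floor_add_one (((X : ℚ) - r) / m)
  have a3 := Int.floor_le ((((0 : ℕ) : ℚ) - (r : ℚ)) / m)
  have a4 := Int.lt_floor_add_one ((((0 : ℕ) : ℚ) - (r : ℚ)) / m)
  have e1 : ((X : ℚ) - r) / m = X / m - r / m := by ring
  have e2 : (((0 : ℕ) : ℚ) - (r : ℚ)) / m = - (r / m) := by push_cast; ring
  rw [e1] at a1 a2
  rw [e2] at a3 a4
  rw [e1, e2] at h2
  have hX : (0 : ℚ) ≤ X / m := by positivity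
  have h3 : |(((((Ioc 0 X).filter (fun x => x ≡ r [MOD m])).card : ℤ) : ℚ)) - X / m| ≤ 1 := by
    rw [h2, abs_le]
    push_cast
    rcases le_total (((⌊(X : ℚ) / m - r / m⌋ : ℤ) : ℚ) - (⌊-((r : ℚ) / m)⌋ : ℤ)) 0 with h | h
    · rw [max_eq_right h]
      constructor <;> linarith
    · rw [max_eq_left h]
      constructor <;> linarith
  have h4 := (Rat.cast_le (K := ℝ)).2 h3
  push_cast at h4
  exact h4

private theorem C2_gen (Ω : ℕ → Finset ℕ) (X : ℕ) (t : Finset ℕ) :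
    (∀ p ∈ t, p.Prime) → (∀ p ∈ t, Ω p ⊆ range p) → ∀ m r : ℕ, 0 < m →
      (∀ p ∈ t, Nat.Coprime m p) →
      |(((Icc 1 X).filter (fun x => x ≡ r [MOD m] ∧ ∀ p ∈ t, x % p ∈ Ω p)).card : ℝ) -
        X / m * ∏ p ∈ t, ((Ω p).card : ℝ) / p| ≤ ∏ p ∈ t, ((Ω p).card : ℝ) := by
  classical
  induction t using Finset.induction_on with
  | empty =>
    intro _ _ m r hm _
    simpa using C2_base m r X hm
  | insert p t hp ih =>
    intro ht hΩ m r hm hc
    have hpp : p.Prime := ht p (mem_insert_self _ _)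
    have hmp : Nat.Coprime m p := hc p (mem_insert_self _ _)
    have ih' := ih (fun q hq => ht q (mem_insert_of_mem hq)) (fun q hq => hΩ q (mem_insert_of_mem hq))
    have hmap : ∀ x ∈ (Icc 1 X).filter (fun x => x ≡ r [MOD m] ∧ ∀ q ∈ insert p t, x % q ∈ Ω q),
        x % p ∈ Ω p := by
      intro x hx
      rw [mem_filter] at hx
      exact hx.2.2 p (mem_insert_self _ _)
    have hcop : ∀ q ∈ t, Nat.Coprime (m * p) q := by
      intro q hq
      refine Nat.Coprime.mul_left (hc q (mem_insert_of_mem hq)) ?_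
      rw [Nat.coprime_primes hpp (ht q (mem_insert_of_mem hq))]
      rintro rfl
      exact hp hq
    have key : ∀ a ∈ Ω p,
        |((((Icc 1 X).filter (fun x => x ≡ r [MOD m] ∧ ∀ q ∈ insert p t, x % q ∈ Ω q)).filter
          (fun x => x % p = a)).card : ℝ) - X / (m * p) * ∏ q ∈ t, ((Ω q).card : ℝ) / q| ≤
          ∏ q ∈ t, ((Ω q).card : ℝ) := by
      intro a ha
      have hap : a < p := mem_range.1 (hΩ p (mem_insert_self _ _) ha)
      have h1 := ih' (m * p) (Nat.chineseRemainder hmp r a) (Nat.mul_pos hm hpp.pos) hcop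
      have hset : ((Icc 1 X).filter (fun x => x ≡ r [MOD m] ∧ ∀ q ∈ insert p t, x % q ∈ Ω q)).filter
          (fun x => x % p = a) = (Icc 1 X).filter (fun x =>
            x ≡ (Nat.chineseRemainder hmp r a : ℕ) [MOD (m * p)] ∧ ∀ q ∈ t, x % q ∈ Ω q) := by
        ext x
        simp only [mem_filter, forall_mem_insert]
        have hcr := (Nat.chineseRemainder hmp r a).2
        constructor
        · rintro ⟨⟨hx, h2, h3, h4⟩, h5⟩
          refine ⟨hx, ?_, h4⟩
          rw [← Nat.modEq_and_modEq_iff_modEq_mul hmp]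
          refine ⟨h2.trans hcr.1.symm, ?_⟩
          refine Nat.ModEq.trans ?_ hcr.2.symm
          unfold Nat.ModEq
          rw [h5, Nat.mod_eq_of_lt hap]
        · rintro ⟨hx, h2, h4⟩
          rw [← Nat.modEq_and_modEq_iff_modEq_mul hmp] at h2
          have h5 : x % p = a := by
            have := h2.2.trans hcr.2
            unfold Nat.ModEq at this
            rw [this, Nat.mod_eq_of_lt hap]
          exact ⟨⟨hx, h2.1.trans hcr.1, by rw [h5]; exact ha, h4⟩, h5⟩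
      rw [hset]
      push_cast at h1
      exact h1
    rw [card_eq_sum_card_fiberwise hmap, prod_insert hp, prod_insert hp]
    push_cast
    have e : (X : ℝ) / m * (((Ω p).card : ℝ) / p * ∏ q ∈ t, ((Ω q).card : ℝ) / q) =
        ∑ a ∈ Ω p, (X : ℝ) / (m * p) * ∏ q ∈ t, ((Ω q).card : ℝ) / q := by
      rw [sum_const, nsmul_eq_mul]
      have hm' : (m : ℝ) ≠ 0 := by exact_mod_cast hm.ne'
      have hp' : (p : ℝ) ≠ 0 := by exact_mod_cast hpp.ne_zero
      field_simp
    rw [e, ← sum_sub_distrib]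
    refine (abs_sum_le_sum_abs _ _).trans ?_
    refine (sum_le_sum key).trans ?_
    rw [sum_const, nsmul_eq_mul]

/-- ROW C2.  Chinese remainder count: for a finite set `t` of primes and sets of residues `Ω p`,
the number of `x ∈ [1,X]` with `x mod p ∈ Ω p` for all `p ∈ t` is `X ∏ |Ω p|/p + θ ∏ |Ω p|`, `|θ| ≤ 1`. -/
theorem crt_count (t : Finset ℕ) (ht : ∀ p ∈ t, p.Prime) (Ω : ℕ → Finset ℕ)
    (hΩ : ∀ p ∈ t, Ω p ⊆ range p) (X : ℕ) :
    |(((Icc 1 X).filter (fun x => ∀ p ∈ t, x % p ∈ Ω p)).card : ℝ) -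
      X * ∏ p ∈ t, ((Ω p).card : ℝ) / p| ≤ ∏ p ∈ t, ((Ω p).card : ℝ) := by
  have h := C2_gen Ω X t ht hΩ 1 0 one_pos (fun p _ => Nat.coprime_one_left p)
  simpa [Nat.modEq_one] using h

end Pool.Agent.Lib.MP_648c71_nt.Qap
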