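import Pool.Agent.Lib.MP_648c71_nt.Qap.C1
import Pool.Agent.Lib.MP_648c71_nt.Qap.C2

/-! ROW C3: Brun's pure sieve -/

set_option autoImplicit false

namespace Pool.Agent.Lib.MP_648c71_nt.Qap

open Finset

private theorem C3_alt (n m : ℕ) :
    ∑ j ∈ range (m + 1), (-1 : ℝ) ^ j * ((n + 1).choose j : ℝ) = (-1) ^ m * (n.choose m : ℝ) := by
  induction m with
  | zero => simp
  | succ m ih =>
    rw [sum_range_succ, ih, Nat.choose_succ_succ]
    push_cast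
    ring

private theorem C3_bonf (n k : ℕ) :
    (if n = 0 then (1 : ℝ) else 0) ≤ ∑ j ∈ range (2 * k + 1), (-1 : ℝ) ^ j * (n.choose j : ℝ) := by
  rcases Nat.eq_zero_or_pos n with h | h
  · subst h
    rw [if_pos rfl, sum_range_succ']
    simp
  · obtain ⟨m, rfl⟩ : ∃ m, n = m + 1 := ⟨n - 1, by omega⟩
    rw [if_neg (by omega), C3_alt, pow_mul]
    simp

private theorem C3_count (s : Finset ℕ) (Ω : ℕ → Finset ℕ) (x j : ℕ) :
    ((s.filter (fun p => x % p ∈ Ω p)).card.choose j : ℝ) =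
      ∑ t ∈ s.powersetCard j, (if ∀ p ∈ t, x % p ∈ Ω p then (1 : ℝ) else 0) := by
  classical
  rw [sum_boole, ← card_powersetCard]
  congr 2
  ext t
  simp only [mem_powersetCard, mem_filter]
  constructor
  · rintro ⟨h1, h2⟩
    exact ⟨⟨h1.trans (filter_subset _ _), h2⟩, fun p hp => (mem_filter.1 (h1 hp)).2⟩
  · rintro ⟨⟨h1, h2⟩, h3⟩
    exact ⟨fun p hp => mem_filter.2 ⟨h1 hp, h3 p hp⟩, h2⟩

private theorem C3_err (s : Finset ℕ) (hs : ∀ p ∈ s, p.Prime) (Ω : ℕ → Finset ℕ) (h z k : ℕ)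
    (hh : ∀ p ∈ s, (Ω p).card ≤ h) (hz : ∀ p ∈ s, p ≤ z) :
    ∑ j ∈ range (2 * k + 1), ∑ t ∈ s.powersetCard j, ∏ p ∈ t, ((Ω p).card : ℝ) ≤
      (1 + (h : ℝ) * z) ^ (2 * k) := by
  have hcard : s.card ≤ z := by
    have : s ⊆ Icc 1 z := fun p hp => mem_Icc.2 ⟨(hs p hp).one_lt.le, hz p hp⟩
    simpa using card_le_card this
  have h1 : ∀ j ∈ range (2 * k + 1), ∑ t ∈ s.powersetCard j, ∏ p ∈ t, ((Ω p).card : ℝ) ≤
      ((h : ℝ) * z) ^ j := by
    intro j _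
    calc ∑ t ∈ s.powersetCard j, ∏ p ∈ t, ((Ω p).card : ℝ)
        ≤ ∑ t ∈ s.powersetCard j, (h : ℝ) ^ j := by
          refine sum_le_sum fun t ht => ?_
          rw [mem_powersetCard] at ht
          rw [← ht.2, ← prod_const]
          exact prod_le_prod (fun _ _ => Nat.cast_nonneg _)
            (fun p hp => by exact_mod_cast hh p (ht.1 hp))
      _ = (s.card.choose j : ℝ) * (h : ℝ) ^ j := by
          rw [sum_const, card_powersetCard, nsmul_eq_mul]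
      _ ≤ (z : ℝ) ^ j * (h : ℝ) ^ j := by
          refine mul_le_mul_of_nonneg_right ?_ (by positivity)
          have : s.card.choose j ≤ z ^ j :=
            (Nat.choose_le_pow _ _).trans (Nat.pow_le_pow_left hcard j)
          exact_mod_cast this
      _ = ((h : ℝ) * z) ^ j := by rw [mul_pow, mul_comm]
  refine le_trans (Finset.sum_le_sum h1) ?_
  rw [add_comm (1 : ℝ) ((h : ℝ) * z), add_pow]
  refine sum_le_sum fun j hj => ?_
  rw [mem_range] at hj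
  simp only [one_pow, mul_one]
  have h2 : (1 : ℝ) ≤ ((2 * k).choose j : ℝ) := by
    exact_mod_cast Nat.choose_pos (by omega)
  exact le_mul_of_one_le_right (by positivity) h2

/-- ROW C3.  Brun's pure sieve.
Proof.  Bonferroni: with `n(x) = #{p ∈ s : x mod p ∈ Ω p}`, `1_{n(x)=0} ≤ ∑_{j ≤ 2k} (-1)^j C(n(x),j)`
and `C(n(x),j) = #{t ∈ powersetCard j s : ∀ p ∈ t, x mod p ∈ Ω p}`.  Sum over `x`, use `crt_count` and
`esymm_alt_le`; the error is `∑_{j ≤ 2k} ∑_{|t| = j} ∏ |Ω p| ≤ ∑_{j≤2k} (∑_p |Ω p|)^j/j! ≤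
(1 + ∑_p |Ω p|)^{2k} ≤ (1 + hz)^{2k}` (`|s| ≤ z`). -/
theorem brun (s : Finset ℕ) (hs : ∀ p ∈ s, p.Prime) (Ω : ℕ → Finset ℕ)
    (hΩ : ∀ p ∈ s, Ω p ⊆ range p) (h z k X : ℕ) (hh : ∀ p ∈ s, (Ω p).card ≤ h)
    (hz : ∀ p ∈ s, p ≤ z) :
    (((Icc 1 X).filter (fun x => ∀ p ∈ s, x % p ∉ Ω p)).card : ℝ) ≤
      X * (Real.exp (-∑ p ∈ s, ((Ω p).card : ℝ) / p) +
        (∑ p ∈ s, ((Ω p).card : ℝ) / p) ^ (2 * k + 1) / (2 * k + 1).factorial) +
      (1 + (h : ℝ) * z) ^ (2 * k) := by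
  classical
  set N : Finset ℕ → ℝ := fun t =>
    (((Icc 1 X).filter (fun x => ∀ p ∈ t, x % p ∈ Ω p)).card : ℝ) with hN
  set a : ℕ → ℝ := fun p => ((Ω p).card : ℝ) / p with ha
  have h1 : (((Icc 1 X).filter (fun x => ∀ p ∈ s, x % p ∉ Ω p)).card : ℝ) ≤
      ∑ j ∈ range (2 * k + 1), (-1 : ℝ) ^ j * ∑ t ∈ s.powersetCard j, N t := by
    calc (((Icc 1 X).filter (fun x => ∀ p ∈ s, x % p ∉ Ω p)).card : ℝ)
        = ∑ x ∈ Icc 1 X, (if (s.filter (fun p => x % p ∈ Ω p)).card = 0 then (1 : ℝ) else 0) := by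
          rw [sum_boole]
          congr 2
          ext x
          simp only [mem_filter, card_eq_zero, filter_eq_empty_iff]
      _ ≤ ∑ x ∈ Icc 1 X, ∑ j ∈ range (2 * k + 1), (-1 : ℝ) ^ j *
            ((s.filter (fun p => x % p ∈ Ω p)).card.choose j : ℝ) :=
          sum_le_sum fun x _ => C3_bonf _ k
      _ = ∑ j ∈ range (2 * k + 1), (-1 : ℝ) ^ j * ∑ t ∈ s.powersetCard j, N t := by
          rw [sum_comm]
          refine sum_congr rfl fun j _ => ?_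
          rw [← mul_sum]
          congr 1
          simp only [C3_count]
          rw [sum_comm]
          refine sum_congr rfl fun t _ => ?_
          rw [sum_boole]
  have h2 : ∑ j ∈ range (2 * k + 1), (-1 : ℝ) ^ j * ∑ t ∈ s.powersetCard j, N t ≤
      ∑ j ∈ range (2 * k + 1), ((-1 : ℝ) ^ j * ∑ t ∈ s.powersetCard j, X * ∏ p ∈ t, a p) +
      ∑ j ∈ range (2 * k + 1), ∑ t ∈ s.powersetCard j, ∏ p ∈ t, ((Ω p).card : ℝ) := by
    rw [← sum_add_distrib]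
    refine sum_le_sum fun j _ => ?_
    have h3 : |∑ t ∈ s.powersetCard j, N t - ∑ t ∈ s.powersetCard j, X * ∏ p ∈ t, a p| ≤
        ∑ t ∈ s.powersetCard j, ∏ p ∈ t, ((Ω p).card : ℝ) := by
      rw [← sum_sub_distrib]
      refine (abs_sum_le_sum_abs _ _).trans (sum_le_sum fun t ht => ?_)
      rw [mem_powersetCard] at ht
      exact crt_count t (fun p hp => hs p (ht.1 hp)) Ω (fun p hp => hΩ p (ht.1 hp)) X
    have h4 := abs_le.1 h3
    rcases neg_one_pow_eq_or ℝ j with hj | hj <;> rw [hj] <;> linarith [h4.1, h4.2]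
  have h5 : ∑ j ∈ range (2 * k + 1), ((-1 : ℝ) ^ j * ∑ t ∈ s.powersetCard j, X * ∏ p ∈ t, a p) =
      X * ∑ j ∈ range (2 * k + 1), ((-1 : ℝ) ^ j * ∑ t ∈ s.powersetCard j, ∏ p ∈ t, a p) := by
    rw [mul_sum]
    refine sum_congr rfl fun j _ => ?_
    rw [← mul_sum]
    ring
  have h6 := esymm_alt_le s a (fun p _ => by positivity) (fun p hp => by
    have hp0 : (0 : ℝ) < p := by exact_mod_cast (hs p hp).pos
    rw [ha]
    simp only
    rw [div_le_one hp0]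
    have := card_le_card (hΩ p hp)
    rw [card_range] at this
    exact_mod_cast this) k
  have h7 := C3_err s hs Ω h z k hh hz
  have h8 : (X : ℝ) * ∑ j ∈ range (2 * k + 1),
      ((-1 : ℝ) ^ j * ∑ t ∈ s.powersetCard j, ∏ p ∈ t, a p) ≤
      X * (Real.exp (-∑ p ∈ s, a p) + (∑ p ∈ s, a p) ^ (2 * k + 1) / (2 * k + 1).factorial) :=
    mul_le_mul_of_nonneg_left h6 (Nat.cast_nonneg _)
  linarith [h1, h2, h5, h7, h8]

end Pool.Agent.Lib.MP_648c71_nt.Qap
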