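import Pool.Agent.Lib.MP_648c71_nt.Qap.B2

/-! ROW D1: the two ranges of primes -/

set_option autoImplicit false

namespace Pool.Agent.Lib.MP_648c71_nt.Qap

open Finset

/-- the block index: `b^(4I) ≤ log₂ X` -/
def bI (b X : ℕ) : ℕ := Nat.log b (Nat.log 2 X) / 4

/-- the first range of primes `(2^(b^I), 2^(b^(2I))]` -/
def rg1 (b X : ℕ) : Finset ℕ :=
  (Ioc (2 ^ (b ^ (bI b X))) (2 ^ (b ^ (2 * bI b X)))).filter Nat.Prime

/-- the second range of primes `(2^(b^(2I)), 2^(b^(3I))]` -/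
def rg2 (b X : ℕ) : Finset ℕ :=
  (Ioc (2 ^ (b ^ (2 * bI b X))) (2 ^ (b ^ (3 * bI b X)))).filter Nat.Prime

/-- the lower bound of `block_lower` as a predicate -/
def BlockLower (b : ℕ) (c : ℝ) : Prop :=
  2 ≤ b ∧ 0 < c ∧ ∀ (M : ℕ) [NeZero M], ∃ i₀ : ℕ,
    ∀ i : ℕ, i₀ ≤ i → ∀ W : Finset (ZMod M)ˣ, M.totient ≤ 4 * W.card →
      c ≤ ∑ p ∈ (blk b i).filter (fun p => ∃ w ∈ W, (w : ZMod M) = ((p : ℕ) : ZMod M)), (1 : ℝ) / p

/-- splitting a range into blocks -/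
private theorem sum_range_blocks (b : ℕ) (hb : 2 ≤ b) {I J : ℕ} (h : I ≤ J) (f : ℕ → ℝ) :
    ∑ p ∈ Ioc (2 ^ (b ^ I)) (2 ^ (b ^ J)), f p =
      ∑ i ∈ Ico I J, ∑ p ∈ Ioc (2 ^ (b ^ i)) (2 ^ (b ^ (i + 1))), f p := by
  induction J, h using Nat.le_induction with
  | base => simp
  | succ J hJ ih =>
    rw [Finset.sum_Ico_succ_top hJ, ← ih]
    have h1 : 2 ^ (b ^ I) ≤ 2 ^ (b ^ J) :=
      Nat.pow_le_pow_right (by norm_num) (Nat.pow_le_pow_right (by omega) hJ)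
    have h2 : 2 ^ (b ^ J) ≤ 2 ^ (b ^ (J + 1)) :=
      Nat.pow_le_pow_right (by norm_num) (Nat.pow_le_pow_right (by omega) (Nat.le_succ J))
    exact (Finset.sum_Ioc_consecutive f h1 h2).symm

private theorem sum_rg_blocks (b : ℕ) (hb : 2 ≤ b) {I J : ℕ} (h : I ≤ J) (f : ℕ → ℝ) :
    ∑ p ∈ (Ioc (2 ^ (b ^ I)) (2 ^ (b ^ J))).filter Nat.Prime, f p =
      ∑ i ∈ Ico I J, ∑ p ∈ blk b i, f p := by
  unfold blk
  simp only [Finset.sum_filter]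
  exact sum_range_blocks b hb h _

private theorem rg_cases (b X : ℕ) (R : Finset ℕ) (hR : R = rg1 b X ∨ R = rg2 b X) :
    ∃ I J : ℕ, I ≤ J ∧ bI b X ≤ I ∧ J - I = bI b X ∧
      R = (Ioc (2 ^ (b ^ I)) (2 ^ (b ^ J))).filter Nat.Prime := by
  rcases hR with h | h
  · exact ⟨bI b X, 2 * bI b X, by omega, le_rfl, by omega, h⟩
  · exact ⟨2 * bI b X, 3 * bI b X, by omega, by omega, by omega, h⟩

/-- ROW D1.  Growth facts on `I = bI b X`: `I → ∞`; `2^(b^(4I)) ≤ X`; `log X ≤ b^(4I+4)`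
(`Nat.lt_pow_succ_log_self`), so `(1 + log X)^κ ≤ C exp(4κ I log b)`. -/
theorem bI_tendsto (b : ℕ) (hb : 2 ≤ b) : ∀ n : ℕ, ∃ X₀ : ℕ, ∀ X : ℕ, X₀ ≤ X → n ≤ bI b X := by
  intro n
  refine ⟨2 ^ (b ^ (4 * n)), fun X hX => ?_⟩
  have hX0 : X ≠ 0 := by
    have : 0 < 2 ^ (b ^ (4 * n)) := by positivity
    omega
  have h1 : b ^ (4 * n) ≤ Nat.log 2 X := Nat.le_log_of_pow_le (by norm_num) hX
  have h2 : 4 * n ≤ Nat.log b (Nat.log 2 X) := Nat.le_log_of_pow_le (by omega) h1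
  unfold bI
  omega

/-- ROW D1.  Summation over the blocks: `rg1` is the disjoint union of `blk b i`, `I ≤ i < 2I`, and `rg2`
of `blk b i`, `2I ≤ i < 3I`. -/
theorem rg_lower {b : ℕ} {c : ℝ} (hb : BlockLower b c) (M : ℕ) [NeZero M] : ∃ X₀ : ℕ, ∀ X : ℕ, X₀ ≤ X →
    ∀ W : Finset (ZMod M)ˣ, M.totient ≤ 4 * W.card → ∀ R : Finset ℕ, (R = rg1 b X ∨ R = rg2 b X) →
      c * bI b X ≤ ∑ p ∈ R.filter (fun p => ∃ w ∈ W, (w : ZMod M) = ((p : ℕ) : ZMod M)), (1 : ℝ) / p := by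
  obtain ⟨hb2, hc, hb⟩ := hb
  obtain ⟨i₀, hi₀⟩ := hb M
  obtain ⟨X₀, hX₀⟩ := bI_tendsto b hb2 i₀
  refine ⟨X₀, fun X hX W hW R hR => ?_⟩
  obtain ⟨I, J, hIJ, hI, hJI, rfl⟩ := rg_cases b X R hR
  have hii := hX₀ X hX
  rw [Finset.sum_filter, sum_rg_blocks b hb2 hIJ]
  have h1 : ∀ i ∈ Ico I J, c ≤ ∑ p ∈ blk b i,
      if ∃ w ∈ W, (w : ZMod M) = ((p : ℕ) : ZMod M) then (1 : ℝ) / p else 0 := by
    intro i hi
    rw [Finset.mem_Ico] at hi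
    rw [← Finset.sum_filter]
    exact hi₀ i (by omega) W hW
  have h2 := Finset.card_nsmul_le_sum _ _ _ h1
  rw [Nat.card_Ico, hJI, nsmul_eq_mul, mul_comm] at h2
  exact h2

/-- ROW D1. -/
theorem rg_upper (b : ℕ) (hb : 2 ≤ b) : ∃ C : ℝ, 0 < C ∧ ∀ X : ℕ, ∀ R : Finset ℕ,
    (R = rg1 b X ∨ R = rg2 b X) → ∑ p ∈ R, (1 : ℝ) / p ≤ C * bI b X := by
  obtain ⟨C, hC, hCb⟩ := block_upper
  refine ⟨C * b, by positivity, fun X R hR => ?_⟩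
  obtain ⟨I, J, hIJ, hI, hJI, rfl⟩ := rg_cases b X R hR
  rw [sum_rg_blocks b hb hIJ]
  have h1 : ∀ i ∈ Ico I J, ∑ p ∈ blk b i, (1 : ℝ) / p ≤ C * b := fun i _ => hCb b i hb
  have h2 := Finset.sum_le_card_nsmul _ _ _ h1
  rw [Nat.card_Ico, hJI, nsmul_eq_mul, mul_comm] at h2
  exact h2

theorem pow_bI_le (b X : ℕ) (hb : 2 ≤ b) (hX : 2 ≤ X) : 2 ^ (b ^ (4 * bI b X)) ≤ X := by
  have h0 : Nat.log 2 X ≠ 0 := by
    have := Nat.log_pos (b := 2) (by norm_num) hX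
    omega
  have h1 : 4 * bI b X ≤ Nat.log b (Nat.log 2 X) := by
    unfold bI
    omega
  have h2 : b ^ (4 * bI b X) ≤ Nat.log 2 X :=
    (Nat.pow_le_pow_right (by omega) h1).trans (Nat.pow_log_le_self b h0)
  exact (Nat.pow_le_pow_right (by norm_num) h2).trans (Nat.pow_log_le_self 2 (by omega))

theorem log_le_bI (b κ : ℕ) (hb : 2 ≤ b) : ∃ C : ℝ, 0 < C ∧ ∀ X : ℕ, 1 ≤ X →
    (1 + Real.log X) ^ κ ≤ C * Real.exp (4 * κ * Real.log b * bI b X) := by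
  have hb0 : (0 : ℝ) < b := by
    have : 0 < b := by omega
    exact_mod_cast this
  refine ⟨2 ^ κ * ((b : ℝ) ^ 4) ^ κ, by positivity, fun X hX => ?_⟩
  have h1 : X < 2 ^ (Nat.log 2 X + 1) := Nat.lt_pow_succ_log_self (by norm_num) X
  have h2 : Nat.log 2 X < b ^ (Nat.log b (Nat.log 2 X) + 1) :=
    Nat.lt_pow_succ_log_self (by omega) _
  have h3 : Nat.log b (Nat.log 2 X) + 1 ≤ 4 * bI b X + 4 := by
    unfold bI
    omega
  have h4 : Nat.log 2 X + 1 ≤ b ^ (4 * bI b X + 4) :=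
    (Nat.succ_le_of_lt h2).trans (Nat.pow_le_pow_right (by omega) h3)
  have h5 : Real.log X ≤ (Nat.log 2 X : ℝ) + 1 := by
    have hX0 : (0 : ℝ) < X := by exact_mod_cast hX
    have h6 : (X : ℝ) ≤ 2 ^ (Nat.log 2 X + 1) := by exact_mod_cast h1.le
    have h7 := Real.log_le_log hX0 h6
    rw [Real.log_pow] at h7
    have h8 : Real.log 2 ≤ 1 := by
      have := Real.log_two_lt_d9
      linarith
    have h9 : (0 : ℝ) ≤ ((Nat.log 2 X + 1 : ℕ) : ℝ) := Nat.cast_nonneg _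
    have h10 : ((Nat.log 2 X + 1 : ℕ) : ℝ) * Real.log 2 ≤ ((Nat.log 2 X + 1 : ℕ) : ℝ) * 1 :=
      mul_le_mul_of_nonneg_left h8 h9
    push_cast at h7 h10
    linarith
  have h4' : (Nat.log 2 X : ℝ) + 1 ≤ (b : ℝ) ^ (4 * bI b X + 4) := by exact_mod_cast h4
  have hone : (1 : ℝ) ≤ (b : ℝ) ^ (4 * bI b X + 4) := by
    have : (0 : ℝ) ≤ (Nat.log 2 X : ℝ) := Nat.cast_nonneg _
    linarith
  have h6 : 1 + Real.log X ≤ 2 * (b : ℝ) ^ (4 * bI b X + 4) := by linarith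
  have h7 : 0 ≤ 1 + Real.log X := by
    have : 0 ≤ Real.log X := Real.log_nonneg (by exact_mod_cast hX)
    linarith
  have h8 : Real.exp (4 * κ * Real.log b * bI b X) = ((b : ℝ) ^ (4 * bI b X)) ^ κ := by
    rw [← pow_mul, ← Real.exp_log (pow_pos hb0 (4 * bI b X * κ)), Real.log_pow]
    congr 1
    push_cast
    ring
  rw [h8]
  calc (1 + Real.log X) ^ κ ≤ (2 * (b : ℝ) ^ (4 * bI b X + 4)) ^ κ := pow_le_pow_left₀ h7 h6 κ
    _ = _ := by rw [pow_add, mul_pow, mul_pow]; ring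

end Pool.Agent.Lib.MP_648c71_nt.Qap
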