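import Pool.Agent.Lib.MP_648c71_nt.Qap.A2
import Pool.Agent.Lib.MP_648c71_nt.Qap.C3
import Pool.Agent.Lib.MP_648c71_nt.Qap.D1

/-! ROW D2: the sifted sets -/

set_option autoImplicit false

namespace Pool.Agent.Lib.MP_648c71_nt.Qap

open Finset

/-- factorial bound -/
private theorem D2_fact (S : ℝ) (hS : 0 ≤ S) (n : ℕ) (hn : 8 * S ≤ n) :
    S ^ n / n.factorial ≤ Real.exp (-(n : ℝ)) := by
  have h1 := Real.pow_div_factorial_le_exp (n : ℝ) (by positivity) n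
  have h2 : S ^ n ≤ ((n : ℝ) / 8) ^ n := by
    apply pow_le_pow_left₀ hS
    linarith
  have h3 : S ^ n / n.factorial ≤ ((n : ℝ) / 8) ^ n / n.factorial := by
    gcongr
  refine h3.trans ?_
  have h4 : ((n : ℝ) / 8) ^ n / n.factorial = (n : ℝ) ^ n / n.factorial / 8 ^ n := by
    rw [div_pow]; field_simp
  rw [h4]
  have h5 : Real.exp 2 ≤ 8 := by
    have h6 : Real.exp 2 = Real.exp 1 * Real.exp 1 := by rw [← Real.exp_add]; norm_num
    have h7 := Real.exp_one_lt_d9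
    have h8 := Real.exp_pos 1
    rw [h6]; nlinarith
  have h6 : Real.exp (-(n : ℝ)) = Real.exp n / Real.exp 2 ^ n := by
    rw [← Real.exp_nat_mul, ← Real.exp_sub]
    congr 1; ring
  rw [h6]
  have h7 : (n : ℝ) ^ n / n.factorial / 8 ^ n ≤ Real.exp n / 8 ^ n := by gcongr
  refine h7.trans ?_
  have h9 : Real.exp 2 ^ n ≤ 8 ^ n := pow_le_pow_left₀ (Real.exp_pos 2).le h5 n
  gcongr

/-- growth -/
private theorem D2_growth (b J k0 : ℕ) (hb : 2 ≤ b) : ∃ I₀ : ℕ, ∀ I : ℕ, I₀ ≤ I →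
    (J + 2 + b ^ (3 * I)) * (2 * (k0 * (I + 1))) ≤ b ^ (4 * I) := by
  have h1 := tendsto_pow_const_div_const_pow_of_one_lt 1 (r := (2 : ℝ)) (by norm_num)
  have hpos : (0 : ℝ) < 1 / (4 * ((J : ℝ) + 3) * (k0 + 1)) := by positivity
  have h2 := (h1.eventually (gt_mem_nhds hpos)).and (Filter.eventually_ge_atTop 1)
  obtain ⟨I₀, hI₀⟩ := Filter.eventually_atTop.1 h2
  refine ⟨I₀, fun I hI => ?_⟩
  obtain ⟨h3, h4⟩ := hI₀ I hI
  rw [pow_one, div_lt_div_iff₀ (by positivity) (by positivity), one_mul] at h3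
  have h5 : (J + 3) * (2 * (k0 * (I + 1))) ≤ 2 ^ I := by
    have h6 : ((I * (4 * (J + 3) * (k0 + 1)) : ℕ) : ℝ) < ((2 ^ I : ℕ) : ℝ) := by
      push_cast; linarith
    have h7 : I * (4 * (J + 3) * (k0 + 1)) < 2 ^ I := by exact_mod_cast h6
    have h8 : (J + 3) * (2 * (k0 * (I + 1))) ≤ I * (4 * (J + 3) * (k0 + 1)) := by
      have h9 : k0 * (I + 1) ≤ (k0 + 1) * (2 * I) := Nat.mul_le_mul (by omega) (by omega)
      calc (J + 3) * (2 * (k0 * (I + 1))) ≤ (J + 3) * (2 * ((k0 + 1) * (2 * I))) := by gcongr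
        _ = I * (4 * (J + 3) * (k0 + 1)) := by ring
    omega
  have h6 : 2 ^ I ≤ b ^ I := Nat.pow_le_pow_left hb I
  have h7 : J + 2 + b ^ (3 * I) ≤ (J + 3) * b ^ (3 * I) := by
    have : 1 ≤ b ^ (3 * I) := Nat.one_le_pow _ _ (by omega)
    nlinarith
  calc (J + 2 + b ^ (3 * I)) * (2 * (k0 * (I + 1)))
      ≤ ((J + 3) * b ^ (3 * I)) * (2 * (k0 * (I + 1))) := by gcongr
    _ = b ^ (3 * I) * ((J + 3) * (2 * (k0 * (I + 1)))) := by ring
    _ ≤ b ^ (3 * I) * b ^ I := by gcongr; exact h5.trans h6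
    _ = b ^ (4 * I) := by rw [← pow_add]; congr 1; ring

namespace Par

variable (P : Par)

/-- the count with `J` shifts -/
private theorem D2_count (m : ℕ) {J : ℕ} (T : Fin J → Finset ℕ) (a : Fin J → ℕ)
    (ha : Function.Injective a) (hT : ∀ i, ∀ p ∈ T i, p.Prime)
    (hTa : ∀ i, ∀ p ∈ T i, ∀ j, a j < p) (ρ : ℕ → ℕ)
    (hρ : ∀ i, ∀ p ∈ T i, p ∣ P.Q (ρ p) m) (z k X : ℕ) (hz : ∀ i, ∀ p ∈ T i, p ≤ z)
    (F : Finset ℕ) (hF : F ⊆ Icc 1 X) (hF2 : ∀ x ∈ F, ∀ i : Fin J, ∀ p ∈ T i, ¬ p ∣ P.Q (x + a i) m) :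
    (F.card : ℝ) ≤
      X * (Real.exp (-∑ i, ∑ p ∈ T i, (1 : ℝ) / p) +
        (∑ i, ∑ p ∈ T i, (1 : ℝ) / p) ^ (2 * k + 1) / (2 * k + 1).factorial) +
      (1 + (J : ℝ) * z) ^ (2 * k) := by
  classical
  let s : Finset ℕ := univ.biUnion T
  let r : ℕ → Fin J → ℕ := fun p i => (ρ p + (p - 1) * a i) % p
  let Ω : ℕ → Finset ℕ := fun p => (univ.filter (fun i => p ∈ T i)).image (r p)
  have hs : ∀ p, p ∈ s ↔ ∃ i, p ∈ T i := fun p => by simp [s]
  have hr : ∀ p : ℕ, p.Prime → ∀ i, ((r p i : ℕ) : ZMod p) = (ρ p : ZMod p) - (a i : ZMod p) := by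
    intro p hp i
    have h1 : (((p - 1 : ℕ)) : ZMod p) = -1 := by
      rw [Nat.cast_sub hp.one_lt.le]; simp
    show (((ρ p + (p - 1) * a i) % p : ℕ) : ZMod p) = _
    rw [ZMod.natCast_mod]
    push_cast
    rw [h1]; ring
  have hcard : ∀ p ∈ s, (Ω p).card = (univ.filter (fun i => p ∈ T i)).card := by
    intro p hp
    obtain ⟨i0, hi0⟩ := (hs p).1 hp
    have hpp := hT i0 p hi0
    apply card_image_of_injOn
    intro i _ j _ hij
    have h1 : ((r p i : ℕ) : ZMod p) = ((r p j : ℕ) : ZMod p) := by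
      have : r p i = r p j := hij
      rw [this]
    rw [hr p hpp, hr p hpp, sub_right_inj, ZMod.natCast_eq_natCast_iff] at h1
    exact ha (Nat.ModEq.eq_of_lt_of_lt h1 (hTa i0 p hi0 i) (hTa i0 p hi0 j))
  have hsum : ∑ p ∈ s, ((Ω p).card : ℝ) / p = ∑ i, ∑ p ∈ T i, (1 : ℝ) / p := by
    have h1 : ∀ p ∈ s, ((Ω p).card : ℝ) / p = ∑ i, if p ∈ T i then (1 : ℝ) / p else 0 := by
      intro p hp
      rw [hcard p hp, ← sum_filter, sum_const, nsmul_eq_mul]
      ring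
    rw [sum_congr rfl h1, sum_comm]
    apply sum_congr rfl
    intro i _
    rw [← sum_filter]
    apply sum_congr _ (fun _ _ => rfl)
    ext p
    simp only [mem_filter, hs]
    constructor
    · exact fun h => h.2
    · exact fun h => ⟨⟨i, h⟩, h⟩
  have hb := brun s (fun p hp => by
      obtain ⟨i, hi⟩ := (hs p).1 hp
      exact hT i p hi) Ω
    (fun p hp => by
      obtain ⟨i, hi⟩ := (hs p).1 hp
      intro q hq
      obtain ⟨j, _, rfl⟩ := mem_image.1 hq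
      exact mem_range.2 (Nat.mod_lt _ (hT i p hi).pos)) J z k X
    (fun p hp => by
      rw [hcard p hp]
      exact (card_le_univ _).trans (by simp))
    (fun p hp => by
      obtain ⟨i, hi⟩ := (hs p).1 hp
      exact hz i p hi)
  rw [hsum] at hb
  refine le_trans ?_ hb
  have : F ⊆ (Icc 1 X).filter (fun x => ∀ p ∈ s, x % p ∉ Ω p) := by
    intro x hx
    refine mem_filter.2 ⟨hF hx, fun p hp hmem => ?_⟩
    obtain ⟨i, hi, hxi⟩ := mem_image.1 hmem
    have hi' : p ∈ T i := (mem_filter.1 hi).2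
    have hpp := hT i p hi'
    apply hF2 x hx i p hi'
    have h1 : (x : ZMod p) = (ρ p : ZMod p) - (a i : ZMod p) := by
      rw [← hr p hpp i, hxi, ZMod.natCast_mod]
    have h2 : ((P.Q (x + a i) m : ℕ) : ZMod p) = ((P.Q (ρ p) m : ℕ) : ZMod p) := by
      unfold Q
      push_cast
      rw [h1]; ring
    have h3 : ((P.Q (ρ p) m : ℕ) : ZMod p) = 0 := (ZMod.natCast_eq_zero_iff _ _).2 (hρ i p hi')
    rw [h3] at h2
    exact (ZMod.natCast_eq_zero_iff _ _).1 h2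
  exact_mod_cast card_le_card this

open Classical in
/-- ROW D2.  The sifted sets.
Proof.  Choose `J` with `J c ≥ 4κ log b + 1`.  Let `T_i` be the primes of the range of `i` with class in
`W i` (`⊆ K`, so `ξ(p) = 1`); for `X ≥ X₀` all these primes exceed `m A^{J+3}`, hence do not divide `mA`,
and have a root `ρ_p` of `Q(·,m)` (`exists_root`).  `Ω p` = residues of `ρ_p - A^{i+1} m A` mod `p` for `i`
with `p ∈ T_i`: distinct for distinct `i`, so `|Ω p| = #{i : p ∈ T_i} ≤ J`.  If `x` is counted then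
`x mod p ∉ Ω p`.  `S := ∑ |Ω p|/p = ∑_i ∑_{p ∈ T_i} 1/p ∈ [J c I, J·2CI]` (`rg_lower`, `rg_upper`;
`I = bI b X`).  Apply `brun` with `h = J`, `z = 2^(b^(3I))`, `k = ⌈10·(2JC + Jc) (I+1)⌉` or so:
`S^{2k+1}/(2k+1)! ≤ (eS/(2k+1))^{2k+1} ≤ e^{-2k-1} ≤ e^{-JcI}`, and `(1+Jz)^{2k} ≤ √X ≤ X e^{-JcI}`
because `b^(3I)·(4k+..) ≤ b^(4I)/2` for large `I` and `2^(b^(4I)) ≤ X`.  Finally
`e^{-JcI} (1+log X)^κ ≤ C`. -/
theorem sift_bound {b : ℕ} {c : ℝ} (hb : BlockLower b c) (κ m : ℕ) [NeZero m] :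
    ∃ (J : ℕ) (C : ℝ), 1 ≤ J ∧ 0 < C ∧ ∀ X : ℕ, 1 ≤ X → ∀ (ι : Fin J → Bool)
      (W : Fin J → Finset (ZMod (P.MM m J))ˣ), (∀ i, W i ⊆ P.K (P.MM m J)) →
      (∀ i, (P.MM m J).totient ≤ 4 * (W i).card) →
      (((Icc 1 X).filter (fun x => ∀ i : Fin J, ∀ p ∈ (if ι i then rg1 b X else rg2 b X),
        (∃ w ∈ W i, (w : ZMod (P.MM m J)) = (p : ZMod (P.MM m J))) →
          ¬ p ∣ P.Q (x + P.A ^ ((i : ℕ) + 1) * m * P.A) m)).card : ℝ) * (1 + Real.log X) ^ κ ≤ C * X := by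
  have hb2 := hb.1
  have hc := hb.2.1
  have hm : 0 < m := NeZero.pos m
  have hA4 : 4 ≤ P.A := Nat.le_of_dvd P.hA P.four_dvd_A
  obtain ⟨C1, hC1, hup⟩ := rg_upper b hb2
  have hL : 0 ≤ Real.log b := Real.log_nonneg (by exact_mod_cast (by omega : 1 ≤ b))
  obtain ⟨J, hJ1, hJ⟩ : ∃ J : ℕ, 1 ≤ J ∧ 4 * κ * Real.log b + 1 ≤ J * c := by
    obtain ⟨n, hn⟩ := exists_nat_ge ((4 * κ * Real.log b + 1) / c)
    refine ⟨n + 1, by omega, ?_⟩
    rw [div_le_iff₀ hc] at hn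
    push_cast; nlinarith
  obtain ⟨X1, hX1⟩ := rg_lower hb (P.MM m J)
  obtain ⟨k0, hk0⟩ := exists_nat_ge (8 * (J * C1) + J * c)
  obtain ⟨I0, hI0⟩ := D2_growth b J (k0 + 1) hb2
  let a : Fin J → ℕ := fun i => P.A ^ ((i : ℕ) + 1) * m * P.A
  have haA : ∀ i, a i ≤ P.A ^ (J + 1) * m * P.A := by
    intro i
    have : P.A ^ ((i : ℕ) + 1) ≤ P.A ^ (J + 1) := Nat.pow_le_pow_right P.hA (by omega)
    show P.A ^ ((i : ℕ) + 1) * m * P.A ≤ _
    gcongr
  have hmA : m * P.A ≤ P.A ^ (J + 1) * m * P.A := by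
    have : 1 ≤ P.A ^ (J + 1) := Nat.one_le_pow _ _ P.hA
    calc m * P.A = 1 * m * P.A := by ring
      _ ≤ _ := by gcongr
  have ha_inj : Function.Injective a := by
    intro i j hij
    have h1 : P.A ^ ((i : ℕ) + 1) = P.A ^ ((j : ℕ) + 1) := by
      have h2 : P.A ^ ((i : ℕ) + 1) * m * P.A = P.A ^ ((j : ℕ) + 1) * m * P.A := hij
      have h3 := Nat.eq_of_mul_eq_mul_right P.hA h2
      exact Nat.eq_of_mul_eq_mul_right hm h3
    have h2 := Nat.pow_right_injective (by omega : 2 ≤ P.A) h1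
    exact Fin.ext (by omega)
  obtain ⟨X2, hX2⟩ := bI_tendsto b hb2 (max I0 (P.A ^ (J + 1) * m * P.A))
  obtain ⟨C3, hC3, hlog⟩ := log_le_bI b κ hb2
  have hX0 : ∃ X0 : ℕ, X1 ≤ X0 ∧ X2 ≤ X0 ∧ 2 ≤ X0 :=
    ⟨max X1 (max X2 2), by simp, by simp, by simp⟩
  obtain ⟨X0, hX01, hX02, hX03⟩ := hX0
  have hlogX0 : 0 ≤ Real.log X0 := Real.log_nonneg (by exact_mod_cast (by omega : 1 ≤ X0))
  refine ⟨J, 3 * C3 + (1 + Real.log X0) ^ κ, hJ1, by positivity, ?_⟩
  intro X hX ι W hWK hWc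
  have hlogX : 0 ≤ Real.log X := Real.log_nonneg (by exact_mod_cast hX)
  have hXpos : (0 : ℝ) < X := by exact_mod_cast hX
  set F : Finset ℕ := (Icc 1 X).filter (fun x => ∀ i : Fin J, ∀ p ∈ (if ι i then rg1 b X else rg2 b X),
        (∃ w ∈ W i, (w : ZMod (P.MM m J)) = (p : ZMod (P.MM m J))) →
          ¬ p ∣ P.Q (x + P.A ^ ((i : ℕ) + 1) * m * P.A) m) with hFdef
  have hFcard : (F.card : ℝ) ≤ X := by
    have h1 : F.card ≤ (Icc 1 X).card := card_le_card (filter_subset _ _)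
    rw [Nat.card_Icc, Nat.add_sub_cancel] at h1
    exact_mod_cast h1
  rcases lt_or_ge X X0 with hlt | hge
  · have h1 : (1 + Real.log X) ^ κ ≤ (1 + Real.log X0) ^ κ := by
      apply pow_le_pow_left₀ (by linarith)
      have := Real.log_le_log hXpos (by exact_mod_cast hlt.le : (X : ℝ) ≤ X0)
      linarith
    calc (F.card : ℝ) * (1 + Real.log X) ^ κ ≤ X * (1 + Real.log X0) ^ κ := by
          apply mul_le_mul hFcard h1 (by positivity) hXpos.le
      _ ≤ (3 * C3 + (1 + Real.log X0) ^ κ) * X := by nlinarith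
  · -- the large case
    have hI := hX2 X (hX02.trans hge)
    set I : ℕ := bI b X with hIdef
    have hI0' : I0 ≤ I := (le_max_left _ _).trans hI
    have hIA : P.A ^ (J + 1) * m * P.A ≤ I := (le_max_right _ _).trans hI
    have hgrow := hI0 I hI0'
    let R : Fin J → Finset ℕ := fun i => if ι i then rg1 b X else rg2 b X
    have hR : ∀ i, R i = rg1 b X ∨ R i = rg2 b X := by
      intro i
      show (if ι i then rg1 b X else rg2 b X) = _ ∨ (if ι i then rg1 b X else rg2 b X) = _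
      by_cases h : ι i
      · left; simp [h]
      · right; simp [h]
    have hRp : ∀ i, ∀ p ∈ R i, p.Prime ∧ 2 ^ (b ^ I) < p ∧ p ≤ 2 ^ (b ^ (3 * I)) := by
      intro i p hp
      have hbpos : 0 < b := by omega
      rcases hR i with h | h
      · rw [h, rg1, mem_filter, mem_Ioc] at hp
        refine ⟨hp.2, hp.1.1, hp.1.2.trans ?_⟩
        exact Nat.pow_le_pow_right (by norm_num) (Nat.pow_le_pow_right hbpos (by omega))
      · rw [h, rg2, mem_filter, mem_Ioc] at hp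
        refine ⟨hp.2, lt_of_le_of_lt ?_ hp.1.1, hp.1.2⟩
        exact Nat.pow_le_pow_right (by norm_num) (Nat.pow_le_pow_right hbpos (by omega))
    have hbig : P.A ^ (J + 1) * m * P.A ≤ 2 ^ (b ^ I) := by
      have h1 : I < 2 ^ I := Nat.lt_two_pow_self
      have h2 : 2 ^ I ≤ b ^ I := Nat.pow_le_pow_left hb2 I
      have h3 : b ^ I < 2 ^ (b ^ I) := Nat.lt_two_pow_self
      omega
    let T : Fin J → Finset ℕ := fun i =>
      (R i).filter (fun p => ∃ w ∈ W i, (w : ZMod (P.MM m J)) = ((p : ℕ) : ZMod (P.MM m J)))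
    have hTR : ∀ i, ∀ p ∈ T i, p ∈ R i := fun i p hp => (mem_filter.1 hp).1
    have hnd : ∀ i, ∀ p ∈ T i, ¬ p ∣ m * P.A := by
      intro i p hp hd
      have h1 := Nat.le_of_dvd (by have := P.hA; positivity) hd
      have h2 := (hRp i p (hTR i p hp)).2.1
      omega
    have hxi : ∀ i, ∀ p ∈ T i, P.xi p = 1 := by
      intro i p hp
      obtain ⟨w, hw, hwp⟩ := (mem_filter.1 hp).2
      have h1 := hWK i hw
      rw [K, mem_filter] at h1
      have h2 := h1.2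
      rw [hwp, ZMod.val_natCast] at h2
      rw [← h2]
      have hpp := (hRp i p (hTR i p hp)).1
      apply P.xi_mod_A
      · rw [hpp.coprime_iff_not_dvd]
        exact fun h => hnd i p hp (h.mul_left _)
      · have h3 : p ≡ p % P.MM m J [MOD P.MM m J] := (Nat.mod_modEq _ _).symm
        exact h3.of_dvd (Dvd.intro_left _ rfl)
    have hroot : ∀ p : ℕ, ∃ ρ : ℕ, (∃ i, p ∈ T i) → p ∣ P.Q ρ m := by
      intro p
      by_cases h : ∃ i, p ∈ T i
      · obtain ⟨i, hi⟩ := h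
        obtain ⟨ρ, _, hρ⟩ := P.exists_root (hRp i p (hTR i p hi)).1 (hnd i p hi) (hxi i p hi)
        exact ⟨ρ, fun _ => hρ⟩
      · exact ⟨0, fun h' => absurd h' h⟩
    choose ρ hρ using hroot
    have hcount := P.D2_count m T a ha_inj (fun i p hp => (hRp i p (hTR i p hp)).1)
      (fun i p hp j => lt_of_le_of_lt ((haA j).trans hbig) (hRp i p (hTR i p hp)).2.1) ρ
      (fun i p hp => hρ p ⟨i, hp⟩) (2 ^ (b ^ (3 * I))) ((k0 + 1) * (I + 1)) X
      (fun i p hp => (hRp i p (hTR i p hp)).2.2) F (filter_subset _ _)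
      (by
        intro x hx i p hp
        have h1 := (mem_filter.1 hx).2 i p (hTR i p hp) (mem_filter.1 hp).2
        exact h1)
    set S : ℝ := ∑ i, ∑ p ∈ T i, (1 : ℝ) / p with hS
    have hSlow : (J : ℝ) * c * I ≤ S := by
      have h1 : ∀ i ∈ (univ : Finset (Fin J)), c * I ≤ ∑ p ∈ T i, (1 : ℝ) / p := by
        intro i _
        exact hX1 X (hX01.trans hge) (W i) (hWc i) (R i) (hR i)
      have h2 := card_nsmul_le_sum _ _ _ h1
      rw [card_univ, Fintype.card_fin, nsmul_eq_mul] at h2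
      rw [hS]; linarith
    have hSup : S ≤ (J : ℝ) * C1 * I := by
      have h1 : ∀ i ∈ (univ : Finset (Fin J)), ∑ p ∈ T i, (1 : ℝ) / p ≤ C1 * I := by
        intro i _
        refine le_trans ?_ (hup X (R i) (hR i))
        exact sum_le_sum_of_subset_of_nonneg (filter_subset _ _) (fun _ _ _ => by positivity)
      have h2 := sum_le_card_nsmul _ _ _ h1
      rw [card_univ, Fintype.card_fin, nsmul_eq_mul] at h2
      rw [hS]; linarith
    have hIr : (0 : ℝ) ≤ I := by positivity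
    have hS0 : 0 ≤ S := le_trans (by positivity) hSlow
    have hk : (k0 : ℝ) * I ≤ (((k0 + 1) * (I + 1) : ℕ) : ℝ) := by
      push_cast; nlinarith [(Nat.cast_nonneg k0 : (0 : ℝ) ≤ k0)]
    have hJcI : (J : ℝ) * c * I ≤ (((k0 + 1) * (I + 1) : ℕ) : ℝ) := by
      refine le_trans ?_ hk
      apply mul_le_mul_of_nonneg_right _ hIr
      have : 0 ≤ 8 * ((J : ℝ) * C1) := by positivity
      linarith
    have h8S : 8 * S ≤ ((2 * ((k0 + 1) * (I + 1)) + 1 : ℕ) : ℝ) := by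
      have h1 : 8 * S ≤ (k0 : ℝ) * I := by
        have h2 : 8 * S ≤ 8 * (J * C1) * I := by linarith
        refine h2.trans (mul_le_mul_of_nonneg_right ?_ hIr)
        have : 0 ≤ (J : ℝ) * c := by positivity
        linarith
      have h3 := h1.trans hk
      push_cast at h3 ⊢
      have : (0 : ℝ) ≤ (k0 + 1) * (I + 1) := by positivity
      linarith
    have e1 : Real.exp (-S) ≤ Real.exp (-(J * c * I)) := Real.exp_le_exp.2 (by linarith)
    have e2 : S ^ (2 * ((k0 + 1) * (I + 1)) + 1) / (2 * ((k0 + 1) * (I + 1)) + 1).factorial ≤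
        Real.exp (-(J * c * I)) := by
      refine (D2_fact S hS0 _ h8S).trans (Real.exp_le_exp.2 ?_)
      push_cast at hJcI ⊢
      have : (0 : ℝ) ≤ (k0 + 1) * (I + 1) := by positivity
      linarith
    have e3 : (1 + (J : ℝ) * ((2 ^ (b ^ (3 * I)) : ℕ) : ℝ)) ^ (2 * ((k0 + 1) * (I + 1))) ≤
        X * Real.exp (-(J * c * I)) := by
      have f1 : 1 + J * 2 ^ (b ^ (3 * I)) ≤ 2 ^ (J + 1 + b ^ (3 * I)) := by
        have g1 : J + 1 < 2 ^ (J + 1) := Nat.lt_two_pow_self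
        have g2 : 1 ≤ 2 ^ (b ^ (3 * I)) := Nat.one_le_two_pow
        calc 1 + J * 2 ^ (b ^ (3 * I)) ≤ (J + 1) * 2 ^ (b ^ (3 * I)) := by nlinarith
          _ ≤ 2 ^ (J + 1) * 2 ^ (b ^ (3 * I)) := by gcongr
          _ = _ := by rw [← pow_add]
      have f2 : (1 + J * 2 ^ (b ^ (3 * I))) ^ (2 * ((k0 + 1) * (I + 1))) *
          2 ^ (2 * ((k0 + 1) * (I + 1))) ≤ X := by
        calc (1 + J * 2 ^ (b ^ (3 * I))) ^ (2 * ((k0 + 1) * (I + 1))) *
              2 ^ (2 * ((k0 + 1) * (I + 1)))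
            ≤ (2 ^ (J + 1 + b ^ (3 * I))) ^ (2 * ((k0 + 1) * (I + 1))) *
              2 ^ (2 * ((k0 + 1) * (I + 1))) := by gcongr
          _ = 2 ^ ((J + 2 + b ^ (3 * I)) * (2 * ((k0 + 1) * (I + 1)))) := by
              rw [← pow_mul, ← pow_add]; congr 1; ring
          _ ≤ 2 ^ (b ^ (4 * I)) := Nat.pow_le_pow_right (by norm_num) hgrow
          _ ≤ X := pow_bI_le b X hb2 (hX03.trans hge)
      have f3 : Real.exp (J * c * I) ≤ (2 : ℝ) ^ (2 * ((k0 + 1) * (I + 1))) := by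
        have g1 : Real.exp (J * c * I) ≤ Real.exp (((k0 + 1) * (I + 1) : ℕ) : ℝ) :=
          Real.exp_le_exp.2 hJcI
        refine g1.trans ?_
        have g2 : Real.exp 1 ≤ (2 : ℝ) ^ 2 := by
          have := Real.exp_one_lt_d9
          linarith
        have g3 := pow_le_pow_left₀ (Real.exp_pos 1).le g2 ((k0 + 1) * (I + 1))
        rw [Real.exp_one_pow, ← pow_mul] at g3
        exact g3
      have f4 : (1 + (J : ℝ) * ((2 ^ (b ^ (3 * I)) : ℕ) : ℝ)) ^ (2 * ((k0 + 1) * (I + 1))) *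
          (2 : ℝ) ^ (2 * ((k0 + 1) * (I + 1))) ≤ X := by exact_mod_cast f2
      rw [Real.exp_neg, ← div_eq_mul_inv, le_div_iff₀ (Real.exp_pos _)]
      exact le_trans (mul_le_mul_of_nonneg_left f3 (by positivity)) f4
    have e4 : (F.card : ℝ) ≤ 3 * X * Real.exp (-(J * c * I)) := by
      refine hcount.trans ?_
      have g1 : (X : ℝ) * (Real.exp (-S) + S ^ (2 * ((k0 + 1) * (I + 1)) + 1) /
        (2 * ((k0 + 1) * (I + 1)) + 1).factorial) ≤
        X * (Real.exp (-(J * c * I)) + Real.exp (-(J * c * I))) :=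
        mul_le_mul_of_nonneg_left (add_le_add e1 e2) hXpos.le
      linarith
    have e5 := hlog X hX
    calc (F.card : ℝ) * (1 + Real.log X) ^ κ
        ≤ (3 * X * Real.exp (-(J * c * I))) * (C3 * Real.exp (4 * κ * Real.log b * I)) := by
          apply mul_le_mul e4 e5 (by positivity) (by positivity)
      _ = 3 * C3 * X * Real.exp (-(J * c * I) + 4 * κ * Real.log b * I) := by
          rw [Real.exp_add]; ring
      _ ≤ 3 * C3 * X * 1 := by
          apply mul_le_mul_of_nonneg_left _ (by positivity)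
          rw [Real.exp_le_one_iff]
          nlinarith
      _ ≤ (3 * C3 + (1 + Real.log X0) ^ κ) * X := by
          have : 0 ≤ (1 + Real.log X0) ^ κ * X := by positivity
          linarith

end Par

end Pool.Agent.Lib.MP_648c71_nt.Qap
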