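import Pool.Agent.Lib.MP_648c71_nt.Qap.A3
import Pool.Agent.Lib.MP_648c71_nt.Qap.A4
import Pool.Agent.Lib.MP_648c71_nt.Qap.D2

/-! ROW D3: assembly of the bound for S_m -/

set_option autoImplicit false

namespace Pool.Agent.Lib.MP_648c71_nt.Qap

open Finset

namespace Par

variable (P : Par)

theorem D3_Q_scale (t X m : ℕ) (hX : 1 ≤ X) : P.Q (t * X) m ≤ P.Q t m * X ^ 2 := by
  unfold Q
  have h1 : X ≤ X ^ 2 := Nat.le_self_pow two_ne_zero X
  have h2 : 1 ≤ X ^ 2 := Nat.one_le_pow _ _ hX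
  calc (t * X) ^ 2 + P.B * (t * X) * m + P.A * m ^ 2
      = t ^ 2 * X ^ 2 + P.B * t * m * X + P.A * m ^ 2 * 1 := by ring
    _ ≤ t ^ 2 * X ^ 2 + P.B * t * m * X ^ 2 + P.A * m ^ 2 * X ^ 2 := by gcongr
    _ = (t ^ 2 + P.B * t * m + P.A * m ^ 2) * X ^ 2 := by ring

theorem D3_sX_mono {m h x y : ℕ} (hxy : x ≤ y) : P.sX m h x ≤ P.sX m h y := by
  unfold sX; gcongr

theorem D3_sX_strict {m h x y : ℕ} (hxy : x < y) : P.sX m h x < P.sX m h y := by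
  unfold sX
  have h1 : x * (x + h * m * P.A) < y * (y + h * m * P.A) := by
    have : x + h * m * P.A < y + h * m * P.A := by omega
    exact Nat.mul_lt_mul_of_le_of_lt hxy.le this (by omega)
  have h2 : P.B * m * x ≤ P.B * m * y := Nat.mul_le_mul_left _ hxy.le
  omega

theorem D3_sX_inj {m h x y : ℕ} (he : P.sX m h x = P.sX m h y) : x = y := by
  rcases lt_trichotomy x y with h1 | h1 | h1
  · exact absurd he (P.D3_sX_strict h1).ne
  · exact h1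
  · exact absurd he (P.D3_sX_strict h1).ne'

theorem D3_sX_le (m h X : ℕ) (hX : 1 ≤ X) :
    P.sX m h X ≤ (1 + h * m * P.A + P.B * m + P.A * m ^ 2) * X ^ 2 := by
  unfold sX
  have h1 : X ≤ X ^ 2 := Nat.le_self_pow two_ne_zero X
  have h2 : 1 ≤ X ^ 2 := Nat.one_le_pow _ _ hX
  calc X * (X + h * m * P.A) + P.B * m * X + P.A * m ^ 2
      = X ^ 2 + h * m * P.A * X + P.B * m * X + P.A * m ^ 2 * 1 := by ring
    _ ≤ X ^ 2 + h * m * P.A * X ^ 2 + P.B * m * X ^ 2 + P.A * m ^ 2 * X ^ 2 := by gcongr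
    _ = _ := by ring

open Classical in
/-- exceptional points of the first kind -/
theorem D3_first {δ ε : ℝ} (hδ : 0 ≤ δ) (hε : 0 < ε) (hs : P.Sparse δ) {m : ℕ} (hm : 0 < m)
    (g : ℕ) : ∃ C : ℝ, 0 < C ∧ ∀ X : ℕ, 1 ≤ X →
      (((Icc 1 X).filter (fun x => ∃ E, P.XP m (x + g) E ∧
        P.Q (x + g) m ≤ E * P.Q (x + g) m)).card : ℝ) ≤ C * (X : ℝ) ^ (2 * (δ + ε)) := by
  obtain ⟨C, hC, h⟩ := P.exc_count hδ hε hs hm
  set t : ℕ := 1 + g with ht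
  set u : ℕ := t + P.Q t m with hu
  refine ⟨C * (u : ℝ) ^ (δ + ε), by positivity, fun X hX => ?_⟩
  set s := (Icc 1 X).filter (fun x => ∃ E, P.XP m (x + g) E ∧
        P.Q (x + g) m ≤ E * P.Q (x + g) m) with hsdef
  have hX0 : (0:ℝ) ≤ X := by positivity
  have hinj : Set.InjOn (fun x => x + g) (s : Set ℕ) := fun x _ y _ h => by
    have : x + g = y + g := h
    omega
  have hXt : X + g ≤ t * X := by
    rw [ht]
    have : g ≤ g * X := Nat.le_mul_of_pos_right g hX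
    linarith
  have h1 := h (t * X) (P.Q (t * X) m) (by rw [ht]; nlinarith) (s.image (fun x => x + g)) (by
    intro y hy
    rw [mem_image] at hy
    obtain ⟨x, hx, rfl⟩ := hy
    rw [hsdef, mem_filter, mem_Icc] at hx
    obtain ⟨⟨hx1, hxX⟩, E, hE1, hE2⟩ := hx
    have hle : x + g ≤ t * X := by omega
    exact ⟨hle, E, hE1, hE2.trans (Nat.mul_le_mul_left _ (P.Q_mono hle))⟩)
  rw [card_image_of_injOn hinj] at h1
  refine h1.trans ?_
  rw [mul_assoc]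
  refine mul_le_mul_of_nonneg_left ?_ hC.le
  have h2 : ((t * X + P.Q (t * X) m : ℕ) : ℝ) ≤ (u : ℝ) * (X : ℝ) ^ (2:ℝ) := by
    have h3 : t * X + P.Q (t * X) m ≤ u * X ^ 2 := by
      have h4 := P.D3_Q_scale t X m hX
      have h5 : X ≤ X ^ 2 := Nat.le_self_pow two_ne_zero X
      have h6 : t * X ≤ t * X ^ 2 := Nat.mul_le_mul_left _ h5
      calc t * X + P.Q (t * X) m ≤ t * X ^ 2 + P.Q t m * X ^ 2 := add_le_add h6 h4
        _ = u * X ^ 2 := by rw [hu]; ring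
    have h7 : ((t * X + P.Q (t * X) m : ℕ) : ℝ) ≤ ((u * X ^ 2 : ℕ) : ℝ) := by exact_mod_cast h3
    refine h7.trans (le_of_eq ?_)
    push_cast
    rw [← Real.rpow_natCast (X : ℝ) 2]
    norm_num
  calc ((t * X + P.Q (t * X) m : ℕ) : ℝ) ^ (δ + ε)
      ≤ ((u : ℝ) * (X : ℝ) ^ (2:ℝ)) ^ (δ + ε) :=
        Real.rpow_le_rpow (by positivity) h2 (by linarith)
    _ = (u : ℝ) ^ (δ + ε) * (X : ℝ) ^ (2 * (δ + ε)) := by
        rw [Real.mul_rpow (by positivity) (by positivity), ← Real.rpow_mul hX0]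

open Classical in
/-- exceptional points of the second kind -/
theorem D3_second {δ ε : ℝ} (hδ : 0 ≤ δ) (hε : 0 < ε) (hs : P.Sparse δ) {m : ℕ} (hm : 0 < m)
    {g : ℕ} (hg : 0 < g) : ∃ C : ℝ, 0 < C ∧ ∀ X Z : ℕ, 1 ≤ X → 1 ≤ Z →
      (((Icc 1 X).filter (fun x => ∃ E, P.XP (g * m ^ 2 * P.A) (P.sX m g x) E ∧
        P.Q (P.sX m g x) (g * m ^ 2 * P.A) ≤ E * (Z * P.Q x m))).card : ℝ) ≤
        C * ((X : ℝ) ^ (2 * (δ + ε)) * (Z : ℝ) ^ (δ + ε)) := by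
  have hA := P.hA
  obtain ⟨C, hC, h⟩ := P.exc_count hδ hε hs (m := g * m ^ 2 * P.A) (by positivity)
  set t : ℕ := 1 + g * m * P.A + P.B * m + P.A * m ^ 2 with ht
  set u : ℕ := t + P.Q 1 m with hu
  refine ⟨C * (u : ℝ) ^ (δ + ε), by positivity, fun X Z hX hZ => ?_⟩
  set s := (Icc 1 X).filter (fun x => ∃ E, P.XP (g * m ^ 2 * P.A) (P.sX m g x) E ∧
        P.Q (P.sX m g x) (g * m ^ 2 * P.A) ≤ E * (Z * P.Q x m)) with hsdef
  have hX0 : (0:ℝ) ≤ X := by positivity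
  have hinj : Set.InjOn (fun x => P.sX m g x) (s : Set ℕ) := fun x _ y _ h => P.D3_sX_inj h
  have h1 := h (t * X ^ 2) (Z * P.Q X m) (by
      have : 1 ≤ X ^ 2 := Nat.one_le_pow _ _ hX
      have ht1 : 1 ≤ t := by omega
      exact Nat.one_le_iff_ne_zero.2 (by positivity)) (s.image (fun x => P.sX m g x)) (by
    intro y hy
    rw [mem_image] at hy
    obtain ⟨x, hx, rfl⟩ := hy
    rw [hsdef, mem_filter, mem_Icc] at hx
    obtain ⟨⟨hx1, hxX⟩, E, hE1, hE2⟩ := hx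
    refine ⟨(P.D3_sX_mono hxX).trans (P.D3_sX_le m g X hX), E, hE1, hE2.trans ?_⟩
    exact Nat.mul_le_mul_left _ (Nat.mul_le_mul_left _ (P.Q_mono hxX)))
  rw [card_image_of_injOn hinj] at h1
  refine h1.trans ?_
  rw [mul_assoc]
  refine mul_le_mul_of_nonneg_left ?_ hC.le
  have h2 : ((t * X ^ 2 + Z * P.Q X m : ℕ) : ℝ) ≤ (u : ℝ) * ((X : ℝ) ^ (2:ℝ) * Z) := by
    have h3 : t * X ^ 2 + Z * P.Q X m ≤ u * (X ^ 2 * Z) := by
      have h4 := P.D3_Q_scale 1 X m hX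
      rw [one_mul] at h4
      have h5 : t * X ^ 2 ≤ t * (X ^ 2 * Z) :=
        Nat.mul_le_mul_left _ (Nat.le_mul_of_pos_right _ hZ)
      have h6 : Z * P.Q X m ≤ P.Q 1 m * (X ^ 2 * Z) := by
        calc Z * P.Q X m ≤ Z * (P.Q 1 m * X ^ 2) := Nat.mul_le_mul_left _ h4
          _ = _ := by ring
      calc t * X ^ 2 + Z * P.Q X m ≤ t * (X ^ 2 * Z) + P.Q 1 m * (X ^ 2 * Z) :=
            add_le_add h5 h6
        _ = u * (X ^ 2 * Z) := by rw [hu]; ring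
    have h7 : ((t * X ^ 2 + Z * P.Q X m : ℕ) : ℝ) ≤ ((u * (X ^ 2 * Z) : ℕ) : ℝ) := by
      exact_mod_cast h3
    refine h7.trans (le_of_eq ?_)
    push_cast
    rw [← Real.rpow_natCast (X : ℝ) 2]
    norm_num
  calc ((t * X ^ 2 + Z * P.Q X m : ℕ) : ℝ) ^ (δ + ε)
      ≤ ((u : ℝ) * ((X : ℝ) ^ (2:ℝ) * Z)) ^ (δ + ε) :=
        Real.rpow_le_rpow (by positivity) h2 (by linarith)
    _ = (u : ℝ) ^ (δ + ε) * ((X : ℝ) ^ (2 * (δ + ε)) * (Z : ℝ) ^ (δ + ε)) := by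
        rw [Real.mul_rpow (by positivity) (by positivity),
          Real.mul_rpow (by positivity) (by positivity), ← Real.rpow_mul hX0]

/-- powers of logarithms are dominated by small powers -/
theorem D3_log (κ : ℕ) {ε : ℝ} (hε : 0 < ε) : ∃ C : ℝ, 0 < C ∧ ∀ X : ℕ, 1 ≤ X →
    (1 + Real.log X) ^ κ ≤ C * (X : ℝ) ^ ε := by
  set t : ℝ := ε / (κ + 1) with ht
  have ht0 : 0 < t := by positivity
  refine ⟨(1 + 1 / t) ^ κ, by positivity, fun X hX => ?_⟩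
  have hX1 : (1:ℝ) ≤ X := by exact_mod_cast hX
  have hX0 : (0:ℝ) ≤ X := by linarith
  have h1 : Real.log X ≤ (X : ℝ) ^ t / t := Real.log_le_rpow_div hX0 ht0
  have h2 : 1 ≤ (X : ℝ) ^ t := Real.one_le_rpow hX1 ht0.le
  have h3 : 1 + Real.log X ≤ (1 + 1 / t) * (X : ℝ) ^ t := by
    calc 1 + Real.log X ≤ (X : ℝ) ^ t + (X : ℝ) ^ t / t := add_le_add h2 h1
      _ = (1 + 1 / t) * (X : ℝ) ^ t := by ring
  have h4 : 0 ≤ Real.log X := Real.log_nonneg hX1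
  calc (1 + Real.log X) ^ κ ≤ ((1 + 1 / t) * (X : ℝ) ^ t) ^ κ :=
        pow_le_pow_left₀ (by linarith) h3 κ
    _ = (1 + 1 / t) ^ κ * (X : ℝ) ^ (t * κ) := by
        rw [mul_pow, ← Real.rpow_natCast ((X : ℝ) ^ t) κ, ← Real.rpow_mul hX0]
    _ ≤ (1 + 1 / t) ^ κ * (X : ℝ) ^ ε := by
        refine mul_le_mul_of_nonneg_left (Real.rpow_le_rpow_of_exponent_le hX1 ?_) (by positivity)
        rw [ht, div_mul_eq_mul_div, div_le_iff₀ (by positivity)]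
        nlinarith

/-- the size of `Z` -/
theorem D3_Z {b : ℕ} (hb : 2 ≤ b) {ε : ℝ} (hε : 0 < ε) : ∃ X₀ : ℕ, 2 ≤ X₀ ∧ ∀ X : ℕ, X₀ ≤ X →
    ((2 ^ (2 * b ^ (3 * bI b X)) : ℕ) : ℝ) ≤ (X : ℝ) ^ ε := by
  obtain ⟨n, hn⟩ := exists_nat_ge (2 / ε)
  obtain ⟨X₀, hX₀⟩ := bI_tendsto b hb n
  refine ⟨max X₀ 2, le_max_right _ _, fun X hX => ?_⟩
  have hXX : X₀ ≤ X := (le_max_left _ _).trans hX
  have hX2 : 2 ≤ X := (le_max_right _ _).trans hX
  set I := bI b X with hI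
  have h1 : 2 ^ (b ^ (4 * I)) ≤ X := pow_bI_le b X hb hX2
  have h2 : n ≤ b ^ I := (hX₀ X hXX).trans (Nat.lt_pow_self (by omega)).le
  have h3 : 2 / ε ≤ (b:ℝ) ^ I := by
    refine hn.trans ?_
    exact_mod_cast h2
  have h4 : (2:ℝ) * (b:ℝ) ^ (3 * I) ≤ (b:ℝ) ^ (4 * I) * ε := by
    rw [div_le_iff₀ hε] at h3
    have h5 : (b:ℝ) ^ (4 * I) = (b:ℝ) ^ (3 * I) * (b:ℝ) ^ I := by
      rw [← pow_add]
      congr 1
      ring
    rw [h5]
    have h6 : (0:ℝ) < (b:ℝ) ^ (3 * I) := by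
      have : (0:ℝ) < b := by
        have : 0 < b := by omega
        exact_mod_cast this
      positivity
    nlinarith
  have h7 : ((2 ^ (2 * b ^ (3 * I)) : ℕ) : ℝ) = (2:ℝ) ^ ((2:ℝ) * (b:ℝ) ^ (3 * I)) := by
    rw [Nat.cast_pow, Nat.cast_ofNat, ← Real.rpow_natCast]
    congr 1
    push_cast
    ring
  have h8 : (2:ℝ) ^ ((b:ℝ) ^ (4 * I)) ≤ X := by
    have : ((2 ^ (b ^ (4 * I)) : ℕ) : ℝ) ≤ X := by exact_mod_cast h1
    rw [Nat.cast_pow, Nat.cast_ofNat, ← Real.rpow_natCast] at this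
    simpa using this
  rw [h7]
  calc (2:ℝ) ^ ((2:ℝ) * (b:ℝ) ^ (3 * I)) ≤ (2:ℝ) ^ ((b:ℝ) ^ (4 * I) * ε) :=
        Real.rpow_le_rpow_of_exponent_le (by norm_num) h4
    _ = ((2:ℝ) ^ ((b:ℝ) ^ (4 * I))) ^ ε := Real.rpow_mul (by norm_num) _ _
    _ ≤ (X : ℝ) ^ ε := Real.rpow_le_rpow (by positivity) h8 hε.le

/-- primes of the ranges are coprime to a fixed modulus -/
theorem D3_coprime {b : ℕ} (hb : 2 ≤ b) (M : ℕ) (hM : 0 < M) : ∃ X₀ : ℕ, ∀ X : ℕ, X₀ ≤ X →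
    (∀ p ∈ rg1 b X, p.Prime ∧ p.Coprime M) ∧ ∀ p ∈ rg2 b X, p.Prime ∧ p.Coprime M := by
  obtain ⟨X₀, hX₀⟩ := bI_tendsto b hb M
  refine ⟨X₀, fun X hX => ?_⟩
  have hI := hX₀ X hX
  set I := bI b X with hIdef
  have h1 : I < b ^ I := Nat.lt_pow_self (by omega)
  have h2 : b ^ I < 2 ^ (b ^ I) := Nat.lt_pow_self (by omega)
  have h3 : b ^ I ≤ b ^ (2 * I) := Nat.pow_le_pow_right (by omega) (by omega)
  have h4 : 2 ^ (b ^ I) ≤ 2 ^ (b ^ (2 * I)) := Nat.pow_le_pow_right (by omega) h3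
  have key : ∀ p : ℕ, p.Prime → M < p → p.Coprime M := by
    intro p hp hpM
    rw [hp.coprime_iff_not_dvd]
    intro hd
    exact absurd (Nat.le_of_dvd hM hd) (by omega)
  constructor
  · intro p hp
    rw [rg1, mem_filter, mem_Ioc, ← hIdef] at hp
    have h5 := hp.1.1
    exact ⟨hp.2, key p hp.2 (by omega)⟩
  · intro p hp
    rw [rg2, mem_filter, mem_Ioc, ← hIdef] at hp
    have h5 := hp.1.1
    exact ⟨hp.2, key p hp.2 (by omega)⟩

theorem D3_disj (b X : ℕ) : Disjoint (rg1 b X) (rg2 b X) := by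
  rw [disjoint_left]
  intro p h1 h2
  rw [rg1, mem_filter, mem_Ioc] at h1
  rw [rg2, mem_filter, mem_Ioc] at h2
  omega

theorem D3_pq {b X p q : ℕ} (hb : 2 ≤ b) (hp : p ∈ rg1 b X) (hq : q ∈ rg2 b X) :
    p * q ≤ 2 ^ (2 * b ^ (3 * bI b X)) := by
  rw [rg1, mem_filter, mem_Ioc] at hp
  rw [rg2, mem_filter, mem_Ioc] at hq
  have h1 : b ^ (2 * bI b X) ≤ b ^ (3 * bI b X) := Nat.pow_le_pow_right (by omega) (by omega)
  calc p * q ≤ 2 ^ (b ^ (2 * bI b X)) * 2 ^ (b ^ (3 * bI b X)) :=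
        Nat.mul_le_mul hp.1.2 hq.1.2
    _ = 2 ^ (b ^ (2 * bI b X) + b ^ (3 * bI b X)) := (pow_add _ _ _).symm
    _ ≤ _ := Nat.pow_le_pow_right (by omega) (by omega)

open Classical in
/-- the covering of `S_m ∩ [1, X]` -/
theorem D3_cover {b m J X : ℕ} (hb : 2 ≤ b) [NeZero m]
    (h1 : ∀ p ∈ rg1 b X, p.Prime ∧ p.Coprime (P.MM m J))
    (h2 : ∀ p ∈ rg2 b X, p.Prime ∧ p.Coprime (P.MM m J)) :
    (Icc 1 X).filter (fun x => x ∈ P.S m) ⊆
      (range (2 ^ (2 * b ^ (3 * bI b X)) + P.A ^ J * m * P.A)) ∪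
      (((univ : Finset (Fin J)).biUnion fun i => (Icc 1 X).filter (fun x => ∃ E,
          P.XP m (x + P.A ^ ((i : ℕ) + 1) * m * P.A) E ∧
          P.Q (x + P.A ^ ((i : ℕ) + 1) * m * P.A) m ≤
            E * P.Q (x + P.A ^ ((i : ℕ) + 1) * m * P.A) m)) ∪
      (((univ : Finset (Fin J)).biUnion fun i => (Icc 1 X).filter (fun x => ∃ E,
          P.XP (P.A ^ ((i : ℕ) + 1) * m ^ 2 * P.A) (P.sX m (P.A ^ ((i : ℕ) + 1)) x) E ∧
          P.Q (P.sX m (P.A ^ ((i : ℕ) + 1)) x) (P.A ^ ((i : ℕ) + 1) * m ^ 2 * P.A) ≤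
            E * (2 ^ (2 * b ^ (3 * bI b X)) * P.Q x m))) ∪
      ((univ : Finset ((Fin J → Bool) × (Fin J → Finset (ZMod (P.MM m J))ˣ))).filter
        (fun q => (∀ i, q.2 i ⊆ P.K (P.MM m J)) ∧ ∀ i, (P.MM m J).totient ≤ 4 * (q.2 i).card)
          ).biUnion fun q => (Icc 1 X).filter (fun x => ∀ i : Fin J,
            ∀ p ∈ (if q.1 i then rg1 b X else rg2 b X),
            (∃ w ∈ q.2 i, (w : ZMod (P.MM m J)) = (p : ZMod (P.MM m J))) →
              ¬ p ∣ P.Q (x + P.A ^ ((i : ℕ) + 1) * m * P.A) m))) := by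
  intro x hx
  rw [mem_filter] at hx
  obtain ⟨hxI, hxS⟩ := hx
  by_cases hsm : x < 2 ^ (2 * b ^ (3 * bI b X)) + P.A ^ J * m * P.A
  · exact mem_union_left _ (mem_range.2 hsm)
  apply mem_union_right
  rw [not_lt] at hsm
  have hA := P.hA
  have hcase := fun i : Fin J => P.dich (m := m) (J := J) (i := (i : ℕ) + 1) (by omega) (by omega)
    hxS (2 ^ (2 * b ^ (3 * bI b X))) (rg1 b X) (rg2 b X) h1 h2 (D3_disj b X)
    (fun p hp q hq => D3_pq hb hp hq) (by omega) (by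
      have h3 : P.A ^ ((i : ℕ) + 1) ≤ P.A ^ J := Nat.pow_le_pow_right hA (by omega)
      have h4 : P.A ^ ((i : ℕ) + 1) * m * P.A ≤ P.A ^ J * m * P.A := by gcongr
      exact h4.trans ((Nat.le_add_left _ _).trans hsm))
  by_cases hc1 : ∃ i : Fin J, ∃ E, P.XP m (x + P.A ^ ((i : ℕ) + 1) * m * P.A) E ∧
      P.Q (x + P.A ^ ((i : ℕ) + 1) * m * P.A) m ≤
        E * P.Q (x + P.A ^ ((i : ℕ) + 1) * m * P.A) m
  · obtain ⟨i, hi⟩ := hc1
    apply mem_union_left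
    rw [mem_biUnion]
    exact ⟨i, mem_univ _, mem_filter.2 ⟨hxI, hi⟩⟩
  apply mem_union_right
  by_cases hc2 : ∃ i : Fin J, ∃ E,
      P.XP (P.A ^ ((i : ℕ) + 1) * m ^ 2 * P.A) (P.sX m (P.A ^ ((i : ℕ) + 1)) x) E ∧
      P.Q (P.sX m (P.A ^ ((i : ℕ) + 1)) x) (P.A ^ ((i : ℕ) + 1) * m ^ 2 * P.A) ≤
        E * (2 ^ (2 * b ^ (3 * bI b X)) * P.Q x m)
  · obtain ⟨i, hi⟩ := hc2
    apply mem_union_left
    rw [mem_biUnion]
    exact ⟨i, mem_univ _, mem_filter.2 ⟨hxI, hi⟩⟩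
  apply mem_union_right
  push Not at hc1 hc2
  have h3 : ∀ i : Fin J, ∃ W : Finset (ZMod (P.MM m J))ˣ, W ⊆ P.K (P.MM m J) ∧
      (P.K (P.MM m J)).card ≤ 2 * W.card ∧
      ((∀ p ∈ rg1 b X, (∃ w ∈ W, (w : ZMod (P.MM m J)) = (p : ZMod (P.MM m J))) →
          ¬ p ∣ P.Q (x + P.A ^ ((i : ℕ) + 1) * m * P.A) m) ∨
       (∀ p ∈ rg2 b X, (∃ w ∈ W, (w : ZMod (P.MM m J)) = (p : ZMod (P.MM m J))) →
          ¬ p ∣ P.Q (x + P.A ^ ((i : ℕ) + 1) * m * P.A) m)) := by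
    intro i
    rcases hcase i with ⟨E, hE1, hE2⟩ | ⟨E, hE1, hE2⟩ | h
    · exact absurd hE2 (not_le.2 (hc1 i E hE1))
    · exact absurd hE2 (not_le.2 (hc2 i E hE1))
    · exact h
  choose W hWK hWc hW using h3
  rw [mem_biUnion]
  refine ⟨(fun i => decide (∀ p ∈ rg1 b X, (∃ w ∈ W i, (w : ZMod (P.MM m J)) =
      (p : ZMod (P.MM m J))) → ¬ p ∣ P.Q (x + P.A ^ ((i : ℕ) + 1) * m * P.A) m), W), ?_, ?_⟩
  · rw [mem_filter]
    refine ⟨mem_univ _, hWK, fun i => ?_⟩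
    have h4 := P.card_K (P.MM m J) (Dvd.intro_left _ rfl)
    have h5 := hWc i
    show (P.MM m J).totient ≤ 4 * (W i).card
    omega
  · rw [mem_filter]
    refine ⟨hxI, fun i p hp => ?_⟩
    by_cases hd : ∀ p ∈ rg1 b X, (∃ w ∈ W i, (w : ZMod (P.MM m J)) =
        (p : ZMod (P.MM m J))) → ¬ p ∣ P.Q (x + P.A ^ ((i : ℕ) + 1) * m * P.A) m
    · simp only [decide_eq_true hd, if_true] at hp
      exact hd p hp
    · simp only [decide_eq_false hd, Bool.false_eq_true, if_false] at hp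
      exact (hW i).resolve_left hd p hp

/-- ROW D3.  Assembly.
Proof.  Let `J` be from `sift_bound`.  For `X ≥ X₀` and `x ∈ S_m`, `√X ≤ x ≤ X`, apply `dich` for
`i+1`, `i : Fin J`, with `P1 = rg1`, `P2 = rg2`, `Z = 2^(2 b^(3I)) ≤ √X` (`pow_bI_le`).
Either some `i` gives an exceptional point of first kind: `x ↦ x + A^{i+1}mA ≤ 2X` is injective, and
`exc_count` with `Y = 2X`, `F = Q(x_h,m) ≤ C X²` (use `F := P.Q (2X) m` and monotonicity) bounds these by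
`C X^{2(δ+ε)}`; or of second kind: `x ↦ sX` is injective (strictly increasing), `exc_count` for
`m''' = A^{i+1} m² A` with `Y = C X²`, `F = Z Q(X,m) ≤ C X^{2+ε'}` (`Z ≤ X^{ε'}`: `2 b^(3I) ≤ ε' b^(4I)`)
bounds these by `C X^{(2+ε')(δ+ε)}`; `2δ < 1`, so both are `O(X^{1-η})`.  Otherwise `x` lies in one of
finitely many (choices of `ι`, `W`; the number does not depend on `X`) sifted sets.  `card_K` gives
`φ(M) ≤ 4|W|`. -/
theorem smB_of_sparse {δ : ℝ} (hδ0 : 0 ≤ δ) (hδ : δ < 1 / 2) (hs : P.Sparse δ) : P.SmB := by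
  classical
  intro κ m hm
  have : NeZero m := ⟨hm.ne'⟩
  have hA := P.hA
  obtain ⟨b, c, hbl⟩ := block_lower
  have hb2 : 2 ≤ b := hbl.1
  obtain ⟨J, C1, hJ, hC1, hsift⟩ := P.sift_bound (b := b) (c := c) hbl κ m
  set ε : ℝ := (1 / 2 - δ) / 2 with hεdef
  have hε : 0 < ε := by rw [hεdef]; linarith
  have hε4 : ε ≤ 1 / 4 := by rw [hεdef]; linarith
  have hexp : 2 * (δ + ε) = 1 - 2 * ε := by rw [hεdef]; ring
  have hδε0 : 0 ≤ δ + ε := by linarith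
  have hδε1 : δ + ε ≤ 1 := by linarith
  choose C2 hC2 hfirst using fun i : Fin J =>
    P.D3_first hδ0 hε hs hm (P.A ^ ((i : ℕ) + 1) * m * P.A)
  choose C3 hC3 hsecond using fun i : Fin J =>
    P.D3_second hδ0 hε hs hm (g := P.A ^ ((i : ℕ) + 1)) (by positivity)
  obtain ⟨C4, hC4, hlog⟩ := D3_log κ hε
  obtain ⟨X1, hX1, hZ⟩ := D3_Z hb2 hε
  obtain ⟨X2, hX2⟩ := D3_coprime hb2 (P.MM m J) (NeZero.pos _)
  set X₀ := max X1 X2 with hX₀
  set c0 : ℕ := P.A ^ J * m * P.A with hc0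
  set G := (univ : Finset ((Fin J → Bool) × (Fin J → Finset (ZMod (P.MM m J))ˣ))).filter
        (fun q => (∀ i, q.2 i ⊆ P.K (P.MM m J)) ∧ ∀ i, (P.MM m J).totient ≤ 4 * (q.2 i).card)
        with hG
  set D : ℝ := (1 + c0 + ∑ i, C2 i + ∑ i, C3 i) * C4 + G.card * C1 with hD
  have hsum2 : 0 ≤ ∑ i, C2 i := sum_nonneg fun i _ => (hC2 i).le
  have hsum3 : 0 ≤ ∑ i, C3 i := sum_nonneg fun i _ => (hC3 i).le
  have hD0 : 0 < D := by
    rw [hD]
    have h1 : 0 < (1 + c0 + ∑ i, C2 i + ∑ i, C3 i) * C4 := by positivity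
    have h2 : 0 ≤ G.card * C1 := by positivity
    linarith
  refine ⟨D + (1 + Real.log X₀) ^ κ, by
    have : 0 ≤ Real.log X₀ := Real.log_natCast_nonneg _
    positivity, fun X hX => ?_⟩
  have hX1' : (1:ℝ) ≤ X := by exact_mod_cast hX
  have hXnn : (0:ℝ) ≤ X := by linarith
  have hlX : 0 ≤ Real.log X := Real.log_nonneg hX1'
  have hL0 : 0 ≤ (1 + Real.log X) ^ κ := by positivity
  rcases lt_or_ge X X₀ with hlt | hge
  · -- small `X`
    have h1 : (((Icc 1 X).filter (fun x => x ∈ P.S m)).card : ℝ) ≤ X := by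
      have : ((Icc 1 X).filter (fun x => x ∈ P.S m)).card ≤ (Icc 1 X).card :=
        card_filter_le _ _
      rw [Nat.card_Icc, Nat.add_sub_cancel] at this
      exact_mod_cast this
    have h2 : Real.log X ≤ Real.log X₀ :=
      Real.log_le_log (by linarith) (by exact_mod_cast hlt.le)
    have h3 : (1 + Real.log X) ^ κ ≤ (1 + Real.log X₀) ^ κ :=
      pow_le_pow_left₀ (by linarith) (by linarith) κ
    calc (((Icc 1 X).filter (fun x => x ∈ P.S m)).card : ℝ) * (1 + Real.log X) ^ κ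
        ≤ X * (1 + Real.log X₀) ^ κ := mul_le_mul h1 h3 hL0 hXnn
      _ ≤ (D + (1 + Real.log X₀) ^ κ) * X := by nlinarith
  · -- large `X`
    have hgeX1 : X1 ≤ X := (le_max_left _ _).trans hge
    have hgeX2 : X2 ≤ X := (le_max_right _ _).trans hge
    set Z : ℕ := 2 ^ (2 * b ^ (3 * bI b X)) with hZdef
    have hZX : (Z : ℝ) ≤ (X : ℝ) ^ ε := hZ X hgeX1
    have hZ1 : 1 ≤ Z := Nat.one_le_two_pow
    set T : ℝ := (X : ℝ) ^ (1 - ε) with hT
    have hT1 : 1 ≤ T := Real.one_le_rpow hX1' (by linarith)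
    have hcov := card_le_card (P.D3_cover (b := b) (m := m) (J := J) (X := X) hb2
      (hX2 X hgeX2).1 (hX2 X hgeX2).2)
    have hcard : ((Icc 1 X).filter (fun x => x ∈ P.S m)).card ≤ (Z + c0) +
        (∑ i : Fin J, ((Icc 1 X).filter (fun x => ∃ E,
          P.XP m (x + P.A ^ ((i : ℕ) + 1) * m * P.A) E ∧
          P.Q (x + P.A ^ ((i : ℕ) + 1) * m * P.A) m ≤
            E * P.Q (x + P.A ^ ((i : ℕ) + 1) * m * P.A) m)).card +
        (∑ i : Fin J, ((Icc 1 X).filter (fun x => ∃ E,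
          P.XP (P.A ^ ((i : ℕ) + 1) * m ^ 2 * P.A) (P.sX m (P.A ^ ((i : ℕ) + 1)) x) E ∧
          P.Q (P.sX m (P.A ^ ((i : ℕ) + 1)) x) (P.A ^ ((i : ℕ) + 1) * m ^ 2 * P.A) ≤
            E * (Z * P.Q x m))).card +
        ∑ q ∈ G, ((Icc 1 X).filter (fun x => ∀ i : Fin J,
            ∀ p ∈ (if q.1 i then rg1 b X else rg2 b X),
            (∃ w ∈ q.2 i, (w : ZMod (P.MM m J)) = (p : ZMod (P.MM m J))) →
              ¬ p ∣ P.Q (x + P.A ^ ((i : ℕ) + 1) * m * P.A) m)).card)) := by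
      refine hcov.trans ?_
      refine (card_union_le _ _).trans (add_le_add (card_range _).le ?_)
      refine (card_union_le _ _).trans (add_le_add card_biUnion_le ?_)
      exact (card_union_le _ _).trans (add_le_add card_biUnion_le card_biUnion_le)
    have hXle : (X : ℝ) ^ (2 * (δ + ε)) ≤ T := by
      rw [hexp, hT]
      exact Real.rpow_le_rpow_of_exponent_le hX1' (by linarith)
    have hb1 : ((Z + c0 : ℕ) : ℝ) ≤ (1 + c0) * T := by
      have h1 : (X : ℝ) ^ ε ≤ T := Real.rpow_le_rpow_of_exponent_le hX1' (by linarith)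
      have h2 : (0:ℝ) ≤ c0 := by positivity
      push_cast
      nlinarith
    have hb2' : (∑ i : Fin J, (((Icc 1 X).filter (fun x => ∃ E,
          P.XP m (x + P.A ^ ((i : ℕ) + 1) * m * P.A) E ∧
          P.Q (x + P.A ^ ((i : ℕ) + 1) * m * P.A) m ≤
            E * P.Q (x + P.A ^ ((i : ℕ) + 1) * m * P.A) m)).card : ℝ)) ≤ (∑ i, C2 i) * T := by
      rw [sum_mul]
      refine sum_le_sum fun i _ => (hfirst i X hX).trans ?_
      exact mul_le_mul_of_nonneg_left hXle (hC2 i).le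
    have hb3 : (∑ i : Fin J, (((Icc 1 X).filter (fun x => ∃ E,
          P.XP (P.A ^ ((i : ℕ) + 1) * m ^ 2 * P.A) (P.sX m (P.A ^ ((i : ℕ) + 1)) x) E ∧
          P.Q (P.sX m (P.A ^ ((i : ℕ) + 1)) x) (P.A ^ ((i : ℕ) + 1) * m ^ 2 * P.A) ≤
            E * (Z * P.Q x m))).card : ℝ)) ≤ (∑ i, C3 i) * T := by
      rw [sum_mul]
      refine sum_le_sum fun i _ => (hsecond i X Z hX hZ1).trans ?_
      refine mul_le_mul_of_nonneg_left ?_ (hC3 i).le
      have hZ1' : (1:ℝ) ≤ Z := by exact_mod_cast hZ1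
      have h1 : (Z : ℝ) ^ (δ + ε) ≤ (X : ℝ) ^ ε := by
        calc (Z : ℝ) ^ (δ + ε) ≤ (Z : ℝ) ^ (1:ℝ) :=
              Real.rpow_le_rpow_of_exponent_le hZ1' hδε1
          _ = Z := Real.rpow_one _
          _ ≤ _ := hZX
      calc (X : ℝ) ^ (2 * (δ + ε)) * (Z : ℝ) ^ (δ + ε)
          ≤ (X : ℝ) ^ (1 - 2 * ε) * (X : ℝ) ^ ε := by
            rw [hexp]
            exact mul_le_mul_of_nonneg_left h1 (by positivity)
        _ = T := by
            rw [hT, ← Real.rpow_add (by linarith)]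
            congr 1
            ring
    have hb4 : (∑ q ∈ G, (((Icc 1 X).filter (fun x => ∀ i : Fin J,
            ∀ p ∈ (if q.1 i then rg1 b X else rg2 b X),
            (∃ w ∈ q.2 i, (w : ZMod (P.MM m J)) = (p : ZMod (P.MM m J))) →
              ¬ p ∣ P.Q (x + P.A ^ ((i : ℕ) + 1) * m * P.A) m)).card : ℝ)) *
              (1 + Real.log X) ^ κ ≤ G.card * C1 * X := by
      rw [sum_mul]
      calc _ ≤ ∑ q ∈ G, C1 * (X : ℝ) := by
            refine sum_le_sum fun q hq => ?_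
            rw [hG, mem_filter] at hq
            exact hsift X hX q.1 q.2 hq.2.1 hq.2.2
        _ = G.card * C1 * X := by rw [sum_const, nsmul_eq_mul]; ring
    have hTL : T * (1 + Real.log X) ^ κ ≤ C4 * X := by
      calc T * (1 + Real.log X) ^ κ ≤ T * (C4 * (X : ℝ) ^ ε) :=
            mul_le_mul_of_nonneg_left (hlog X hX) (by linarith)
        _ = C4 * ((X : ℝ) ^ (1 - ε) * (X : ℝ) ^ ε) := by rw [hT]; ring
        _ = C4 * X := by
            rw [← Real.rpow_add (by linarith), sub_add_cancel, Real.rpow_one]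
    set s4 : ℝ := ∑ q ∈ G, (((Icc 1 X).filter (fun x => ∀ i : Fin J,
            ∀ p ∈ (if q.1 i then rg1 b X else rg2 b X),
            (∃ w ∈ q.2 i, (w : ZMod (P.MM m J)) = (p : ZMod (P.MM m J))) →
              ¬ p ∣ P.Q (x + P.A ^ ((i : ℕ) + 1) * m * P.A) m)).card : ℝ) with hs4
    have hcardR : (((Icc 1 X).filter (fun x => x ∈ P.S m)).card : ℝ) ≤
        (1 + c0 + ∑ i, C2 i + ∑ i, C3 i) * T + s4 := by
      have h1 : (((Icc 1 X).filter (fun x => x ∈ P.S m)).card : ℝ) ≤ _ :=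
        Nat.cast_le.2 hcard
      simp only [Nat.cast_add, Nat.cast_sum] at h1
      rw [Nat.cast_add] at hb1
      linarith only [h1, hb1, hb2', hb3, hs4]
    calc (((Icc 1 X).filter (fun x => x ∈ P.S m)).card : ℝ) * (1 + Real.log X) ^ κ
        ≤ ((1 + c0 + ∑ i, C2 i + ∑ i, C3 i) * T + s4) * (1 + Real.log X) ^ κ :=
          mul_le_mul_of_nonneg_right hcardR hL0
      _ = (1 + c0 + ∑ i, C2 i + ∑ i, C3 i) * (T * (1 + Real.log X) ^ κ) +
          s4 * (1 + Real.log X) ^ κ := by ring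
      _ ≤ (1 + c0 + ∑ i, C2 i + ∑ i, C3 i) * (C4 * X) + G.card * C1 * X :=
          add_le_add (mul_le_mul_of_nonneg_left hTL (by positivity)) hb4
      _ = D * X := by rw [hD]; ring
      _ ≤ (D + (1 + Real.log X₀) ^ κ) * X := by
          refine mul_le_mul_of_nonneg_right ?_ hXnn
          have : 0 ≤ Real.log X₀ := Real.log_natCast_nonneg _
          have : 0 ≤ (1 + Real.log X₀) ^ κ := by positivity
          linarith

end Par

end Pool.Agent.Lib.MP_648c71_nt.Qap
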