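import Mathlib
import Pool.Agent.Lib.MP_648c71_nt.Lam
import Pool.Agent.Lib.MP_648c71_nt.Lattice

/-!
# Sign changes of `λ(f(n))` for all quadratic polynomials: definitions

`Q(x,y) = x² + Bxy + Ay²` is the norm form of `ℤ[ω]`, `ω² = Bω - A`; its discriminant is
`B² - 4A = N²Δ` where `Δ` is not a square.  All of `4Δ`, `N` divide `A`, `4Δ` divides `B` and every
prime factor of `A` divides `B`.
-/

set_option autoImplicit false

namespace Pool.Agent.Lib.MP_648c71_nt.Qap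

open Finset

/-- The parameters. -/
structure Par where
  A : ℕ
  B : ℕ
  N : ℕ
  Δ : ℤ
  hA : 0 < A
  hB : 0 < B
  hN : 0 < N
  hD : (B : ℤ) ^ 2 - 4 * A = (N : ℤ) ^ 2 * Δ
  hsq : ¬ IsSquare Δ
  hdA : 4 * Δ ∣ (A : ℤ)
  hdB : 4 * Δ ∣ (B : ℤ)
  hNA : N ∣ A
  hrad : ∀ p : ℕ, p.Prime → p ∣ A → p ∣ B

namespace Par

variable (P : Par)

/-- the norm form on `ℕ × ℕ` -/
def Q (x y : ℕ) : ℕ := x ^ 2 + P.B * x * y + P.A * y ^ 2

/-- `λ(Q(x,y))` -/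
def l (x y : ℕ) : ℤ := lam (P.Q x y : ℕ)

/-- the Jacobi symbol `(Δ | x)` -/
def xi (x : ℕ) : ℤ := jacobiSym P.Δ x

/-- `n` is exceptional: `λ(An² + Bn + 1) ≠ 1` -/
def Exc (n : ℕ) : Prop := lam (P.A * n ^ 2 + P.B * n + 1 : ℕ) ≠ 1

open Classical in
/-- at most `C X^δ` exceptional `n ≤ X` -/
def Sparse (δ : ℝ) : Prop :=
  ∃ C : ℝ, 0 < C ∧ ∀ X : ℕ, 1 ≤ X → (((range (X + 1)).filter (fun n => P.Exc n)).card : ℝ) ≤
    C * (X : ℝ) ^ δ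

/-- `x` with `λ(Q(x,m)) = -1`, `x` coprime to `mA`, `ξ(x) = 1`. -/
def S (m : ℕ) : Set ℕ :=
  {x | 0 < x ∧ x.Coprime (m * P.A) ∧ P.xi x = 1 ∧ P.l x m = -1}

open Classical in
/-- the bound `|S_m ∩ [1,X]| ≤ C X / (1 + log X)^κ` for all `κ` and `m` -/
def SmB : Prop :=
  ∀ κ m : ℕ, 0 < m → ∃ C : ℝ, 0 < C ∧ ∀ X : ℕ, 1 ≤ X →
    (((Icc 1 X).filter (fun x => x ∈ P.S m)).card : ℝ) * (1 + Real.log X) ^ κ ≤ C * X

/-- admissible vectors -/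
def V (x y : ℕ) : Prop := 0 < x ∧ x.Coprime y ∧ x.Coprime P.A ∧ P.xi x = 1

/-- `XP m x E`: the point `x` (with divisor `E` of `Q(x,m)`) is exceptional, i.e. one of the two
auxiliary points of the three term identity is exceptional -/
def XP (m x E : ℕ) : Prop :=
  ∃ n e : ℕ, 0 < E ∧ E ≤ x ∧ e * E = P.Q (x - E) m ∧
    ((x - E = m * P.A * n ∧ P.Exc n) ∨ (x - E + e = m * P.A * n ∧ P.Exc n))

end Par

/-- a Farey edge `b/a < d/c` in `[0,1]`, `v = (a,b)`, `w = (c,d)`, `det(v,w) = ad - bc = 1` -/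
def Edge (a b c d : ℕ) : Prop := 0 < a ∧ 0 < c ∧ b ≤ a ∧ d ≤ c ∧ a * d = b * c + 1

namespace Par

variable (P : Par)

/-- `(i,j)` gives an admissible combination `iv + jw` -/
def Cmb (a b c d i j : ℕ) : Prop := i.Coprime j ∧ P.V (i * a + j * c) (i * b + j * d)

/-- `λ(Q(iv + jw))` -/
def lc (a b c d i j : ℕ) : ℤ := P.l (i * a + j * c) (i * b + j * d)

/-- the edge has two admissible combinations with coefficients `≤ L` and different values of `λ` -/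
def Bad (L a b c d : ℕ) : Prop :=
  ∃ i j i' j' : ℕ, i ≤ L ∧ j ≤ L ∧ i' ≤ L ∧ j' ≤ L ∧ P.Cmb a b c d i j ∧ P.Cmb a b c d i' j' ∧
    P.lc a b c d i j ≠ P.lc a b c d i' j'

open Classical in
/-- the set of bad edges with `a, c ≤ Y` -/
noncomputable def badSet (L Y : ℕ) : Finset (ℕ × ℕ × ℕ × ℕ) :=
  ((range (Y + 1)) ×ˢ (range (Y + 1)) ×ˢ (range (Y + 1)) ×ˢ (range (Y + 1))).filter
    (fun t => Edge t.1 t.2.1 t.2.2.1 t.2.2.2 ∧ P.Bad L t.1 t.2.1 t.2.2.1 t.2.2.2)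

/-- few bad edges -/
def CountB : Prop :=
  ∀ L T : ℕ, ∃ C : ℝ, 0 < C ∧ ∀ Y : ℕ, 1 ≤ Y →
    ((P.badSet L Y).card : ℝ) * (1 + Real.log Y) ^ T ≤ C * (Y : ℝ) ^ 2

end Par

end Pool.Agent.Lib.MP_648c71_nt.Qap
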