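import Pool.Agent.Lib.MP_648c71_nt.Qap.Basic

/-! ROW E3: number of roots -/

set_option autoImplicit false

namespace Pool.Agent.Lib.MP_648c71_nt.Qap

open Finset

private theorem card_le_of_modEq {s : Finset ℕ} {X L : ℕ} (h1 : ∀ x ∈ s, x ≤ X)
    (h2 : ∀ x ∈ s, ∀ x' ∈ s, x ≡ x' [MOD L]) : s.card ≤ X / L + 1 := by
  have h3 : s.card ≤ (range (X / L + 1)).card := by
    apply Finset.card_le_card_of_injOn (fun x => x / L)
    · intro x hx
      have : x / L ≤ X / L := Nat.div_le_div_right (h1 x hx)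
      simp only [coe_range, Set.mem_Iio]
      omega
    · intro x hx x' hx' he
      have h4 : x % L = x' % L := h2 x hx x' hx'
      have h5 : x / L = x' / L := he
      rw [← Nat.div_add_mod x L, ← Nat.div_add_mod x' L, h4, h5]
  simpa using h3

namespace Par

variable (P : Par)

private theorem root_aux {m : ℕ} (hm : 0 < m) {d : ℕ} (hd : 0 < d) {X : ℕ} {x0 : ℕ}
    (hx0 : d ∣ P.Q x0 m) (d1 : ℕ) :
    ((((Icc 1 X).filter (fun x => d ∣ P.Q x m)).filter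
      (fun x : ℕ => Int.gcd (d : ℤ) ((x : ℤ) - x0) = d1)).card : ℝ) ≤
      (((((P.B : ℤ) ^ 2 - 4 * P.A).natAbs * m ^ 2 : ℕ)) : ℝ) * ((X : ℝ) / d + 1) := by
  set s := ((Icc 1 X).filter (fun x => d ∣ P.Q x m)).filter
      (fun x : ℕ => Int.gcd (d : ℤ) ((x : ℤ) - x0) = d1) with hs
  set K : ℕ := ((P.B : ℤ) ^ 2 - 4 * P.A).natAbs * m ^ 2 with hK
  have hD0 : ((P.B : ℤ) ^ 2 - 4 * P.A) ≠ 0 := by
    rw [P.hD]
    exact mul_ne_zero (pow_ne_zero 2 (by exact_mod_cast P.hN.ne')) P.delta_ne_zero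
  have hKpos : 0 < K := Nat.mul_pos (Int.natAbs_pos.2 hD0) (by positivity)
  rcases s.eq_empty_or_nonempty with he | ⟨y, hy⟩
  · rw [he]
    simp only [card_empty, Nat.cast_zero]
    positivity
  have hmem : ∀ x ∈ s, x ≤ X ∧ d ∣ P.Q x m ∧ Int.gcd (d : ℤ) ((x : ℤ) - x0) = d1 := by
    intro x hx
    rw [hs, mem_filter, mem_filter, mem_Icc] at hx
    exact ⟨hx.1.1.2, hx.1.2, hx.2⟩
  have hd1 : d1 ∣ d := by
    rw [← (hmem y hy).2.2]
    exact_mod_cast Int.gcd_dvd_left (a := (d : ℤ)) (b := (y : ℤ) - x0)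
  obtain ⟨d2, hd2⟩ := hd1
  have hd1pos : 0 < d1 := Nat.pos_of_mul_pos_right (hd2 ▸ hd)
  have hd2pos : 0 < d2 := Nat.pos_of_mul_pos_left (hd2 ▸ hd)
  have hd1Z : (d1 : ℤ) ≠ 0 := by exact_mod_cast hd1pos.ne'
  -- the two congruences
  have hcong : ∀ x ∈ s, (d1 : ℤ) ∣ (x : ℤ) - x0 ∧ (d2 : ℤ) ∣ (x : ℤ) + x0 + P.B * m := by
    intro x hx
    obtain ⟨-, h2, h3⟩ := hmem x hx
    have h4 : (d1 : ℤ) ∣ (x : ℤ) - x0 := by
      rw [← h3]; exact Int.gcd_dvd_right _ _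
    refine ⟨h4, ?_⟩
    obtain ⟨c, hc⟩ := h4
    have h5 : (d : ℤ) ∣ ((x : ℤ) - x0) * ((x : ℤ) + x0 + P.B * m) := by
      have h6 : (d : ℤ) ∣ ((P.Q x m : ℕ) : ℤ) - ((P.Q x0 m : ℕ) : ℤ) :=
        dvd_sub (by exact_mod_cast h2) (by exact_mod_cast hx0)
      have h7 : ((P.Q x m : ℕ) : ℤ) - ((P.Q x0 m : ℕ) : ℤ) =
          ((x : ℤ) - x0) * ((x : ℤ) + x0 + P.B * m) := by
        unfold Q; push_cast; ring
      rwa [h7] at h6
    have hdZ : (d : ℤ) = d1 * d2 := by rw [hd2]; push_cast; ring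
    rw [hc, hdZ, mul_assoc] at h5
    have h8 : (d2 : ℤ) ∣ c * ((x : ℤ) + x0 + P.B * m) := (mul_dvd_mul_iff_left hd1Z).1 h5
    have h9 : IsCoprime (d2 : ℤ) c := by
      rw [Int.isCoprime_iff_gcd_eq_one]
      have h10 : Int.gcd ((d1 : ℤ) * d2) ((d1 : ℤ) * c) = d1 := by
        rw [← hdZ, ← hc]; exact h3
      rw [Int.gcd_mul_left] at h10
      simp only [Int.natAbs_natCast] at h10
      exact Nat.eq_of_mul_eq_mul_left hd1pos (by rw [h10, mul_one])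
    exact h9.dvd_of_dvd_mul_left h8
  set g := Nat.gcd d1 d2 with hg
  set L := Nat.lcm d1 d2 with hL
  have hgL : g * L = d := by rw [hg, hL, Nat.gcd_mul_lcm, hd2]
  have hLpos : 0 < L := Nat.lcm_pos hd1pos hd2pos
  have hgpos : 0 < g := Nat.gcd_pos_of_pos_left _ hd1pos
  have hgK : g ≤ K := by
    obtain ⟨h1, h2⟩ := hcong y hy
    have hg1 : (g : ℤ) ∣ (y : ℤ) - x0 :=
      Dvd.dvd.trans (by exact_mod_cast Nat.gcd_dvd_left d1 d2) h1
    have hg2 : (g : ℤ) ∣ (y : ℤ) + x0 + P.B * m :=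
      Dvd.dvd.trans (by exact_mod_cast Nat.gcd_dvd_right d1 d2) h2
    have hg3 : (g : ℤ) ∣ 2 * x0 + P.B * m := by
      have := dvd_sub hg2 hg1
      have h3 : (y : ℤ) + x0 + P.B * m - ((y : ℤ) - x0) = 2 * x0 + P.B * m := by ring
      rwa [h3] at this
    have hg4 : ((g : ℤ)) ^ 2 ∣ ((P.Q x0 m : ℕ) : ℤ) := by
      have h3 : g ^ 2 ∣ d := by
        rw [hd2, sq]
        exact Nat.mul_dvd_mul (Nat.gcd_dvd_left _ _) (Nat.gcd_dvd_right _ _)
      exact_mod_cast h3.trans hx0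
    have hg5 : ((g : ℤ)) ^ 2 ∣ ((P.B : ℤ) ^ 2 - 4 * P.A) * m ^ 2 := by
      have h3 : ((P.B : ℤ) ^ 2 - 4 * P.A) * m ^ 2 =
          (2 * x0 + P.B * m) ^ 2 - 4 * ((P.Q x0 m : ℕ) : ℤ) := by
        unfold Q; push_cast; ring
      rw [h3]
      exact dvd_sub (pow_dvd_pow_of_dvd hg3 2) (hg4.mul_left 4)
    have hg6 : g ^ 2 ∣ K := by
      have h3 := Int.natAbs_dvd_natAbs.2 hg5
      rw [Int.natAbs_mul, Int.natAbs_pow, Int.natAbs_pow, Int.natAbs_natCast,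
        Int.natAbs_natCast] at h3
      exact h3
    have hg7 := Nat.le_of_dvd hKpos hg6
    nlinarith
  have hcard : s.card ≤ X / L + 1 := by
    apply card_le_of_modEq (fun x hx => (hmem x hx).1)
    intro x hx x' hx'
    obtain ⟨h1, h2⟩ := hcong x hx
    obtain ⟨h1', h2'⟩ := hcong x' hx'
    rw [Nat.modEq_iff_dvd]
    have h3 : (d1 : ℤ) ∣ (x' : ℤ) - x := by
      have := dvd_sub h1' h1
      have h4 : (x' : ℤ) - x0 - ((x : ℤ) - x0) = (x' : ℤ) - x := by ring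
      rwa [h4] at this
    have h3' : (d2 : ℤ) ∣ (x' : ℤ) - x := by
      have := dvd_sub h2' h2
      have h4 : (x' : ℤ) + x0 + P.B * m - ((x : ℤ) + x0 + P.B * m) = (x' : ℤ) - x := by ring
      rwa [h4] at this
    have h5 : L ∣ ((x' : ℤ) - x).natAbs :=
      Nat.lcm_dvd (Int.natCast_dvd.1 h3) (Int.natCast_dvd.1 h3')
    exact Int.natCast_dvd.2 h5
  have hdR : (0 : ℝ) < d := by exact_mod_cast hd
  have hLR : (0 : ℝ) < L := by exact_mod_cast hLpos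
  have hgR : (g : ℝ) * L = d := by exact_mod_cast hgL
  have hgKR : (g : ℝ) ≤ K := by exact_mod_cast hgK
  have hK1 : (1 : ℝ) ≤ K := by exact_mod_cast hKpos
  calc (s.card : ℝ) ≤ ((X / L + 1 : ℕ) : ℝ) := by exact_mod_cast hcard
    _ ≤ (X : ℝ) / L + 1 := by
        push_cast
        have := @Nat.cast_div_le ℝ _ _ _ X L
        linarith
    _ = (g : ℝ) * ((X : ℝ) / d) + 1 := by
        rw [← hgR]
        have hg0 : (g : ℝ) ≠ 0 := by exact_mod_cast hgpos.ne'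
        field_simp
    _ ≤ K * ((X : ℝ) / d) + K := by
        gcongr
    _ = K * ((X : ℝ) / d + 1) := by ring

/-- ROW E3.  Number of roots: `#{x ∈ [1,X] : d ∣ Q(x,m)} ≤ C τ(d) (X/d + 1)`.
Proof.  Fix one root `x₀`.  For another root `x`, `Q(x,m) - Q(x₀,m) = (x - x₀)(x + x₀ + Bm) ≡ 0` mod `d`.
Put `d₁ = gcd(d, x - x₀)`, `d₂ = d/d₁`; then `d₁ ∣ x - x₀`, `d₂ ∣ x + x₀ + Bm`.  For given `d₁ d₂ = d`
these two conditions define (at most) one residue class mod `lcm(d₁,d₂) = d/g`, `g = gcd(d₁,d₂)`.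
If some `x` satisfies both then `g ∣ 2x₀ + Bm`, `g² ∣ d ∣ Q(x₀,m)` and
`(2x₀+Bm)² = 4Q(x₀,m) + Dm²`, `D = B² - 4A ≠ 0`, give `g² ∣ Dm²`, so `g ≤ |D| m²`.  Hence the number of
such `x ∈ [1,X]` is at most `X g/d + 1 ≤ |D|m² (X/d + 1)`. -/
theorem root_count (m : ℕ) (hm : 0 < m) : ∃ C : ℝ, 0 < C ∧ ∀ d X : ℕ, 0 < d →
    (((Icc 1 X).filter (fun x => d ∣ P.Q x m)).card : ℝ) ≤
      C * d.divisors.card * ((X : ℝ) / d + 1) := by
  classical
  set K : ℕ := ((P.B : ℤ) ^ 2 - 4 * P.A).natAbs * m ^ 2 with hK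
  have hD0 : ((P.B : ℤ) ^ 2 - 4 * P.A) ≠ 0 := by
    rw [P.hD]
    exact mul_ne_zero (pow_ne_zero 2 (by exact_mod_cast P.hN.ne')) P.delta_ne_zero
  have hKpos : 0 < K := Nat.mul_pos (Int.natAbs_pos.2 hD0) (by positivity)
  refine ⟨K, by exact_mod_cast hKpos, fun d X hd => ?_⟩
  rcases ((Icc 1 X).filter (fun x => d ∣ P.Q x m)).eq_empty_or_nonempty with he | ⟨x0, hx0⟩
  · rw [he]
    simp only [card_empty, Nat.cast_zero]
    positivity
  have hx0' : d ∣ P.Q x0 m := (mem_filter.1 hx0).2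
  have hcard : ((Icc 1 X).filter (fun x => d ∣ P.Q x m)).card =
      ∑ d1 ∈ d.divisors, (((Icc 1 X).filter (fun x => d ∣ P.Q x m)).filter
        (fun x : ℕ => Int.gcd (d : ℤ) ((x : ℤ) - x0) = d1)).card := by
    apply Finset.card_eq_sum_card_fiberwise
    intro x _
    rw [mem_coe, Nat.mem_divisors]
    refine ⟨?_, hd.ne'⟩
    exact_mod_cast Int.gcd_dvd_left (a := (d : ℤ)) (b := (x : ℤ) - x0)
  rw [hcard, Nat.cast_sum]
  calc ∑ d1 ∈ d.divisors, ((((Icc 1 X).filter (fun x => d ∣ P.Q x m)).filter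
        (fun x : ℕ => Int.gcd (d : ℤ) ((x : ℤ) - x0) = d1)).card : ℝ)
      ≤ ∑ _d1 ∈ d.divisors, (K : ℝ) * ((X : ℝ) / d + 1) :=
        Finset.sum_le_sum fun d1 _ => P.root_aux hm hd hx0' d1
    _ = K * d.divisors.card * ((X : ℝ) / d + 1) := by
        rw [Finset.sum_const, nsmul_eq_mul]; ring

end Par

end Pool.Agent.Lib.MP_648c71_nt.Qap
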