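import Pool.Agent.Lib.MP_648c71_nt.Qap.E1
import Pool.Agent.Lib.MP_648c71_nt.Qap.E2
import Pool.Agent.Lib.MP_648c71_nt.Qap.E3

/-! ROW E4: second divisor moment -/

set_option autoImplicit false

namespace Pool.Agent.Lib.MP_648c71_nt.Qap

open Finset

namespace Par

variable (P : Par)

/-- ROW E4.  `∑_{x ≤ X} τ(Q(x,m))² ≤ C X (1 + log X)^c`.
Proof.  `τ(Q)² ≤ 4 τ(d)^8` for some `d ∣ Q`, `d² ≤ Q(x,m) ≤ C₁²X²`, so
`∑ τ(Q)² ≤ 4 ∑_{d ≤ C₁X} τ(d)^8 #{x ≤ X : d ∣ Q(x,m)} ≤ C ∑_{d ≤ C₁X} τ(d)^9 (X/d + 1)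
≤ C' X ∑_{d ≤ C₁ X} τ(d)^9/d`, and `sum_tau_pow_div_le`. -/
theorem div_moment (m : ℕ) (hm : 0 < m) : ∃ (C : ℝ) (c : ℕ), 0 < C ∧ ∀ X : ℕ, 1 ≤ X →
    ∑ x ∈ Icc 1 X, ((P.Q x m).divisors.card : ℝ) ^ 2 ≤ C * X * (1 + Real.log X) ^ c := by
  classical
  obtain ⟨C, hC, hroot⟩ := P.root_count m hm
  -- the constant `C₁`
  obtain ⟨C₁, hC₁⟩ : ∃ C₁ : ℕ, C₁ = 1 + P.B * m + P.A * m ^ 2 := ⟨_, rfl⟩
  have hC₁1 : 1 ≤ C₁ := by rw [hC₁]; omega
  have hC₁r : (1 : ℝ) ≤ C₁ := by exact_mod_cast hC₁1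
  have hlogC : 0 ≤ Real.log C₁ := Real.log_nonneg hC₁r
  obtain ⟨k, hk⟩ : ∃ k : ℕ, k = 2 ^ 9 := ⟨_, rfl⟩
  refine ⟨4 * C * (1 + C₁) * (1 + Real.log C₁) ^ k, k, by positivity, ?_⟩
  intro X hX
  have hXr : (1 : ℝ) ≤ X := by exact_mod_cast hX
  have hlogX : 0 ≤ Real.log X := Real.log_nonneg hXr
  obtain ⟨Z, hZ⟩ : ∃ Z : ℕ, Z = C₁ * X := ⟨_, rfl⟩
  have hZ1 : 1 ≤ Z := by rw [hZ]; exact Nat.mul_pos hC₁1 hX
  -- size of the values
  have hQ : ∀ x ∈ Icc 1 X, P.Q x m ≤ Z ^ 2 := by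
    intro x hx
    rw [mem_Icc] at hx
    have h1 : x ≤ X := hx.2
    have h2 : P.Q x m ≤ C₁ * X ^ 2 := by
      unfold Q
      rw [hC₁]
      have e1 : x ^ 2 ≤ X ^ 2 := Nat.pow_le_pow_left h1 2
      have e2 : P.B * x * m ≤ P.B * m * X ^ 2 := by
        calc P.B * x * m = P.B * m * x := by ring
          _ ≤ P.B * m * X ^ 2 := by
              apply Nat.mul_le_mul_left
              calc x ≤ X := h1
                _ ≤ X ^ 2 := Nat.le_self_pow two_ne_zero X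
      have e3 : P.A * m ^ 2 ≤ P.A * m ^ 2 * X ^ 2 := by
        apply Nat.le_mul_of_pos_right
        positivity
      calc x ^ 2 + P.B * x * m + P.A * m ^ 2 ≤ X ^ 2 + P.B * m * X ^ 2 + P.A * m ^ 2 * X ^ 2 := by
            omega
        _ = (1 + P.B * m + P.A * m ^ 2) * X ^ 2 := by ring
    calc P.Q x m ≤ C₁ * X ^ 2 := h2
      _ ≤ C₁ ^ 2 * X ^ 2 := Nat.mul_le_mul_right _ (Nat.le_self_pow two_ne_zero C₁)
      _ = Z ^ 2 := by rw [hZ]; ring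
  -- pointwise bound
  have hpt : ∀ x ∈ Icc 1 X, ((P.Q x m).divisors.card : ℝ) ^ 2 ≤
      ∑ d ∈ Icc 1 Z, if d ∣ P.Q x m then 4 * (d.divisors.card : ℝ) ^ 8 else 0 := by
    intro x hx
    have hx1 : 0 < x := by rw [mem_Icc] at hx; exact hx.1
    have hpos : 0 < P.Q x m := P.Q_pos (Or.inl hx1)
    obtain ⟨d, hd, hd2, hτ⟩ := exists_small_divisor (P.Q x m) hpos
    have hd0 : 0 < d := Nat.pos_of_dvd_of_pos hd hpos
    have hdZ : d ≤ Z := by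
      have : d ^ 2 ≤ Z ^ 2 := hd2.trans (hQ x hx)
      exact (Nat.pow_le_pow_iff_left two_ne_zero).mp this
    have hmem : d ∈ Icc 1 Z := mem_Icc.mpr ⟨hd0, hdZ⟩
    have hτr : ((P.Q x m).divisors.card : ℝ) ≤ 2 * (d.divisors.card : ℝ) ^ 4 := by exact_mod_cast hτ
    calc ((P.Q x m).divisors.card : ℝ) ^ 2 ≤ (2 * (d.divisors.card : ℝ) ^ 4) ^ 2 := by
          apply pow_le_pow_left₀ (by positivity) hτr
      _ = if d ∣ P.Q x m then 4 * (d.divisors.card : ℝ) ^ 8 else 0 := by rw [if_pos hd]; ring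
      _ ≤ ∑ d ∈ Icc 1 Z, if d ∣ P.Q x m then 4 * (d.divisors.card : ℝ) ^ 8 else 0 := by
          apply single_le_sum (f := fun d => if d ∣ P.Q x m then 4 * (d.divisors.card : ℝ) ^ 8 else 0)
            _ hmem
          intro i _
          positivity
  -- bound of each column
  have hcol : ∀ d ∈ Icc 1 Z, ∑ x ∈ Icc 1 X, (if d ∣ P.Q x m then 4 * (d.divisors.card : ℝ) ^ 8 else 0) ≤
      4 * C * (1 + C₁) * X * ((d.divisors.card : ℝ) ^ 9 / d) := by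
    intro d hd
    rw [mem_Icc] at hd
    have hd0 : 0 < d := hd.1
    have hd0r : (0 : ℝ) < d := by exact_mod_cast hd0
    rw [← sum_filter, sum_const, nsmul_eq_mul]
    have h1 := hroot d X hd0
    have h2 : (1 : ℝ) ≤ C₁ * X / d := by
      rw [le_div_iff₀ hd0r, one_mul]
      have : d ≤ C₁ * X := by rw [← hZ]; exact hd.2
      exact_mod_cast this
    calc (((Icc 1 X).filter (fun x => d ∣ P.Q x m)).card : ℝ) * (4 * (d.divisors.card : ℝ) ^ 8)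
        ≤ (C * d.divisors.card * ((X : ℝ) / d + 1)) * (4 * (d.divisors.card : ℝ) ^ 8) := by
          apply mul_le_mul_of_nonneg_right h1 (by positivity)
      _ ≤ (C * d.divisors.card * ((X : ℝ) / d + C₁ * X / d)) * (4 * (d.divisors.card : ℝ) ^ 8) := by
          gcongr
      _ = 4 * C * (1 + C₁) * X * ((d.divisors.card : ℝ) ^ 9 / d) := by
          ring
  calc ∑ x ∈ Icc 1 X, ((P.Q x m).divisors.card : ℝ) ^ 2
      ≤ ∑ x ∈ Icc 1 X, ∑ d ∈ Icc 1 Z, (if d ∣ P.Q x m then 4 * (d.divisors.card : ℝ) ^ 8 else 0) :=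
        sum_le_sum hpt
    _ = ∑ d ∈ Icc 1 Z, ∑ x ∈ Icc 1 X, (if d ∣ P.Q x m then 4 * (d.divisors.card : ℝ) ^ 8 else 0) :=
        sum_comm
    _ ≤ ∑ d ∈ Icc 1 Z, 4 * C * (1 + C₁) * X * ((d.divisors.card : ℝ) ^ 9 / d) := sum_le_sum hcol
    _ = 4 * C * (1 + C₁) * X * ∑ d ∈ Icc 1 Z, (d.divisors.card : ℝ) ^ 9 / d := by rw [mul_sum]
    _ ≤ 4 * C * (1 + C₁) * X * (1 + Real.log Z) ^ k := by
        rw [hk]
        exact mul_le_mul_of_nonneg_left (sum_tau_pow_div_le 9 Z hZ1) (by positivity)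
    _ ≤ 4 * C * (1 + C₁) * X * ((1 + Real.log C₁) * (1 + Real.log X)) ^ k := by
        apply mul_le_mul_of_nonneg_left _ (by positivity)
        apply pow_le_pow_left₀
        · have : 0 ≤ Real.log Z := Real.log_nonneg (by exact_mod_cast hZ1)
          positivity
        · rw [hZ]
          push_cast
          rw [Real.log_mul (by positivity) (by positivity)]
          nlinarith [mul_nonneg hlogC hlogX]
    _ = 4 * C * (1 + C₁) * (1 + Real.log C₁) ^ k * X * (1 + Real.log X) ^ k := by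
        rw [mul_pow]; ring

end Par

end Pool.Agent.Lib.MP_648c71_nt.Qap
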