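import Pool.Agent.Lib.MP_648c71_nt.Qap.Basic

/-! ROW F1: the number of pairs with given product -/

set_option autoImplicit false

namespace Pool.Agent.Lib.MP_648c71_nt.Qap

open Finset

namespace Par

variable (P : Par)

/-- rational part of `conj(u) u'` -/
def sc (x y x' y' : ℕ) : ℕ := x * x' + P.B * y * x' + P.A * y * y'

/-- ROW F1.  `Q(u) Q(u') = Q(X, m)` for `X = sc(u,u')`, `m = det(u,u')`, i.e. `x y' = y x' + m`. -/
theorem Q_mul_Q {x y x' y' m : ℕ} (h : x * y' = y * x' + m) :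
    P.Q x y * P.Q x' y' = P.Q (P.sc x y x' y') m := by
  have hm : (m : ℤ) = x * y' - y * x' := by
    have h2 : (x : ℤ) * y' = y * x' + m := by exact_mod_cast h
    linarith
  have key : ((P.Q x y * P.Q x' y' : ℕ) : ℤ) = (P.Q (P.sc x y x' y') m : ℕ) := by
    simp only [Q, sc]
    push_cast
    rw [hm]
    ring
  exact_mod_cast key

/-- `n y' = x m + y (X + B m)` -/
private theorem im_eq {x y x' y' m : ℕ} (h : x * y' = y * x' + m) :
    P.Q x y * y' = x * m + y * (P.sc x y x' y' + P.B * m) := by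
  have hm : (m : ℤ) = x * y' - y * x' := by
    have h2 : (x : ℤ) * y' = y * x' + m := by exact_mod_cast h
    linarith
  have key : ((P.Q x y * y' : ℕ) : ℤ) = (x * m + y * (P.sc x y x' y' + P.B * m) : ℕ) := by
    simp only [Q, sc]
    push_cast
    rw [hm]
    ring
  exact_mod_cast key

/-- `n x' + A y m = x X` -/
private theorem re_eq {x y x' y' m : ℕ} (h : x * y' = y * x' + m) :
    P.Q x y * x' + P.A * y * m = x * P.sc x y x' y' := by
  have hm : (m : ℤ) = x * y' - y * x' := by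
    have h2 : (x : ℤ) * y' = y * x' + m := by exact_mod_cast h
    linarith
  have key : ((P.Q x y * x' + P.A * y * m : ℕ) : ℤ) = (x * P.sc x y x' y' : ℕ) := by
    simp only [Q, sc]
    push_cast
    rw [hm]
    ring
  exact_mod_cast key

private theorem Q_lt_of_le_of_lt {x y x' y' : ℕ} (hx : x ≤ x') (hy : y < y') :
    P.Q x y < P.Q x' y' := by
  unfold Q
  have h1 : x ^ 2 ≤ x' ^ 2 := Nat.pow_le_pow_left hx 2
  have h2 : P.B * x * y ≤ P.B * x' * y' := by gcongr
  have h3 : P.A * y ^ 2 < P.A * y' ^ 2 :=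
    Nat.mul_lt_mul_of_pos_left (Nat.pow_lt_pow_left hy two_ne_zero) P.hA
  omega

private theorem Q_lt_of_lt {x x' y : ℕ} (hx : x < x') : P.Q x y < P.Q x' y := by
  unfold Q
  have h1 : x ^ 2 < x' ^ 2 := Nat.pow_lt_pow_left hx two_ne_zero
  have h2 : P.B * x * y ≤ P.B * x' * y := by gcongr
  omega

private theorem sq_le_Q (x y : ℕ) : x ^ 2 ≤ P.Q x y := by
  unfold Q
  omega

/-- ROW F1.  For given `(X,m)` the number of pairs `(u,u')` with `conj(u) u' = X + mω`, `u` in the sector
`0 ≤ y ≤ x`, is at most `(m+1) τ(Q(X,m))`.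
Proof.  `n := Q(u)` divides `Q(X,m)` (`Q_mul_Q`); `u'` is determined by `u`: `n u' = u (X + mω)`.  The
imaginary part of this gives `n ∣ x m + y (X + B m)`.  So for two such `u₁,u₂` with the same `n`:
`n ∣ m (x₁ y₂ - x₂ y₁)`.  Let `u₁` be the one with the largest `x` (for the same norm `n`, larger `x` means
smaller `y`, `Q` being strictly increasing in both variables); then `x₁y₂ - x₂y₁ ∈ [0, x₁ x₂] ⊆ [0,n]`
(`y₂ ≤ x₂`, `x_i² ≤ n`) and it is strictly increasing in `y₂` as `u₂` runs through the vectors of norm `n`,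
so `u₂ ↦ m(x₁y₂-x₂y₁)/n ∈ [0,m]` is injective: at most `m + 1` vectors for each `n`. -/
theorem fiber_card (X m : ℕ) (hm : 0 < m) (s : Finset (ℕ × ℕ × ℕ × ℕ))
    (hs : ∀ t ∈ s, 0 < t.1 ∧ t.2.1 ≤ t.1 ∧ 0 < t.2.2.1 ∧ t.1 * t.2.2.2 = t.2.1 * t.2.2.1 + m ∧
      P.sc t.1 t.2.1 t.2.2.1 t.2.2.2 = X) :
    s.card ≤ (m + 1) * (P.Q X m).divisors.card := by
  classical
  have hQ0 : 0 < P.Q X m := P.Q_pos (Or.inr hm)
  apply Finset.card_le_mul_card_image_of_maps_to (f := fun t : ℕ × ℕ × ℕ × ℕ => P.Q t.1 t.2.1)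
  · intro t ht
    obtain ⟨h1, h2, h3, h4, h5⟩ := hs t ht
    rw [Nat.mem_divisors]
    refine ⟨⟨P.Q t.2.2.1 t.2.2.2, ?_⟩, hQ0.ne'⟩
    rw [P.Q_mul_Q h4, h5]
  · intro n hn
    set F := s.filter (fun t : ℕ × ℕ × ℕ × ℕ => P.Q t.1 t.2.1 = n) with hF
    rcases F.eq_empty_or_nonempty with he | hne
    · rw [he]; simp
    obtain ⟨t₁, ht₁, hmax⟩ := Finset.exists_max_image F (fun t => t.1) hne
    have hn0 : 0 < n := Nat.pos_of_mem_divisors hn
    obtain ⟨hs₁, hq₁⟩ := Finset.mem_filter.1 ht₁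
    obtain ⟨p₁, q₁, r₁, d₁, c₁⟩ := hs t₁ hs₁
    -- facts on all members
    have hfact : ∀ t ∈ F, t.2.1 * t₁.1 ≥ t.1 * t₁.2.1 ∧
        t₁.1 * t.2.1 - t.1 * t₁.2.1 ≤ n ∧ n ∣ m * (t₁.1 * t.2.1 - t.1 * t₁.2.1) := by
      intro t ht
      obtain ⟨hst, hqt⟩ := Finset.mem_filter.1 ht
      obtain ⟨p, q, r, d, c⟩ := hs t hst
      have hx : t.1 ≤ t₁.1 := hmax t ht
      have hy : t₁.2.1 ≤ t.2.1 := by
        by_contra hcon
        push Not at hcon
        have := P.Q_lt_of_le_of_lt hx hcon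
        omega
      have hge : t.2.1 * t₁.1 ≥ t.1 * t₁.2.1 := by
        calc t.1 * t₁.2.1 ≤ t₁.1 * t.2.1 := Nat.mul_le_mul hx hy
          _ = t.2.1 * t₁.1 := Nat.mul_comm _ _
      refine ⟨hge, ?_, ?_⟩
      · have h1 : t₁.1 * t.2.1 ≤ t₁.1 * t.1 := Nat.mul_le_mul_left _ q
        have h2 : t₁.1 * t.1 ≤ t₁.1 * t₁.1 := Nat.mul_le_mul_left _ hx
        have h3 := P.sq_le_Q t₁.1 t₁.2.1
        rw [hq₁, sq] at h3
        omega
      · have e₁ := P.im_eq d₁
        have e := P.im_eq d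
        rw [hq₁, c₁] at e₁
        rw [hqt, c] at e
        have key : (m : ℤ) * (t₁.1 * t.2.1 - t.1 * t₁.2.1) =
            n * (t.2.1 * t₁.2.2.2 - t₁.2.1 * t.2.2.2) := by
          have e₁' : (n : ℤ) * t₁.2.2.2 = t₁.1 * m + t₁.2.1 * (X + P.B * m) := by
            exact_mod_cast e₁
          have e' : (n : ℤ) * t.2.2.2 = t.1 * m + t.2.1 * (X + P.B * m) := by
            exact_mod_cast e
          linear_combination (-(t.2.1 : ℤ)) * e₁' + (t₁.2.1 : ℤ) * e'
        have hz : (n : ℤ) ∣ ((m * (t₁.1 * t.2.1 - t.1 * t₁.2.1) : ℕ) : ℤ) := by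
          rw [Nat.cast_mul, Nat.cast_sub (by rw [Nat.mul_comm t₁.1]; exact hge)]
          push_cast
          rw [key]
          exact dvd_mul_right _ _
        exact_mod_cast hz
    have hcard : F.card ≤ (range (m + 1)).card := by
      apply Finset.card_le_card_of_injOn (fun t => m * (t₁.1 * t.2.1 - t.1 * t₁.2.1) / n)
      · intro t ht
        obtain ⟨h1, h2, h3⟩ := hfact t ht
        simp only [Finset.coe_range, Set.mem_Iio]
        have : m * (t₁.1 * t.2.1 - t.1 * t₁.2.1) / n ≤ m := by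
          calc m * (t₁.1 * t.2.1 - t.1 * t₁.2.1) / n ≤ m * n / n :=
                Nat.div_le_div_right (Nat.mul_le_mul_left _ h2)
            _ = m := Nat.mul_div_cancel _ hn0
        omega
      · intro t ht u hu htu
        obtain ⟨a1, a2, a3⟩ := hfact t ht
        obtain ⟨b1, b2, b3⟩ := hfact u hu
        simp only at htu
        obtain ⟨hst, hqt⟩ := Finset.mem_filter.1 ht
        obtain ⟨pt, qt, rt, dt, ct⟩ := hs t hst
        obtain ⟨hsu, hqu⟩ := Finset.mem_filter.1 hu
        obtain ⟨pu, qu, ru, du, cu⟩ := hs u hsu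
        have hD : t₁.1 * t.2.1 - t.1 * t₁.2.1 = t₁.1 * u.2.1 - u.1 * t₁.2.1 := by
          have h2 : m * (t₁.1 * t.2.1 - t.1 * t₁.2.1) = m * (t₁.1 * u.2.1 - u.1 * t₁.2.1) := by
            rw [← Nat.div_mul_cancel a3, ← Nat.div_mul_cancel b3, htu]
          exact Nat.eq_of_mul_eq_mul_left hm h2
        have hD' : t₁.1 * t.2.1 + u.1 * t₁.2.1 = t₁.1 * u.2.1 + t.1 * t₁.2.1 := by
          rw [Nat.mul_comm t.2.1] at a1
          rw [Nat.mul_comm u.2.1] at b1
          omega
        have hy : t.2.1 = u.2.1 := by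
          rcases lt_trichotomy t.2.1 u.2.1 with h | h | h
          · exfalso
            have hx : u.1 ≤ t.1 := by
              by_contra hcon
              push Not at hcon
              have := P.Q_lt_of_le_of_lt hcon.le h
              omega
            have h1 : t₁.1 * t.2.1 < t₁.1 * u.2.1 := Nat.mul_lt_mul_of_pos_left h p₁
            have h2 : u.1 * t₁.2.1 ≤ t.1 * t₁.2.1 := Nat.mul_le_mul_right _ hx
            omega
          · exact h
          · exfalso
            have hx : t.1 ≤ u.1 := by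
              by_contra hcon
              push Not at hcon
              have := P.Q_lt_of_le_of_lt hcon.le h
              omega
            have h1 : t₁.1 * u.2.1 < t₁.1 * t.2.1 := Nat.mul_lt_mul_of_pos_left h p₁
            have h2 : t.1 * t₁.2.1 ≤ u.1 * t₁.2.1 := Nat.mul_le_mul_right _ hx
            omega
        have hx : t.1 = u.1 := by
          rcases lt_trichotomy t.1 u.1 with h | h | h
          · exfalso
            have := P.Q_lt_of_lt (y := t.2.1) h
            rw [hqt, hy, hqu] at this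
            omega
          · exact h
          · exfalso
            have := P.Q_lt_of_lt (y := u.2.1) h
            rw [hqu, ← hy, hqt] at this
            omega
        have et := P.im_eq dt
        have eu := P.im_eq du
        have rt' := P.re_eq dt
        have ru' := P.re_eq du
        rw [hqt, ct, hx, hy] at et rt'
        rw [hqu, cu] at eu ru'
        have hy' : t.2.2.2 = u.2.2.2 := Nat.eq_of_mul_eq_mul_left hn0 (by rw [et, eu])
        have hx' : t.2.2.1 = u.2.2.1 := Nat.eq_of_mul_eq_mul_left hn0 (by omega)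
        obtain ⟨t1, t2, t3, t4⟩ := t
        obtain ⟨u1, u2, u3, u4⟩ := u
        simp only at hx hy hx' hy'
        rw [hx, hy, hx', hy']
    simpa using hcard

end Par

end Pool.Agent.Lib.MP_648c71_nt.Qap
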