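import Pool.Agent.Lib.MP_648c71_nt.Qap.F1

/-! ROW F2: reduction to S_m -/

set_option autoImplicit false

namespace Pool.Agent.Lib.MP_648c71_nt.Qap

open Finset

namespace Par

variable (P : Par)

private theorem F2_sc_coprime_A {x y x' y' : ℕ} (hx : x.Coprime P.A) (hx' : x'.Coprime P.A) :
    (P.sc x y x' y').Coprime P.A := by
  rw [Nat.coprime_iff_gcd_eq_one]
  by_contra hne
  obtain ⟨p, hp, hpd⟩ := Nat.exists_prime_and_dvd hne
  have h1 : p ∣ P.sc x y x' y' := hpd.trans (Nat.gcd_dvd_left _ _)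
  have h2 : p ∣ P.A := hpd.trans (Nat.gcd_dvd_right _ _)
  have h3 : p ∣ P.B := P.hrad p hp h2
  have h4 : p ∣ P.B * y * x' + P.A * y * y' :=
    dvd_add ((h3.mul_right _).mul_right _) ((h2.mul_right _).mul_right _)
  have h5 : p ∣ x * x' := by
    have : P.sc x y x' y' = x * x' + (P.B * y * x' + P.A * y * y') := by unfold sc; ring
    rw [this] at h1
    exact (Nat.dvd_add_left h4).mp h1
  rcases (Nat.Prime.dvd_mul hp).mp h5 with h | h
  · have := Nat.dvd_gcd h h2
    rw [hx] at this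
    exact hp.one_lt.ne' (Nat.dvd_one.1 this)
  · have := Nat.dvd_gcd h h2
    rw [hx'] at this
    exact hp.one_lt.ne' (Nat.dvd_one.1 this)

private theorem F2_four_delta_dvd_B : 4 * P.Δ.natAbs ∣ P.B := by
  have h := Int.natAbs_dvd_natAbs.mpr P.hdB
  simpa [Int.natAbs_mul] using h

private theorem F2_xi_sc {x y x' y' : ℕ} (hu : P.V x y) (hu' : P.V x' y') :
    P.xi (P.sc x y x' y') = 1 := by
  have hc := P.F2_sc_coprime_A (y := y) (y' := y') hu.2.2.1 hu'.2.2.1
  have hmod : P.sc x y x' y' ≡ x * x' [MOD 4 * P.Δ.natAbs] := by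
    have h1 : 4 * P.Δ.natAbs ∣ P.B * y * x' + P.A * y * y' :=
      dvd_add ((P.F2_four_delta_dvd_B.mul_right _).mul_right _)
        ((P.four_delta_dvd.mul_right _).mul_right _)
    have h2 : P.sc x y x' y' = x * x' + (P.B * y * x' + P.A * y * y') := by unfold sc; ring
    rw [h2]
    obtain ⟨k, hk⟩ := h1
    rw [hk]
    simp [Nat.ModEq]
  rw [P.xi_mod hc hmod, P.xi_mul hu.1.ne' hu'.1.ne', hu.2.2.2, hu'.2.2.2, one_mul]

/-- ROW F2.  If `u = (x,y)`, `u' = (x',y')` are admissible with `m = det(u,u') > 0` and different values of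
`λ∘Q`, and `X = sc(u,u')`, `g = gcd(X,m)`, then `X/g ∈ S_{m/g}`.
Proof.  `X ≡ x x'` modulo `A` up to `B`: modulo every prime factor of `A` and modulo `4Δ`; so
`gcd(X,A) = 1`, `gcd(g,A) = 1`.  A prime `p ∣ g` divides `conj(u)u'`, so it divides `N(u) u'` and, `u'` being
primitive, `p ∣ N(u)`; `u` primitive gives `ξ(p) = 1` (`xi_prime_of_dvd_nm`/`xi_of_dvd`).  So `ξ(g) = 1`
and `ξ(X/g) = ξ(X) = ξ(x)ξ(x') = 1`.  `gcd(X/g, m/g) = 1`.  Finally
`Q(X,m) = g² Q(X/g, m/g)` and `λ(Q(X,m)) = λ(Q(u))λ(Q(u')) = -1`. -/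
theorem mem_S_of_ne {x y x' y' m : ℕ} (hu : P.V x y) (hu' : P.V x' y') (h : x * y' = y * x' + m)
    (hm : 0 < m) (hne : P.l x y ≠ P.l x' y') :
    P.sc x y x' y' / Nat.gcd (P.sc x y x' y') m ∈ P.S (m / Nat.gcd (P.sc x y x' y') m) := by
  have hQQ := P.Q_mul_Q h
  have hXA := P.F2_sc_coprime_A (y := y) (y' := y') hu.2.2.1 hu'.2.2.1
  have hxiX := P.F2_xi_sc hu hu'
  have hXpos : 0 < P.sc x y x' y' := by
    have := Nat.mul_pos hu.1 hu'.1
    unfold sc
    positivity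
  have e1 : P.Q x y * x' + P.A * y * m = x * P.sc x y x' y' := by
    zify at h ⊢
    have hm' : (m : ℤ) = x * y' - y * x' := by linarith
    rw [hm']
    unfold Q sc
    push_cast
    ring
  have e2 : P.Q x y * y' = x * m + y * P.sc x y x' y' + P.B * y * m := by
    zify at h ⊢
    have hm' : (m : ℤ) = x * y' - y * x' := by linarith
    rw [hm']
    unfold Q sc
    push_cast
    ring
  set X := P.sc x y x' y' with hX
  set g := Nat.gcd X m with hg
  have hg0 : 0 < g := Nat.gcd_pos_of_pos_right _ hm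
  have hgX : g ∣ X := Nat.gcd_dvd_left _ _
  have hgm : g ∣ m := Nat.gcd_dvd_right _ _
  have hgQ : g ∣ P.Q x y := by
    have d1 : g ∣ P.Q x y * x' := by
      have : g ∣ P.Q x y * x' + P.A * y * m := by rw [e1]; exact hgX.mul_left _
      exact (Nat.dvd_add_left (hgm.mul_left _)).mp this
    have d2 : g ∣ P.Q x y * y' := by
      rw [e2]
      exact dvd_add (dvd_add (hgm.mul_left _) (hgX.mul_left _)) (hgm.mul_left _)
    have d3 := Nat.dvd_gcd d1 d2
    rw [Nat.gcd_mul_left, hu'.2.1, mul_one] at d3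
    exact d3
  have hgA : g.Coprime P.A := Nat.Coprime.coprime_dvd_left hgX hXA
  have hxig : P.xi g = 1 := P.xi_of_dvd hg0.ne' hgA hu.2.1 hgQ
  obtain ⟨X1, hX1⟩ := hgX
  obtain ⟨m1, hm1⟩ := hgm
  have hdX : X / g = X1 := by rw [hX1, Nat.mul_div_cancel_left _ hg0]
  have hdm : m / g = m1 := by
    rw [hm1, Nat.mul_div_cancel_left _ hg0]
  rw [hdX, hdm]
  have hX1pos : 0 < X1 := by
    rcases Nat.eq_zero_or_pos X1 with h0 | h0
    · rw [h0, mul_zero] at hX1; omega
    · exact h0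
  have hcop : X1.Coprime m1 := by
    have := Nat.coprime_div_gcd_div_gcd (m := X) (n := m) hg0
    rw [← hg, hdX, hdm] at this
    exact this
  have hX1A : X1.Coprime P.A := Nat.Coprime.coprime_dvd_left ⟨g, by rw [hX1]; ring⟩ hXA
  refine ⟨hX1pos, Nat.Coprime.mul_right hcop hX1A, ?_, ?_⟩
  · rw [hX1, P.xi_mul hg0.ne' hX1pos.ne', hxig, one_mul] at hxiX
    exact hxiX
  · have hQg : P.Q X m = g ^ 2 * P.Q X1 m1 := by
      rw [hX1, hm1]; unfold Q; ring
    have hl : P.l X m = P.l X1 m1 := by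
      unfold l
      rw [hQg]
      push_cast
      exact lam_sq_mul (by exact_mod_cast hg0.ne') _
    rw [← hl]
    have hl2 : P.l X m = P.l x y * P.l x' y' := by
      unfold l
      rw [← hQQ]
      push_cast
      exact lam_mul _ _
    rw [hl2]
    rcases P.l_eq_or (Or.inl hu.1 : 0 < x ∨ 0 < y) with h1 | h1 <;>
      rcases P.l_eq_or (Or.inl hu'.1 : 0 < x' ∨ 0 < y') with h2 | h2 <;>
      simp [h1, h2] at hne ⊢

end Par

end Pool.Agent.Lib.MP_648c71_nt.Qap
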