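import Pool.Agent.Lib.MP_648c71_nt.Qap.E4
import Pool.Agent.Lib.MP_648c71_nt.Qap.F2

/-! ROW F3: the count of bad edges -/

set_option autoImplicit false

namespace Pool.Agent.Lib.MP_648c71_nt.Qap

open Finset

namespace Par

variable (P : Par)

open Classical in
/-- edges for which the combinations `(i,j)` and `(i',j')` disagree -/
noncomputable def F3_W (Y : ℕ) (q : ℕ × ℕ × ℕ × ℕ) : Finset (ℕ × ℕ × ℕ × ℕ) :=
  ((range (Y + 1)) ×ˢ (range (Y + 1)) ×ˢ (range (Y + 1)) ×ˢ (range (Y + 1))).filter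
    (fun t => Edge t.1 t.2.1 t.2.2.1 t.2.2.2 ∧
      P.Cmb t.1 t.2.1 t.2.2.1 t.2.2.2 q.1 q.2.1 ∧
      P.Cmb t.1 t.2.1 t.2.2.1 t.2.2.2 q.2.2.1 q.2.2.2 ∧
      P.lc t.1 t.2.1 t.2.2.1 t.2.2.2 q.1 q.2.1 ≠ P.lc t.1 t.2.1 t.2.2.1 t.2.2.2 q.2.2.1 q.2.2.2)

theorem F3_eq_of_coprime {i j i' j' : ℕ} (h : i.Coprime j) (h' : i'.Coprime j')
    (he : i' * j = i * j') : i = i' ∧ j = j' := by
  have h1 : i ∣ i' := by
    have : i ∣ i' * j := ⟨j', he⟩
    exact h.dvd_of_dvd_mul_right this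
  have h2 : i' ∣ i := by
    have : i' ∣ i * j' := ⟨j, he.symm⟩
    exact h'.dvd_of_dvd_mul_right this
  have h3 : i = i' := Nat.dvd_antisymm h1 h2
  refine ⟨h3, ?_⟩
  subst h3
  rcases Nat.eq_zero_or_pos i with h0 | h0
  · subst h0
    rw [Nat.coprime_zero_left] at h h'
    rw [h, h']
  · exact Nat.eq_of_mul_eq_mul_left h0 he

theorem F3_cover {L Y : ℕ} {t : ℕ × ℕ × ℕ × ℕ} (ht : t ∈ P.badSet L Y) :
    ∃ q ∈ ((range (L + 1)) ×ˢ (range (L + 1)) ×ˢ (range (L + 1)) ×ˢ (range (L + 1))).filter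
      (fun q : ℕ × ℕ × ℕ × ℕ => q.2.2.1 * q.2.1 < q.1 * q.2.2.2), t ∈ P.F3_W Y q := by
  classical
  unfold badSet at ht
  rw [mem_filter] at ht
  obtain ⟨hbox, hedge, i, j, i', j', hi, hj, hi', hj', hc, hc', hne⟩ := ht
  rcases lt_trichotomy (i' * j) (i * j') with hlt | heq | hgt
  · refine ⟨(i, j, i', j'), ?_, ?_⟩
    · simp only [mem_filter, mem_product, mem_range]
      exact ⟨⟨by omega, by omega, by omega, by omega⟩, hlt⟩
    · unfold F3_W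
      rw [mem_filter]
      exact ⟨hbox, hedge, hc, hc', hne⟩
  · exfalso
    obtain ⟨h1, h2⟩ := F3_eq_of_coprime hc.1 hc'.1 heq
    subst h1; subst h2
    exact hne rfl
  · refine ⟨(i', j', i, j), ?_, ?_⟩
    · simp only [mem_filter, mem_product, mem_range]
      exact ⟨⟨by omega, by omega, by omega, by omega⟩, hgt⟩
    · unfold F3_W
      rw [mem_filter]
      exact ⟨hbox, hedge, hc', hc, fun h => hne h.symm⟩

/-- the pair of vectors -/
def F3_phi (q t : ℕ × ℕ × ℕ × ℕ) : ℕ × ℕ × ℕ × ℕ :=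
  (q.1 * t.1 + q.2.1 * t.2.2.1, q.1 * t.2.1 + q.2.1 * t.2.2.2,
    q.2.2.1 * t.1 + q.2.2.2 * t.2.2.1, q.2.2.1 * t.2.1 + q.2.2.2 * t.2.2.2)

theorem F3_phi_inj {q : ℕ × ℕ × ℕ × ℕ} (hq : q.2.2.1 * q.2.1 < q.1 * q.2.2.2) :
    Function.Injective (F3_phi q) := by
  obtain ⟨i, j, i', j'⟩ := q
  simp only at hq
  rintro ⟨a, b, c, d⟩ ⟨a1, b1, c1, d1⟩ h
  simp only [F3_phi, Prod.mk.injEq] at h
  obtain ⟨h1, h2, h3, h4⟩ := h
  have key : ∀ a c a1 c1 : ℕ, i * a + j * c = i * a1 + j * c1 →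
      i' * a + j' * c = i' * a1 + j' * c1 → a = a1 ∧ c = c1 := by
    intro a c a1 c1 e1 e2
    have e1' : (i : ℤ) * a + j * c = i * a1 + j * c1 := by exact_mod_cast e1
    have e2' : (i' : ℤ) * a + j' * c = i' * a1 + j' * c1 := by exact_mod_cast e2
    have hm : (i : ℤ) * j' - i' * j ≠ 0 := by
      have : (i' : ℤ) * j < i * j' := by exact_mod_cast hq
      linarith
    constructor
    · have : ((i : ℤ) * j' - i' * j) * (a - a1) = 0 := by
        linear_combination (j' : ℤ) * e1' - (j : ℤ) * e2'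
      have h5 := (mul_eq_zero.1 this).resolve_left hm
      omega
    · have : ((i : ℤ) * j' - i' * j) * (c - c1) = 0 := by
        linear_combination (i : ℤ) * e2' - (i' : ℤ) * e1'
      have h5 := (mul_eq_zero.1 this).resolve_left hm
      omega
  obtain ⟨ha, hc⟩ := key a c a1 c1 h1 h3
  obtain ⟨hb, hd⟩ := key b d b1 d1 h2 h4
  subst ha; subst hb; subst hc; subst hd
  rfl

open Classical in
/-- the possible values of `sc` -/
noncomputable def F3_E (m Z : ℕ) : Finset ℕ :=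
  (Icc 1 Z).filter (fun X => X / Nat.gcd X m ∈ P.S (m / Nat.gcd X m))

/-- all facts about one element -/
theorem F3_facts {L Y : ℕ} {q t : ℕ × ℕ × ℕ × ℕ} (hq1 : q.1 ≤ L) (hq2 : q.2.1 ≤ L)
    (hq3 : q.2.2.1 ≤ L) (hq4 : q.2.2.2 ≤ L) (hq : q.2.2.1 * q.2.1 < q.1 * q.2.2.2)
    (ht : t ∈ P.F3_W Y q) :
    0 < (F3_phi q t).1 ∧ (F3_phi q t).2.1 ≤ (F3_phi q t).1 ∧ 0 < (F3_phi q t).2.2.1 ∧
      (F3_phi q t).1 * (F3_phi q t).2.2.2 =
        (F3_phi q t).2.1 * (F3_phi q t).2.2.1 + (q.1 * q.2.2.2 - q.2.2.1 * q.2.1) ∧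
      P.sc (F3_phi q t).1 (F3_phi q t).2.1 (F3_phi q t).2.2.1 (F3_phi q t).2.2.2 ∈
        P.F3_E (q.1 * q.2.2.2 - q.2.2.1 * q.2.1) ((1 + P.B + P.A) * (2 * (L + 1) * Y) ^ 2) := by
  classical
  obtain ⟨i, j, i', j'⟩ := q
  obtain ⟨a, b, c, d⟩ := t
  unfold F3_W at ht
  simp only [mem_filter, mem_product, mem_range] at ht
  obtain ⟨⟨ha, hb, hc, hd⟩, ⟨e1, e2, e3, e4, e5⟩, hC, hC', hne⟩ := ht
  simp only at hq hq1 hq2 hq3 hq4
  simp only [F3_phi]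
  have hV := hC.2
  have hV' := hC'.2
  obtain ⟨m, hm⟩ : ∃ m, i * j' = i' * j + m := ⟨_, (Nat.add_sub_cancel' hq.le).symm⟩
  have hm0 : 0 < m := by omega
  have hmm : i * j' - i' * j = m := by omega
  rw [hmm]
  have hdet : (i * a + j * c) * (i' * b + j' * d) = (i * b + j * d) * (i' * a + j' * c) + m := by
    have h1 : ((i : ℤ) * j') = i' * j + m := by exact_mod_cast hm
    have h2 : ((a : ℤ) * d) = b * c + 1 := by exact_mod_cast e5
    have h3 : ((i : ℤ) * a + j * c) * (i' * b + j' * d) =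
        (i * b + j * d) * (i' * a + j' * c) + m := by
      linear_combination ((i : ℤ) * j' - i' * j) * h2 + h1
    exact_mod_cast h3
  have hx0 : 0 < i * a + j * c := hV.1
  have hx0' : 0 < i' * a + j' * c := hV'.1
  have hyx : i * b + j * d ≤ i * a + j * c :=
    add_le_add (Nat.mul_le_mul_left _ e3) (Nat.mul_le_mul_left _ e4)
  refine ⟨hx0, hyx, hx0', hdet, ?_⟩
  unfold F3_E
  rw [mem_filter, mem_Icc]
  have hbound : ∀ k l e f : ℕ, k ≤ L → l ≤ L → e ≤ Y → f ≤ Y →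
      k * e + l * f ≤ 2 * (L + 1) * Y := by
    intro k l e f hk hl he hf
    have h1 : k * e ≤ L * Y := Nat.mul_le_mul hk he
    have h2 : l * f ≤ L * Y := Nat.mul_le_mul hl hf
    nlinarith
  refine ⟨⟨?_, ?_⟩, ?_⟩
  · unfold sc
    have : 0 < (i * a + j * c) * (i' * a + j' * c) := Nat.mul_pos hx0 hx0'
    omega
  · have b1 := hbound i j a c hq1 hq2 (by omega) (by omega)
    have b2 := hbound i j b d hq1 hq2 (by omega) (by omega)
    have b3 := hbound i' j' a c hq3 hq4 (by omega) (by omega)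
    have b4 := hbound i' j' b d hq3 hq4 (by omega) (by omega)
    unfold sc
    generalize i * a + j * c = x at *
    generalize i * b + j * d = y at *
    generalize i' * a + j' * c = x' at *
    generalize i' * b + j' * d = y' at *
    generalize 2 * (L + 1) * Y = M at *
    calc x * x' + P.B * y * x' + P.A * y * y'
        ≤ M * M + P.B * M * M + P.A * M * M := by gcongr
      _ = (1 + P.B + P.A) * M ^ 2 := by ring
  · exact P.mem_S_of_ne hV hV' hdet hm0 hne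

theorem F3_card_W {L Y : ℕ} {q : ℕ × ℕ × ℕ × ℕ} (hq1 : q.1 ≤ L) (hq2 : q.2.1 ≤ L)
    (hq3 : q.2.2.1 ≤ L) (hq4 : q.2.2.2 ≤ L) (hq : q.2.2.1 * q.2.1 < q.1 * q.2.2.2) :
    (P.F3_W Y q).card ≤ (q.1 * q.2.2.2 - q.2.2.1 * q.2.1 + 1) *
      ∑ X ∈ P.F3_E (q.1 * q.2.2.2 - q.2.2.1 * q.2.1) ((1 + P.B + P.A) * (2 * (L + 1) * Y) ^ 2),
        (P.Q X (q.1 * q.2.2.2 - q.2.2.1 * q.2.1)).divisors.card := by
  classical
  have hfacts := fun t (ht : t ∈ P.F3_W Y q) => P.F3_facts hq1 hq2 hq3 hq4 hq ht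
  generalize hm : q.1 * q.2.2.2 - q.2.2.1 * q.2.1 = m at *
  have hm0 : 0 < m := by omega
  rw [← card_image_of_injective (P.F3_W Y q) (F3_phi_inj hq)]
  rw [card_eq_sum_card_fiberwise (f := fun u : ℕ × ℕ × ℕ × ℕ => P.sc u.1 u.2.1 u.2.2.1 u.2.2.2)
    (t := P.F3_E m ((1 + P.B + P.A) * (2 * (L + 1) * Y) ^ 2))]
  · rw [mul_sum]
    apply sum_le_sum
    intro X _
    apply P.fiber_card X m hm0
    intro u hu
    rw [mem_filter, mem_image] at hu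
    obtain ⟨⟨t, ht, rfl⟩, hsc⟩ := hu
    obtain ⟨f1, f2, f3, f4, -⟩ := hfacts t ht
    exact ⟨f1, f2, f3, f4, hsc⟩
  · intro u hu
    rw [mem_coe, mem_image] at hu
    obtain ⟨t, ht, rfl⟩ := hu
    exact (hfacts t ht).2.2.2.2

/-- the number of possible values -/
theorem F3_card_E (m Z : ℕ) (hm : 0 < m) : open Classical in
    (P.F3_E m Z).card ≤ ∑ g ∈ m.divisors, ((Icc 1 Z).filter (fun x => x ∈ P.S (m / g))).card := by
  classical
  have hsub : P.F3_E m Z ⊆ m.divisors.biUnion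
      (fun g => ((Icc 1 Z).filter (fun x => x ∈ P.S (m / g))).image (fun x => g * x)) := by
    intro X hX
    unfold F3_E at hX
    rw [mem_filter, mem_Icc] at hX
    rw [mem_biUnion]
    have hgX : Nat.gcd X m ∣ X := Nat.gcd_dvd_left _ _
    have hg0 : 0 < Nat.gcd X m := Nat.gcd_pos_of_pos_right _ hm
    refine ⟨Nat.gcd X m, Nat.mem_divisors.2 ⟨Nat.gcd_dvd_right _ _, hm.ne'⟩, ?_⟩
    rw [mem_image]
    refine ⟨X / Nat.gcd X m, ?_, Nat.mul_div_cancel' hgX⟩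
    rw [mem_filter, mem_Icc]
    refine ⟨⟨?_, (Nat.div_le_self _ _).trans hX.1.2⟩, hX.2⟩
    exact Nat.div_pos (Nat.le_of_dvd hX.1.1 hgX) hg0
  calc (P.F3_E m Z).card ≤ _ := card_le_card hsub
    _ ≤ ∑ g ∈ m.divisors,
        (((Icc 1 Z).filter (fun x => x ∈ P.S (m / g))).image (fun x => g * x)).card :=
      card_biUnion_le
    _ ≤ _ := sum_le_sum fun g _ => card_image_le

theorem F3_one (h : P.SmB) (L T : ℕ) (q : ℕ × ℕ × ℕ × ℕ) (hq1 : q.1 ≤ L) (hq2 : q.2.1 ≤ L)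
    (hq3 : q.2.2.1 ≤ L) (hq4 : q.2.2.2 ≤ L) (hq : q.2.2.1 * q.2.1 < q.1 * q.2.2.2) :
    ∃ C : ℝ, 0 < C ∧ ∀ Y : ℕ, 1 ≤ Y →
      ((P.F3_W Y q).card : ℝ) * (1 + Real.log Y) ^ T ≤ C * (Y : ℝ) ^ 2 := by
  classical
  have hcard := fun Y => P.F3_card_W (Y := Y) hq1 hq2 hq3 hq4 hq
  generalize hm : q.1 * q.2.2.2 - q.2.2.1 * q.2.1 = m at *
  have hm0 : 0 < m := by omega
  obtain ⟨C2, c, hC2, hdm⟩ := P.div_moment m hm0
  have hS : ∀ g : ℕ, ∃ C : ℝ, 0 < C ∧ (g ∈ m.divisors → ∀ X : ℕ, 1 ≤ X →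
      (((Icc 1 X).filter (fun x => x ∈ P.S (m / g))).card : ℝ) * (1 + Real.log X) ^ (c + 2 * T)
        ≤ C * X) := by
    intro g
    by_cases hg : g ∈ m.divisors
    · obtain ⟨C, hC, hC'⟩ := h (c + 2 * T) (m / g)
        (Nat.div_pos (Nat.divisor_le hg) (Nat.pos_of_mem_divisors hg))
      exact ⟨C, hC, fun _ => hC'⟩
    · exact ⟨1, one_pos, fun hg' => absurd hg' hg⟩
  choose C1 hC1 hS using hS
  set C3 : ℝ := ∑ g ∈ m.divisors, C1 g with hC3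
  have hC3pos : 0 < C3 := sum_pos (fun g _ => hC1 g) ⟨1, Nat.one_mem_divisors.2 hm0.ne'⟩
  set k : ℝ := (((1 + P.B + P.A) * (2 * (L + 1)) ^ 2 : ℕ) : ℝ) with hk
  have hkpos : 0 < k := by
    rw [hk]
    have : 0 < (1 + P.B + P.A) * (2 * (L + 1)) ^ 2 := by positivity
    exact_mod_cast this
  refine ⟨(m + 1) * Real.sqrt (C3 * C2) * k, by positivity, ?_⟩
  intro Y hY
  obtain ⟨Z, hZ⟩ : ∃ Z, Z = (1 + P.B + P.A) * (2 * (L + 1) * Y) ^ 2 := ⟨_, rfl⟩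
  have hZk : (Z : ℝ) = k * (Y : ℝ) ^ 2 := by
    rw [hZ, hk]; push_cast; ring
  have hYZ : Y ≤ Z := by
    rw [hZ]
    have h1 : Y ≤ Y ^ 2 := by nlinarith
    calc Y ≤ 1 * Y ^ 2 := by omega
      _ ≤ ((1 + P.B + P.A) * (2 * (L + 1)) ^ 2) * Y ^ 2 := by
        apply Nat.mul_le_mul_right
        have : 0 < (1 + P.B + P.A) * (2 * (L + 1)) ^ 2 := by positivity
        omega
      _ = _ := by ring
  have hZ1 : 1 ≤ Z := hY.trans hYZ
  have hcW := hcard Y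
  rw [← hZ] at hcW
  have hlogY : 0 ≤ Real.log Y := Real.log_natCast_nonneg Y
  have hlogZ : 0 ≤ Real.log Z := Real.log_natCast_nonneg Z
  have hYZ' : Real.log Y ≤ Real.log Z := by
    apply Real.log_le_log
    · exact_mod_cast hY
    · exact_mod_cast hYZ
  set l : ℝ := 1 + Real.log Z with hl
  have hl1 : 1 ≤ l := by linarith
  -- the second moment
  have h1 : ((∑ X ∈ P.F3_E m Z, (P.Q X m).divisors.card : ℕ) : ℝ) ^ 2 ≤
      ((P.F3_E m Z).card : ℝ) * (C2 * Z * l ^ c) := by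
    push_cast
    refine (sq_sum_le_card_mul_sum_sq).trans ?_
    apply mul_le_mul_of_nonneg_left _ (Nat.cast_nonneg _)
    refine le_trans ?_ (hdm Z hZ1)
    apply sum_le_sum_of_subset_of_nonneg
    · unfold F3_E
      exact filter_subset _ _
    · intro _ _ _; positivity
  have h2 : ((P.F3_E m Z).card : ℝ) * l ^ (c + 2 * T) ≤ C3 * Z := by
    calc ((P.F3_E m Z).card : ℝ) * l ^ (c + 2 * T)
        ≤ ((∑ g ∈ m.divisors, ((Icc 1 Z).filter (fun x => x ∈ P.S (m / g))).card : ℕ) : ℝ) *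
          l ^ (c + 2 * T) := by
          apply mul_le_mul_of_nonneg_right _ (by positivity)
          exact_mod_cast P.F3_card_E m Z hm0
      _ = ∑ g ∈ m.divisors, (((Icc 1 Z).filter (fun x => x ∈ P.S (m / g))).card : ℝ) *
          l ^ (c + 2 * T) := by
          push_cast
          rw [sum_mul]
      _ ≤ ∑ g ∈ m.divisors, C1 g * Z := sum_le_sum fun g hg => hS g hg Z hZ1
      _ = C3 * Z := by rw [hC3, sum_mul]
  set W : ℝ := ((P.F3_W Y q).card : ℝ) with hW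
  have hW0 : 0 ≤ W := Nat.cast_nonneg _
  have h3 : W ≤ (m + 1) * ((∑ X ∈ P.F3_E m Z, (P.Q X m).divisors.card : ℕ) : ℝ) := by
    rw [hW]
    exact_mod_cast hcW
  have h4 : W ^ 2 ≤ (m + 1) ^ 2 * (((P.F3_E m Z).card : ℝ) * (C2 * Z * l ^ c)) := by
    calc W ^ 2 ≤ ((m + 1) * ((∑ X ∈ P.F3_E m Z, (P.Q X m).divisors.card : ℕ) : ℝ)) ^ 2 :=
          pow_le_pow_left₀ hW0 h3 2
      _ = (m + 1) ^ 2 * ((∑ X ∈ P.F3_E m Z, (P.Q X m).divisors.card : ℕ) : ℝ) ^ 2 := by ring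
      _ ≤ _ := mul_le_mul_of_nonneg_left h1 (by positivity)
  have h5 : (W * l ^ T) ^ 2 * l ^ c ≤ ((m + 1) * Real.sqrt (C3 * C2) * Z) ^ 2 * l ^ c := by
    calc (W * l ^ T) ^ 2 * l ^ c = W ^ 2 * l ^ (c + 2 * T) := by ring
      _ ≤ ((m + 1) ^ 2 * (((P.F3_E m Z).card : ℝ) * (C2 * Z * l ^ c))) * l ^ (c + 2 * T) :=
          mul_le_mul_of_nonneg_right h4 (by positivity)
      _ = (m + 1) ^ 2 * (C2 * Z * l ^ c) * (((P.F3_E m Z).card : ℝ) * l ^ (c + 2 * T)) := by ring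
      _ ≤ (m + 1) ^ 2 * (C2 * Z * l ^ c) * (C3 * Z) :=
          mul_le_mul_of_nonneg_left h2 (by positivity)
      _ = (m + 1) ^ 2 * (C3 * C2) * Z ^ 2 * l ^ c := by ring
      _ = (m + 1) ^ 2 * (Real.sqrt (C3 * C2)) ^ 2 * Z ^ 2 * l ^ c := by
          rw [Real.sq_sqrt (by positivity)]
      _ = ((m + 1) * Real.sqrt (C3 * C2) * Z) ^ 2 * l ^ c := by ring
  have h6 : (W * l ^ T) ^ 2 ≤ ((m + 1) * Real.sqrt (C3 * C2) * Z) ^ 2 :=
    le_of_mul_le_mul_right h5 (by positivity)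
  have h7 : W * l ^ T ≤ (m + 1) * Real.sqrt (C3 * C2) * Z :=
    le_of_sq_le_sq h6 (by positivity)
  calc W * (1 + Real.log Y) ^ T ≤ W * l ^ T := by
        apply mul_le_mul_of_nonneg_left _ hW0
        apply pow_le_pow_left₀ (by linarith)
        rw [hl]; linarith
    _ ≤ (m + 1) * Real.sqrt (C3 * C2) * Z := h7
    _ = (m + 1) * Real.sqrt (C3 * C2) * k * (Y : ℝ) ^ 2 := by rw [hZk]; ring

/-- ROW F3.  The count of bad edges.
Proof.  Let `(a,b,c,d)` be a bad edge with `a,c ≤ Y`, witnesses `i,j,i',j' ≤ L`, `u = iv+jw`, `u' = i'v+j'w`.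
`det(u,u') = ij' - i'j =: m`; it is nonzero since otherwise `(i,j) = (i',j')` (coprime pairs) and the values
agree; exchanging the pairs we may take `1 ≤ m ≤ L²`.  `u,u'` lie in the sector `0 ≤ y ≤ x ≤ 2LY`, the map
edge `↦ (u,u')` is injective for fixed `i,j,i',j'` (Cramer), and `X = sc(u,u') ≤ Z := (1+B+A)(2LY)²`
satisfies `X/g ∈ S_{m/g}`, `g = gcd(X,m)` (`mem_S_of_ne`).  So the number of bad edges is at most
`∑_{i,j,i',j'} ∑_{X ≤ Z, X/g ∈ S_{m/g}} (m+1) τ(Q(X,m))` (`fiber_card`), which by Cauchy-Schwarz is at most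
`∑ (m+1) (∑_{g ∣ m} |S_{m/g} ∩ [1,Z]|)^{1/2} (∑_{X ≤ Z} τ(Q(X,m))²)^{1/2}`; use `SmB` with
`κ = c + 2T` and `div_moment`. -/
theorem countB_of_smB (h : P.SmB) : P.CountB := by
  classical
  intro L T
  set F := ((range (L + 1)) ×ˢ (range (L + 1)) ×ˢ (range (L + 1)) ×ˢ (range (L + 1))).filter
      (fun q : ℕ × ℕ × ℕ × ℕ => q.2.2.1 * q.2.1 < q.1 * q.2.2.2) with hF
  have hone : ∀ q : ℕ × ℕ × ℕ × ℕ, ∃ C : ℝ, 0 < C ∧ (q ∈ F → ∀ Y : ℕ, 1 ≤ Y →
      ((P.F3_W Y q).card : ℝ) * (1 + Real.log Y) ^ T ≤ C * (Y : ℝ) ^ 2) := by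
    intro q
    by_cases hq : q ∈ F
    · rw [hF] at hq
      simp only [mem_filter, mem_product, mem_range] at hq
      obtain ⟨⟨h1, h2, h3, h4⟩, h5⟩ := hq
      obtain ⟨C, hC, hC'⟩ := P.F3_one h L T q (by omega) (by omega) (by omega) (by omega) h5
      exact ⟨C, hC, fun _ => hC'⟩
    · exact ⟨1, one_pos, fun hq' => absurd hq' hq⟩
  choose C hC hone using hone
  refine ⟨1 + ∑ q ∈ F, C q, by
    have : 0 ≤ ∑ q ∈ F, C q := sum_nonneg fun q _ => (hC q).le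
    linarith, ?_⟩
  intro Y hY
  have hlogY : 0 ≤ Real.log Y := Real.log_natCast_nonneg Y
  have hsub : P.badSet L Y ⊆ F.biUnion (fun q => P.F3_W Y q) := by
    intro t ht
    obtain ⟨q, hq, htq⟩ := P.F3_cover ht
    exact mem_biUnion.2 ⟨q, hq, htq⟩
  calc ((P.badSet L Y).card : ℝ) * (1 + Real.log Y) ^ T
      ≤ ((∑ q ∈ F, (P.F3_W Y q).card : ℕ) : ℝ) * (1 + Real.log Y) ^ T := by
        apply mul_le_mul_of_nonneg_right _ (by positivity)
        exact_mod_cast (card_le_card hsub).trans card_biUnion_le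
    _ = ∑ q ∈ F, ((P.F3_W Y q).card : ℝ) * (1 + Real.log Y) ^ T := by
        push_cast
        rw [sum_mul]
    _ ≤ ∑ q ∈ F, C q * (Y : ℝ) ^ 2 := sum_le_sum fun q hq => hone q hq Y hY
    _ = (∑ q ∈ F, C q) * (Y : ℝ) ^ 2 := by rw [sum_mul]
    _ ≤ (1 + ∑ q ∈ F, C q) * (Y : ℝ) ^ 2 := by
        apply mul_le_mul_of_nonneg_right _ (by positivity)
        linarith

end Par

end Pool.Agent.Lib.MP_648c71_nt.Qap
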