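import Pool.Agent.Lib.MP_648c71_nt.Qap.Defs

/-! good directions -/

set_option autoImplicit false

namespace Pool.Agent.Lib.MP_648c71_nt.Qap

open Finset MeasureTheory

namespace Par

variable (P : Par)

/-- directions all of whose edges with `max(a,c) ≥ n` are good (level `L`) -/
def GG (L n : ℕ) : Set ℝ :=
  {s | ∀ a b c d : ℕ, Edge a b c d → (b : ℝ) / a < s → s < (d : ℝ) / c → n ≤ max a c → ¬ P.Bad L a b c d}

theorem GG_mono (L : ℕ) {n n' : ℕ} (h : n ≤ n') : P.GG L n ⊆ P.GG L n' :=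
  fun _ hs a b c d he h1 h2 h3 => hs a b c d he h1 h2 (h.trans h3)

/-- The complement of `GG L n` is a countable union of open intervals. -/
theorem measurableSet_GG (L n : ℕ) : MeasurableSet (P.GG L n) := by
  have : (P.GG L n)ᶜ = ⋃ (a : ℕ) (b : ℕ) (c : ℕ) (d : ℕ) (_ : Edge a b c d ∧ n ≤ max a c ∧ P.Bad L a b c d),
      Set.Ioo ((b : ℝ) / a) ((d : ℝ) / c) := by
    ext s
    simp only [GG, Set.mem_compl_iff, Set.mem_ofPred_eq, not_forall, Classical.not_not, Set.mem_iUnion,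
      Set.mem_Ioo, exists_prop]
    constructor
    · rintro ⟨a, b, c, d, h1, h2, h3, h4, h5⟩
      exact ⟨a, b, c, d, ⟨h1, h4, h5⟩, h2, h3⟩
    · rintro ⟨a, b, c, d, ⟨h1, h4, h5⟩, h2, h3⟩
      exact ⟨a, b, c, d, h1, h2, h3, h4, h5⟩
  rw [← MeasurableSet.compl_iff, this]
  refine MeasurableSet.iUnion fun a => MeasurableSet.iUnion fun b => MeasurableSet.iUnion fun c =>
    MeasurableSet.iUnion fun d => MeasurableSet.iUnion fun _ => measurableSet_Ioo

end Par

end Pool.Agent.Lib.MP_648c71_nt.Qap
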