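import Pool.Agent.Lib.MP_648c71_nt.Qap.G0

/-! ROW G1: Borel-Cantelli -/

set_option autoImplicit false

namespace Pool.Agent.Lib.MP_648c71_nt.Qap

open Finset MeasureTheory

namespace G1

/-- the slowly growing function -/
def el (x : ℕ) : ℕ := (Nat.log 2 x + 1) ^ 2

theorem el_pos (x : ℕ) : 0 < el x := by unfold el; positivity

theorem el_mono {x y : ℕ} (h : x ≤ y) : el x ≤ el y := by
  unfold el
  have := Nat.log_mono_right (b := 2) h
  gcongr

/-- length of an edge -/
theorem edge_len {a b c d : ℕ} (h : Edge a b c d) :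
    (d : ℝ) / c - (b : ℝ) / a = 1 / ((a : ℝ) * c) := by
  obtain ⟨ha, hc, -, -, h5⟩ := h
  have ha' : (a : ℝ) ≠ 0 := by positivity
  have hc' : (c : ℝ) ≠ 0 := by positivity
  have h5' : (a : ℝ) * d = b * c + 1 := by exact_mod_cast h5
  field_simp
  linarith

theorem summable_sq_log : Summable (fun k : ℕ => 1 / ((k : ℝ) + 1) ^ 2) := by
  have h : Summable (fun n : ℕ => 1 / (n : ℝ) ^ 2) := Real.summable_one_div_nat_pow.mpr (by norm_num)
  have := (summable_nat_add_iff 1).mpr h
  simpa using this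

/-- `∑ 1/(x ℓ(x))` converges -/
theorem summable_el : Summable (fun x : ℕ => 1 / ((x : ℝ) * el x)) := by
  have key := summable_condensed_iff_of_nonneg (f := fun x : ℕ => 1 / ((x : ℝ) * el x))
    (fun n => by positivity)
    (fun m n hm hmn => by
      have h1 : (0 : ℝ) < m := by exact_mod_cast hm
      have h2 : (0 : ℝ) < el m := by exact_mod_cast el_pos m
      have h3 : (m : ℝ) ≤ n := by exact_mod_cast hmn
      have h4 : (el m : ℝ) ≤ el n := by exact_mod_cast el_mono hmn
      apply one_div_le_one_div_of_le (by positivity)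
      gcongr)
  rw [← key]
  refine summable_sq_log.congr (fun k => ?_)
  have : el (2 ^ k) = (k + 1) ^ 2 := by
    unfold el; rw [Nat.log_pow (by norm_num)]
  simp only [this]
  push_cast
  field_simp

end G1

namespace Par

variable (P : Par)

open G1

/-- ROW G1.  Almost every `s ∈ (0,1)` lies in finitely many bad edges.
Proof.  `ℓ(x) = (1 + log x)²`.  (a) Balanced bad edges (`max ≤ min·ℓ(min)`, so `min ≥ max/ℓ(max)`): for `k ∈ ℕ`
let `A_k` be the union of the intervals of the balanced bad edges with `2^k ≤ max(a,c) < 2^(k+1)`.  Each has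
length `1/(ac) ≤ ℓ(2^(k+1))/4^k`, and there are at most `C 4^(k+1)/(1+k log 2)^T` of them (`CountB`), so
`∑ vol A_k < ∞` with `T = 4`; Borel-Cantelli (`measure_limsup_atTop_eq_zero` / `ae_eventually_notMem`).
(b) Unbalanced edges: if `c > a ℓ(a)` the interval lies within `1/(ac) ≤ 1/(a²ℓ(a))` of `b/a`; similarly for
`a > c ℓ(c)`.  `B_x = ⋃_{y ≤ x} [y/x - 1/(x²ℓ(x)), y/x + 1/(x²ℓ(x))]`, `vol B_x ≤ (x+1)·2/(x²ℓ(x))` is
summable (`∑ 1/(x (1+log x)²) < ∞`, e.g. Cauchy condensation).  So a.e. `s` lies in `B_x` for only finitely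
many `x`, so only finitely many vertices `(x,y)` can be the small vertex of an unbalanced edge containing
`s`, and for irrational `s` and a fixed small vertex `(a,b)` the large one satisfies
`1/(ac) > |s - b/a| > 0`, so `c` is bounded.  Rational `s` form a null set. -/
theorem ae_good (h : P.CountB) (L : ℕ) :
    ∀ᵐ s ∂(volume.restrict (Set.Ioo (0 : ℝ) 1)), ∃ n : ℕ, s ∈ P.GG L n := by
  classical
  apply ae_restrict_of_ae
  -- balanced bad edges in the dyadic block
  set S : ℕ → Finset (ℕ × ℕ × ℕ × ℕ) := fun k => (P.badSet L (2 ^ (k + 1))).filter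
    (fun t => 2 ^ k ≤ max t.1 t.2.2.1 ∧ t.2.2.1 ≤ t.1 * el t.1 ∧ t.1 ≤ t.2.2.1 * el t.2.2.1) with hS
  set I : ℕ × ℕ × ℕ × ℕ → Set ℝ := fun t => Set.Ioo ((t.2.1 : ℝ) / t.1) ((t.2.2.2 : ℝ) / t.2.2.1) with hI
  set A : ℕ → Set ℝ := fun k => ⋃ t ∈ S k, I t with hA
  set B : ℕ → Set ℝ := fun x => ⋃ y ∈ range (x + 1),
    Set.Icc ((y : ℝ) / x - 1 / ((x : ℝ) ^ 2 * el x)) ((y : ℝ) / x + 1 / ((x : ℝ) ^ 2 * el x)) with hB
  -- the volume of `A k`
  obtain ⟨C, hC0, hC⟩ := h L 4
  have hvA : ∀ k, volume (A k) ≤ ENNReal.ofReal (64 * C * (1 / ((k : ℝ) + 1) ^ 2)) := by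
    intro k
    have h1 : volume (A k) ≤ ∑ t ∈ S k, volume (I t) := measure_biUnion_finset_le _ _
    have h2 : ∀ t ∈ S k, volume (I t) ≤ ENNReal.ofReal (((k : ℝ) + 2) ^ 2 / 4 ^ k) := by
      intro t ht
      obtain ⟨a, b, c, d⟩ := t
      simp only [hS, mem_filter, badSet, mem_product, mem_range] at ht
      obtain ⟨⟨⟨ha1, hb1, hc1, hd1⟩, hE, -⟩, hk, hca, hac⟩ := ht
      have hlen := edge_len hE
      simp only [hI, Real.volume_Ioo]
      rw [hlen]
      apply ENNReal.ofReal_le_ofReal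
      have ha := hE.1
      have hc := hE.2.1
      have ea : el a ≤ (k + 2) ^ 2 := by
        refine (el_mono (Nat.lt_succ_iff.mp ha1)).trans ?_
        unfold el
        rw [Nat.log_pow (by norm_num)]
      have ec : el c ≤ (k + 2) ^ 2 := by
        refine (el_mono (Nat.lt_succ_iff.mp hc1)).trans ?_
        unfold el
        rw [Nat.log_pow (by norm_num)]
      have hmain : 4 ^ k ≤ a * c * (k + 2) ^ 2 := by
        have h4 : (4 : ℕ) ^ k = 2 ^ k * 2 ^ k := by
          rw [← mul_pow]; norm_num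
        rw [h4]
        rcases le_total a c with hle | hle
        · rw [max_eq_right hle] at hk
          calc 2 ^ k * 2 ^ k ≤ c * c := Nat.mul_le_mul hk hk
            _ ≤ c * (a * el a) := Nat.mul_le_mul_left _ hca
            _ ≤ c * (a * (k + 2) ^ 2) := by gcongr
            _ = a * c * (k + 2) ^ 2 := by ring
        · rw [max_eq_left hle] at hk
          calc 2 ^ k * 2 ^ k ≤ a * a := Nat.mul_le_mul hk hk
            _ ≤ a * (c * el c) := Nat.mul_le_mul_left _ hac
            _ ≤ a * (c * (k + 2) ^ 2) := by gcongr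
            _ = a * c * (k + 2) ^ 2 := by ring
      have hmain' : (4 : ℝ) ^ k ≤ a * c * (k + 2) ^ 2 := by exact_mod_cast hmain
      rw [div_le_div_iff₀ (by positivity) (by positivity)]
      nlinarith [hmain']
    have h3 : volume (A k) ≤ ENNReal.ofReal (((S k).card : ℝ) * (((k : ℝ) + 2) ^ 2 / 4 ^ k)) := by
      refine (h1.trans (sum_le_sum h2)).trans ?_
      rw [sum_const, nsmul_eq_mul, ENNReal.ofReal_mul (by positivity), ENNReal.ofReal_natCast]
    refine h3.trans (ENNReal.ofReal_le_ofReal ?_)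
    have h4 : ((S k).card : ℝ) ≤ (P.badSet L (2 ^ (k + 1))).card := by
      exact_mod_cast card_le_card (filter_subset _ _)
    have h5 := hC (2 ^ (k + 1)) Nat.one_le_two_pow
    push_cast at h5
    rw [Real.log_pow] at h5
    have hlog : (1 : ℝ) / 2 ≤ Real.log 2 := by
      have := Real.log_two_gt_d9
      linarith
    have h6 : ((k : ℝ) + 2) / 2 ≤ 1 + ((k + 1 : ℕ) : ℝ) * Real.log 2 := by
      push_cast
      nlinarith [hlog, (Nat.cast_nonneg k : (0 : ℝ) ≤ k)]
    set N : ℝ := ((P.badSet L (2 ^ (k + 1))).card : ℝ) with hN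
    have hN0 : 0 ≤ N := by positivity
    have h7 : N * (((k : ℝ) + 2) / 2) ^ 4 ≤ C * ((2 : ℝ) ^ (k + 1)) ^ 2 := by
      refine le_trans ?_ h5
      apply mul_le_mul_of_nonneg_left _ hN0
      exact pow_le_pow_left₀ (by positivity) h6 4
    have h8 : ((2 : ℝ) ^ (k + 1)) ^ 2 = 4 * 4 ^ k := by
      rw [← pow_mul, mul_comm, pow_mul]; norm_num [pow_succ]; ring
    rw [h8] at h7
    have hk2 : (0 : ℝ) < (k : ℝ) + 2 := by positivity
    have h9 : N * ((k : ℝ) + 2) ^ 4 ≤ 64 * C * 4 ^ k := by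
      have : (((k : ℝ) + 2) / 2) ^ 4 = ((k : ℝ) + 2) ^ 4 / 16 := by ring
      rw [this] at h7
      nlinarith [h7]
    calc ((S k).card : ℝ) * (((k : ℝ) + 2) ^ 2 / 4 ^ k) ≤ N * (((k : ℝ) + 2) ^ 2 / 4 ^ k) := by
          gcongr
      _ = (N * ((k : ℝ) + 2) ^ 4) / (((k : ℝ) + 2) ^ 2 * 4 ^ k) := by
          field_simp
      _ ≤ (64 * C * 4 ^ k) / (((k : ℝ) + 2) ^ 2 * 4 ^ k) := by gcongr
      _ = 64 * C / ((k : ℝ) + 2) ^ 2 := by field_simp
      _ ≤ 64 * C / ((k : ℝ) + 1) ^ 2 := by
          gcongr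
          linarith
      _ = 64 * C * (1 / ((k : ℝ) + 1) ^ 2) := by ring
  have hsA : (∑' k, volume (A k)) ≠ ⊤ := by
    refine ne_top_of_le_ne_top ?_ (ENNReal.tsum_le_tsum hvA)
    exact (summable_sq_log.mul_left (64 * C)).tsum_ofReal_ne_top
  -- the volume of `B x`
  have hvB : ∀ x, volume (B x) ≤ ENNReal.ofReal (4 * (1 / ((x : ℝ) * el x))) := by
    intro x
    rcases Nat.eq_zero_or_pos x with rfl | hx
    · simp [hB]
    have h1 : volume (B x) ≤ ∑ y ∈ range (x + 1), volume
        (Set.Icc ((y : ℝ) / x - 1 / ((x : ℝ) ^ 2 * el x)) ((y : ℝ) / x + 1 / ((x : ℝ) ^ 2 * el x))) :=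
      measure_biUnion_finset_le _ _
    refine h1.trans ?_
    have he : (0 : ℝ) < el x := by exact_mod_cast el_pos x
    have hx' : (1 : ℝ) ≤ x := by exact_mod_cast hx
    have hx0 : (0 : ℝ) < x := by linarith
    have h2 : ∀ y ∈ range (x + 1), volume
        (Set.Icc ((y : ℝ) / x - 1 / ((x : ℝ) ^ 2 * el x)) ((y : ℝ) / x + 1 / ((x : ℝ) ^ 2 * el x))) =
        ENNReal.ofReal (2 / ((x : ℝ) ^ 2 * el x)) := by
      intro y _
      rw [Real.volume_Icc]
      congr 1
      ring
    rw [sum_congr rfl h2, sum_const, card_range, nsmul_eq_mul,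
      ← ENNReal.ofReal_natCast, ← ENNReal.ofReal_mul (by positivity)]
    apply ENNReal.ofReal_le_ofReal
    push_cast
    have h3 : ((x : ℝ) + 1) * (2 / ((x : ℝ) ^ 2 * el x)) ≤ (2 * x) * (2 / ((x : ℝ) ^ 2 * el x)) := by
      gcongr
      linarith
    refine h3.trans (le_of_eq ?_)
    field_simp
    norm_num
  have hsB : (∑' x, volume (B x)) ≠ ⊤ := by
    refine ne_top_of_le_ne_top ?_ (ENNReal.tsum_le_tsum hvB)
    exact (summable_el.mul_left 4).tsum_ofReal_ne_top
  have e1 := ae_eventually_notMem hsA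
  have e2 := ae_eventually_notMem hsB
  have e3 : ∀ᵐ s : ℝ ∂volume, s ∉ Set.range ((↑) : ℚ → ℝ) :=
    (Set.countable_range _).ae_notMem _
  filter_upwards [e1, e2, e3] with s hs1 hs2 hs3
  obtain ⟨K, hK⟩ := Filter.eventually_atTop.mp hs1
  obtain ⟨X, hX⟩ := Filter.eventually_atTop.mp hs2
  have hirr : ∀ a b : ℕ, s ≠ (b : ℝ) / a := by
    intro a b hab
    apply hs3
    exact ⟨(b : ℚ) / a, by rw [hab]; push_cast; rfl⟩
  -- bound for the large vertex of unbalanced edges
  obtain ⟨M, hM⟩ : ∃ M : ℕ, ∀ a b : ℕ, a < X → b ≤ a → 0 < a → 1 / ((a : ℝ) * |s - (b : ℝ) / a|) ≤ M := by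
    have hfin : ∃ M : ℕ, ∀ p ∈ (range X ×ˢ range (X + 1)),
        1 / ((p.1 : ℝ) * |s - (p.2 : ℝ) / p.1|) ≤ M := by
      refine ⟨∑ p ∈ (range X ×ˢ range (X + 1)), ⌈1 / ((p.1 : ℝ) * |s - (p.2 : ℝ) / p.1|)⌉₊, ?_⟩
      intro p hp
      refine (Nat.le_ceil _).trans ?_
      exact_mod_cast single_le_sum (f := fun p : ℕ × ℕ => ⌈1 / ((p.1 : ℝ) * |s - (p.2 : ℝ) / p.1|)⌉₊)
        (fun _ _ => Nat.zero_le _) hp
    obtain ⟨M, hM⟩ := hfin
    refine ⟨M, fun a b ha hb _ => hM (a, b) ?_⟩
    simp only [mem_product, mem_range]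
    exact ⟨ha, by omega⟩
  refine ⟨max (2 ^ K) (max X M) + 1, ?_⟩
  intro a b c d hE hbs hsd hn hbad
  have hn' : max (2 ^ K) (max X M) < max a c := hn
  have hlen := edge_len hE
  have ha := hE.1
  have hc := hE.2.1
  have hba := hE.2.2.1
  have hdc := hE.2.2.2.1
  have ha' : (0 : ℝ) < a := by exact_mod_cast ha
  have hc' : (0 : ℝ) < c := by exact_mod_cast hc
  by_cases hca : c ≤ a * el a
  · by_cases hac : a ≤ c * el c
    · -- balanced
      set k := Nat.log 2 (max a c) with hk
      have hmax : max a c ≠ 0 := by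
        have : a ≤ max a c := le_max_left _ _
        omega
      have hk1 : 2 ^ k ≤ max a c := Nat.pow_log_le_self 2 hmax
      have hk2 : max a c < 2 ^ (k + 1) := Nat.lt_pow_succ_log_self (by norm_num) _
      have hKk : K ≤ k := by
        have h2K : 2 ^ K ≤ max a c := by
          have := le_max_left (2 ^ K) (max X M)
          omega
        rw [hk]
        exact (Nat.le_log_iff_pow_le (by norm_num) hmax).mpr h2K
      have := hK k hKk
      apply this
      simp only [hA, Set.mem_iUnion]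
      refine ⟨(a, b, c, d), ?_, ?_⟩
      · simp only [hS, mem_filter, badSet, mem_product, mem_range]
        have h1 : a ≤ max a c := le_max_left _ _
        have h2 : c ≤ max a c := le_max_right _ _
        exact ⟨⟨⟨by omega, by omega, by omega, by omega⟩, hE, hbad⟩, hk1, hca, hac⟩
      · exact ⟨hbs, hsd⟩
    · -- `a > c ℓ(c)`
      push Not at hac
      have hd1 : |s - (d : ℝ) / c| < 1 / ((a : ℝ) * c) := by
        rw [abs_lt]
        constructor <;> linarith
      have hec : (0 : ℝ) < el c := by exact_mod_cast el_pos c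
      have hac' : (c : ℝ) * el c < a := by exact_mod_cast hac
      have hd2 : 1 / ((a : ℝ) * c) ≤ 1 / ((c : ℝ) ^ 2 * el c) := by
        apply one_div_le_one_div_of_le (by positivity)
        nlinarith
      have hcX : c < X := by
        by_contra hcX
        push Not at hcX
        apply hX c hcX
        simp only [hB, Set.mem_iUnion]
        refine ⟨d, by simp only [mem_range]; omega, ?_⟩
        rw [abs_lt] at hd1
        exact ⟨by linarith, by linarith⟩
      have hpos : 0 < |s - (d : ℝ) / c| := abs_pos.mpr (sub_ne_zero.mpr (hirr c d))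
      have hMa := hM c d hcX hdc hc
      have haM : (a : ℝ) < M := by
        refine lt_of_lt_of_le ?_ hMa
        rw [lt_div_iff₀ (by positivity)]
        rw [lt_div_iff₀ (by positivity)] at hd1
        linarith
      have haM' : a < M := by exact_mod_cast haM
      have h1 : X ≤ max (2 ^ K) (max X M) := (le_max_left _ _).trans (le_max_right _ _)
      have h2 : M ≤ max (2 ^ K) (max X M) := (le_max_right _ _).trans (le_max_right _ _)
      rcases le_total a c with hle | hle
      · rw [max_eq_right hle] at hn'; omega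
      · rw [max_eq_left hle] at hn'; omega
  · -- `c > a ℓ(a)`
    push Not at hca
    have hd1 : |s - (b : ℝ) / a| < 1 / ((a : ℝ) * c) := by
      rw [abs_lt]
      constructor <;> linarith
    have hea : (0 : ℝ) < el a := by exact_mod_cast el_pos a
    have hca' : (a : ℝ) * el a < c := by exact_mod_cast hca
    have hd2 : 1 / ((a : ℝ) * c) ≤ 1 / ((a : ℝ) ^ 2 * el a) := by
      apply one_div_le_one_div_of_le (by positivity)
      nlinarith
    have haX : a < X := by
      by_contra haX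
      push Not at haX
      apply hX a haX
      simp only [hB, Set.mem_iUnion]
      refine ⟨b, by simp only [mem_range]; omega, ?_⟩
      rw [abs_lt] at hd1
      exact ⟨by linarith, by linarith⟩
    have hpos : 0 < |s - (b : ℝ) / a| := abs_pos.mpr (sub_ne_zero.mpr (hirr a b))
    have hMa := hM a b haX hba ha
    have hcM : (c : ℝ) < M := by
      refine lt_of_lt_of_le ?_ hMa
      rw [lt_div_iff₀ (by positivity)]
      rw [lt_div_iff₀ (by positivity)] at hd1
      linarith
    have hcM' : c < M := by exact_mod_cast hcM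
    have h1 : X ≤ max (2 ^ K) (max X M) := (le_max_left _ _).trans (le_max_right _ _)
    have h2 : M ≤ max (2 ^ K) (max X M) := (le_max_right _ _).trans (le_max_right _ _)
    rcases le_total a c with hle | hle
    · rw [max_eq_right hle] at hn'; omega
    · rw [max_eq_left hle] at hn'; omega

end Par

end Pool.Agent.Lib.MP_648c71_nt.Qap
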