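import Pool.Agent.Lib.MP_648c71_nt.Qap.G1

/-! ROW G2: a mostly good edge -/

set_option autoImplicit false

namespace Pool.Agent.Lib.MP_648c71_nt.Qap

open Finset MeasureTheory

namespace Par

variable (P : Par)

/-- the complement of the good directions is small for some `n` -/
private theorem g2_small (h : P.CountB) (L : ℕ) :
    ∃ n : ℕ, volume (Set.Ioo (0 : ℝ) 1 \ P.GG L n) ≤ ENNReal.ofReal (1 / 8) := by
  have hae := P.ae_good h L
  have hanti : Antitone (fun n => Set.Ioo (0 : ℝ) 1 \ P.GG L n) := by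
    intro n m hnm
    exact Set.sdiff_subset_sdiff_right (P.GG_mono L hnm)
  have hmeas : ∀ n, MeasurableSet (Set.Ioo (0 : ℝ) 1 \ P.GG L n) := fun n =>
    measurableSet_Ioo.diff (P.measurableSet_GG L n)
  have hlim := tendsto_measure_iInter_atTop (μ := volume)
    (s := fun n => Set.Ioo (0 : ℝ) 1 \ P.GG L n)
    (fun n => (hmeas n).nullMeasurableSet) hanti
    ⟨0, ne_top_of_le_ne_top (by simp [Real.volume_Ioo]) (measure_mono Set.sdiff_subset)⟩
  have hzero : volume (⋂ n, (Set.Ioo (0 : ℝ) 1 \ P.GG L n)) = 0 := by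
    rw [ae_restrict_iff' measurableSet_Ioo] at hae
    have h2 : (⋂ n, (Set.Ioo (0 : ℝ) 1 \ P.GG L n)) ⊆
        {s | ¬ (s ∈ Set.Ioo (0 : ℝ) 1 → ∃ n : ℕ, s ∈ P.GG L n)} := by
      intro s hs hcon
      rw [Set.mem_iInter] at hs
      obtain ⟨n, hn⟩ := hcon (hs 0).1
      exact (hs n).2 hn
    exact measure_mono_null h2 hae
  rw [hzero] at hlim
  have hev := hlim.eventually (gt_mem_nhds (show (0 : ENNReal) < ENNReal.ofReal (1 / 8) by
    rw [ENNReal.ofReal_pos]; norm_num))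
  obtain ⟨n, hn⟩ := hev.exists
  exact ⟨n, le_of_lt hn⟩

private theorem g2_split (L n a b c d : ℕ) (he : Edge a b c d)
    (hv : volume (Set.Ioo ((b : ℝ) / a) ((d : ℝ) / c) \ P.GG L n) ≤
        ENNReal.ofReal (((d : ℝ) / c - (b : ℝ) / a) / 8)) :
    ∃ a' b' c' d' : ℕ, Edge a' b' c' d' ∧ a + c + 1 ≤ a' + c' ∧
      volume (Set.Ioo ((b' : ℝ) / a') ((d' : ℝ) / c') \ P.GG L n) ≤
        ENNReal.ofReal (((d' : ℝ) / c' - (b' : ℝ) / a') / 8) := by
  obtain ⟨ha, hc, hba, hdc, hdet⟩ := he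
  by_contra hcon
  push Not at hcon
  have e1 : Edge a b (a + c) (b + d) := by
    refine ⟨ha, by omega, hba, by omega, ?_⟩
    rw [mul_add, hdet]; ring
  have e2 : Edge (a + c) (b + d) c d := by
    refine ⟨by omega, hc, by omega, hdc, ?_⟩
    rw [add_mul, hdet]; ring
  have h1 := hcon _ _ _ _ e1 (by omega)
  have h2 := hcon _ _ _ _ e2 (by omega)
  have haR : (0 : ℝ) < a := by exact_mod_cast ha
  have hcR : (0 : ℝ) < c := by exact_mod_cast hc
  have hdetR : (a : ℝ) * d = b * c + 1 := by exact_mod_cast hdet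
  set m : ℝ := ((b + d : ℕ) : ℝ) / ((a + c : ℕ) : ℝ) with hm
  have hm1 : (b : ℝ) / a < m := by
    rw [hm, div_lt_div_iff₀ haR (by push_cast; linarith)]
    push_cast
    nlinarith
  have hm2 : m < (d : ℝ) / c := by
    rw [hm, div_lt_div_iff₀ (by push_cast; linarith) hcR]
    push_cast
    nlinarith
  have hdisj : Disjoint (Set.Ioo ((b : ℝ) / a) m \ P.GG L n) (Set.Ioo m ((d : ℝ) / c) \ P.GG L n) := by
    rw [Set.disjoint_left]
    rintro x ⟨hx1, _⟩ ⟨hx2, _⟩
    exact absurd hx1.2 (not_lt.2 hx2.1.le)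
  have hsub : (Set.Ioo ((b : ℝ) / a) m \ P.GG L n) ∪ (Set.Ioo m ((d : ℝ) / c) \ P.GG L n) ⊆
      Set.Ioo ((b : ℝ) / a) ((d : ℝ) / c) \ P.GG L n := by
    rintro x (⟨hx1, hx2⟩ | ⟨hx1, hx2⟩)
    · exact ⟨⟨hx1.1, hx1.2.trans hm2⟩, hx2⟩
    · exact ⟨⟨hm1.trans hx1.1, hx1.2⟩, hx2⟩
  have hmeas2 : MeasurableSet (Set.Ioo m ((d : ℝ) / c) \ P.GG L n) :=
    measurableSet_Ioo.diff (P.measurableSet_GG L n)
  have hle := (measure_mono (μ := volume) hsub)
  rw [measure_union hdisj hmeas2] at hle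
  have hsum : ENNReal.ofReal ((m - (b : ℝ) / a) / 8) + ENNReal.ofReal (((d : ℝ) / c - m) / 8) =
      ENNReal.ofReal (((d : ℝ) / c - (b : ℝ) / a) / 8) := by
    rw [← ENNReal.ofReal_add (by linarith) (by linarith)]
    congr 1
    ring
  have hlt := ENNReal.add_lt_add h1 h2
  rw [hsum] at hlt
  exact absurd (hlt.trans_le (hle.trans hv)) (lt_irrefl _)

/-- ROW G2.  An edge most of whose interval is good.
Proof.  By `ae_good` and continuity from above (`tendsto_measure_iInter_atTop`...) there is `n` with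
`vol((0,1) \ GG L n) ≤ 1/8`.  Descend: for every `k` there is an edge with `a + c ≥ k + 2` and
`vol(I \ GG) ≤ |I|/8`: start `(1,0,1,1)`; the interval of `(a,b,c,d)` is the union of those of
`(a,b,a+c,b+d)` and `(a+c,b+d,c,d)` and a point, so one of the two satisfies the inequality. -/
theorem exists_edge (h : P.CountB) (L : ℕ) :
    ∃ n a b c d : ℕ, Edge a b c d ∧ n ≤ max a c ∧
      volume (Set.Ioo ((b : ℝ) / a) ((d : ℝ) / c) \ P.GG L n) ≤
        ENNReal.ofReal (((d : ℝ) / c - (b : ℝ) / a) / 8) := by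
  obtain ⟨n, hn⟩ := g2_small P h L
  have hdesc : ∀ k : ℕ, ∃ a b c d : ℕ, Edge a b c d ∧ k + 2 ≤ a + c ∧
      volume (Set.Ioo ((b : ℝ) / a) ((d : ℝ) / c) \ P.GG L n) ≤
        ENNReal.ofReal (((d : ℝ) / c - (b : ℝ) / a) / 8) := by
    intro k
    induction k with
    | zero =>
      refine ⟨1, 0, 1, 1, ⟨by norm_num, by norm_num, by norm_num, by norm_num, by norm_num⟩,
        by norm_num, ?_⟩
      simpa using hn
    | succ k ih =>
      obtain ⟨a, b, c, d, he, hk, hv⟩ := ih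
      obtain ⟨a', b', c', d', he', hk', hv'⟩ := g2_split P L n a b c d he hv
      exact ⟨a', b', c', d', he', by omega, hv'⟩
  obtain ⟨a, b, c, d, he, hk, hv⟩ := hdesc (2 * n)
  exact ⟨n, a, b, c, d, he, by omega, hv⟩

end Par

end Pool.Agent.Lib.MP_648c71_nt.Qap
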