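import Pool.Agent.Lib.MP_648c71_nt.Qap.G0

/-! descent along Farey edges -/

set_option autoImplicit false

namespace Pool.Agent.Lib.MP_648c71_nt.Qap

open Finset MeasureTheory

/-- the edges below `(a0,b0,c0,d0)` containing `s` -/
inductive Desc (s : ℝ) (a0 b0 c0 d0 : ℕ) : ℕ → ℕ → ℕ → ℕ → Prop
  | base : Desc s a0 b0 c0 d0 a0 b0 c0 d0
  | left {a b c d : ℕ} : Desc s a0 b0 c0 d0 a b c d → s * ((a : ℝ) + c) < b + d →
      Desc s a0 b0 c0 d0 a b (a + c) (b + d)
  | right {a b c d : ℕ} : Desc s a0 b0 c0 d0 a b c d → (b : ℝ) + d < s * ((a : ℝ) + c) →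
      Desc s a0 b0 c0 d0 (a + c) (b + d) c d

theorem Edge.left {a b c d : ℕ} (h : Edge a b c d) : Edge a b (a + c) (b + d) := by
  obtain ⟨h1, h2, h3, h4, h5⟩ := h
  exact ⟨h1, by omega, h3, by omega, by rw [mul_add, h5]; ring⟩

theorem Edge.right {a b c d : ℕ} (h : Edge a b c d) : Edge (a + c) (b + d) c d := by
  obtain ⟨h1, h2, h3, h4, h5⟩ := h
  exact ⟨by omega, h2, by omega, h4, by rw [add_mul, h5]; ring⟩

/-- a descendant is an edge, contains `s`, and is not smaller -/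
theorem Desc.facts {s : ℝ} {a0 b0 c0 d0 a b c d : ℕ} (h : Desc s a0 b0 c0 d0 a b c d)
    (h0 : Edge a0 b0 c0 d0) (h1 : (b0 : ℝ) / a0 < s) (h2 : s < (d0 : ℝ) / c0) :
    Edge a b c d ∧ (b : ℝ) / a < s ∧ s < (d : ℝ) / c ∧ max a0 c0 ≤ max a c := by
  induction h with
  | base => exact ⟨h0, h1, h2, le_rfl⟩
  | @left a b c d _ hs ih =>
    obtain ⟨e, i1, i2, i3⟩ := ih
    have ha : (0 : ℝ) < a := by exact_mod_cast e.1
    have hc : (0 : ℝ) < c := by exact_mod_cast e.2.1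
    refine ⟨e.left, i1, ?_, ?_⟩
    · push_cast; rw [lt_div_iff₀ (by positivity)]; exact hs
    · have := i3; simp only [le_max_iff, max_le_iff] at *; omega
  | @right a b c d _ hs ih =>
    obtain ⟨e, i1, i2, i3⟩ := ih
    have ha : (0 : ℝ) < a := by exact_mod_cast e.1
    have hc : (0 : ℝ) < c := by exact_mod_cast e.2.1
    refine ⟨e.right, ?_, i2, ?_⟩
    · push_cast; rw [div_lt_iff₀ (by positivity)]; exact hs
    · have := i3; simp only [le_max_iff, max_le_iff] at *; omega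

end Pool.Agent.Lib.MP_648c71_nt.Qap
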