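import Pool.Agent.Lib.MP_648c71_nt.Qap.Basic

/-! ROW H1: small admissible combinations -/

set_option autoImplicit false

namespace Pool.Agent.Lib.MP_648c71_nt.Qap

open Finset

namespace Par

variable (P : Par)

/-- ROW H1.  Every edge has an admissible combination with small positive coefficients.
Proof.  `d a - b c = 1`.  Let `i ∈ [A, 2A)`, `i ≡ d` mod `A`, `j0 ≡ -b` mod `A`, `1 ≤ j0 ≤ A` and
`j = j0 + tA`, where `t` is the product of the primes `r ∣ i`, `r ∤ j0`.
Then `ia + jc ≡ 1` mod `A`: so it is coprime to `A` and `ξ(ia+jc) = ξ(1) = 1` (`xi_mod_A`), and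
`gcd(ia+jc, ib+jd) = gcd(i,j) = 1`. -/
theorem exists_cmb : ∃ L0 : ℕ, 1 ≤ L0 ∧ ∀ a b c d : ℕ, Edge a b c d →
    ∃ i j : ℕ, 1 ≤ i ∧ i ≤ L0 ∧ 1 ≤ j ∧ j ≤ L0 ∧ P.Cmb a b c d i j := by
  have hA := P.hA
  refine ⟨2 * P.A + 2 * P.A * P.A, by nlinarith, ?_⟩
  intro a b c d hE
  obtain ⟨ha, hc, hba, hdc, hdet⟩ := hE
  have hdA : d % P.A < P.A := Nat.mod_lt _ hA
  have hbA : b % P.A < P.A := Nat.mod_lt _ hA
  obtain ⟨i, hi⟩ : ∃ i, i = d % P.A + P.A := ⟨_, rfl⟩
  obtain ⟨j0, hj0⟩ : ∃ j0, j0 = P.A - b % P.A := ⟨_, rfl⟩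
  obtain ⟨t, ht⟩ : ∃ t, t = ∏ r ∈ i.primeFactors.filter (fun r => ¬ r ∣ j0), r := ⟨_, rfl⟩
  have hi0 : 0 < i := by omega
  have htdvd : t ∣ i := by
    rw [ht]
    exact (Finset.prod_dvd_prod_of_subset _ _ _ (Finset.filter_subset _ _)).trans
      (Nat.prod_primeFactors_dvd i)
  have hti : t ≤ i := Nat.le_of_dvd hi0 htdvd
  have himod : i ≡ d [MOD P.A] := by
    rw [hi]
    show (d % P.A + P.A) % P.A = d % P.A
    rw [Nat.add_mod_right, Nat.mod_mod]
  have hj0b : P.A ∣ j0 + b := by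
    have h1 : j0 + b = P.A + P.A * (b / P.A) := by
      have := Nat.mod_add_div b P.A
      omega
    rw [h1]
    exact ⟨1 + b / P.A, by ring⟩
  have hcop : i.Coprime (j0 + t * P.A) := by
    rw [Nat.coprime_iff_gcd_eq_one]
    by_contra hg
    obtain ⟨r, hr, hrg⟩ := Nat.exists_prime_and_dvd hg
    have hri : r ∣ i := hrg.trans (Nat.gcd_dvd_left _ _)
    have hrj : r ∣ j0 + t * P.A := hrg.trans (Nat.gcd_dvd_right _ _)
    by_cases hrA : r ∣ P.A
    · have h1 : r ∣ j0 := (Nat.dvd_add_left (hrA.mul_left t)).mp hrj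
      have h2 : r ∣ b := (Nat.dvd_add_right h1).mp (hrA.trans hj0b)
      have h3 : r ∣ d := by
        have := (himod.dvd_iff hrA).mp hri
        exact this
      have h4 : r ∣ 1 := by
        have h5 : r ∣ b * c + 1 := by rw [← hdet]; exact h3.mul_left a
        exact (Nat.dvd_add_right (h2.mul_right c)).mp h5
      exact hr.one_lt.ne' (Nat.dvd_one.mp h4)
    · by_cases hrj0 : r ∣ j0
      · have h1 : r ∣ t * P.A := (Nat.dvd_add_right hrj0).mp hrj
        rcases (Nat.Prime.dvd_mul hr).mp h1 with h | h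
        · rw [ht, Prime.dvd_finsetProd_iff (Nat.prime_iff.mp hr)] at h
          obtain ⟨r', hr', hrr'⟩ := h
          rw [Finset.mem_filter, Nat.mem_primeFactors] at hr'
          have h2 : r = r' := (Nat.prime_dvd_prime_iff_eq hr hr'.1.1).mp hrr'
          exact hr'.2 (h2 ▸ hrj0)
        · exact hrA h
      · have h1 : r ∣ t := by
          rw [ht]
          apply Finset.dvd_prod_of_mem (fun r => r)
          rw [Finset.mem_filter, Nat.mem_primeFactors]
          exact ⟨⟨hr, hri, hi0.ne'⟩, hrj0⟩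
        exact hrj0 ((Nat.dvd_add_left (h1.mul_right P.A)).mp hrj)
  have hx1 : i * a + (j0 + t * P.A) * c ≡ 1 [MOD P.A] := by
    have h1 : i * a ≡ d * a [MOD P.A] := himod.mul_right a
    have h2 : (j0 + t * P.A) * c ≡ j0 * c [MOD P.A] := by
      apply Nat.ModEq.mul_right
      show (j0 + t * P.A) % P.A = j0 % P.A
      exact Nat.add_mul_mod_self_right _ _ _
    have h3 : d * a + j0 * c = 1 + (j0 + b) * c := by
      have : d * a = b * c + 1 := by rw [mul_comm]; exact hdet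
      rw [this]; ring
    calc i * a + (j0 + t * P.A) * c ≡ d * a + j0 * c [MOD P.A] := h1.add h2
      _ = 1 + (j0 + b) * c := h3
      _ ≡ 1 + 0 [MOD P.A] := by
          apply Nat.ModEq.add_left
          exact (Nat.modEq_zero_iff_dvd.mpr (hj0b.mul_right c))
  have hxA : (i * a + (j0 + t * P.A) * c).Coprime P.A := by
    rw [Nat.coprime_iff_gcd_eq_one, hx1.gcd_eq, Nat.gcd_one_left]
  refine ⟨i, j0 + t * P.A, hi0, ?_, ?_, ?_, hcop, ?_, ?_, hxA, ?_⟩
  · have : i ≤ 2 * P.A := by omega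
    exact this.trans (Nat.le_add_right _ _)
  · have : 1 ≤ j0 := by omega
    exact this.trans (Nat.le_add_right _ _)
  · have h1 : j0 ≤ P.A := by omega
    have h2 : t ≤ 2 * P.A := by omega
    have h3 : t * P.A ≤ 2 * P.A * P.A := Nat.mul_le_mul_right _ h2
    omega
  · positivity
  · obtain ⟨j, hj⟩ : ∃ j, j = j0 + t * P.A := ⟨_, rfl⟩
    rw [← hj] at hcop ⊢
    have e1 : (i * a + j * c) * d = (i * b + j * d) * c + i := by
      have : i * (a * d) = i * (b * c + 1) := by rw [hdet]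
      nlinarith [this]
    have e2 : (i * b + j * d) * a = (i * a + j * c) * b + j := by
      have : j * (a * d) = j * (b * c + 1) := by rw [hdet]
      nlinarith [this]
    have g1 := Nat.gcd_dvd_left (i * a + j * c) (i * b + j * d)
    have g2 := Nat.gcd_dvd_right (i * a + j * c) (i * b + j * d)
    have gi : Nat.gcd (i * a + j * c) (i * b + j * d) ∣ i := by
      have h1 : Nat.gcd (i * a + j * c) (i * b + j * d) ∣ (i * b + j * d) * c + i := by
        rw [← e1]; exact g1.mul_right d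
      exact (Nat.dvd_add_right (g2.mul_right c)).mp h1
    have gj : Nat.gcd (i * a + j * c) (i * b + j * d) ∣ j := by
      have h1 : Nat.gcd (i * a + j * c) (i * b + j * d) ∣ (i * a + j * c) * b + j := by
        rw [← e2]; exact g2.mul_right a
      exact (Nat.dvd_add_right (g1.mul_right b)).mp h1
    exact Nat.eq_one_of_dvd_one (hcop ▸ Nat.dvd_gcd gi gj)
  · rw [P.xi_mod_A hxA hx1, P.xi_one]

end Par

end Pool.Agent.Lib.MP_648c71_nt.Qap
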