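import Pool.Agent.Lib.MP_648c71_nt.Qap.H0

/-! ROW H2: balanced descendants -/

set_option autoImplicit false

namespace Pool.Agent.Lib.MP_648c71_nt.Qap

open Finset

/-- `s` is not the mediant -/
private theorem H2_ne {s : ℝ} (hs : Irrational s) {a b c d : ℕ} (h : Edge a b c d) :
    s * ((a : ℝ) + c) ≠ b + d := by
  intro he
  have ha : (0 : ℝ) < a := by exact_mod_cast h.1
  have hc : (0 : ℝ) < c := by exact_mod_cast h.2.1
  have h1 : s = ((b + d : ℕ) : ℝ) / ((a + c : ℕ) : ℝ) := by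
    push_cast
    rw [eq_div_iff (by positivity)]
    exact he
  apply hs
  refine ⟨((b + d : ℕ) : ℚ) / ((a + c : ℕ) : ℚ), ?_⟩
  rw [h1]
  push_cast
  rfl

/-- every descendant has a larger descendant -/
private theorem H2_step {s : ℝ} (hs : Irrational s) {a0 b0 c0 d0 : ℕ} (h0 : Edge a0 b0 c0 d0)
    (h1 : (b0 : ℝ) / a0 < s) (h2 : s < (d0 : ℝ) / c0) {a b c d : ℕ}
    (h : Desc s a0 b0 c0 d0 a b c d) :
    ∃ a' b' c' d' : ℕ, Desc s a0 b0 c0 d0 a' b' c' d' ∧ a + c < a' + c' := by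
  obtain ⟨e, -, -, -⟩ := h.facts h0 h1 h2
  have ha := e.1
  have hc := e.2.1
  rcases lt_or_gt_of_ne (H2_ne hs e) with hlt | hgt
  · exact ⟨a, b, a + c, b + d, h.left hlt, by omega⟩
  · exact ⟨a + c, b + d, c, d, h.right hgt, by omega⟩

private theorem H2_large {s : ℝ} (hs : Irrational s) {a0 b0 c0 d0 : ℕ} (h0 : Edge a0 b0 c0 d0)
    (h1 : (b0 : ℝ) / a0 < s) (h2 : s < (d0 : ℝ) / c0) (k : ℕ) :
    ∃ a b c d : ℕ, Desc s a0 b0 c0 d0 a b c d ∧ k ≤ a + c := by
  induction k with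
  | zero => exact ⟨a0, b0, c0, d0, Desc.base, Nat.zero_le _⟩
  | succ k ih =>
    obtain ⟨a, b, c, d, h, hk⟩ := ih
    obtain ⟨a', b', c', d', h', hk'⟩ := H2_step hs h0 h1 h2 h
    exact ⟨a', b', c', d', h', by omega⟩

/-- right steps until a left step is possible -/
private theorem H2_right {s : ℝ} (hs : Irrational s) {a0 b0 c0 d0 : ℕ} (h0 : Edge a0 b0 c0 d0)
    (h1 : (b0 : ℝ) / a0 < s) (h2 : s < (d0 : ℝ) / c0) {c d : ℕ} (k : ℕ) :
    ∀ a b : ℕ, Desc s a0 b0 c0 d0 a b c d → c ≤ a →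
      s * ((a : ℝ) + k * c) < b + k * d →
      ∃ a' b' c' d' : ℕ, Desc s a0 b0 c0 d0 a' b' c' d' ∧ a' ≤ 2 * c' ∧ c' ≤ 2 * a' ∧
        a + c ≤ a' + c' := by
  induction k with
  | zero =>
    intro a b h _ hk
    obtain ⟨e, i1, -, -⟩ := h.facts h0 h1 h2
    have ha : (0 : ℝ) < a := by exact_mod_cast e.1
    rw [div_lt_iff₀ ha] at i1
    push_cast at hk
    nlinarith
  | succ k ih =>
    intro a b h hca hk
    obtain ⟨e, -, -, -⟩ := h.facts h0 h1 h2
    rcases lt_or_gt_of_ne (H2_ne hs e) with hlt | hgt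
    · exact ⟨a, b, a + c, b + d, h.left hlt, by omega, by omega, by omega⟩
    · obtain ⟨a', b', c', d', h', g1, g2, g3⟩ := ih (a + c) (b + d) (h.right hgt) (by omega) (by
        push_cast at hk ⊢
        linarith)
      exact ⟨a', b', c', d', h', g1, g2, by omega⟩

/-- left steps until a right step is possible -/
private theorem H2_left {s : ℝ} (hs : Irrational s) {a0 b0 c0 d0 : ℕ} (h0 : Edge a0 b0 c0 d0)
    (h1 : (b0 : ℝ) / a0 < s) (h2 : s < (d0 : ℝ) / c0) {a b : ℕ} (k : ℕ) :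
    ∀ c d : ℕ, Desc s a0 b0 c0 d0 a b c d → a ≤ c →
      (d : ℝ) + k * b < s * ((c : ℝ) + k * a) →
      ∃ a' b' c' d' : ℕ, Desc s a0 b0 c0 d0 a' b' c' d' ∧ a' ≤ 2 * c' ∧ c' ≤ 2 * a' ∧
        a + c ≤ a' + c' := by
  induction k with
  | zero =>
    intro c d h _ hk
    obtain ⟨e, -, i2, -⟩ := h.facts h0 h1 h2
    have hc : (0 : ℝ) < c := by exact_mod_cast e.2.1
    rw [lt_div_iff₀ hc] at i2
    push_cast at hk
    nlinarith
  | succ k ih =>
    intro c d h hca hk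
    obtain ⟨e, -, -, -⟩ := h.facts h0 h1 h2
    rcases lt_or_gt_of_ne (H2_ne hs e) with hlt | hgt
    · obtain ⟨a', b', c', d', h', g1, g2, g3⟩ := ih (a + c) (b + d) (h.left hlt) (by omega) (by
        push_cast at hk ⊢
        linarith)
      exact ⟨a', b', c', d', h', g1, g2, by omega⟩
    · exact ⟨a + c, b + d, c, d, h.right hgt, by omega, by omega, by omega⟩

/-- ROW H2.  Balanced descendants.
Proof.  If from some descendant on no descendant is balanced (`a ≤ 2c` and `c ≤ 2a`): from `(a,b,c,d)` with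
`c ≤ a` the left child `(a,b,a+c,b+d)` is balanced, so the descent continues with the right child
`(a+c,b+d,c,d)`, again with `c ≤ a + c`, and so on: `s ∈ ((b+td)/(a+tc), d/c)` for all `t`, which forces
`s = d/c` in the limit, contradicting irrationality (or `s < d/c` together with
`d/c - (b+td)/(a+tc) = 1/(c(a+tc)) → 0`).  Similarly if `a ≤ c`.  The size condition: the sum `a + c`
increases at every step, and from any descendant one finds a balanced one below it. -/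
theorem exists_balanced {s : ℝ} (hs : Irrational s) {a0 b0 c0 d0 : ℕ} (h0 : Edge a0 b0 c0 d0)
    (h1 : (b0 : ℝ) / a0 < s) (h2 : s < (d0 : ℝ) / c0) (n : ℕ) :
    ∃ a b c d : ℕ, Desc s a0 b0 c0 d0 a b c d ∧ a ≤ 2 * c ∧ c ≤ 2 * a ∧ n ≤ max a c := by
  obtain ⟨a, b, c, d, h, hn⟩ := H2_large hs h0 h1 h2 (2 * n)
  obtain ⟨e, i1, i2, -⟩ := h.facts h0 h1 h2
  have ha : (0 : ℝ) < a := by exact_mod_cast e.1
  have hc : (0 : ℝ) < c := by exact_mod_cast e.2.1
  have j1 : (b : ℝ) < s * a := (div_lt_iff₀ ha).1 i1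
  have j2 : s * c < (d : ℝ) := (lt_div_iff₀ hc).1 i2
  have key : ∃ a' b' c' d' : ℕ, Desc s a0 b0 c0 d0 a' b' c' d' ∧ a' ≤ 2 * c' ∧ c' ≤ 2 * a' ∧
      a + c ≤ a' + c' := by
    rcases le_total c a with hca | hca
    · obtain ⟨k, hk⟩ := exists_nat_gt ((s * a - b) / (d - s * c))
      refine H2_right hs h0 h1 h2 k a b h hca ?_
      rw [div_lt_iff₀ (by linarith)] at hk
      linarith
    · obtain ⟨k, hk⟩ := exists_nat_gt ((d - s * c) / (s * a - b))
      refine H2_left hs h0 h1 h2 k c d h hca ?_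
      rw [div_lt_iff₀ (by linarith)] at hk
      linarith
  obtain ⟨a', b', c', d', h', g1, g2, g3⟩ := key
  refine ⟨a', b', c', d', h', g1, g2, ?_⟩
  rw [le_max_iff]
  omega

end Pool.Agent.Lib.MP_648c71_nt.Qap
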