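import Pool.Agent.Lib.MP_648c71_nt.Qap.H0

/-! ROW H3: small coordinates -/

set_option autoImplicit false

namespace Pool.Agent.Lib.MP_648c71_nt.Qap

open Finset

/-- the inductive step: descent on the coordinates -/
private theorem small_coord_aux {s C : ℝ} (hs : Irrational s) (hC : 1 ≤ C) {a0 b0 c0 d0 : ℕ}
    (h0 : Edge a0 b0 c0 d0) (h1 : (b0 : ℝ) / a0 < s) (h2 : s < (d0 : ℝ) / c0) {x y : ℕ}
    (hx : 0 < x) (hclose : |s - (y : ℝ) / x| ≤ C / (x : ℝ) ^ 2) (n : ℕ) :
    ∀ a b c d i j : ℕ, i + j ≤ n → Desc s a0 b0 c0 d0 a b c d → i.Coprime j →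
      x = i * a + j * c → y = i * b + j * d →
    ∃ a b c d i j : ℕ, Desc s a0 b0 c0 d0 a b c d ∧ (i : ℝ) ≤ 2 * C ∧ (j : ℝ) ≤ 2 * C ∧
      i.Coprime j ∧ x = i * a + j * c ∧ y = i * b + j * d := by
  induction n with
  | zero =>
    intro a b c d i j hij hD hco hxe hye
    have hi : i = 0 := by omega
    have hj : j = 0 := by omega
    subst hi; subst hj
    simp at hco
  | succ n ih =>
    intro a b c d i j hij hD hco hxe hye
    by_cases hsmall : (i : ℝ) ≤ 2 * C ∧ (j : ℝ) ≤ 2 * C
    · exact ⟨a, b, c, d, i, j, hD, hsmall.1, hsmall.2, hco, hxe, hye⟩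
    have hi0 : i ≠ 0 := by
      rintro rfl
      apply hsmall
      have : j = 1 := by simpa using hco
      subst this
      constructor <;> push_cast <;> linarith
    have hj0 : j ≠ 0 := by
      rintro rfl
      apply hsmall
      have : i = 1 := by simpa using hco
      subst this
      constructor <;> push_cast <;> linarith
    have hne : i ≠ j := by
      rintro rfl
      apply hsmall
      have : i = 1 := by simpa using hco
      subst this
      constructor <;> push_cast <;> linarith
    obtain ⟨hE, hb, hd, -⟩ := hD.facts h0 h1 h2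
    obtain ⟨ha, hc, -, -, hdet⟩ := hE
    have haR : (0 : ℝ) < a := by exact_mod_cast ha
    have hcR : (0 : ℝ) < c := by exact_mod_cast hc
    have hxR : (0 : ℝ) < x := by exact_mod_cast hx
    have hdetR : (a : ℝ) * d = b * c + 1 := by exact_mod_cast hdet
    have hxeR : (x : ℝ) = i * a + j * c := by exact_mod_cast hxe
    have hyeR : (y : ℝ) = i * b + j * d := by exact_mod_cast hye
    have hkey : (y : ℝ) * (a + c) - x * (b + d) = j - i := by
      rw [hxeR, hyeR]
      linear_combination ((j : ℝ) - i) * hdetR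
    have hac : (0 : ℝ) < (a : ℝ) + c := by positivity
    have hclose2 : |s * x - y| * x ≤ C := by
      have e : |s - (y : ℝ) / x| = |s * x - y| / x := by
        have : s - (y : ℝ) / x = (s * x - y) / x := by field_simp
        rw [this, abs_div, abs_of_pos hxR]
      rw [e, div_le_div_iff₀ hxR (by positivity)] at hclose
      have h3 : |s * x - y| * x * x ≤ C * x := by linarith [hclose]
      exact le_of_mul_le_mul_right h3 hxR
    have hmed : s * ((a : ℝ) + c) ≠ b + d := by
      intro h
      have h' : s = ((b + d : ℕ) : ℝ) / ((a + c : ℕ) : ℝ) := by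
        push_cast; rw [eq_div_iff hac.ne']; exact h
      apply hs
      rw [h']
      exact ⟨((b + d : ℕ) : ℚ) / ((a + c : ℕ) : ℚ), by push_cast; rfl⟩
    rcases lt_or_gt_of_ne hmed with hlt | hgt
    · -- left child
      by_cases hji : j < i
      · exact ih a b (a + c) (b + d) (i - j) j (by omega) (Desc.left hD hlt)
          ((Nat.coprime_sub_self_left hji.le).2 hco)
          (by
            zify [hji.le]
            zify at hxe
            rw [hxe]; ring)
          (by
            zify [hji.le]
            zify at hye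
            rw [hye]; ring)
      · exfalso
        have hij' : i < j := by omega
        have hijR : (i : ℝ) + 1 ≤ j := by exact_mod_cast hij'
        have hiR : (1 : ℝ) ≤ i := by exact_mod_cast Nat.one_le_iff_ne_zero.2 hi0
        -- (y - s x)(a + c) ≥ (j - i)
        have h4 : ((j : ℝ) - i) ≤ |s * x - y| * (a + c) := by
          have h5 : (y : ℝ) - s * x ≤ |s * x - y| := by
            rw [abs_sub_comm]; exact le_abs_self _
          have h6 := mul_le_mul_of_nonneg_right h5 hac.le
          have h6' := mul_lt_mul_of_pos_right hlt hxR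
          linarith
        have h7 : (i : ℝ) * (a + c) ≤ x := by
          rw [hxeR]; linarith [mul_le_mul_of_nonneg_right (by linarith : (i : ℝ) ≤ j) hcR.le]
        have h8 : ((j : ℝ) - i) * (i * (a + c)) ≤ C * (a + c) := by
          calc ((j : ℝ) - i) * (i * (a + c)) ≤ ((j : ℝ) - i) * x := by
                apply mul_le_mul_of_nonneg_left h7; linarith
            _ ≤ (|s * x - y| * (a + c)) * x := mul_le_mul_of_nonneg_right h4 hxR.le
            _ = (|s * x - y| * x) * (a + c) := by ring
            _ ≤ C * (a + c) := mul_le_mul_of_nonneg_right hclose2 hac.le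
        have h9 : ((j : ℝ) - i) * i ≤ C := by
          have : (((j : ℝ) - i) * i) * (a + c) ≤ C * (a + c) := by linarith
          exact le_of_mul_le_mul_right this hac
        apply hsmall
        have h10 : 0 ≤ ((j : ℝ) - i - 1) * ((i : ℝ) - 1) :=
          mul_nonneg (by linarith) (by linarith)
        have h11 : (j : ℝ) ≤ 2 * C := by linarith
        exact ⟨by linarith, h11⟩
    · -- right child
      by_cases hij' : i < j
      · exact ih (a + c) (b + d) c d i (j - i) (by omega) (Desc.right hD hgt)
          ((Nat.coprime_sub_self_right hij'.le).2 hco)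
          (by
            zify [hij'.le]
            zify at hxe
            rw [hxe]; ring)
          (by
            zify [hij'.le]
            zify at hye
            rw [hye]; ring)
      · exfalso
        have hji : j < i := by omega
        have hijR : (j : ℝ) + 1 ≤ i := by exact_mod_cast hji
        have hjR : (1 : ℝ) ≤ j := by exact_mod_cast Nat.one_le_iff_ne_zero.2 hj0
        have h4 : ((i : ℝ) - j) ≤ |s * x - y| * (a + c) := by
          have h5 : s * x - (y : ℝ) ≤ |s * x - y| := le_abs_self _
          have h6 := mul_le_mul_of_nonneg_right h5 hac.le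
          have h6' := mul_lt_mul_of_pos_right hgt hxR
          linarith
        have h7 : (j : ℝ) * (a + c) ≤ x := by
          rw [hxeR]; linarith [mul_le_mul_of_nonneg_right (by linarith : (j : ℝ) ≤ i) haR.le]
        have h8 : ((i : ℝ) - j) * (j * (a + c)) ≤ C * (a + c) := by
          calc ((i : ℝ) - j) * (j * (a + c)) ≤ ((i : ℝ) - j) * x := by
                apply mul_le_mul_of_nonneg_left h7; linarith
            _ ≤ (|s * x - y| * (a + c)) * x := mul_le_mul_of_nonneg_right h4 hxR.le
            _ = (|s * x - y| * x) * (a + c) := by ring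
            _ ≤ C * (a + c) := mul_le_mul_of_nonneg_right hclose2 hac.le
        have h9 : ((i : ℝ) - j) * j ≤ C := by
          have : (((i : ℝ) - j) * j) * (a + c) ≤ C * (a + c) := by linarith
          exact le_of_mul_le_mul_right this hac
        apply hsmall
        have h10 : 0 ≤ ((i : ℝ) - j - 1) * ((j : ℝ) - 1) :=
          mul_nonneg (by linarith) (by linarith)
        have h11 : (i : ℝ) ≤ 2 * C := by linarith
        exact ⟨h11, by linarith⟩

/-- ROW H3.  A vector very close to `s` has small coordinates in some descendant containing `s`.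
Proof.  `(x,y) = i v + j w` with coprime `i,j ≥ 0` in the base edge (Cramer: `j = a y - b x`,
`i = d x - c y`).  Induction on `i + j`.  If `i = 0` or `j = 0` or `i = j` then `i, j ≤ 1`.
Otherwise compare with the mediant `(b+d)/(a+c)`: `s` is different from it.  If `y/x` and `s` are on the
same side, pass to the corresponding child, coordinates `(i-j, j)` (left, if `j < i`) or `(i, j-i)` (right).
If they are on different sides then `C/x² ≥ |s - y/x| ≥ |(b+d)/(a+c) - y/x| = |i - j|/((a+c)x)`, and
`x = ia + jc ≥ min(i,j)(a+c)`, so `|i-j| min(i,j) ≤ C` and `i, j ≤ 2C`. -/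
theorem exists_small_coord {s C : ℝ} (hs : Irrational s) (hC : 1 ≤ C) {a0 b0 c0 d0 : ℕ}
    (h0 : Edge a0 b0 c0 d0) (h1 : (b0 : ℝ) / a0 < s) (h2 : s < (d0 : ℝ) / c0) {x y : ℕ}
    (hx : 0 < x) (hxy : x.Coprime y) (hy1 : (b0 : ℝ) / a0 < (y : ℝ) / x)
    (hy2 : (y : ℝ) / x < (d0 : ℝ) / c0) (hclose : |s - (y : ℝ) / x| ≤ C / (x : ℝ) ^ 2) :
    ∃ a b c d i j : ℕ, Desc s a0 b0 c0 d0 a b c d ∧ (i : ℝ) ≤ 2 * C ∧ (j : ℝ) ≤ 2 * C ∧
      i.Coprime j ∧ x = i * a + j * c ∧ y = i * b + j * d := by
  obtain ⟨ha, hc, -, -, hdet⟩ := id h0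
  have haR : (0 : ℝ) < a0 := by exact_mod_cast ha
  have hcR : (0 : ℝ) < c0 := by exact_mod_cast hc
  have hxR : (0 : ℝ) < x := by exact_mod_cast hx
  have e1 : b0 * x < a0 * y := by
    rw [div_lt_div_iff₀ haR hxR] at hy1
    have : b0 * x < y * a0 := by exact_mod_cast hy1
    linarith [mul_comm y a0]
  have e2 : c0 * y < d0 * x := by
    rw [div_lt_div_iff₀ hxR hcR] at hy2
    have : y * c0 < d0 * x := by exact_mod_cast hy2
    linarith [mul_comm y c0]
  obtain ⟨i, hi⟩ := Nat.exists_eq_add_of_le e2.le
  obtain ⟨j, hj⟩ := Nat.exists_eq_add_of_le e1.le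
  have hxe : x = i * a0 + j * c0 := by
    zify at hi hj hdet ⊢
    linear_combination (-(x : ℤ)) * hdet + (a0 : ℤ) * hi + (c0 : ℤ) * hj
  have hye : y = i * b0 + j * d0 := by
    zify at hi hj hdet ⊢
    linear_combination (-(y : ℤ)) * hdet + (b0 : ℤ) * hi + (d0 : ℤ) * hj
  have hco : i.Coprime j := by
    have g1 : i.gcd j ∣ x := by
      rw [hxe]
      exact dvd_add (dvd_mul_of_dvd_left (Nat.gcd_dvd_left i j) _)
        (dvd_mul_of_dvd_left (Nat.gcd_dvd_right i j) _)
    have g2 : i.gcd j ∣ y := by
      rw [hye]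
      exact dvd_add (dvd_mul_of_dvd_left (Nat.gcd_dvd_left i j) _)
        (dvd_mul_of_dvd_left (Nat.gcd_dvd_right i j) _)
    have g3 := Nat.dvd_gcd g1 g2
    rw [hxy.gcd_eq_one] at g3
    exact Nat.dvd_one.1 g3
  exact small_coord_aux hs hC h0 h1 h2 hx hclose (i + j) a0 b0 c0 d0 i j le_rfl Desc.base hco
    hxe hye

end Pool.Agent.Lib.MP_648c71_nt.Qap
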