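import Pool.Agent.Lib.MP_648c71_nt.Qap.H0

/-! inheritance of the value -/

set_option autoImplicit false

namespace Pool.Agent.Lib.MP_648c71_nt.Qap

open Finset MeasureTheory

namespace Par

variable (P : Par)

/-- all admissible combinations with coefficients `≤ L` have value `t` -/
def Tv (L a b c d : ℕ) (t : ℤ) : Prop :=
  ∀ i j : ℕ, i ≤ L → j ≤ L → P.Cmb a b c d i j → P.lc a b c d i j = t

theorem exists_Tv {L a b c d : ℕ} (h : ¬ P.Bad L a b c d) : ∃ t, P.Tv L a b c d t := by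
  by_cases h1 : ∃ i j : ℕ, i ≤ L ∧ j ≤ L ∧ P.Cmb a b c d i j
  · obtain ⟨i, j, hi, hj, hc⟩ := h1
    refine ⟨P.lc a b c d i j, fun i' j' hi' hj' hc' => ?_⟩
    by_contra hne
    exact h ⟨i', j', i, j, hi', hj', hi, hj, hc', hc, hne⟩
  · exact ⟨1, fun i j hi hj hc => absurd ⟨i, j, hi, hj, hc⟩ h1⟩

theorem cmb_left {a b c d i j : ℕ} (h : P.Cmb a b (a + c) (b + d) i j) :
    P.Cmb a b c d (i + j) j ∧ P.lc a b (a + c) (b + d) i j = P.lc a b c d (i + j) j := by
  have e1 : i * a + j * (a + c) = (i + j) * a + j * c := by ring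
  have e2 : i * b + j * (b + d) = (i + j) * b + j * d := by ring
  constructor
  · refine ⟨by simpa using h.1, ?_⟩
    have := h.2
    rw [e1, e2] at this
    exact this
  · unfold lc; rw [e1, e2]

theorem cmb_right {a b c d i j : ℕ} (h : P.Cmb (a + c) (b + d) c d i j) :
    P.Cmb a b c d i (i + j) ∧ P.lc (a + c) (b + d) c d i j = P.lc a b c d i (i + j) := by
  have e1 : i * (a + c) + j * c = i * a + (i + j) * c := by ring
  have e2 : i * (b + d) + j * d = i * b + (i + j) * d := by ring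
  constructor
  · refine ⟨by simpa using h.1, ?_⟩
    have := h.2
    rw [e1, e2] at this
    exact this
  · unfold lc; rw [e1, e2]

/-- the common value is inherited along good edges -/
theorem Desc_Tv {L0 n : ℕ} (hL0 : ∀ a b c d : ℕ, Edge a b c d →
      ∃ i j : ℕ, 1 ≤ i ∧ i ≤ L0 ∧ 1 ≤ j ∧ j ≤ L0 ∧ P.Cmb a b c d i j)
    {s : ℝ} {a0 b0 c0 d0 : ℕ} (h0 : Edge a0 b0 c0 d0) (h1 : (b0 : ℝ) / a0 < s)
    (h2 : s < (d0 : ℝ) / c0) (hn : n ≤ max a0 c0) (hs : s ∈ P.GG (2 * L0) n) {t : ℤ}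
    (ht : P.Tv (2 * L0) a0 b0 c0 d0 t) {a b c d : ℕ} (h : Desc s a0 b0 c0 d0 a b c d) :
    P.Tv (2 * L0) a b c d t := by
  induction h with
  | base => exact ht
  | @left a b c d hd hlt ih =>
    have hf := (Desc.left hd hlt).facts h0 h1 h2
    have hgood := hs _ _ _ _ hf.1 hf.2.1 hf.2.2.1 (hn.trans hf.2.2.2)
    obtain ⟨i, j, _, hi, _, hj, hc⟩ := hL0 _ _ _ _ hf.1
    obtain ⟨t', ht'⟩ := P.exists_Tv hgood
    have e1 := ht' i j (by omega) (by omega) hc
    obtain ⟨hc', hl⟩ := P.cmb_left hc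
    have e2 := ih (i + j) j (by omega) (by omega) hc'
    have : t' = t := by rw [← e1, hl, e2]
    rw [← this]; exact ht'
  | @right a b c d hd hlt ih =>
    have hf := (Desc.right hd hlt).facts h0 h1 h2
    have hgood := hs _ _ _ _ hf.1 hf.2.1 hf.2.2.1 (hn.trans hf.2.2.2)
    obtain ⟨i, j, _, hi, _, hj, hc⟩ := hL0 _ _ _ _ hf.1
    obtain ⟨t', ht'⟩ := P.exists_Tv hgood
    have e1 := ht' i j (by omega) (by omega) hc
    obtain ⟨hc', hl⟩ := P.cmb_right hc
    have e2 := ih i (i + j) (by omega) (by omega) hc'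
    have : t' = t := by rw [← e1, hl, e2]
    rw [← this]; exact ht'

end Par

end Pool.Agent.Lib.MP_648c71_nt.Qap
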