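import Pool.Agent.Lib.MP_648c71_nt.Qap.Basic
import Pool.Agent.Lib.MP_648c71_nt.V0

/-! ROW I1: p Z^2 as a norm, square roots -/

set_option autoImplicit false

namespace Pool.Agent.Lib.MP_648c71_nt.Qap

open Finset

private theorem exists_prime_isSquare_mod (D : ℤ) (hD0 : D ≠ 0) (M : ℕ) (hM : 0 < M) :
    ∃ p : ℕ, p.Prime ∧ D.natAbs < p ∧ (p : ℤ) ≡ 1 [ZMOD D] ∧ p ≡ 1 [MOD M] ∧
      ∃ e : ℤ, (p : ℤ) ∣ e ^ 2 - D := by
  have hd := Int.natAbs_pos.mpr hD0
  have hK : 4 * D.natAbs * M ≠ 0 := by positivity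
  obtain ⟨p, hp, hlt, hmod0⟩ := Nat.exists_prime_gt_modEq_one (k := 4 * D.natAbs * M)
    (4 * D.natAbs) hK
  have hmod : p ≡ 1 [MOD 4 * D.natAbs] := hmod0.of_mul_right _
  have hmodM : p ≡ 1 [MOD M] := hmod0.of_mul_left _
  have : Fact p.Prime := ⟨hp⟩
  have hmod1 : p % (4 * D.natAbs) = 1 := by
    have h1 := hmod
    unfold Nat.ModEq at h1
    rw [h1, Nat.mod_eq_of_lt (by omega)]
  have hodd : Odd p := by
    rw [Nat.odd_iff]
    have := Nat.mod_mod_of_dvd p (show 2 ∣ 4 * D.natAbs from ⟨2 * D.natAbs, by ring⟩)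
    rw [hmod1] at this
    omega
  have hJ : jacobiSym D p = 1 := by
    rw [jacobiSym.mod_right D hodd, hmod1, jacobiSym.one_right]
  rw [← jacobiSym.legendreSym.to_jacobiSym] at hJ
  have hDp : (D : ZMod p) ≠ 0 := by
    intro h
    rw [ZMod.intCast_zmod_eq_zero_iff_dvd] at h
    have := Int.natAbs_dvd_natAbs.mpr h
    rw [Int.natAbs_natCast] at this
    have := Nat.le_of_dvd hd this
    omega
  rw [legendreSym.eq_one_iff p hDp] at hJ
  obtain ⟨e, he⟩ := hJ
  refine ⟨p, hp, by omega, ?_, hmodM, ?_⟩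
  · have h1 : (p : ℤ) ≡ 1 [ZMOD ((4 * D.natAbs : ℕ) : ℤ)] :=
      (Int.natCast_modEq_iff).mpr hmod |>.trans (by rfl)
    apply h1.of_dvd
    rw [Nat.cast_mul, Int.natCast_natAbs]
    exact (self_dvd_abs D).mul_left _
  · refine ⟨e.val, ?_⟩
    rw [← ZMod.intCast_zmod_eq_zero_iff_dvd]
    push_cast
    rw [ZMod.natCast_val, ZMod.cast_id', id_eq, he]
    ring

/-- ROW I1.  Same proof as `exists_rep` in `V0.lean`; only the prime has to be chosen `≡ 1` mod `M` as well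
(`exists_prime_isSquare` with `4 |D| M` instead of `4 |D|`). -/
theorem exists_rep_mod (D : ℤ) (hD : ¬ IsSquare D) (hD1 : D ≠ -1) (M : ℕ) (hM : 0 < M) :
    ∃ (p : ℕ) (X Y Z : ℤ), p.Prime ∧ p ≡ 1 [MOD M] ∧ Z ≠ 0 ∧ X ^ 2 - D * Y ^ 2 = p * Z ^ 2 := by
  have hD0 : D ≠ 0 := by rintro rfl; exact hD ⟨0, by norm_num⟩
  obtain ⟨p, hp, hlt, hmod, hpM, e, he⟩ := exists_prime_isSquare_mod D hD0 M hM
  set d := D.natAbs with hd
  have hd0 : 0 < d := Int.natAbs_pos.mpr hD0
  have : NeZero p := ⟨hp.ne_zero⟩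
  have : NeZero d := ⟨hd0.ne'⟩
  -- pigeonhole
  obtain ⟨t, ht, t', ht', hne, hmap⟩ := Finset.exists_ne_map_eq_of_card_lt_of_maps_to
    (s := Finset.range (Nat.sqrt (p * d) + 1) ×ˢ (Finset.range (Nat.sqrt p + 1) ×ˢ
      Finset.range (Nat.sqrt d + 1)))
    (t := (Finset.univ : Finset (ZMod p × ZMod d)))
    (f := fun t => (((t.1 : ℤ) - e * t.2.1 : ℤ), ((t.1 : ℤ) - t.2.2 : ℤ)))
    (by
      rw [Finset.card_product, Finset.card_product, Finset.card_range, Finset.card_range,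
        Finset.card_range, Finset.card_univ, Fintype.card_prod, ZMod.card, ZMod.card]
      have h1 := Nat.lt_succ_sqrt (p * d)
      have h2 := Nat.lt_succ_sqrt p
      have h3 := Nat.lt_succ_sqrt d
      simp only [Nat.succ_eq_add_one] at h1 h2 h3
      have h4 : (p * d) * (p * d) < ((Nat.sqrt (p * d) + 1) * (Nat.sqrt (p * d) + 1)) *
          (((Nat.sqrt p + 1) * (Nat.sqrt p + 1)) * ((Nat.sqrt d + 1) * (Nat.sqrt d + 1))) := by
        apply Nat.mul_lt_mul'' h1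
        exact Nat.mul_lt_mul'' h2 h3
      by_contra hcon
      push Not at hcon
      have := Nat.mul_le_mul hcon hcon
      apply absurd h4
      rw [not_lt]
      calc _ = ((Nat.sqrt (p * d) + 1) * ((Nat.sqrt p + 1) * (Nat.sqrt d + 1))) *
          ((Nat.sqrt (p * d) + 1) * ((Nat.sqrt p + 1) * (Nat.sqrt d + 1))) := by ring
        _ ≤ _ := this)
    (fun _ _ => Finset.mem_univ _)
  obtain ⟨x1, y1, z1⟩ := t
  obtain ⟨x2, y2, z2⟩ := t'
  simp only [Finset.mem_product, Finset.mem_range] at ht ht'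
  simp only [Prod.mk.injEq] at hmap
  obtain ⟨hm1, hm2⟩ := hmap
  rw [← sub_eq_zero, ← Int.cast_sub, ZMod.intCast_zmod_eq_zero_iff_dvd] at hm1
  rw [← sub_eq_zero, ← Int.cast_sub, ZMod.intCast_zmod_eq_zero_iff_dvd] at hm2
  set x : ℤ := (x1 : ℤ) - x2 with hx
  set y : ℤ := (y1 : ℤ) - y2 with hy
  set z : ℤ := (z1 : ℤ) - z2 with hz
  have hm1' : (p : ℤ) ∣ x - e * y := by
    have : x - e * y = (x1 : ℤ) - e * y1 - ((x2 : ℤ) - e * y2) := by rw [hx, hy]; ring
    rw [this]; exact hm1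
  have hm2' : D ∣ x - z := by
    have : x - z = (x1 : ℤ) - z1 - ((x2 : ℤ) - z2) := by rw [hx, hz]; ring
    rw [this]
    have h1 : D ∣ (d : ℤ) := by rw [hd, Int.natCast_natAbs]; exact (self_dvd_abs D)
    exact h1.trans hm2
  have hDd : (D = d ∨ D = -(d : ℤ)) := by
    rcases Int.natAbs_eq D with h | h
    · left; exact h
    · right; exact h
  have hdZ : (0 : ℤ) < d := by exact_mod_cast hd0
  have hpZ : (0 : ℤ) < p := by exact_mod_cast hp.pos
  have hltZ : (d : ℤ) < p := by exact_mod_cast hlt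
  -- size bounds
  have bound : ∀ (m : ℕ) (u v : ℕ), u < Nat.sqrt m + 1 → v < Nat.sqrt m + 1 →
      ((u : ℤ) - v) ^ 2 ≤ m := by
    intro m u v hu hv
    have h1 : (Nat.sqrt m : ℤ) * Nat.sqrt m ≤ m := by exact_mod_cast Nat.sqrt_le m
    have h2 : (u : ℤ) ≤ Nat.sqrt m := by exact_mod_cast Nat.lt_succ_iff.mp hu
    have h3 : (v : ℤ) ≤ Nat.sqrt m := by exact_mod_cast Nat.lt_succ_iff.mp hv
    have h4 : (0 : ℤ) ≤ u := by positivity
    have h5 : (0 : ℤ) ≤ v := by positivity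
    calc ((u : ℤ) - v) ^ 2 ≤ (Nat.sqrt m : ℤ) ^ 2 := sq_le_sq' (by linarith) (by linarith)
      _ = (Nat.sqrt m : ℤ) * Nat.sqrt m := by ring
      _ ≤ m := h1
  have bx : x ^ 2 ≤ p * d := by
    have := bound (p * d) x1 x2 ht.1 ht'.1
    push_cast at this
    exact this
  have by' : y ^ 2 ≤ p := bound p y1 y2 ht.2.1 ht'.2.1
  have bz : z ^ 2 ≤ d := bound d z1 z2 ht.2.2 ht'.2.2
  have hpint : Prime (p : ℤ) := Nat.prime_iff_prime_int.mp hp
  have hpd : ¬ (p : ℤ) ∣ d := by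
    intro h
    have := Int.le_of_dvd hdZ h
    omega
  have bx' : x ^ 2 < p * d := by
    rcases lt_or_eq_of_le bx with h | h
    · exact h
    · exfalso
      have h1 : (p : ℤ) ∣ x := hpint.dvd_of_dvd_pow (n := 2) ⟨d, h⟩
      obtain ⟨w, hw⟩ := h1
      apply hpd
      refine ⟨w ^ 2, ?_⟩
      have : (p : ℤ) * d = p * (p * w ^ 2) := by rw [← h, hw]; ring
      exact mul_left_cancel₀ hpZ.ne' this
  have by'' : y ^ 2 < p := by
    rcases lt_or_eq_of_le by' with h | h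
    · exact h
    · exfalso
      have h1 : (p : ℤ) ∣ y := hpint.dvd_of_dvd_pow (n := 2) ⟨1, by rw [h, mul_one]⟩
      obtain ⟨w, hw⟩ := h1
      have h2 : (p : ℤ) * 1 = p * (p * w ^ 2) := by
        have h' := h
        rw [hw] at h'
        linear_combination -h'
      have h3 := mul_left_cancel₀ hpZ.ne' h2
      have h4 : (p : ℤ) ∣ 1 := ⟨_, h3⟩
      exact hpint.not_isUnit (isUnit_of_dvd_one h4)
  -- divisibility
  have hdvp : (p : ℤ) ∣ x ^ 2 - D * y ^ 2 - p * z ^ 2 := by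
    have : x ^ 2 - D * y ^ 2 - p * z ^ 2 = (x - e * y) * (x + e * y) + (e ^ 2 - D) * y ^ 2
        - p * z ^ 2 := by ring
    rw [this]
    exact dvd_sub (dvd_add (hm1'.mul_right _) (he.mul_right _)) (dvd_mul_right _ _)
  have hdvD : D ∣ x ^ 2 - D * y ^ 2 - p * z ^ 2 := by
    have h1 : D ∣ (p : ℤ) - 1 := (hmod.symm.dvd)
    have : x ^ 2 - D * y ^ 2 - p * z ^ 2 = (x - z) * (x + z) - D * y ^ 2 - ((p : ℤ) - 1) * z ^ 2 := by
      ring
    rw [this]
    exact dvd_sub (dvd_sub (hm2'.mul_right _) (dvd_mul_right _ _)) (h1.mul_right _)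
  have hcop : IsCoprime (p : ℤ) D := by
    rw [Prime.coprime_iff_not_dvd hpint]
    intro h
    exact hpd (h.trans (by rw [hd, Int.natCast_natAbs]; exact self_dvd_abs D))
  obtain ⟨k, hk⟩ := hcop.mul_dvd hdvp hdvD
  have hcases : x ^ 2 - D * y ^ 2 - p * z ^ 2 = 0 ∨ x ^ 2 - D * y ^ 2 - p * z ^ 2 = -(p * D) := by
    have hpdpos : (0 : ℤ) < p * d := by positivity
    have hy0 := sq_nonneg y
    have hz0 := sq_nonneg z
    have hx0 := sq_nonneg x
    have hdy : (d : ℤ) * y ^ 2 < p * d := by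
      have := mul_lt_mul_of_pos_left by'' hdZ
      linarith
    have hpz : (p : ℤ) * z ^ 2 ≤ p * d := mul_le_mul_of_nonneg_left bz hpZ.le
    have hpz0 : (0 : ℤ) ≤ p * z ^ 2 := by positivity
    have hdy0 : (0 : ℤ) ≤ d * y ^ 2 := by positivity
    rcases hDd with h | h
    · rw [h] at hk ⊢
      have h1 : (-2 : ℤ) < k := by
        by_contra hcon
        push Not at hcon
        have := mul_le_mul_of_nonneg_left hcon hpdpos.le
        linarith
      have h2 : k < 1 := by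
        by_contra hcon
        push Not at hcon
        have := mul_le_mul_of_nonneg_left hcon hpdpos.le
        linarith
      have h3 : k = 0 ∨ k = -1 := by omega
      rcases h3 with h3 | h3
      · left; rw [hk, h3]; ring
      · right; rw [hk, h3]; ring
    · rw [h] at hk ⊢
      have h1 : (-2 : ℤ) < k := by
        by_contra hcon
        push Not at hcon
        have := mul_le_mul_of_nonneg_left hcon hpdpos.le
        linarith
      have h2 : k ≤ 1 := by
        by_contra hcon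
        push Not at hcon
        have hcon' : (2 : ℤ) ≤ k := by omega
        have := mul_le_mul_of_nonneg_left hcon' hpdpos.le
        linarith
      have h3 : k = 0 ∨ k = -1 ∨ k = 1 := by omega
      rcases h3 with h3 | h3 | h3
      · left; rw [hk, h3]; ring
      · right; rw [hk, h3]; ring
      · exfalso
        rw [h3] at hk
        have h4 : z ^ 2 = d := by
          apply le_antisymm bz
          by_contra hcon
          push Not at hcon
          have := mul_lt_mul_of_pos_left hcon hpZ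
          linarith
        have h5 : x ^ 2 = 0 := by
          rw [h4] at hk
          linarith
        have h6 : x = 0 := by
          exact pow_eq_zero_iff (two_ne_zero) |>.mp h5
        rw [h6, zero_sub, h, neg_dvd, dvd_neg] at hm2'
        obtain ⟨w, hw⟩ := hm2'
        rw [hw] at h4
        have h7 : (d : ℤ) * (d * w ^ 2) = d * 1 := by linear_combination h4
        have h8 := mul_left_cancel₀ hdZ.ne' h7
        have h9 : (d : ℤ) ∣ 1 := ⟨_, h8.symm⟩
        have h10 : (d : ℤ) = 1 := Int.eq_one_of_dvd_one hdZ.le h9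
        exact hD1 (by rw [h, h10])
  rcases hcases with h | h
  · refine ⟨p, x, y, z, hp, hpM, ?_, by linarith⟩
    intro hz0
    rw [hz0] at h
    have h1 : x ^ 2 = D * y ^ 2 := by linarith
    have hy0 : y = 0 := by
      by_contra hy0
      have h2 : y ^ 2 ∣ x ^ 2 := ⟨D, by rw [h1]; ring⟩
      rw [Int.pow_dvd_pow_iff two_ne_zero] at h2
      obtain ⟨w, hw⟩ := h2
      apply hD
      refine ⟨w, ?_⟩
      rw [hw] at h1
      have h3 : y ^ 2 * (w * w) = y ^ 2 * D := by linarith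
      exact (mul_left_cancel₀ (pow_ne_zero 2 hy0) h3).symm
    have hx0 : x = 0 := by
      rw [hy0] at h1
      exact pow_eq_zero_iff (two_ne_zero) |>.mp (by linarith)
    apply hne
    rw [hx] at hx0
    rw [hy] at hy0
    rw [hz] at hz0
    have e1 : x1 = x2 := by omega
    have e2 : y1 = y2 := by omega
    have e3 : z1 = z2 := by omega
    rw [e1, e2, e3]
  · refine ⟨p, x * z + D * y, x + y * z, z ^ 2 - D, hp, hpM, ?_, ?_⟩
    · intro h0
      apply hD
      exact ⟨z, by linarith⟩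
    · have h1 : x ^ 2 - D * y ^ 2 = p * (z ^ 2 - D) := by linarith
      calc (x * z + D * y) ^ 2 - D * (x + y * z) ^ 2 = (x ^ 2 - D * y ^ 2) * (z ^ 2 - D) := by ring
        _ = _ := by rw [h1]; ring

/-- ROW I1.  Square roots modulo powers of an even number `a`: if `p ≡ 1` mod `2a²` then for every `k`
there is `ϖ > 0`, `ϖ ≡ 1` mod `a`, `ϖ² ≡ p` mod `2 a^k`.
Proof.  `k ≤ 2`: `ϖ = 1`.  Step `k → k+1` (`k ≥ 2`): `ϖ² - p = 2a^k r`; put `t = -a^k r ϖ*` with
`ϖ ϖ* ≡ 1` mod `a`; `(ϖ+t)² - p = 2a^k r + 2ϖt + t²`, `2a^k r + 2ϖ t = 2a^k r (1 - ϖϖ*) ≡ 0` mod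
`2a^{k+1}`, and `t² ≡ 0` mod `a^{2k}`, `2a^{k+1} ∣ a^{2k}` because `a` is even and `k ≥ 2`.  Positivity: add a
multiple of `2a^{k+1}`. -/
theorem exists_sqrt_mod (a : ℕ) (ha : 0 < a) (ha2 : 2 ∣ a) (p : ℤ) (hp : p ≡ 1 [ZMOD 2 * (a : ℤ) ^ 2])
    (k : ℕ) : ∃ ϖ : ℤ, 0 < ϖ ∧ ϖ ≡ 1 [ZMOD a] ∧ 2 * (a : ℤ) ^ k ∣ ϖ ^ 2 - p := by
  have haZ : (0 : ℤ) < a := by exact_mod_cast ha
  obtain ⟨b, hb⟩ : (2 : ℤ) ∣ a := by exact_mod_cast ha2
  have hp' : 2 * (a : ℤ) ^ 2 ∣ 1 - p := hp.dvd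
  have key : ∀ n : ℕ, ∃ ϖ : ℤ, 0 < ϖ ∧ ϖ ≡ 1 [ZMOD a] ∧ 2 * (a : ℤ) ^ (n + 2) ∣ ϖ ^ 2 - p := by
    intro n
    induction n with
    | zero => exact ⟨1, by norm_num, Int.ModEq.refl _, by simpa using hp'⟩
    | succ n ih =>
      obtain ⟨w, hw0, hw1, r, hr⟩ := ih
      have hc : IsCoprime w (a : ℤ) := by
        obtain ⟨c, hc⟩ := hw1.dvd
        exact ⟨1, c, by linear_combination -hc⟩
      obtain ⟨u, v, huv⟩ := hc
      -- u * w + v * a = 1
      set t : ℤ := -((a : ℤ) ^ (n + 2) * r * u) with ht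
      have hkey : 2 * (a : ℤ) ^ (n + 3) ∣ (w + t) ^ 2 - p := by
        have h1 : (w + t) ^ 2 - p = 2 * (a : ℤ) ^ (n + 3) * (r * v) +
            (a : ℤ) ^ (n + 2) * a ^ (n + 2) * (r * u) ^ 2 := by
          rw [ht]
          linear_combination hr - 2 * (a : ℤ) ^ (n + 2) * r * huv
        have h2 : (a : ℤ) ^ (n + 2) * a ^ (n + 2) * (r * u) ^ 2 =
            2 * (a : ℤ) ^ (n + 3) * (b * a ^ n * (r * u) ^ 2) := by
          have : (a : ℤ) ^ (n + 2) * a ^ (n + 2) = a * (a ^ (n + 3) * a ^ n) := by ring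
          rw [this]
          nth_rewrite 1 [hb]
          ring
        rw [h1, h2]
        exact dvd_add (dvd_mul_right _ _) (dvd_mul_right _ _)
      -- make it positive
      refine ⟨w + t + 2 * (a : ℤ) ^ (n + 3) * |w + t| + 2 * (a : ℤ) ^ (n + 3), ?_, ?_, ?_⟩
      · have h1 : (1 : ℤ) ≤ (a : ℤ) ^ (n + 3) := one_le_pow₀ (by omega)
        have h2 : |w + t| ≤ (a : ℤ) ^ (n + 3) * |w + t| := le_mul_of_one_le_left (abs_nonneg _) h1
        have h3 := neg_abs_le (w + t)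
        have h4 := abs_nonneg (w + t)
        nlinarith
      · have h1 : (a : ℤ) ∣ t := by
          rw [ht]
          exact (((dvd_pow_self _ (by omega)).mul_right _).mul_right _).neg_right
        have h2 : (a : ℤ) ∣ 2 * (a : ℤ) ^ (n + 3) := (dvd_pow_self _ (by omega)).mul_left _
        have h3 : (a : ℤ) ∣ 1 - (w + t + 2 * (a : ℤ) ^ (n + 3) * |w + t| +
            2 * (a : ℤ) ^ (n + 3)) := by
          have h4 := hw1.dvd
          have : 1 - (w + t + 2 * (a : ℤ) ^ (n + 3) * |w + t| + 2 * (a : ℤ) ^ (n + 3)) =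
            (1 - w) - t - 2 * (a : ℤ) ^ (n + 3) * |w + t| - 2 * (a : ℤ) ^ (n + 3) := by ring
          rw [this]
          exact dvd_sub (dvd_sub (dvd_sub h4 h1) (h2.mul_right _)) h2
        exact (Int.modEq_iff_dvd).mpr h3
      · have : (w + t + 2 * (a : ℤ) ^ (n + 3) * |w + t| + 2 * (a : ℤ) ^ (n + 3)) ^ 2 - p =
            ((w + t) ^ 2 - p) + 2 * (a : ℤ) ^ (n + 3) * ((|w + t| + 1) *
              (2 * (w + t) + 2 * (a : ℤ) ^ (n + 3) * (|w + t| + 1))) := by ring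
        rw [show n + 1 + 2 = n + 3 from rfl, this]
        exact dvd_add hkey (dvd_mul_right _ _)
  obtain ⟨w, h1, h2, h3⟩ := key k
  refine ⟨w, h1, h2, dvd_trans ?_ h3⟩
  exact mul_dvd_mul_left _ (pow_dvd_pow _ (by omega))

end Pool.Agent.Lib.MP_648c71_nt.Qap
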