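import Pool.Agent.Lib.MP_648c71_nt.Qap.I1

/-! ROW I2: the element w -/

set_option autoImplicit false

namespace Pool.Agent.Lib.MP_648c71_nt.Qap

open Finset QuadraticAlgebra

/-- a divisor of `F` and of a power of `A` divides `A ^ F` -/
private theorem I2_dvd_pow {F A g k : ℕ} (hF : F ≠ 0) (hA : A ≠ 0) (h1 : g ∣ F) (h2 : g ∣ A ^ k) :
    g ∣ A ^ F := by
  have hg : g ≠ 0 := ne_zero_of_dvd_ne_zero hF h1
  rw [← Nat.factorization_le_iff_dvd hg (pow_ne_zero _ hA)]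
  intro q
  have e1 := (Nat.factorization_le_iff_dvd hg hF).2 h1 q
  have e2 := (Nat.factorization_le_iff_dvd hg (pow_ne_zero _ hA)).2 h2 q
  rw [Nat.factorization_pow] at e2 ⊢
  simp only [Finsupp.smul_apply, smul_eq_mul] at e2 ⊢
  rcases Nat.eq_zero_or_pos (A.factorization q) with h | h
  · rw [h, mul_zero] at e2 ⊢
    exact e2
  · calc g.factorization q ≤ F.factorization q := e1
      _ ≤ F := (Nat.factorization_lt q hF).le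
      _ ≤ F * A.factorization q := Nat.le_mul_of_pos_right _ h

private theorem I2_dvd_of_sq {p : ℕ} (hp : p.Prime) {c t : ℤ} (hc : c ≠ 0) (h : c ^ 2 ∣ p * t ^ 2) :
    c ∣ t := by
  have hg : 0 < Int.gcd c t := Int.gcd_pos_of_ne_zero_left _ hc
  obtain ⟨a, b, hab, h1, h2⟩ := Int.exists_gcd_one hg
  set g : ℤ := (Int.gcd c t : ℤ) with hgdef
  have hg0 : g ≠ 0 := by
    have : (0 : ℤ) < g := by rw [hgdef]; exact_mod_cast hg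
    exact this.ne'
  have h3 : g ^ 2 * a ^ 2 ∣ g ^ 2 * (p * b ^ 2) := by
    have e1 : g ^ 2 * a ^ 2 = c ^ 2 := by rw [h1]; ring
    have e2 : g ^ 2 * (p * b ^ 2) = p * t ^ 2 := by rw [h2]; ring
    rw [e1, e2]; exact h
  have h4 : a ^ 2 ∣ p * b ^ 2 := Int.dvd_of_mul_dvd_mul_left (pow_ne_zero 2 hg0) h3
  have hcop : IsCoprime a b := Int.isCoprime_iff_gcd_eq_one.mpr hab
  have h5 : a ^ 2 ∣ (p : ℤ) := (hcop.pow (m := 2) (n := 2)).dvd_of_dvd_mul_right h4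
  have h6 : IsUnit a := (Nat.prime_iff_prime_int.mp hp).irreducible.squarefree a (by rwa [← sq])
  rw [h1, h2]
  exact mul_dvd_mul (h6.dvd) dvd_rfl

namespace Par

variable (P : Par)

/-- ROW I2.  The element `w`.
Proof.  `D = B² - 4A = N²Δ` (not a square, `≠ -1`).  Take `p ≡ 1` mod `2A²`, `X² - DY² = pZ²` with `X ≥ 0`,
`Z > 0` (change signs).  `√D = 2ω - B`; `μ = X + Y√D`, in coordinates `⟨X - BY, 2Y⟩`, `N(μ) = pZ²`; `Y ≠ 0`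
(`p` is not a square).  Let `F = 2Z²DY² ≠ 0` and `k` such that `gcd(F,A^k) = gcd(F,A^∞) =: F_A` and
`F_A A ∣ A^k`.  `ϖ` from `exists_sqrt_mod`, `δ = ϖ² - p`, `A^k ∣ δ`.
`β = ϖZ + conj μ = (ϖZ + X) - Y√D = ⟨ϖZ+X+BY, -2Y⟩`, `n_β = (ϖZ+X)² - DY² = 2ϖZ(ϖZ+X) - δZ²`.
`W := μ β² = ϖ Z n_β - δ Z² β`, i.e. `W.re = ϖZn_β - δZ²(ϖZ+X+BY)`, `W.im = 2δZ²Y`.
Identity: `Z n_β (X - ϖZ) = ϖF - 2ϖδZ⁴ - δZ³(X-ϖZ)`, because
`(X-ϖZ)(X+ϖZ) = DY² - δZ²`.  So `gcd(Z n_β, A^k)` divides `F_A`; write `Z n_β = t_A t'`, `t_A ∣ F_A`,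
`gcd(t',A) = 1`, `t_A > 0`, `t' > 0` (`Z n_β = Z²(ϖ²Z + 2ϖX + pZ) > 0`).  Then
`W.re = t_A r'`, `r' ≡ ϖ t' ≡ t'` mod `A` (as `A t_A ∣ δ`), `t_A ∣ W.im`.  `c := gcd(W.re, W.im) = t_A c'`,
`gcd(c',A) = 1`, `w := W/c` is primitive, `w.re = r'/c'`, `N(w) = p Z² n_β²/c² = p (t'/c')²`, so `c'² ∣ p t'²`,
hence `c' ∣ t'` (`p` prime).  `τ := t'/c' > 0`; `w.re ≡ τ` mod `A`.
Trace: `2 w.re + B w.im = (1/c)·2·(rational part of (X+Y√D)((ϖZ+X) - Y√D)²)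
= (2/c)(X R² - 2 R D Y² + X D Y²)`, `R = ϖZ + X > 0`.  If `D > 0` this is positive (its discriminant in `R` is
`4DY²(DY² - X²) < 0` since `X² - DY² > 0`, and `X > 0`).  If `D < 0` nothing is claimed about the trace, but
`(2 w.re + B w.im)² = 4 N(w) + D w.im² < 4 N(w)` will be used.
`w.im ≠ 0`: otherwise `w = ±1` and `1 = pτ²`. -/
theorem exists_w : ∃ (w : O (P.B : ℤ) (P.A : ℤ)) (p : ℕ) (τ : ℕ), p.Prime ∧ 0 < τ ∧
    IsCoprime w.re w.im ∧ τ.Coprime P.A ∧ w.re ≡ τ [ZMOD P.A] ∧ nm w = p * (τ : ℤ) ^ 2 ∧ w.im ≠ 0 ∧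
    (0 < P.Δ → 0 < 2 * w.re + P.B * w.im) := by
  have hApos : (0 : ℤ) < (P.A : ℤ) := by exact_mod_cast P.hA
  have hA0 : (P.A : ℤ) ≠ 0 := hApos.ne'
  obtain ⟨D, hDdef⟩ : ∃ D : ℤ, D = (P.B : ℤ) ^ 2 - 4 * P.A := ⟨_, rfl⟩
  have hDN : D = (P.N : ℤ) ^ 2 * P.Δ := by rw [hDdef]; exact P.hD
  have hNpos : (0 : ℤ) < (P.N : ℤ) := by exact_mod_cast P.hN
  have hDsq : ¬ IsSquare D := by
    rintro ⟨r, hr⟩
    have h1 : (P.N : ℤ) ^ 2 ∣ r ^ 2 := ⟨P.Δ, by rw [← hDN, hr]; ring⟩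
    rw [Int.pow_dvd_pow_iff two_ne_zero] at h1
    obtain ⟨u, hu⟩ := h1
    apply P.hsq
    refine ⟨u, ?_⟩
    have h2 : (P.N : ℤ) ^ 2 * P.Δ = (P.N : ℤ) ^ 2 * (u * u) := by
      rw [← hDN, hr, hu]; ring
    exact mul_left_cancel₀ (pow_ne_zero 2 hNpos.ne') h2
  have hD1 : D ≠ -1 := by
    intro h
    have h1 : (P.B : ℤ) ^ 2 % 4 = 3 := by omega
    have h2 : (P.B : ℤ) % 4 = 0 ∨ (P.B : ℤ) % 4 = 1 ∨ (P.B : ℤ) % 4 = 2 ∨ (P.B : ℤ) % 4 = 3 := by omega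
    rw [pow_two, Int.mul_emod] at h1
    rcases h2 with h2 | h2 | h2 | h2 <;> rw [h2] at h1 <;> norm_num at h1
  have hD0 : D ≠ 0 := by rintro rfl; exact hDsq ⟨0, by norm_num⟩
  obtain ⟨p, X0, Y, Z0, hp, hpmod, hZ0, h0⟩ := exists_rep_mod D hDsq hD1 (2 * P.A ^ 2)
    (by have := P.hA; positivity)
  have hpZ : (0 : ℤ) < (p : ℤ) := by exact_mod_cast hp.pos
  obtain ⟨X, hXdef⟩ : ∃ X : ℤ, X = |X0| := ⟨_, rfl⟩
  obtain ⟨Z, hZdef⟩ : ∃ Z : ℤ, Z = |Z0| := ⟨_, rfl⟩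
  have hX0 : 0 ≤ X := by rw [hXdef]; exact abs_nonneg _
  have hZpos : 0 < Z := by rw [hZdef]; exact abs_pos.mpr hZ0
  have hrep : X ^ 2 - D * Y ^ 2 = p * Z ^ 2 := by rw [hXdef, hZdef, sq_abs, sq_abs]; exact h0
  -- `p` is not a square
  have hpsq : ∀ r : ℤ, r ^ 2 ≠ p := by
    intro r hr
    have h1 : Prime (p : ℤ) := Nat.prime_iff_prime_int.mp hp
    have h2 := h1.irreducible.squarefree r (by rw [← sq, hr])
    have h3 : r ^ 2 = 1 := by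
      rcases Int.isUnit_iff.mp h2 with h | h <;> rw [h] <;> norm_num
    rw [hr] at h3
    exact hp.one_lt.ne' (by exact_mod_cast h3)
  have hY : Y ≠ 0 := by
    rintro rfl
    have h1 : X ^ 2 = p * Z ^ 2 := by rw [← hrep]; ring
    have h2 : Z ^ 2 ∣ X ^ 2 := ⟨p, by rw [h1]; ring⟩
    rw [Int.pow_dvd_pow_iff two_ne_zero] at h2
    obtain ⟨u, hu⟩ := h2
    apply hpsq u
    have h3 : Z ^ 2 * u ^ 2 = Z ^ 2 * p := by rw [hu] at h1; linarith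
    exact mul_left_cancel₀ (pow_ne_zero 2 hZpos.ne') h3
  obtain ⟨F, hFdef⟩ : ∃ F : ℤ, F = 2 * Z ^ 2 * D * Y ^ 2 := ⟨_, rfl⟩
  have hF0 : F ≠ 0 := by
    rw [hFdef]
    have := hZpos.ne'
    positivity
  obtain ⟨k, hk⟩ : ∃ k : ℕ, k = F.natAbs + 1 := ⟨_, rfl⟩
  obtain ⟨ϖ, hϖ0, hϖA, e, he⟩ := exists_sqrt_mod P.A P.hA P.two_dvd_A (p : ℤ)
    (by
      have := (Int.natCast_modEq_iff).mpr hpmod
      push_cast at this
      exact this) k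
  -- `δ = ϖ² - p = 2 A^k e`
  obtain ⟨T, hTdef⟩ : ∃ T : ℤ, T = Z * ((ϖ * Z + X) ^ 2 - D * Y ^ 2) := ⟨_, rfl⟩
  have hT1 : T = Z ^ 2 * (ϖ ^ 2 * Z + 2 * ϖ * X + p * Z) := by
    rw [hTdef]; linear_combination Z * hrep
  have hTpos : 0 < T := by
    rw [hT1]
    have h1 : 0 ≤ 2 * ϖ * X := by positivity
    have h2 : 0 < ϖ ^ 2 * Z := by positivity
    have h3 : 0 < (p : ℤ) * Z := by positivity
    have h4 : 0 < ϖ ^ 2 * Z + 2 * ϖ * X + p * Z := by linarith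
    positivity
  have hg : 0 < Int.gcd T ((P.A : ℤ) ^ k) := Int.gcd_pos_of_ne_zero_left _ hTpos.ne'
  obtain ⟨t', u, htu, hTt, hAu⟩ := Int.exists_gcd_one hg
  obtain ⟨tA, htA⟩ : ∃ tA : ℕ, tA = Int.gcd T ((P.A : ℤ) ^ k) := ⟨_, rfl⟩
  rw [← htA] at hTt hAu hg
  have htApos : (0 : ℤ) < (tA : ℤ) := by exact_mod_cast hg
  have ht'pos : 0 < t' := by
    rw [hTt] at hTpos
    exact (mul_pos_iff_of_pos_right htApos).mp hTpos
  -- `tA ∣ F`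
  have hcopϖ : IsCoprime ϖ (P.A : ℤ) := by
    obtain ⟨z, hz⟩ := hϖA.dvd
    exact ⟨1, z, by linarith⟩
  have htAϖ : IsCoprime (tA : ℤ) ϖ := by
    have h1 : IsCoprime ((P.A : ℤ) ^ k) ϖ := (hcopϖ.symm).pow_left
    exact h1.of_isCoprime_of_dvd_left ⟨u, by rw [hAu]; ring⟩
  have htAF : (tA : ℤ) ∣ F := by
    apply htAϖ.dvd_of_dvd_mul_left
    have h1 : ϖ * F = T * (X - ϖ * Z) + (ϖ ^ 2 - p) * (2 * ϖ * Z ^ 4 + Z ^ 3 * (X - ϖ * Z)) := by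
      rw [hTdef, hFdef]
      linear_combination (-ϖ * Z ^ 2 - Z * X) * hrep
    rw [h1]
    refine dvd_add ((Dvd.intro_left t' hTt.symm).mul_right _) (Dvd.dvd.mul_right ?_ _)
    rw [he]
    exact ((Dvd.intro_left u hAu.symm).mul_left 2).mul_right _
  have hAtA : (P.A : ℤ) * tA ∣ (P.A : ℤ) ^ k := by
    have h1 : tA ∣ F.natAbs := by
      have := Int.natAbs_dvd_natAbs.mpr htAF
      simpa using this
    have h2 : tA ∣ P.A ^ k := by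
      have : (tA : ℤ) ∣ ((P.A ^ k : ℕ) : ℤ) := by push_cast; exact Dvd.intro_left u hAu.symm
      exact_mod_cast this
    have h3 := I2_dvd_pow (by simpa using hF0) P.hA.ne' h1 h2
    rw [hk, pow_succ']
    exact mul_dvd_mul dvd_rfl (by exact_mod_cast h3)
  have hAdu : (P.A : ℤ) ∣ u := by
    rw [hAu] at hAtA
    exact Int.dvd_of_mul_dvd_mul_right htApos.ne' hAtA
  have htcop : IsCoprime t' (P.A : ℤ) :=
    (Int.isCoprime_iff_gcd_eq_one.mpr htu).of_isCoprime_of_dvd_right hAdu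
  -- the vector `(r', s')`
  obtain ⟨r', hr'⟩ : ∃ r' : ℤ, r' = ϖ * t' - 2 * u * e * Z ^ 2 * (ϖ * Z + X + P.B * Y) := ⟨_, rfl⟩
  obtain ⟨s', hs'⟩ : ∃ s' : ℤ, s' = 4 * u * e * Z ^ 2 * Y := ⟨_, rfl⟩
  have hδ : ϖ ^ 2 - p = 2 * (u * tA) * e := by rw [he, hAu]
  have hue : u * e ≠ 0 := by
    intro h
    apply hpsq ϖ
    have : ϖ ^ 2 - p = 2 * tA * (u * e) := by rw [hδ]; ring
    rw [h, mul_zero] at this
    linarith
  have hs0 : s' ≠ 0 := by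
    have h1 : s' = 4 * (u * e) * Z ^ 2 * Y := by rw [hs']; ring
    rw [h1]
    have := hZpos.ne'
    positivity
  have hnm : r' ^ 2 + P.B * r' * s' + P.A * s' ^ 2 = p * t' ^ 2 := by
    have h1 : (tA : ℤ) ^ 2 * (r' ^ 2 + P.B * r' * s' + P.A * s' ^ 2) = (tA : ℤ) ^ 2 * (p * t' ^ 2) := by
      have e1 : (tA : ℤ) * r' = ϖ * T - (ϖ ^ 2 - p) * Z ^ 2 * (ϖ * Z + X + P.B * Y) := by
        rw [hr', hδ, hTt]; ring
      have e2 : (tA : ℤ) * s' = 2 * (ϖ ^ 2 - p) * Z ^ 2 * Y := by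
        rw [hs', hδ]; ring
      have e3 : (tA : ℤ) ^ 2 * (r' ^ 2 + P.B * r' * s' + P.A * s' ^ 2) =
          (tA * r') ^ 2 + P.B * (tA * r') * (tA * s') + P.A * (tA * s') ^ 2 := by ring
      have e4 : (tA : ℤ) ^ 2 * (p * t' ^ 2) = p * T ^ 2 := by rw [hTt]; ring
      rw [e3, e4, e1, e2]
      -- complete the square
      have e5 : (ϖ * T - (ϖ ^ 2 - p) * Z ^ 2 * (ϖ * Z + X + P.B * Y)) ^ 2 +
          P.B * (ϖ * T - (ϖ ^ 2 - p) * Z ^ 2 * (ϖ * Z + X + P.B * Y)) *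
            (2 * (ϖ ^ 2 - p) * Z ^ 2 * Y) + P.A * (2 * (ϖ ^ 2 - p) * Z ^ 2 * Y) ^ 2 =
          (ϖ * T - (ϖ ^ 2 - p) * Z ^ 2 * (ϖ * Z + X)) ^ 2 -
            D * (ϖ ^ 2 - p) ^ 2 * Z ^ 4 * Y ^ 2 := by
        rw [hDdef]; ring
      rw [e5]
      have e6 : T = 2 * ϖ * Z ^ 2 * (ϖ * Z + X) - (ϖ ^ 2 - p) * Z ^ 3 := by
        rw [hT1]; ring
      have e7 : (ϖ * T - (ϖ ^ 2 - p) * Z ^ 2 * (ϖ * Z + X)) ^ 2 -
            D * (ϖ ^ 2 - p) ^ 2 * Z ^ 4 * Y ^ 2 =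
          ϖ ^ 2 * T ^ 2 - (ϖ ^ 2 - p) * T * (2 * ϖ * Z ^ 2 * (ϖ * Z + X)) +
            (ϖ ^ 2 - p) ^ 2 * Z ^ 3 * T := by
        rw [hTdef]; ring
      rw [e7]
      have e8 : 2 * ϖ * Z ^ 2 * (ϖ * Z + X) = T + (ϖ ^ 2 - p) * Z ^ 3 := by rw [e6]; ring
      rw [e8]; ring
    exact mul_left_cancel₀ (pow_ne_zero 2 htApos.ne') h1
  -- divide by the gcd
  have hgc : 0 < Int.gcd r' s' := Int.gcd_pos_of_ne_zero_right _ hs0
  obtain ⟨a', b', hab, hra, hsb⟩ := Int.exists_gcd_one hgc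
  obtain ⟨c', hc'⟩ : ∃ c' : ℤ, c' = (Int.gcd r' s' : ℤ) := ⟨_, rfl⟩
  rw [← hc'] at hra hsb
  have hc'pos : 0 < c' := by rw [hc']; exact_mod_cast hgc
  have hnm2 : c' ^ 2 * (a' ^ 2 + P.B * a' * b' + P.A * b' ^ 2) = p * t' ^ 2 := by
    rw [← hnm, hra, hsb]; ring
  have hct : c' ∣ t' := I2_dvd_of_sq hp hc'pos.ne' ⟨_, hnm2.symm⟩
  obtain ⟨τ, hτ⟩ := hct
  have hτpos : 0 < τ := by
    rw [hτ] at ht'pos
    exact (mul_pos_iff_of_pos_left hc'pos).mp ht'pos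
  have hnm3 : a' ^ 2 + P.B * a' * b' + P.A * b' ^ 2 = p * τ ^ 2 := by
    have h1 : c' ^ 2 * (a' ^ 2 + P.B * a' * b' + P.A * b' ^ 2) = c' ^ 2 * (p * τ ^ 2) := by
      rw [hnm2, hτ]; ring
    exact mul_left_cancel₀ (pow_ne_zero 2 hc'pos.ne') h1
  have hc'cop : IsCoprime c' (P.A : ℤ) := htcop.of_isCoprime_of_dvd_left ⟨τ, hτ⟩
  have hτcop : IsCoprime τ (P.A : ℤ) :=
    htcop.of_isCoprime_of_dvd_left ⟨c', by rw [hτ]; ring⟩
  have hmod : (P.A : ℤ) ∣ a' - τ := by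
    apply hc'cop.symm.dvd_of_dvd_mul_left
    have h1 : c' * (a' - τ) = (ϖ - 1) * t' - u * (2 * e * Z ^ 2 * (ϖ * Z + X + P.B * Y)) := by
      have h2 : c' * a' = r' := by rw [hra]; ring
      have h3 : c' * τ = t' := hτ.symm
      rw [mul_sub, h2, h3, hr']; ring
    rw [h1]
    refine dvd_sub (Dvd.dvd.mul_right ?_ _) (hAdu.mul_right _)
    exact hϖA.symm.dvd
  refine ⟨⟨a', b'⟩, p, τ.toNat, hp, ?_, ?_, ?_, ?_, ?_, ?_, ?_⟩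
  · omega
  · exact Int.isCoprime_iff_gcd_eq_one.mpr hab
  · have h1 : ((τ.toNat : ℕ) : ℤ) = τ := Int.toNat_of_nonneg hτpos.le
    rw [← Nat.isCoprime_iff_coprime, h1]
    exact hτcop
  · have h1 : ((τ.toNat : ℕ) : ℤ) = τ := Int.toNat_of_nonneg hτpos.le
    rw [h1]
    exact (Int.modEq_iff_dvd.mpr (by simpa using hmod)).symm
  · have h1 : ((τ.toNat : ℕ) : ℤ) = τ := Int.toNat_of_nonneg hτpos.le
    rw [h1, ← hnm3]
    rfl
  · intro h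
    apply hs0
    change b' = 0 at h
    rw [hsb, h, zero_mul]
  · intro hΔ
    change 0 < 2 * a' + P.B * b'
    have hDpos : 0 < D := by rw [hDN]; positivity
    have hXpos : 0 < X := by
      rcases hX0.eq_or_lt with h | h
      · exfalso
        rw [← h, zero_pow two_ne_zero] at hrep
        have h1 : 0 < D * Y ^ 2 := by positivity
        have h2 : 0 < (p : ℤ) * Z ^ 2 := by positivity
        linarith
      · exact h
    have h1 : X * (tA * (c' * (2 * a' + P.B * b'))) =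
        2 * ((X * (ϖ * Z + X) - D * Y ^ 2) ^ 2 + D * Y ^ 2 * (p * Z ^ 2)) := by
      have e1 : c' * (2 * a' + P.B * b') = 2 * r' + P.B * s' := by rw [hra, hsb]; ring
      have e2 : (tA : ℤ) * (2 * r' + P.B * s') =
          2 * (ϖ * T - (ϖ ^ 2 - p) * Z ^ 2 * (ϖ * Z + X)) := by
        rw [hr', hs', hδ, hTt]; ring
      rw [e1, e2, hTdef]
      linear_combination (-(2 * X * (ϖ * Z + X) - 2 * D * Y ^ 2)) * hrep
    have h2 : 0 < X * (tA * (c' * (2 * a' + P.B * b'))) := by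
      rw [h1]
      have e1 : 0 < D * Y ^ 2 * (p * Z ^ 2) := by positivity
      have e2 := sq_nonneg (X * (ϖ * Z + X) - D * Y ^ 2)
      linarith
    have h3 := (mul_pos_iff_of_pos_left hXpos).mp h2
    have h4 := (mul_pos_iff_of_pos_left htApos).mp h3
    exact (mul_pos_iff_of_pos_left hc'pos).mp h4

end Par

end Pool.Agent.Lib.MP_648c71_nt.Qap
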