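import Pool.Agent.Lib.MP_648c71_nt.Qap.I2

/-! ROW I3: the element mu -/

set_option autoImplicit false

namespace Pool.Agent.Lib.MP_648c71_nt.Qap

open Finset QuadraticAlgebra

namespace Par

variable (P : Par)

/-- a vector with nonzero second coordinate has nonzero norm -/
private theorem i3_nm_ne_zero {v : O (P.B : ℤ) (P.A : ℤ)} (hv : v.im ≠ 0) : nm v ≠ 0 := by
  intro h0
  have h1 : (2 * v.re + P.B * v.im) ^ 2 = P.Δ * ((P.N : ℤ) * v.im) ^ 2 := by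
    have h2 : P.Δ * ((P.N : ℤ) * v.im) ^ 2 = ((P.N : ℤ) ^ 2 * P.Δ) * v.im ^ 2 := by ring
    rw [h2, ← P.hD]
    unfold nm at h0
    linear_combination 4 * h0
  have hb : (P.N : ℤ) * v.im ≠ 0 := mul_ne_zero (by exact_mod_cast P.hN.ne') hv
  have h3 : ((P.N : ℤ) * v.im) ^ 2 ∣ (2 * v.re + P.B * v.im) ^ 2 := ⟨P.Δ, by rw [h1]; ring⟩
  have h4 : ((P.N : ℤ) * v.im) ∣ (2 * v.re + P.B * v.im) :=
    (Int.pow_dvd_pow_iff two_ne_zero).mp h3
  obtain ⟨k, hk⟩ := h4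
  rw [hk] at h1
  apply P.hsq
  refine ⟨k, ?_⟩
  have h5 : ((P.N : ℤ) * v.im) ^ 2 * P.Δ = ((P.N : ℤ) * v.im) ^ 2 * (k * k) := by
    linear_combination -h1
  exact mul_left_cancel₀ (pow_ne_zero 2 hb) h5

/-- coordinates of `w (x - bω)²` -/
private theorem i3_coord (w : O (P.B : ℤ) (P.A : ℤ)) (x k : ℤ) :
    (w * (⟨x, -(w.im * k)⟩ : O (P.B : ℤ) (P.A : ℤ)) * (⟨x, -(w.im * k)⟩ : O (P.B : ℤ) (P.A : ℤ))).re =
      w.re * x ^ 2 + P.A * (2 * w.im ^ 2 * x * k - w.im ^ 2 * k ^ 2 * (w.re + P.B * w.im)) ∧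
    (w * (⟨x, -(w.im * k)⟩ : O (P.B : ℤ) (P.A : ℤ)) * (⟨x, -(w.im * k)⟩ : O (P.B : ℤ) (P.A : ℤ))).im =
      w.im * (x ^ 2 - 2 * (w.re + P.B * w.im) * x * k +
        k ^ 2 * (P.B * w.re * w.im - P.A * w.im ^ 2 + P.B ^ 2 * w.im ^ 2)) := by
  constructor
  · simp only [re_mul, im_mul]; ring
  · simp only [re_mul, im_mul]; ring

/-- the real estimates -/
private theorem i3_real (A B u v s θ k e x ε : ℝ) (hε : 0 < ε) (hs : 0 < s)
    (hs2 : s ^ 2 = u ^ 2 + B * u * v + A * v ^ 2) (hθ : θ = s + u + B * v)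
    (hx : x = k * θ + e) (C : ℝ) (he : |e| ≤ C) (hk : 1 ≤ k) (hL : 0 < 2 * u + B * v + 2 * s)
    (hkL : (|v| * C * (C + 2 * s)) / ε + (|u| * (2 * |θ| * C + C ^ 2) + 2 * |A| * v ^ 2 * C) <
      s ^ 2 * (2 * u + B * v + 2 * s) * k) :
    0 < u * x ^ 2 + A * (2 * v ^ 2 * x * k - v ^ 2 * k ^ 2 * (u + B * v)) ∧
    |v * (x ^ 2 - 2 * (u + B * v) * x * k + k ^ 2 * (B * u * v - A * v ^ 2 + B ^ 2 * v ^ 2))| ≤
      ε * (u * x ^ 2 + A * (2 * v ^ 2 * x * k - v ^ 2 * k ^ 2 * (u + B * v))) := by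
  have hk0 : 0 < k := by linarith
  have hC0 : 0 ≤ C := le_trans (abs_nonneg _) he
  have him : v * (x ^ 2 - 2 * (u + B * v) * x * k +
      k ^ 2 * (B * u * v - A * v ^ 2 + B ^ 2 * v ^ 2)) = v * e * (e + 2 * k * s) := by
    rw [hx, hθ]
    linear_combination v * k ^ 2 * hs2
  have hre : u * x ^ 2 + A * (2 * v ^ 2 * x * k - v ^ 2 * k ^ 2 * (u + B * v)) =
      s ^ 2 * (2 * u + B * v + 2 * s) * k ^ 2 + (u * (2 * k * θ * e + e ^ 2) + 2 * A * v ^ 2 * k * e) := by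
    rw [hx, hθ]
    linear_combination (-(k ^ 2) * (2 * s + u + B * v)) * hs2
  have h1 : |v * e * (e + 2 * k * s)| ≤ |v| * C * (C + 2 * s) * k := by
    rw [abs_mul, abs_mul]
    have h2 : |e + 2 * k * s| ≤ (C + 2 * s) * k := by
      refine le_trans (abs_add_le _ _) ?_
      have h3 : |2 * k * s| = 2 * k * s := abs_of_pos (by positivity)
      rw [h3]
      have h4 : C ≤ C * k := le_mul_of_one_le_right hC0 hk
      linarith
    calc |v| * |e| * |e + 2 * k * s| ≤ |v| * C * ((C + 2 * s) * k) :=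
          mul_le_mul (mul_le_mul_of_nonneg_left he (abs_nonneg _)) h2 (abs_nonneg _) (by positivity)
      _ = _ := by ring
  have h2 : |u * (2 * k * θ * e + e ^ 2) + 2 * A * v ^ 2 * k * e| ≤
      (|u| * (2 * |θ| * C + C ^ 2) + 2 * |A| * v ^ 2 * C) * k := by
    refine le_trans (abs_add_le _ _) ?_
    have h3 : |u * (2 * k * θ * e + e ^ 2)| ≤ |u| * ((2 * |θ| * C + C ^ 2) * k) := by
      rw [abs_mul]
      refine mul_le_mul_of_nonneg_left ?_ (abs_nonneg _)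
      refine le_trans (abs_add_le _ _) ?_
      have h4 : |2 * k * θ * e| ≤ 2 * k * |θ| * C := by
        rw [abs_mul, abs_mul, abs_mul, abs_of_pos (two_pos : (0:ℝ) < 2), abs_of_pos hk0]
        exact mul_le_mul_of_nonneg_left he (by positivity)
      have h5 : |e ^ 2| ≤ C ^ 2 * k := by
        rw [abs_pow]
        have h6 : |e| ^ 2 ≤ C ^ 2 := pow_le_pow_left₀ (abs_nonneg _) he 2
        have h7 : C ^ 2 ≤ C ^ 2 * k := le_mul_of_one_le_right (by positivity) hk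
        linarith
      linarith
    have h4 : |2 * A * v ^ 2 * k * e| ≤ 2 * |A| * v ^ 2 * k * C := by
      rw [abs_mul, abs_mul, abs_mul, abs_mul, abs_of_pos (two_pos : (0:ℝ) < 2), abs_of_pos hk0,
        abs_of_nonneg (sq_nonneg v)]
      exact mul_le_mul_of_nonneg_left he (by positivity)
    linarith
  rw [him, hre]
  have h3 := (abs_le.mp h2).1
  have hP : 0 ≤ |v| * C * (C + 2 * s) := by positivity
  have h4 : (|v| * C * (C + 2 * s)) / ε * k + (|u| * (2 * |θ| * C + C ^ 2) + 2 * |A| * v ^ 2 * C) * k <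
      s ^ 2 * (2 * u + B * v + 2 * s) * k ^ 2 := by
    have := mul_lt_mul_of_pos_right hkL hk0
    linarith
  have h5 : (|v| * C * (C + 2 * s)) / ε * k <
      s ^ 2 * (2 * u + B * v + 2 * s) * k ^ 2 + (u * (2 * k * θ * e + e ^ 2) + 2 * A * v ^ 2 * k * e) := by
    linarith
  constructor
  · have : 0 ≤ (|v| * C * (C + 2 * s)) / ε * k := by positivity
    linarith
  · refine le_trans h1 ?_
    have h6 := mul_lt_mul_of_pos_left h5 hε
    have h7 : ε * ((|v| * C * (C + 2 * s)) / ε * k) = |v| * C * (C + 2 * s) * k := by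
      field_simp
    linarith

/-- ROW I3.  The element `μ`. -/
theorem exists_mu (ε : ℝ) (hε : 0 < ε) : ∃ μ : O (P.B : ℤ) (P.A : ℤ), 0 < μ.re ∧
    IsCoprime μ.re μ.im ∧ μ.re.natAbs.Coprime P.A ∧ P.xi μ.re.natAbs = 1 ∧
    |(μ.im : ℝ)| ≤ ε * μ.re ∧ hh μ = -1 := by
  obtain ⟨w, p, τ, hp, hτ, hw, hτA, hwτ, hnm, him, htr⟩ := P.exists_w
  have hp0 : (0 : ℝ) < p := by exact_mod_cast hp.pos
  have hτ0 : (0 : ℝ) < τ := by exact_mod_cast hτ
  have hA0 : (0 : ℤ) < P.A := by exact_mod_cast P.hA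
  have hnmpos : (0 : ℝ) < (nm w : ℝ) := by
    rw [hnm]; push_cast; positivity
  obtain ⟨s, hs⟩ : ∃ s : ℝ, s = Real.sqrt (nm w : ℝ) := ⟨_, rfl⟩
  have hs0 : 0 < s := by rw [hs]; exact Real.sqrt_pos.mpr hnmpos
  have hs2 : s ^ 2 = (w.re : ℝ) ^ 2 + P.B * w.re * w.im + P.A * (w.im : ℝ) ^ 2 := by
    rw [hs, Real.sq_sqrt hnmpos.le]; unfold nm; push_cast; ring
  have hL : 0 < 2 * (w.re : ℝ) + P.B * w.im + 2 * s := by
    rcases lt_or_gt_of_ne P.delta_ne_zero with hΔ | hΔ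
    · have h1 : (2 * (w.re : ℝ) + P.B * w.im) ^ 2 < (2 * s) ^ 2 := by
        have h2 : ((P.B : ℝ) ^ 2 - 4 * P.A) = (P.N : ℝ) ^ 2 * P.Δ := by exact_mod_cast P.hD
        have h3 : (2 * (w.re : ℝ) + P.B * w.im) ^ 2 =
            (2 * s) ^ 2 + (P.N : ℝ) ^ 2 * P.Δ * (w.im : ℝ) ^ 2 := by
          rw [← h2]
          linear_combination -4 * hs2
        have h4 : (P.Δ : ℝ) < 0 := by exact_mod_cast hΔ
        have h5 : (0 : ℝ) < (P.N : ℝ) ^ 2 := by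
          have : (0 : ℝ) < P.N := by exact_mod_cast P.hN
          positivity
        have h6 : (0 : ℝ) < (w.im : ℝ) ^ 2 := by
          have : (w.im : ℝ) ≠ 0 := by exact_mod_cast him
          positivity
        have h7 : (P.N : ℝ) ^ 2 * P.Δ * (w.im : ℝ) ^ 2 < 0 :=
          mul_neg_of_neg_of_pos (mul_neg_of_pos_of_neg h5 h4) h6
        linarith
      have h2 := abs_lt_of_sq_lt_sq h1 (by positivity)
      linarith [(abs_lt.mp h2).1]
    · have h1 : (0 : ℝ) < 2 * (w.re : ℝ) + P.B * w.im := by exact_mod_cast htr hΔ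
      linarith
  obtain ⟨θ, hθ⟩ : ∃ θ : ℝ, θ = s + w.re + P.B * w.im := ⟨_, rfl⟩
  obtain ⟨m, hm⟩ : ∃ m : ℤ, m = P.A * |w.im| := ⟨_, rfl⟩
  have hm0 : 0 < m := by rw [hm]; exact mul_pos hA0 (abs_pos.mpr him)
  have hmR : (0 : ℝ) < m := by exact_mod_cast hm0
  obtain ⟨C, hC⟩ : ∃ C : ℝ, C = (m : ℝ) + 1 := ⟨_, rfl⟩
  have hC0 : 0 < C := by rw [hC]; linarith
  have hn2 : 0 < s ^ 2 * (2 * (w.re : ℝ) + P.B * w.im + 2 * s) := by positivity
  obtain ⟨r, hr⟩ := pow_unbounded_of_one_lt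
    (((|(w.im : ℝ)| * C * (C + 2 * s)) / ε + (|(w.re : ℝ)| * (2 * |θ| * C + C ^ 2) +
      2 * |(P.A : ℝ)| * (w.im : ℝ) ^ 2 * C)) / (s ^ 2 * (2 * (w.re : ℝ) + P.B * w.im + 2 * s)))
    (by norm_num : (1 : ℝ) < 2)
  rw [div_lt_iff₀ hn2] at hr
  obtain ⟨x, hx⟩ : ∃ x : ℤ, x = 1 + m * ⌊(2 : ℝ) ^ r * θ / m⌋ := ⟨_, rfl⟩
  obtain ⟨e, he⟩ : ∃ e : ℝ, e = (x : ℝ) - 2 ^ r * θ := ⟨_, rfl⟩
  have hemC : |e| ≤ C := by
    have h1 := Int.floor_le ((2 : ℝ) ^ r * θ / m)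
    have h2 := Int.lt_floor_add_one ((2 : ℝ) ^ r * θ / m)
    rw [le_div_iff₀ hmR] at h1
    rw [div_lt_iff₀ hmR] at h2
    rw [he, hx, hC, abs_le]
    push_cast
    constructor <;> nlinarith
  obtain ⟨hre0, him0⟩ := i3_real (P.A : ℝ) (P.B : ℝ) w.re w.im s θ (2 ^ r) e x ε hε hs0 hs2 hθ
    (by rw [he]; ring) C hemC (one_le_pow₀ (by norm_num)) hL (by linarith)
  obtain ⟨β, hβ⟩ : ∃ β : O (P.B : ℤ) (P.A : ℤ), β = ⟨x, -(w.im * 2 ^ r)⟩ := ⟨_, rfl⟩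
  obtain ⟨W, hW⟩ : ∃ W : O (P.B : ℤ) (P.A : ℤ), W = w * β * β := ⟨_, rfl⟩
  obtain ⟨hc1, hc2⟩ := P.i3_coord w x (2 ^ r)
  rw [← hβ, ← hW] at hc1 hc2
  have hWre : 0 < (W.re : ℝ) := by
    rw [hc1]; push_cast; exact hre0
  have hWim : |(W.im : ℝ)| ≤ ε * (W.re : ℝ) := by
    rw [hc1, hc2]; push_cast; exact him0
  have hWre' : 0 < W.re := by exact_mod_cast hWre
  -- coprimality of `x`
  have hxm : IsCoprime x m := ⟨1, -⌊(2 : ℝ) ^ r * θ / m⌋, by rw [hx]; ring⟩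
  have hxA : IsCoprime x (P.A : ℤ) := hxm.of_isCoprime_of_dvd_right ⟨|w.im|, hm⟩
  have hxv : IsCoprime x w.im := hxm.of_isCoprime_of_dvd_right (by
    rw [hm]; exact Dvd.dvd.mul_left ((dvd_abs _ _).mpr dvd_rfl) _)
  have hx2 : IsCoprime x (2 : ℤ) := hxA.of_isCoprime_of_dvd_right (by exact_mod_cast P.two_dvd_A)
  have hβcop : IsCoprime β.re β.im := by
    rw [hβ]
    exact ((hxv.mul_right (hx2.pow_right))).neg_right
  have hβim : β.im ≠ 0 := by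
    rw [hβ]
    exact neg_ne_zero.mpr (mul_ne_zero him (by positivity))
  have hnmβ := P.i3_nm_ne_zero hβim
  -- `W.re ≡ τ` mod `A`
  have hWτ : W.re ≡ τ [ZMOD P.A] := by
    have h1 : W.re ≡ w.re * x ^ 2 [ZMOD P.A] := by
      rw [hc1]
      exact (Int.modEq_iff_dvd.mpr ⟨-(2 * w.im ^ 2 * x * 2 ^ r -
        w.im ^ 2 * (2 ^ r) ^ 2 * (w.re + P.B * w.im)), by ring⟩)
    have h2 : x ≡ 1 [ZMOD P.A] := by
      refine (Int.modEq_iff_dvd.mpr ⟨-(|w.im| * ⌊(2 : ℝ) ^ r * θ / m⌋), ?_⟩)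
      rw [hx, hm]; ring
    have h3 : w.re * x ^ 2 ≡ w.re * 1 ^ 2 [ZMOD P.A] := (h2.pow 2).mul_left _
    rw [one_pow, mul_one] at h3
    exact h1.trans (h3.trans hwτ)
  have hWcop : W.re.natAbs.Coprime P.A := by
    have h1 : IsCoprime (τ : ℤ) (P.A : ℤ) := Nat.isCoprime_iff_coprime.mpr hτA
    obtain ⟨k, hk⟩ := Int.modEq_iff_dvd.mp hWτ
    have h2 : IsCoprime W.re (P.A : ℤ) := by
      have h3 : W.re = τ + (P.A : ℤ) * (-k) := by linear_combination -hk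
      rw [h3]
      exact h1.add_mul_left_left (-k)
    rw [Nat.coprime_iff_gcd_eq_one]
    have h4 := Int.isCoprime_iff_gcd_eq_one.mp h2
    simpa [Int.gcd] using h4
  have hWne : W ≠ 0 := by
    intro h0; rw [h0] at hWre'; simp at hWre'
  obtain ⟨g, μ, hg, hWμ, hμcop⟩ := exists_prim W hWne
  have hgre : W.re = g * μ.re := by rw [hWμ]; simp
  have hgim : W.im = g * μ.im := by rw [hWμ]; simp
  have hμre : 0 < μ.re := by
    rw [hgre] at hWre'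
    exact (mul_pos_iff_of_pos_left hg).mp hWre'
  have hgR : (0 : ℝ) < g := by exact_mod_cast hg
  have hnat : W.re.natAbs = g.natAbs * μ.re.natAbs := by rw [hgre, Int.natAbs_mul]
  have hgA : g.natAbs.Coprime P.A := Nat.Coprime.coprime_dvd_left ⟨_, hnat⟩ hWcop
  have hμA : μ.re.natAbs.Coprime P.A :=
    Nat.Coprime.coprime_dvd_left ⟨g.natAbs, by rw [hnat, mul_comm]⟩ hWcop
  have hg0 : g.natAbs ≠ 0 := by simpa using hg.ne'
  have hμ0 : μ.re.natAbs ≠ 0 := by simpa using hμre.ne'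
  have hnmW : nm W = nm w * nm β * nm β := by rw [hW, nm_mul, nm_mul]
  have hξg : P.xi g.natAbs = 1 := by
    apply P.xi_of_primes hg0
    intro q hq hqg
    have hqA : ¬ q ∣ P.A := by
      intro h
      have := Nat.dvd_gcd hqg h
      rw [hgA] at this
      exact hq.one_lt.ne' (Nat.dvd_one.1 this)
    have hqint : Prime (q : ℤ) := Nat.prime_iff_prime_int.mp hq
    have hqg' : (q : ℤ) ∣ g := Int.natCast_dvd.mpr hqg
    have h1 : (q : ℤ) ∣ nm w * nm β * nm β := by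
      rw [← hnmW, hWμ, nm_zsmul]
      exact Dvd.dvd.mul_right (dvd_pow hqg' two_ne_zero) _
    rcases hqint.dvd_or_dvd h1 with h2 | h2
    · rcases hqint.dvd_or_dvd h2 with h3 | h3
      · exact P.xi_prime_of_dvd_nm hq hqA hw h3
      · exact P.xi_prime_of_dvd_nm hq hqA hβcop h3
    · exact P.xi_prime_of_dvd_nm hq hqA hβcop h2
  have hξτ : P.xi τ = 1 := by
    apply P.xi_of_dvd_nm hτ.ne' hτA hw
    rw [hnm]
    exact ⟨p * τ, by ring⟩
  have hξW : P.xi W.re.natAbs = 1 := by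
    rw [← hξτ]
    apply P.xi_mod_A hWcop
    have h1 : ((W.re.natAbs : ℕ) : ℤ) ≡ (τ : ℤ) [ZMOD (P.A : ℤ)] := by
      rw [Int.natAbs_of_nonneg hWre'.le]; exact hWτ
    exact (Int.natCast_modEq_iff).mp h1
  refine ⟨μ, hμre, hμcop, hμA, ?_, ?_, ?_⟩
  · rw [hnat, P.xi_mul hg0 hμ0, hξg, one_mul] at hξW
    exact hξW
  · rw [hgre, hgim] at hWim
    push_cast at hWim
    rw [abs_mul, abs_of_pos hgR] at hWim
    have h1 : (g : ℝ) * |(μ.im : ℝ)| ≤ g * (ε * μ.re) := by linarith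
    exact le_of_mul_le_mul_left h1 hgR
  · have h1 : hh W = hh μ := by rw [hWμ, hh_zsmul hg.ne']
    have h2 : hh w = -1 := by
      rw [hh, hnm, mul_comm, lam_sq_mul (by exact_mod_cast hτ.ne'), lam_prime hp]
    have h3 : hh β * hh β = 1 := lam_mul_self hnmβ
    rw [← h1, hW, hh_mul, hh_mul, h2, mul_assoc, h3]
    norm_num

end Par

end Pool.Agent.Lib.MP_648c71_nt.Qap
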