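import Pool.Agent.Lib.MP_648c71_nt.Qap.Basic

/-! ROW J1: action of mu on admissible vectors -/

set_option autoImplicit false

namespace Pool.Agent.Lib.MP_648c71_nt.Qap

open Finset QuadraticAlgebra

namespace Par

variable (P : Par)

/-- ROW J1.  `μ` acts on admissible vectors.
Proof.  `u = x + yω`, `μ u = (μ.re x - A μ.im y) + (μ.re y + μ.im x + B μ.im y) ω`, `c = gcd` of its two
coordinates.  The first coordinate is positive by hypothesis and `≡ μ.re x` mod `A`, so it is coprime to `A`;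
so `c` and `x'` are coprime to `A`.  `c ∣ N(μ)`: `c` divides `conj(μ) μ u = N(μ) u` and `u` is primitive; so
`ξ(c) = 1` (`xi_of_dvd_nm`) and `ξ(x') = ξ(μ.re)ξ(x) = 1`.  `λ(Q(x',y')) = hh(μu) = hh μ · l x y = -l x y`
(`hh_zsmul`, `hh_mul`, `l_eq_hh`).  (`nm μ > 0` as `hh μ ≠ 0` … if `nm μ < 0`?  It is not:
`c`'s bound is stated with `natAbs`.) -/
theorem mu_act {μ : O (P.B : ℤ) (P.A : ℤ)} (h1 : 0 < μ.re) (h2 : IsCoprime μ.re μ.im)
    (h3 : μ.re.natAbs.Coprime P.A) (h4 : P.xi μ.re.natAbs = 1) (h5 : hh μ = -1) {x y : ℕ}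
    (hV : P.V x y) (hre : 0 < μ.re * x - P.A * μ.im * y)
    (him : 0 ≤ μ.re * y + μ.im * x + P.B * μ.im * y) :
    ∃ x' y' c : ℕ, P.V x' y' ∧ P.l x' y' = - P.l x y ∧ 0 < c ∧ c ≤ (nm μ).natAbs ∧
      (c : ℤ) * x' = μ.re * x - P.A * μ.im * y ∧
      (c : ℤ) * y' = μ.re * y + μ.im * x + P.B * μ.im * y := by
  obtain ⟨hx0, hxy, hxA, hxi⟩ := hV
  obtain ⟨X, hX⟩ := Int.eq_ofNat_of_zero_le hre.le
  obtain ⟨Y, hY⟩ := Int.eq_ofNat_of_zero_le him
  obtain ⟨r, hr⟩ := Int.eq_ofNat_of_zero_le h1.le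
  have hX0 : 0 < X := by
    have : (0 : ℤ) < X := by rw [← hX]; exact hre
    exact_mod_cast this
  have hr0 : 0 < r := by
    have : (0 : ℤ) < r := by rw [← hr]; exact h1
    exact_mod_cast this
  have hrn : μ.re.natAbs = r := by rw [hr]; exact Int.natAbs_natCast r
  rw [hrn] at h3 h4
  set c := Nat.gcd X Y with hc
  have hc0 : 0 < c := Nat.gcd_pos_of_pos_left _ hX0
  obtain ⟨x', hx'⟩ : c ∣ X := Nat.gcd_dvd_left _ _
  obtain ⟨y', hy'⟩ : c ∣ Y := Nat.gcd_dvd_right _ _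
  have hcop : x'.Coprime y' := by
    have h := Nat.coprime_div_gcd_div_gcd (m := X) (n := Y) hc0
    rw [← hc] at h
    have e1 : X / c = x' := by
      conv_lhs => rw [hx']
      exact Nat.mul_div_cancel_left _ hc0
    have e2 : Y / c = y' := by
      conv_lhs => rw [hy']
      exact Nat.mul_div_cancel_left _ hc0
    rwa [e1, e2] at h
  have hx'0 : 0 < x' := by
    rcases Nat.eq_zero_or_pos x' with h | h
    · rw [h, mul_zero] at hx'; omega
    · exact h
  -- `X ≡ r x` mod `A`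
  have hmod : X ≡ r * x [MOD P.A] := by
    rw [← Int.natCast_modEq_iff, ← hX, hr]
    push_cast
    have : (r : ℤ) * x - P.A * μ.im * y = r * x + P.A * (-(μ.im * y)) := by ring
    rw [this]
    exact Int.modEq_add_fac_self.symm.trans (by rfl) |>.symm
  have hrx : (r * x).Coprime P.A := Nat.Coprime.mul_left h3 hxA
  have hXA : X.Coprime P.A := by
    have h := hmod.gcd_eq
    unfold Nat.Coprime at hrx ⊢
    rw [h, hrx]
  have hcA : c.Coprime P.A := Nat.Coprime.coprime_dvd_left (Dvd.intro _ hx'.symm) hXA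
  have hx'A : x'.Coprime P.A := Nat.Coprime.coprime_dvd_left (Dvd.intro_left _ hx'.symm) hXA
  have hnm0 : nm μ ≠ 0 := by
    intro h
    rw [hh, h, lam_zero] at h5
    norm_num at h5
  -- `c ∣ nm μ`
  have hcn : (c : ℤ) ∣ nm μ := by
    have d1 : (c : ℤ) ∣ (X : ℤ) := by exact_mod_cast (Dvd.intro _ hx'.symm : c ∣ X)
    have d2 : (c : ℤ) ∣ (Y : ℤ) := by exact_mod_cast (Dvd.intro _ hy'.symm : c ∣ Y)
    have e1 : nm μ * x = (μ.re + P.B * μ.im) * X + P.A * μ.im * Y := by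
      rw [← hX, ← hY]; unfold nm; ring
    have e2 : nm μ * y = μ.re * Y - μ.im * X := by
      rw [← hX, ← hY]; unfold nm; ring
    have f1 : (c : ℤ) ∣ nm μ * x := by
      rw [e1]; exact dvd_add (d1.mul_left _) (d2.mul_left _)
    have f2 : (c : ℤ) ∣ nm μ * y := by
      rw [e2]; exact dvd_sub (d2.mul_left _) (d1.mul_left _)
    obtain ⟨a, b, hab⟩ := Nat.isCoprime_iff_coprime.mpr hxy
    have : nm μ = a * (nm μ * x) + b * (nm μ * y) := by
      linear_combination (-nm μ) * hab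
    rw [this]
    exact dvd_add (f1.mul_left _) (f2.mul_left _)
  have hxic : P.xi c = 1 := P.xi_of_dvd_nm hc0.ne' hcA h2 hcn
  have hxiX : P.xi X = 1 := by
    rw [P.xi_mod_A hXA hmod, P.xi_mul hr0.ne' hx0.ne', h4, hxi, one_mul]
  have hxix' : P.xi x' = 1 := by
    rw [hx', P.xi_mul hc0.ne' hx'0.ne', hxic, one_mul] at hxiX
    exact hxiX
  refine ⟨x', y', c, ⟨hx'0, hcop, hx'A, hxix'⟩, ?_, hc0, ?_, ?_, ?_⟩
  · rw [P.l_eq_hh, P.l_eq_hh]
    have hc0' : (c : ℤ) ≠ 0 := by exact_mod_cast hc0.ne'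
    have key : (c : ℤ) • (⟨(x' : ℤ), (y' : ℤ)⟩ : O (P.B : ℤ) (P.A : ℤ)) =
        μ * (⟨(x : ℤ), (y : ℤ)⟩ : O (P.B : ℤ) (P.A : ℤ)) := by
      have e1 : (c : ℤ) * x' = X := by exact_mod_cast hx'.symm
      have e2 : (c : ℤ) * y' = Y := by exact_mod_cast hy'.symm
      ext
      · simp only [re_smul, smul_eq_mul, re_mul]
        rw [e1, ← hX]; ring
      · simp only [im_smul, smul_eq_mul, im_mul]
        rw [e2, ← hY]
    rw [← hh_zsmul hc0', key, hh_mul, h5]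
    ring
  · exact Nat.le_of_dvd (Int.natAbs_pos.mpr hnm0) (by
      have := Int.natAbs_dvd_natAbs.mpr hcn
      rwa [Int.natAbs_natCast] at this)
  · rw [hX]; exact_mod_cast hx'.symm
  · rw [hY]; exact_mod_cast hy'.symm

end Par

end Pool.Agent.Lib.MP_648c71_nt.Qap
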