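import Mathlib

/-! ROW J2: the Moebius map -/

set_option autoImplicit false

namespace Pool.Agent.Lib.MP_648c71_nt.Qap

open Finset MeasureTheory

/-- the Moebius map of `μ = p + qω` on slopes -/
noncomputable def gm (A B p q s : ℝ) : ℝ := (p * s + q + B * q * s) / (p - A * q * s)

/-- ROW J2.  `g` is close to the identity and bi-Lipschitz on `[0,1]` if `|q| ≤ ε p`, `ε` small.
`g(s) - s = (q + Bqs + Aqs²)/(p - Aqs)`,
`g(s) - g(t) = (s - t)(p² + Bpq + Aq²)/((p - Aqs)(p - Aqt))`. -/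
theorem gm_facts (A B : ℝ) (hA : 0 ≤ A) (hB : 0 ≤ B) (η : ℝ) (hη : 0 < η) : ∃ ε : ℝ, 0 < ε ∧ ε < 1 ∧
    ∀ p q : ℝ, 0 < p → |q| ≤ ε * p →
      (∀ s ∈ Set.Icc (0 : ℝ) 1, p / 2 ≤ p - A * q * s ∧ |gm A B p q s - s| ≤ η) ∧
      (∀ s ∈ Set.Icc (0 : ℝ) 1, ∀ t ∈ Set.Icc (0 : ℝ) 1,
        |gm A B p q s - gm A B p q t| ≤ 2 * |s - t| ∧ |s - t| ≤ 2 * |gm A B p q s - gm A B p q t|) := by
  obtain ⟨m, hm⟩ : ∃ m : ℝ, m = min (1 / 16) (η / 4) := ⟨_, rfl⟩
  have hm0 : 0 < m := by rw [hm]; exact lt_min (by norm_num) (by linarith)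
  have hm1 : m ≤ 1 / 16 := by rw [hm]; exact min_le_left _ _
  have hm2 : m ≤ η / 4 := by rw [hm]; exact min_le_right _ _
  have hS : 0 < 1 + A + B := by linarith
  obtain ⟨ε, hε⟩ : ∃ ε : ℝ, ε = m / (1 + A + B) := ⟨_, rfl⟩
  have hε0 : 0 < ε := by rw [hε]; positivity
  have hεS : ε * (1 + A + B) = m := by rw [hε]; field_simp
  have hε1 : ε ≤ m := by nlinarith
  refine ⟨ε, hε0, by linarith, ?_⟩
  intro p q hp hq
  have hq' := abs_le.1 hq
  -- bounds for `A q s`, `B q s`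
  have hAq : |A * q| ≤ m * p := by
    rw [abs_mul, abs_of_nonneg hA]
    calc A * |q| ≤ A * (ε * p) := by gcongr
      _ = (ε * A) * p := by ring
      _ ≤ m * p := by
        apply mul_le_mul_of_nonneg_right _ hp.le
        nlinarith
  have hBq : |B * q| ≤ m * p := by
    rw [abs_mul, abs_of_nonneg hB]
    calc B * |q| ≤ B * (ε * p) := by gcongr
      _ = (ε * B) * p := by ring
      _ ≤ m * p := by
        apply mul_le_mul_of_nonneg_right _ hp.le
        nlinarith
  have hden : ∀ s ∈ Set.Icc (0 : ℝ) 1, (1 - m) * p ≤ p - A * q * s ∧ p - A * q * s ≤ (1 + m) * p := by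
    intro s hs
    have h1 : |A * q * s| ≤ m * p := by
      rw [abs_mul, abs_of_nonneg hs.1]
      calc |A * q| * s ≤ |A * q| * 1 := by
            apply mul_le_mul_of_nonneg_left hs.2 (abs_nonneg _)
        _ ≤ m * p := by linarith
    have h2 := abs_le.1 h1
    constructor <;> linarith [h2.1, h2.2]
  have hdpos : ∀ s ∈ Set.Icc (0 : ℝ) 1, 0 < p - A * q * s := by
    intro s hs
    have := (hden s hs).1
    nlinarith
  constructor
  · intro s hs
    have hd := hden s hs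
    have hdp := hdpos s hs
    refine ⟨by nlinarith, ?_⟩
    have hform : gm A B p q s - s = (q + B * q * s + A * q * s ^ 2) / (p - A * q * s) := by
      unfold gm
      rw [eq_div_iff hdp.ne', sub_mul, div_mul_cancel₀ _ hdp.ne']
      ring
    rw [hform, abs_div, abs_of_pos hdp, div_le_iff₀ hdp]
    have hnum : |q + B * q * s + A * q * s ^ 2| ≤ 2 * m * p := by
      have e1 : q + B * q * s + A * q * s ^ 2 = q * (1 + B * s + A * s ^ 2) := by ring
      rw [e1, abs_mul]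
      have e2 : |1 + B * s + A * s ^ 2| ≤ 1 + A + B := by
        rw [abs_of_nonneg (by have := hs.1; positivity)]
        have e3 : s ^ 2 ≤ 1 := by nlinarith [hs.1, hs.2]
        nlinarith [hs.1, hs.2]
      calc |q| * |1 + B * s + A * s ^ 2| ≤ (ε * p) * (1 + A + B) := by
            apply mul_le_mul hq e2 (abs_nonneg _) (by positivity)
        _ = (ε * (1 + A + B)) * p := by ring
        _ = m * p := by rw [hεS]
        _ ≤ 2 * m * p := by nlinarith
    calc |q + B * q * s + A * q * s ^ 2| ≤ 2 * m * p := hnum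
      _ ≤ η * ((1 - m) * p) := by
        have : 2 * m ≤ η * (1 - m) := by nlinarith
        nlinarith
      _ ≤ η * (p - A * q * s) := by
        apply mul_le_mul_of_nonneg_left hd.1 hη.le
  · intro s hs t ht
    have hd := hden s hs
    have hdp := hdpos s hs
    have hd' := hden t ht
    have hdp' := hdpos t ht
    have hform : gm A B p q s - gm A B p q t =
        (s - t) * (p ^ 2 + B * q * p + A * q * q) / ((p - A * q * s) * (p - A * q * t)) := by
      unfold gm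
      rw [div_sub_div _ _ hdp.ne' hdp'.ne']
      congr 1
      ring
    have hN1 : (1 - 2 * m) * p ^ 2 ≤ p ^ 2 + B * q * p + A * q * q := by
      have h1 : -(m * p ^ 2) ≤ B * q * p := by
        have := (abs_le.1 hBq).1
        nlinarith
      have h2 : -(m * p ^ 2) ≤ A * q * q := by
        have : 0 ≤ A * q * q := by nlinarith [mul_nonneg hA (mul_self_nonneg q)]
        nlinarith [sq_nonneg p]
      nlinarith
    have hN2 : p ^ 2 + B * q * p + A * q * q ≤ (1 + 2 * m) * p ^ 2 := by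
      have h1 : B * q * p ≤ m * p ^ 2 := by
        have := (abs_le.1 hBq).2
        nlinarith
      have h2 : A * q * q ≤ m * p ^ 2 := by
        calc A * q * q ≤ |A * q * q| := le_abs_self _
          _ = |A * q| * |q| := abs_mul _ _
          _ ≤ (m * p) * (ε * p) := by
            apply mul_le_mul hAq hq (abs_nonneg _) (by positivity)
          _ ≤ (m * p) * (1 * p) := by
            apply mul_le_mul_of_nonneg_left _ (by positivity)
            apply mul_le_mul_of_nonneg_right _ hp.le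
            linarith
          _ = m * p ^ 2 := by ring
      nlinarith
    have hNpos : 0 < p ^ 2 + B * q * p + A * q * q := by
      have : 0 < (1 - 2 * m) * p ^ 2 := by
        apply mul_pos (by linarith) (by positivity)
      linarith
    have hDpos : 0 < (p - A * q * s) * (p - A * q * t) := mul_pos hdp hdp'
    have hD1 : (1 - m) ^ 2 * p ^ 2 ≤ (p - A * q * s) * (p - A * q * t) := by
      have : (1 - m) ^ 2 * p ^ 2 = ((1 - m) * p) * ((1 - m) * p) := by ring
      rw [this]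
      apply mul_le_mul hd.1 hd'.1 _ hdp.le
      apply mul_nonneg (by linarith) hp.le
    have hD2 : (p - A * q * s) * (p - A * q * t) ≤ (1 + m) ^ 2 * p ^ 2 := by
      have : (1 + m) ^ 2 * p ^ 2 = ((1 + m) * p) * ((1 + m) * p) := by ring
      rw [this]
      apply mul_le_mul hd.2 hd'.2 hdp'.le
      apply mul_nonneg (by linarith) hp.le
    have hp2 : 0 < p ^ 2 := by positivity
    rw [hform, abs_div, abs_mul, abs_of_pos hNpos, abs_of_pos hDpos]
    constructor
    · rw [div_le_iff₀ hDpos]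
      have : p ^ 2 + B * q * p + A * q * q ≤ 2 * ((p - A * q * s) * (p - A * q * t)) := by
        have h1 : (1 + 2 * m) * p ^ 2 ≤ 2 * ((1 - m) ^ 2 * p ^ 2) := by
          have : 1 + 2 * m ≤ 2 * (1 - m) ^ 2 := by nlinarith
          nlinarith
        linarith
      nlinarith [abs_nonneg (s - t)]
    · rw [← mul_div_assoc, le_div_iff₀ hDpos]
      have : (p - A * q * s) * (p - A * q * t) ≤ 2 * (p ^ 2 + B * q * p + A * q * q) := by
        have h1 : (1 + m) ^ 2 * p ^ 2 ≤ 2 * ((1 - 2 * m) * p ^ 2) := by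
          have : (1 + m) ^ 2 ≤ 2 * (1 - 2 * m) := by nlinarith
          nlinarith
        linarith
      nlinarith [abs_nonneg (s - t)]

/-- preimages under an expanding map -/
private theorem J2_preimage {g : ℝ → ℝ} {I : Set ℝ}
    (hg : ∀ s ∈ I, ∀ t ∈ I, |s - t| ≤ 2 * |g s - g t|) (Z : Set ℝ) :
    volume (I ∩ g ⁻¹' Z) ≤ 2 * volume Z := by
  classical
  set W := I ∩ g ⁻¹' Z with hW
  let f : ℝ → ℝ := Function.invFunOn g W
  have hinj : Set.InjOn g W := by
    intro s hs t ht hst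
    have := hg s hs.1 t ht.1
    rw [hst, sub_self, abs_zero, mul_zero] at this
    exact sub_eq_zero.1 (abs_nonpos_iff.1 this)
  have hfg : ∀ s ∈ W, f (g s) = s := fun s hs => hinj.leftInvOn_invFunOn hs
  have hL : LipschitzOnWith 2 f (g '' W) := by
    refine LipschitzOnWith.of_dist_le_mul ?_
    rintro _ ⟨s, hs, rfl⟩ _ ⟨t, ht, rfl⟩
    rw [hfg s hs, hfg t ht, Real.dist_eq, Real.dist_eq]
    simpa using hg s hs.1 t ht.1
  have himg : f '' (g '' W) = W := by
    ext x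
    constructor
    · rintro ⟨_, ⟨s, hs, rfl⟩, rfl⟩
      rw [hfg s hs]; exact hs
    · intro hx
      exact ⟨g x, ⟨x, hx, rfl⟩, hfg x hx⟩
  have h1 := hL.hausdorffMeasure_image_le (d := 1) (by norm_num)
  rw [himg, hausdorffMeasure_real] at h1
  refine h1.trans ?_
  simp only [ENNReal.rpow_one]
  have h2 : g '' W ⊆ Z := by
    rintro _ ⟨s, hs, rfl⟩
    exact hs.2
  have h3 : ((2 : NNReal) : ENNReal) = 2 := by norm_num
  rw [h3]
  gcongr

/-- ROW J2.  A good point whose image is also good.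
Proof.  `η ≤ (β-α)/8`, `ε` from `gm_facts`.  `s ∈ (α+η, β-η)` (measure `≥ 3/4 (β-α)`) has
`g(s) ∈ (α,β)`.  The set of such `s` with `s ∉ G` has measure `≤ (β-α)/8`; those with `g(s) ∉ G` lie in
`g⁻¹((α,β) \ G)`, of measure `≤ 2 vol((α,β) \ G) ≤ (β-α)/4` since `g` is expanding up to a factor `2`
(`LipschitzOnWith` for the inverse, `MeasureTheory.hausdorffMeasure_real`,
`LipschitzOnWith.hausdorffMeasure_image_le`, or any other argument); those with `s ∉ F` or `g(s) ∉ F` have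
measure zero by the same argument. `1 - 1/4 - 1/8 - 1/4 > 0`. -/
theorem exists_good_point (A B : ℝ) (hA : 0 ≤ A) (hB : 0 ≤ B) (α β : ℝ) (hα : 0 ≤ α) (hαβ : α < β)
    (hβ : β ≤ 1) : ∃ ε : ℝ, 0 < ε ∧ ε < 1 ∧ ∀ p q : ℝ, 0 < p → |q| ≤ ε * p →
      (∀ s ∈ Set.Icc (0 : ℝ) 1, p / 2 ≤ p - A * q * s) ∧
      (∀ s ∈ Set.Icc (0 : ℝ) 1, ∀ t ∈ Set.Icc (0 : ℝ) 1, |gm A B p q s - gm A B p q t| ≤ 2 * |s - t|) ∧
      ∀ G F : Set ℝ, volume (Set.Ioo α β \ G) ≤ ENNReal.ofReal ((β - α) / 8) →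
        (∀ᵐ s ∂(volume.restrict (Set.Ioo (0 : ℝ) 1)), s ∈ F) →
        ∃ s ∈ Set.Ioo α β, gm A B p q s ∈ Set.Ioo α β ∧ s ∈ G ∧ gm A B p q s ∈ G ∧ s ∈ F ∧
          gm A B p q s ∈ F := by
  obtain ⟨h, hh⟩ : ∃ h : ℝ, h = β - α := ⟨_, rfl⟩
  have hh0 : 0 < h := by linarith
  obtain ⟨ε, hε0, hε1, hε⟩ := gm_facts A B hA hB (h / 8) (by linarith)
  refine ⟨ε, hε0, hε1, ?_⟩
  intro p q hp hq
  obtain ⟨h1, h2⟩ := hε p q hp hq
  refine ⟨fun s hs => (h1 s hs).1, fun s hs t ht => (h2 s hs t ht).1, ?_⟩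
  intro G F hG hF
  rw [← hh] at hG
  set g := gm A B p q with hg
  set I := Set.Ioo (α + h / 8) (β - h / 8) with hI
  have hI01 : ∀ s ∈ I, s ∈ Set.Ioo (0 : ℝ) 1 := by
    intro s hs
    exact ⟨by linarith [hs.1], by linarith [hs.2]⟩
  have hIcc : ∀ s ∈ I, s ∈ Set.Icc (0 : ℝ) 1 := fun s hs => Set.Ioo_subset_Icc_self (hI01 s hs)
  have hIαβ : I ⊆ Set.Ioo α β := by
    intro s hs
    exact ⟨by linarith [hs.1], by linarith [hs.2]⟩
  have hgI : ∀ s ∈ I, g s ∈ Set.Ioo α β := by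
    intro s hs
    have h3 := abs_le.1 (h1 s (hIcc s hs)).2
    exact ⟨by linarith [hs.1, h3.1], by linarith [hs.2, h3.2]⟩
  have hexp : ∀ s ∈ I, ∀ t ∈ I, |s - t| ≤ 2 * |g s - g t| :=
    fun s hs t ht => (h2 s (hIcc s hs) t (hIcc t ht)).2
  have hF0 : volume (Set.Ioo (0 : ℝ) 1 \ F) = 0 := by
    rw [ae_restrict_iff' measurableSet_Ioo] at hF
    have h3 : volume {s | ¬ (s ∈ Set.Ioo (0 : ℝ) 1 → s ∈ F)} = 0 := hF
    refine measure_mono_null ?_ h3
    intro s hs h4
    exact hs.2 (h4 hs.1)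
  by_contra hcon
  push Not at hcon
  have hcov : I ⊆ ((Set.Ioo α β \ G) ∪ (I ∩ g ⁻¹' (Set.Ioo α β \ G))) ∪
      ((Set.Ioo (0 : ℝ) 1 \ F) ∪ (I ∩ g ⁻¹' (Set.Ioo (0 : ℝ) 1 \ F))) := by
    intro s hs
    have h3 := hIαβ hs
    have h4 := hgI s hs
    have h5 : g s ∈ Set.Ioo (0 : ℝ) 1 := ⟨by linarith [h4.1], by linarith [h4.2]⟩
    by_cases c1 : s ∈ G
    · by_cases c2 : g s ∈ G
      · by_cases c3 : s ∈ F
        · have c4 := hcon s h3 h4 c1 c2 c3
          exact Or.inr (Or.inr ⟨hs, h5, c4⟩)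
        · exact Or.inr (Or.inl ⟨hI01 s hs, c3⟩)
      · exact Or.inl (Or.inr ⟨hs, h4, c2⟩)
    · exact Or.inl (Or.inl ⟨h3, c1⟩)
  have hv : volume I = ENNReal.ofReal (3 * h / 4) := by
    rw [hI, Real.volume_Ioo]
    congr 1
    linarith
  have e1 : volume (I ∩ g ⁻¹' (Set.Ioo α β \ G)) ≤ ENNReal.ofReal (h / 4) := by
    refine (J2_preimage hexp _).trans ?_
    calc 2 * volume (Set.Ioo α β \ G) ≤ 2 * ENNReal.ofReal (h / 8) := by gcongr
      _ = ENNReal.ofReal (h / 4) := by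
        have : (2 : ENNReal) = ENNReal.ofReal 2 := by norm_num
        rw [this, ← ENNReal.ofReal_mul (by norm_num)]
        congr 1
        ring
  have e2 : volume (I ∩ g ⁻¹' (Set.Ioo (0 : ℝ) 1 \ F)) ≤ 0 := by
    refine (J2_preimage hexp _).trans ?_
    rw [hF0, mul_zero]
  have e3 : volume I ≤ ENNReal.ofReal (3 * h / 8) := by
    calc volume I ≤ _ := measure_mono hcov
      _ ≤ volume ((Set.Ioo α β \ G) ∪ (I ∩ g ⁻¹' (Set.Ioo α β \ G))) +
          volume ((Set.Ioo (0 : ℝ) 1 \ F) ∪ (I ∩ g ⁻¹' (Set.Ioo (0 : ℝ) 1 \ F))) :=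
        measure_union_le _ _
      _ ≤ (ENNReal.ofReal (h / 8) + ENNReal.ofReal (h / 4)) + (0 + 0) := by
        gcongr
        · exact (measure_union_le _ _).trans (add_le_add hG e1)
        · exact (measure_union_le _ _).trans (add_le_add hF0.le e2)
      _ = ENNReal.ofReal (3 * h / 8) := by
        rw [add_zero, add_zero, ← ENNReal.ofReal_add (by linarith) (by linarith)]
        congr 1
        ring
  rw [hv] at e3
  have e4 := (ENNReal.ofReal_le_ofReal_iff (by linarith)).1 e3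
  linarith

end Pool.Agent.Lib.MP_648c71_nt.Qap
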