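import Pool.Agent.Lib.MP_648c71_nt.Qap.G2
import Pool.Agent.Lib.MP_648c71_nt.Qap.H1
import Pool.Agent.Lib.MP_648c71_nt.Qap.H2
import Pool.Agent.Lib.MP_648c71_nt.Qap.H3
import Pool.Agent.Lib.MP_648c71_nt.Qap.H4
import Pool.Agent.Lib.MP_648c71_nt.Qap.I3
import Pool.Agent.Lib.MP_648c71_nt.Qap.J1
import Pool.Agent.Lib.MP_648c71_nt.Qap.J2

/-! ROW J3: the contradiction -/

set_option autoImplicit false

namespace Pool.Agent.Lib.MP_648c71_nt.Qap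

open Finset MeasureTheory

theorem Edge.sub_eq {a b c d : ℕ} (h : Edge a b c d) :
    (d : ℝ) / c - (b : ℝ) / a = 1 / ((a : ℝ) * c) := by
  have ha : (0 : ℝ) < a := by exact_mod_cast h.1
  have hc : (0 : ℝ) < c := by exact_mod_cast h.2.1
  have h5 : (a : ℝ) * d = b * c + 1 := by exact_mod_cast h.2.2.2.2
  field_simp
  linarith

namespace Par

variable (P : Par)

/-- approximating admissible vectors of value `t` -/
theorem exists_approx {L0 n : ℕ} (hL01 : 1 ≤ L0) (hL0 : ∀ a b c d : ℕ, Edge a b c d →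
      ∃ i j : ℕ, 1 ≤ i ∧ i ≤ L0 ∧ 1 ≤ j ∧ j ≤ L0 ∧ P.Cmb a b c d i j)
    {s : ℝ} (hirr : Irrational s) {a0 b0 c0 d0 : ℕ} (h0 : Edge a0 b0 c0 d0) (h1 : (b0 : ℝ) / a0 < s)
    (h2 : s < (d0 : ℝ) / c0) (hn : n ≤ max a0 c0) (hs : s ∈ P.GG (2 * L0) n) {t : ℤ}
    (ht : P.Tv (2 * L0) a0 b0 c0 d0 t) (k : ℕ) :
    ∃ x y : ℕ, P.V x y ∧ P.l x y = t ∧ y ≤ x ∧ k ≤ x ∧
      |s - (y : ℝ) / x| ≤ 8 * (L0 : ℝ) ^ 2 / (x : ℝ) ^ 2 := by
  obtain ⟨a, b, c, d, hD, hac, hca, hk⟩ := exists_balanced hirr h0 h1 h2 k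
  obtain ⟨hE, hs1, hs2, _⟩ := hD.facts h0 h1 h2
  obtain ⟨i, j, hi1, hi, hj1, hj, hc⟩ := hL0 a b c d hE
  have hT := P.Desc_Tv hL0 h0 h1 h2 hn hs ht hD
  have hval := hT i j (by omega) (by omega) hc
  obtain ⟨ha', hc', hba, hdc, hdet⟩ := hE
  have ha : (0 : ℝ) < a := by exact_mod_cast ha'
  have hcr : (0 : ℝ) < c := by exact_mod_cast hc'
  have hi1' : (1 : ℝ) ≤ i := by exact_mod_cast hi1
  have hj1' : (1 : ℝ) ≤ j := by exact_mod_cast hj1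
  have hi' : (i : ℝ) ≤ L0 := by exact_mod_cast hi
  have hj' : (j : ℝ) ≤ L0 := by exact_mod_cast hj
  have hdet' : (a : ℝ) * d = b * c + 1 := by exact_mod_cast hdet
  have hac' : (a : ℝ) ≤ 2 * c := by exact_mod_cast hac
  have hca' : (c : ℝ) ≤ 2 * a := by exact_mod_cast hca
  have hL0' : (1 : ℝ) ≤ L0 := by exact_mod_cast hL01
  refine ⟨i * a + j * c, i * b + j * d, hc.2, hval, ?_, ?_, ?_⟩
  · exact Nat.add_le_add (Nat.mul_le_mul_left _ hba) (Nat.mul_le_mul_left _ hdc)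
  · have e1 : a ≤ i * a := Nat.le_mul_of_pos_left _ hi1
    have e2 : c ≤ j * c := Nat.le_mul_of_pos_left _ hj1
    have : max a c ≤ i * a + j * c := by
      rcases le_total a c with h | h
      · rw [max_eq_right h]; omega
      · rw [max_eq_left h]; omega
    omega
  · push_cast
    have hx : (0 : ℝ) < i * a + j * c := by positivity
    -- y/x between b/a and d/c
    have l1 : (b : ℝ) / a ≤ (i * b + j * d) / (i * a + j * c) := by
      rw [div_le_div_iff₀ ha hx]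
      nlinarith
    have l2 : ((i : ℝ) * b + j * d) / (i * a + j * c) ≤ (d : ℝ) / c := by
      rw [div_le_div_iff₀ hx hcr]
      nlinarith
    have l3 : |s - ((i : ℝ) * b + j * d) / (i * a + j * c)| ≤ (d : ℝ) / c - (b : ℝ) / a := by
      rw [abs_le]; constructor <;> linarith
    have l4 : (d : ℝ) / c - (b : ℝ) / a = 1 / ((a : ℝ) * c) := by
      field_simp; linarith
    rw [l4] at l3
    refine l3.trans ?_
    rw [div_le_div_iff₀ (by positivity) (by positivity), one_mul]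
    -- (i a + j c)^2 ≤ 8 L0^2 a c
    have m1 : (i : ℝ) * a + j * c ≤ L0 * (a + c) := by nlinarith
    have m2 : ((i : ℝ) * a + j * c) ^ 2 ≤ (L0 * (a + c)) ^ 2 := by
      apply pow_le_pow_left₀ hx.le m1
    have m3 : ((a : ℝ) + c) ^ 2 ≤ 8 * (a * c) := by nlinarith
    calc ((i : ℝ) * a + j * c) ^ 2 ≤ (L0 * (a + c)) ^ 2 := m2
      _ = (L0 : ℝ) ^ 2 * (a + c) ^ 2 := by ring
      _ ≤ (L0 : ℝ) ^ 2 * (8 * (a * c)) := by gcongr
      _ = _ := by ring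

theorem ae_F (h : P.CountB) : ∀ᵐ s ∂(volume.restrict (Set.Ioo (0 : ℝ) 1)),
    s ∈ {s : ℝ | Irrational s ∧ ∀ L' : ℕ, ∃ n' : ℕ, s ∈ P.GG L' n'} := by
  have h1 : ∀ᵐ s ∂(volume.restrict (Set.Ioo (0 : ℝ) 1)), Irrational s := by
    apply ae_restrict_of_ae
    have : (Set.range ((↑) : ℚ → ℝ)).Countable := Set.countable_range _
    exact (Set.Countable.ae_notMem this volume)
  have h2 : ∀ᵐ s ∂(volume.restrict (Set.Ioo (0 : ℝ) 1)), ∀ L' : ℕ, ∃ n' : ℕ, s ∈ P.GG L' n' := by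
    rw [ae_all_iff]
    exact fun L' => P.ae_good h L'
  filter_upwards [h1, h2] with s a1 a2 using ⟨a1, a2⟩

/-- ROW J3.  The contradiction. -/
theorem final (h : P.CountB) : False := by
  obtain ⟨L0, hL01, hL0⟩ := P.exists_cmb
  obtain ⟨n, a0, b0, c0, d0, hE0, hn, hvol⟩ := P.exists_edge h (2 * L0)
  have ha0 : (0 : ℝ) < a0 := by exact_mod_cast hE0.1
  have hc0 : (0 : ℝ) < c0 := by exact_mod_cast hE0.2.1
  have hα0 : (0 : ℝ) ≤ (b0 : ℝ) / a0 := by positivity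
  have hβ1 : (d0 : ℝ) / c0 ≤ 1 := by
    rw [div_le_one hc0]; exact_mod_cast hE0.2.2.2.1
  have hαβ : (b0 : ℝ) / a0 < (d0 : ℝ) / c0 := by
    have := hE0.sub_eq
    have h1 : (0 : ℝ) < 1 / ((a0 : ℝ) * c0) := by positivity
    linarith
  obtain ⟨ε, hε, hε1, hg⟩ := exists_good_point (P.A : ℝ) (P.B : ℝ) (by positivity) (by positivity)
    _ _ hα0 hαβ hβ1
  obtain ⟨μ, h1, h2, h3, h4, h5, h6⟩ := P.exists_mu ε hε
  have h1' : (0 : ℝ) < (μ.re : ℝ) := by exact_mod_cast h1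
  obtain ⟨hg1, hg2, hg3⟩ := hg μ.re μ.im h1' h5
  obtain ⟨s, hs, hs', hsG, hs'G, hsF, hs'F⟩ := hg3 (P.GG (2 * L0) n) _ hvol (P.ae_F h)
  set s' := gm P.A P.B μ.re μ.im s with hs'def
  have hbad0 : ¬ P.Bad (2 * L0) a0 b0 c0 d0 := hsG _ _ _ _ hE0 hs.1 hs.2 hn
  obtain ⟨t, ht⟩ := P.exists_Tv hbad0
  have happ := P.exists_approx hL01 hL0 hsF.1 hE0 hs.1 hs.2 hn hsG ht
  -- constants
  set Cμ : ℝ := μ.re + P.A * |(μ.im : ℝ)| with hCμ
  have hCμ0 : 0 < Cμ := by positivity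
  have hL0' : (1 : ℝ) ≤ L0 := by exact_mod_cast hL01
  set Nμ : ℝ := ((nm μ).natAbs : ℝ) with hNμ
  set C : ℝ := 16 * (L0 : ℝ) ^ 2 * Cμ ^ 2 + 1 with hC
  have hC1 : 1 ≤ C := by
    have : 0 ≤ 16 * (L0 : ℝ) ^ 2 * Cμ ^ 2 := by positivity
    linarith
  set L' : ℕ := max (2 * L0) ⌈2 * C⌉₊ with hL'
  obtain ⟨n', hn'⟩ := hs'F.2 L'
  set η : ℝ := min (s' - (b0 : ℝ) / a0) ((d0 : ℝ) / c0 - s') with hη
  have hη0 : 0 < η := lt_min (by linarith [hs'.1]) (by linarith [hs'.2])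
  obtain ⟨k, hk⟩ := exists_nat_gt (max (16 * (L0 : ℝ) ^ 2 / η) (max (8 * C * Nμ * (n' + 1)) 1))
  have hk1 : 16 * (L0 : ℝ) ^ 2 / η < k := (le_max_left _ _).trans_lt hk
  have hk2 : 8 * C * Nμ * (n' + 1) < k := ((le_max_left _ _).trans (le_max_right _ _)).trans_lt hk
  have hk3 : (1 : ℝ) < k := ((le_max_right _ _).trans (le_max_right _ _)).trans_lt hk
  obtain ⟨x, y, hV, hl, hyx, hkx, hsx⟩ := happ k
  have hx0 : (0 : ℝ) < x := by exact_mod_cast hV.1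
  have hkx' : (k : ℝ) ≤ x := by exact_mod_cast hkx
  have hyx' : (y : ℝ) ≤ x := by exact_mod_cast hyx
  have hsl : (y : ℝ) / x ∈ Set.Icc (0 : ℝ) 1 := ⟨by positivity, by rw [div_le_one hx0]; exact hyx'⟩
  have hs01 : s ∈ Set.Icc (0 : ℝ) 1 := ⟨by linarith [hs.1], by linarith [hs.2]⟩
  -- denominators
  have hden := hg1 _ hsl
  have hden0 : 0 < (μ.re : ℝ) - P.A * μ.im * ((y : ℝ) / x) := by linarith
  have hre' : (μ.re : ℝ) / 2 * x ≤ (μ.re : ℝ) * x - P.A * μ.im * y := by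
    have := mul_le_mul_of_nonneg_right hden hx0.le
    have e : ((μ.re : ℝ) - P.A * μ.im * ((y : ℝ) / x)) * x = (μ.re : ℝ) * x - P.A * μ.im * y := by
      field_simp
    rw [e] at this
    exact this
  have hreR : (0 : ℝ) < (μ.re : ℝ) * x - P.A * μ.im * y := lt_of_lt_of_le (by positivity) hre'
  have hre : 0 < μ.re * x - P.A * μ.im * y := by exact_mod_cast hreR
  -- closeness
  have hclose : |s' - gm P.A P.B μ.re μ.im ((y : ℝ) / x)| ≤ 16 * (L0 : ℝ) ^ 2 / (x : ℝ) ^ 2 := by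
    have := hg2 s hs01 _ hsl
    calc _ ≤ 2 * |s - (y : ℝ) / x| := this
      _ ≤ 2 * (8 * (L0 : ℝ) ^ 2 / (x : ℝ) ^ 2) := by gcongr
      _ = _ := by ring
  have hsmall : 16 * (L0 : ℝ) ^ 2 / (x : ℝ) ^ 2 < η := by
    have hx1 : (1 : ℝ) < x := hk3.trans_le hkx'
    have e1 : 16 * (L0 : ℝ) ^ 2 / (x : ℝ) ^ 2 ≤ 16 * (L0 : ℝ) ^ 2 / (x : ℝ) := by
      apply div_le_div_of_nonneg_left (by positivity) hx0
      nlinarith
    refine e1.trans_lt ?_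
    rw [div_lt_iff₀ hx0]
    rw [div_lt_iff₀ hη0] at hk1
    calc 16 * (L0 : ℝ) ^ 2 < k * η := hk1
      _ ≤ x * η := by gcongr
      _ = η * x := by ring
  have hbt := abs_lt.mp (hclose.trans_lt hsmall)
  have hgt : (b0 : ℝ) / a0 < gm P.A P.B μ.re μ.im ((y : ℝ) / x) := by
    have := min_le_left (s' - (b0 : ℝ) / a0) ((d0 : ℝ) / c0 - s')
    linarith [hbt.2]
  have hlt : gm P.A P.B μ.re μ.im ((y : ℝ) / x) < (d0 : ℝ) / c0 := by
    have := min_le_right (s' - (b0 : ℝ) / a0) ((d0 : ℝ) / c0 - s')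
    linarith [hbt.1]
  have hgm : gm P.A P.B μ.re μ.im ((y : ℝ) / x) =
      ((μ.re : ℝ) * y + μ.im * x + P.B * μ.im * y) / ((μ.re : ℝ) * x - P.A * μ.im * y) := by
    unfold gm
    have e : ((μ.re : ℝ) - P.A * μ.im * ((y : ℝ) / x)) * x = (μ.re : ℝ) * x - P.A * μ.im * y := by
      field_simp
    rw [← e, div_eq_div_iff hden0.ne' (mul_pos hden0 hx0).ne']
    field_simp
  have himR : (0 : ℝ) ≤ (μ.re : ℝ) * y + μ.im * x + P.B * μ.im * y := by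
    have h0 : 0 < gm P.A P.B μ.re μ.im ((y : ℝ) / x) := hα0.trans_lt hgt
    rw [hgm] at h0
    exact (le_of_lt ((div_pos_iff_of_pos_right hreR).mp h0))
  have him : 0 ≤ μ.re * y + μ.im * x + P.B * μ.im * y := by exact_mod_cast himR
  obtain ⟨x', y', c', hV', hl', hc'0, hc'N, hx', hy'⟩ := P.mu_act h1 h2 h3 h4 h6 hV hre him
  have hc'R : (0 : ℝ) < c' := by exact_mod_cast hc'0
  have hx'0 : (0 : ℝ) < x' := by exact_mod_cast hV'.1
  have hx'R : (c' : ℝ) * x' = (μ.re : ℝ) * x - P.A * μ.im * y := by exact_mod_cast hx'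
  have hy'R : (c' : ℝ) * y' = (μ.re : ℝ) * y + μ.im * x + P.B * μ.im * y := by exact_mod_cast hy'
  have hslope : (y' : ℝ) / x' = gm P.A P.B μ.re μ.im ((y : ℝ) / x) := by
    rw [hgm, ← hx'R, ← hy'R, mul_div_mul_left _ _ hc'R.ne']
  -- size of x'
  have hx'le : (x' : ℝ) ≤ Cμ * x := by
    have e1 : (x' : ℝ) ≤ c' * x' := by
      have : (1 : ℝ) ≤ c' := by exact_mod_cast hc'0
      nlinarith
    have e2 : (μ.re : ℝ) * x - P.A * μ.im * y ≤ Cμ * x := by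
      have e3 : -(P.A * (μ.im : ℝ) * y) ≤ P.A * |(μ.im : ℝ)| * x := by
        have e4 : -(μ.im : ℝ) ≤ |(μ.im : ℝ)| := neg_le_abs _
        calc -(P.A * (μ.im : ℝ) * y) = P.A * (-(μ.im : ℝ)) * y := by ring
          _ ≤ P.A * |(μ.im : ℝ)| * y := by gcongr
          _ ≤ P.A * |(μ.im : ℝ)| * x := by gcongr
      rw [hCμ]; linarith
    linarith
  have hx'ge : (x : ℝ) ≤ 2 * Nμ * x' := by
    have e1 : (c' : ℝ) ≤ Nμ := by rw [hNμ]; exact_mod_cast hc'N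
    have e2 : (1 : ℝ) ≤ μ.re := by exact_mod_cast h1
    have e3 : (μ.re : ℝ) / 2 * x ≤ c' * x' := by rw [hx'R]; exact hre'
    have e4 : (c' : ℝ) * x' ≤ Nμ * x' := by gcongr
    nlinarith
  have hclose' : |s' - (y' : ℝ) / x'| ≤ C / (x' : ℝ) ^ 2 := by
    rw [hslope]
    refine hclose.trans ?_
    rw [div_le_div_iff₀ (by positivity) (by positivity)]
    have e1 : (x' : ℝ) ^ 2 ≤ (Cμ * x) ^ 2 := pow_le_pow_left₀ hx'0.le hx'le 2
    calc 16 * (L0 : ℝ) ^ 2 * (x' : ℝ) ^ 2 ≤ 16 * (L0 : ℝ) ^ 2 * (Cμ * x) ^ 2 := by gcongr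
      _ = (16 * (L0 : ℝ) ^ 2 * Cμ ^ 2) * x ^ 2 := by ring
      _ ≤ C * x ^ 2 := by gcongr; rw [hC]; linarith
  obtain ⟨a, b, c, d, i, j, hD, hi, hj, hij, hxi, hyi⟩ := exists_small_coord hs'F.1 hC1 hE0 hs'.1 hs'.2
    hV'.1 hV'.2.1 (by rw [hslope]; exact hgt) (by rw [hslope]; exact hlt) hclose'
  obtain ⟨hE, e1, e2, _⟩ := hD.facts hE0 hs'.1 hs'.2
  have ha : (0 : ℝ) < a := by exact_mod_cast hE.1
  have hc : (0 : ℝ) < c := by exact_mod_cast hE.2.1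
  -- the edge is large
  have hmax : n' ≤ max a c := by
    have hxR : (x' : ℝ) = i * a + j * c := by exact_mod_cast hxi
    have hm1 : (a : ℝ) ≤ (max a c : ℕ) := by exact_mod_cast le_max_left a c
    have hm2 : (c : ℝ) ≤ (max a c : ℕ) := by exact_mod_cast le_max_right a c
    have hm0 : (0 : ℝ) ≤ (max a c : ℕ) := by positivity
    have hxle : (x' : ℝ) ≤ 4 * C * (max a c : ℕ) := by
      rw [hxR]
      calc (i : ℝ) * a + j * c ≤ 2 * C * (max a c : ℕ) + 2 * C * (max a c : ℕ) := by gcongr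
        _ = _ := by ring
    have hN0 : 0 ≤ Nμ := by positivity
    have f1 : 8 * C * Nμ * (n' + 1) < 2 * Nμ * (4 * C * (max a c : ℕ)) := by
      calc 8 * C * Nμ * (n' + 1) < k := hk2
        _ ≤ x := hkx'
        _ ≤ 2 * Nμ * x' := hx'ge
        _ ≤ 2 * Nμ * (4 * C * (max a c : ℕ)) := by gcongr
    have f2 : (8 * C * Nμ) * ((n' : ℝ) + 1) < (8 * C * Nμ) * (max a c : ℕ) := by
      calc _ = 8 * C * Nμ * (n' + 1) := by ring
        _ < 2 * Nμ * (4 * C * (max a c : ℕ)) := f1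
        _ = _ := by ring
    have f3 : ((n' : ℝ) + 1) < (max a c : ℕ) := lt_of_mul_lt_mul_left f2 (by positivity)
    have : ((n' : ℕ) : ℝ) < (max a c : ℕ) := by linarith
    exact_mod_cast this.le
  have hgood : ¬ P.Bad L' a b c d := hn' _ _ _ _ hE e1 e2 hmax
  have hT := P.Desc_Tv hL0 hE0 hs'.1 hs'.2 hn hs'G ht hD
  obtain ⟨i2, j2, _, hi2, _, hj2, hcmb⟩ := hL0 a b c d hE
  have v1 := hT i2 j2 (by omega) (by omega) hcmb
  have hcmb' : P.Cmb a b c d i j := ⟨hij, by rw [← hxi, ← hyi]; exact hV'⟩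
  have v2 : P.lc a b c d i j = -t := by
    unfold lc; rw [← hxi, ← hyi, hl', hl]
  have ht0 : t ≠ 0 := by
    rw [← hl]
    rcases P.l_eq_or (x := x) (y := y) (Or.inl hV.1) with h | h <;> rw [h] <;> norm_num
  have hCnat : ∀ m : ℕ, (m : ℝ) ≤ 2 * C → m ≤ L' := by
    intro m hm
    have : (m : ℝ) ≤ (⌈2 * C⌉₊ : ℝ) := hm.trans (Nat.le_ceil _)
    have : m ≤ ⌈2 * C⌉₊ := by exact_mod_cast this
    exact this.trans (le_max_right _ _)
  apply hgood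
  refine ⟨i, j, i2, j2, hCnat i hi, hCnat j hj, ?_, ?_, hcmb', hcmb, ?_⟩
  · exact (by omega : i2 ≤ 2 * L0).trans (le_max_left _ _)
  · exact (by omega : j2 ≤ 2 * L0).trans (le_max_left _ _)
  · rw [v1, v2]; omega

end Par

end Pool.Agent.Lib.MP_648c71_nt.Qap
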