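import Pool.Agent.Lib.MP_648c71_nt.Qap.J3
import Pool.Agent.Lib.MP_648c71_nt.Qap.D3
import Pool.Agent.Lib.MP_648c71_nt.Qap.F3

/-! no sparse exceptional set -/

set_option autoImplicit false

namespace Pool.Agent.Lib.MP_648c71_nt.Qap

open Finset MeasureTheory

namespace Par

variable (P : Par)

theorem not_sparse {δ : ℝ} (hδ0 : 0 ≤ δ) (hδ : δ < 1 / 2) : ¬ P.Sparse δ :=
  fun hs => P.final (P.countB_of_smB (P.smB_of_sparse hδ0 hδ hs))

end Par

end Pool.Agent.Lib.MP_648c71_nt.Qap
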