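import Pool.Agent.Lib.MP_648c71_nt.Qap.J4

/-! ROW K: reduction of the general case -/

set_option autoImplicit false

namespace Pool.Agent.Lib.MP_648c71_nt.Qap

open Finset

/-- positivity for large `t` -/
private theorem K_large (a b c : ℤ) (ha : 0 < a) {t : ℤ} (ht : |b| + |c| + 1 ≤ t) :
    0 < a * t ^ 2 + b * t + c ∧ 0 < 2 * a * t + b := by
  have hb := abs_nonneg b
  have hc := abs_nonneg c
  have hb1 := neg_abs_le b
  have hc1 := neg_abs_le c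
  have ht0 : 0 < t := by linarith
  have ha1 : 1 ≤ a := ha
  constructor
  · have h1 : t ^ 2 ≤ a * t ^ 2 := by nlinarith [sq_nonneg t]
    have h2 : -(|b| * t) ≤ b * t := by nlinarith
    have h3 : (|c| + 1) * t ≤ (t - |b|) * t := by
      apply mul_le_mul_of_nonneg_right _ ht0.le
      linarith
    nlinarith
  · nlinarith

/-- there are arguments with a value of sign `-s` -/
private theorem K_exists (a b c : ℤ) (ha : 0 < a) (s : ℤ) (hs : s = 1 ∨ s = -1) (δ : ℝ)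
    (hδ : δ < 1 / 2) (C : ℝ) (hC : 0 < C)
    (h : ∀ X : ℕ, 1 ≤ X → (({t ∈ Icc (1 : ℤ) X | lam (a * t ^ 2 + b * t + c) = s}).card : ℝ) ≤
        C * (X : ℝ) ^ δ) :
    ∃ r : ℤ, 1 ≤ r ∧ 0 < a * r ^ 2 + b * r + c ∧ 0 < 2 * a * r + b ∧
      lam (a * r ^ 2 + b * r + c) = -s := by
  by_contra hno
  push Not at hno
  have hb := abs_nonneg b
  have hc := abs_nonneg c
  set T0 : ℤ := |b| + |c| + 1 with hT0
  have hall : ∀ t : ℤ, T0 ≤ t → lam (a * t ^ 2 + b * t + c) = s := by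
    intro t ht
    obtain ⟨h1, h2⟩ := K_large a b c ha ht
    have h3 := hno t (by linarith) h1 h2
    rcases lam_eq_one_or h1.ne' with h4 | h4 <;> rcases hs with rfl | rfl
    · exact h4
    · exact absurd (by rw [h4]; norm_num) h3
    · exact absurd h4 h3
    · exact h4
  -- a large square
  set M : ℕ := ⌈C⌉₊ + T0.toNat + 1 with hM
  have hM1 : 1 ≤ M := by omega
  have hX := h (M ^ 2) (Nat.one_le_pow _ _ hM1)
  have hMC : C + (T0 : ℝ) + 1 ≤ (M : ℝ) := by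
    have h1 : C ≤ (⌈C⌉₊ : ℝ) := Nat.le_ceil C
    have h2 : (T0 : ℝ) = ((T0.toNat : ℕ) : ℝ) := by
      have : ((T0.toNat : ℕ) : ℤ) = T0 := Int.toNat_of_nonneg (by linarith)
      rw [← this]; push_cast; norm_cast
    rw [hM, h2]; push_cast; linarith
  have hcard : ((M : ℝ) ^ 2 - T0) ≤ (({t ∈ Icc (1 : ℤ) ((M ^ 2 : ℕ) : ℤ) |
      lam (a * t ^ 2 + b * t + c) = s}).card : ℝ) := by
    have h1 : Icc T0 ((M ^ 2 : ℕ) : ℤ) ⊆ {t ∈ Icc (1 : ℤ) ((M ^ 2 : ℕ) : ℤ) |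
        lam (a * t ^ 2 + b * t + c) = s} := by
      intro t ht
      rw [mem_Icc] at ht
      rw [mem_filter, mem_Icc]
      exact ⟨⟨by linarith [ht.1], ht.2⟩, hall t ht.1⟩
    have h2 := card_le_card h1
    rw [Int.card_Icc] at h2
    have h3 : (((M ^ 2 : ℕ) : ℤ) + 1 - T0) ≤
        (({t ∈ Icc (1 : ℤ) ((M ^ 2 : ℕ) : ℤ) | lam (a * t ^ 2 + b * t + c) = s}).card : ℤ) := by
      calc (((M ^ 2 : ℕ) : ℤ) + 1 - T0) ≤ (((((M ^ 2 : ℕ) : ℤ) + 1 - T0).toNat : ℕ) : ℤ) :=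
            Int.self_le_toNat _
        _ ≤ _ := by exact_mod_cast h2
    have h4 : ((((M ^ 2 : ℕ) : ℤ) + 1 - T0 : ℤ) : ℝ) ≤
        ((({t ∈ Icc (1 : ℤ) ((M ^ 2 : ℕ) : ℤ) | lam (a * t ^ 2 + b * t + c) = s}).card : ℤ) : ℝ) := by
      exact_mod_cast h3
    push_cast at h4 ⊢
    linarith
  have hpow : (((M ^ 2 : ℕ) : ℝ)) ^ δ ≤ (M : ℝ) := by
    have hM1' : (1 : ℝ) ≤ ((M ^ 2 : ℕ) : ℝ) := by exact_mod_cast Nat.one_le_pow _ _ hM1
    calc (((M ^ 2 : ℕ) : ℝ)) ^ δ ≤ (((M ^ 2 : ℕ) : ℝ)) ^ (1 / 2 : ℝ) :=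
          Real.rpow_le_rpow_of_exponent_le hM1' hδ.le
      _ = (M : ℝ) := by
          rw [← Real.sqrt_eq_rpow]
          push_cast
          exact Real.sqrt_sq (Nat.cast_nonneg M)
  have hMpos : (0 : ℝ) < (M : ℝ) := by exact_mod_cast hM1
  have h5 : (M : ℝ) ^ 2 - T0 ≤ C * M :=
    hcard.trans (hX.trans (mul_le_mul_of_nonneg_left hpow hC.le))
  have hT0' : (0 : ℝ) ≤ (T0 : ℝ) := by
    have : (0 : ℤ) ≤ T0 := by linarith
    exact_mod_cast this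
  have hM1r : (1 : ℝ) ≤ (M : ℝ) := by exact_mod_cast hM1
  have h6 : (C + T0 + 1) * M ≤ (M : ℝ) * M := mul_le_mul_of_nonneg_right hMC hMpos.le
  have h7 : (T0 : ℝ) * 1 ≤ T0 * M := mul_le_mul_of_nonneg_left hM1r hT0'
  nlinarith

/-- the case `q = 1`, `a > 0` -/
private theorem K_one (a b c : ℤ) (ha : 0 < a) (hD : ¬ IsSquare (b ^ 2 - 4 * a * c)) (s : ℤ)
    (hs : s = 1 ∨ s = -1) (δ : ℝ) (hδ0 : 0 ≤ δ) (hδ : δ < 1 / 2) (C : ℝ) (hC : 0 < C)
    (h : ∀ X : ℕ, 1 ≤ X → (({t ∈ Icc (1 : ℤ) X | lam (a * t ^ 2 + b * t + c) = s}).card : ℝ) ≤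
        C * (X : ℝ) ^ δ) : False := by
  classical
  obtain ⟨r, hr1, hr2, hr3, hr4⟩ := K_exists a b c ha s hs δ hδ C hC h
  obtain ⟨a', rfl⟩ : ∃ a' : ℕ, a = a' := ⟨a.toNat, (Int.toNat_of_nonneg ha.le).symm⟩
  obtain ⟨r', rfl⟩ : ∃ r' : ℕ, r = r' := ⟨r.toNat, (Int.toNat_of_nonneg (by linarith)).symm⟩
  obtain ⟨c0, hc0⟩ : ∃ c0 : ℕ, (a' : ℤ) * (r' : ℤ) ^ 2 + b * r' + c = c0 :=
    ⟨_, (Int.toNat_of_nonneg hr2.le).symm⟩
  obtain ⟨e, he⟩ : ∃ e : ℕ, 2 * (a' : ℤ) * r' + b = e := ⟨_, (Int.toNat_of_nonneg hr3.le).symm⟩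
  set Δ : ℤ := b ^ 2 - 4 * a' * c with hΔ
  have hΔ0 : Δ ≠ 0 := fun h0 => hD ⟨0, by rw [h0]; norm_num⟩
  have hΔn : 0 < Δ.natAbs := Int.natAbs_pos.mpr hΔ0
  have ha' : 0 < a' := by exact_mod_cast ha
  have hc0' : 0 < c0 := by rw [hc0] at hr2; exact_mod_cast hr2
  have he' : 0 < e := by rw [he] at hr3; exact_mod_cast hr3
  have hr' : 1 ≤ r' := by exact_mod_cast hr1
  set N : ℕ := 4 * Δ.natAbs * a' * c0 with hN
  have hNpos : 0 < N := by rw [hN]; positivity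
  have h4D : 4 * Δ ∣ (N : ℤ) := by
    have h1 : 4 * Δ ∣ 4 * (Δ.natAbs : ℤ) := mul_dvd_mul_left 4 (Int.dvd_natAbs.mpr dvd_rfl)
    have h2 : (N : ℤ) = 4 * (Δ.natAbs : ℤ) * (a' * c0) := by rw [hN]; push_cast; ring
    rw [h2]
    exact h1.mul_right _
  let P : Par :=
    { A := a' * c0 * N ^ 2
      B := N * e
      N := N
      Δ := Δ
      hA := by positivity
      hB := by positivity
      hN := hNpos
      hD := by
        push_cast
        rw [← he, ← hc0, hΔ]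
        ring
      hsq := hD
      hdA := by
        push_cast
        exact (h4D.trans (dvd_pow_self _ two_ne_zero)).mul_left _
      hdB := by
        push_cast
        exact h4D.mul_right _
      hNA := (dvd_pow_self _ two_ne_zero).mul_left _
      hrad := by
        intro p hp hpA
        refine Dvd.dvd.mul_right ?_ _
        rcases (Nat.Prime.dvd_mul hp).mp hpA with h1 | h1
        · refine h1.trans ⟨4 * Δ.natAbs, ?_⟩
          rw [hN]; ring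
        · exact hp.dvd_of_dvd_pow h1 }
  have key : ∀ n : ℕ, (a' : ℤ) * (((c0 * N * n + r' : ℕ)) : ℤ) ^ 2 + b * ((c0 * N * n + r' : ℕ) : ℤ) + c
      = c0 * ((P.A * n ^ 2 + P.B * n + 1 : ℕ) : ℤ) := by
    intro n
    show (a' : ℤ) * (((c0 * N * n + r' : ℕ)) : ℤ) ^ 2 + b * ((c0 * N * n + r' : ℕ) : ℤ) + c
      = c0 * (((a' * c0 * N ^ 2) * n ^ 2 + (N * e) * n + 1 : ℕ) : ℤ)
    push_cast
    rw [← he]
    linear_combination hc0
  have hexc : ∀ n : ℕ, P.Exc n →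
      lam ((a' : ℤ) * (((c0 * N * n + r' : ℕ)) : ℤ) ^ 2 + b * ((c0 * N * n + r' : ℕ) : ℤ) + c) = s := by
    intro n hn
    rw [key, lam_mul]
    rw [hc0] at hr4
    rw [hr4]
    have h1 : ((P.A * n ^ 2 + P.B * n + 1 : ℕ) : ℤ) ≠ 0 := by positivity
    rcases lam_eq_one_or h1 with h2 | h2
    · exact absurd h2 hn
    · rw [h2]; ring
  apply P.not_sparse hδ0 hδ
  refine ⟨C * ((c0 * N + r' : ℕ) : ℝ) ^ δ, by positivity, fun X hX => ?_⟩
  have hinj : ((range (X + 1)).filter (fun n => P.Exc n)).card ≤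
      ({t ∈ Icc (1 : ℤ) ((c0 * N * X + r' : ℕ) : ℤ) |
        lam ((a' : ℤ) * t ^ 2 + b * t + c) = s}).card := by
    refine Finset.card_le_card_of_injOn (fun n => ((c0 * N * n + r' : ℕ) : ℤ)) ?_ ?_
    · intro n hn
      rw [Finset.mem_coe, mem_filter, mem_range] at hn
      rw [Finset.mem_coe, mem_filter, mem_Icc]
      refine ⟨⟨?_, ?_⟩, hexc n hn.2⟩
      · have : 1 ≤ c0 * N * n + r' := by omega
        show (1 : ℤ) ≤ ((c0 * N * n + r' : ℕ) : ℤ)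
        exact_mod_cast this
      · have : c0 * N * n + r' ≤ c0 * N * X + r' := by
          have : n ≤ X := by omega
          gcongr
        show ((c0 * N * n + r' : ℕ) : ℤ) ≤ ((c0 * N * X + r' : ℕ) : ℤ)
        exact_mod_cast this
    · intro n _ n' _ hnn
      have hnn' : ((c0 * N * n + r' : ℕ) : ℤ) = ((c0 * N * n' + r' : ℕ) : ℤ) := hnn
      have h1 : c0 * N * n + r' = c0 * N * n' + r' := by exact_mod_cast hnn'
      have h2 : c0 * N * n = c0 * N * n' := by omega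
      exact Nat.eq_of_mul_eq_mul_left (by positivity) h2
  have h1 := h (c0 * N * X + r') (by omega)
  calc (((range (X + 1)).filter (fun n => P.Exc n)).card : ℝ)
      ≤ (({t ∈ Icc (1 : ℤ) ((c0 * N * X + r' : ℕ) : ℤ) |
        lam ((a' : ℤ) * t ^ 2 + b * t + c) = s}).card : ℝ) := by exact_mod_cast hinj
    _ ≤ C * ((c0 * N * X + r' : ℕ) : ℝ) ^ δ := h1
    _ ≤ C * (((c0 * N + r' : ℕ) : ℝ) * X) ^ δ := by
        apply mul_le_mul_of_nonneg_left _ hC.le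
        apply Real.rpow_le_rpow (Nat.cast_nonneg _) _ hδ0
        have h2 : c0 * N * X + r' ≤ (c0 * N + r') * X := by nlinarith
        exact_mod_cast h2
    _ = C * ((c0 * N + r' : ℕ) : ℝ) ^ δ * (X : ℝ) ^ δ := by
        rw [Real.mul_rpow (Nat.cast_nonneg _) (Nat.cast_nonneg _), mul_assoc]

/-- the case `a > 0` -/
private theorem K_pos (a b c : ℤ) (ha : 0 < a) (hD : ¬ IsSquare (b ^ 2 - 4 * a * c)) (r q : ℤ)
    (hq : 0 < q) (s : ℤ) (hs : s = 1 ∨ s = -1) (δ : ℝ) (hδ0 : 0 ≤ δ) (hδ : δ < 1 / 2) (C : ℝ)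
    (hC : 0 < C) (h : ∀ X : ℕ, 1 ≤ X →
      (({t ∈ Icc (1 : ℤ) X | t ≡ r [ZMOD q] ∧ lam (a * t ^ 2 + b * t + c) = s}).card : ℝ) ≤
        C * (X : ℝ) ^ δ) : False := by
  classical
  obtain ⟨q', rfl⟩ : ∃ q' : ℕ, q = q' := ⟨q.toNat, (Int.toNat_of_nonneg hq.le).symm⟩
  have hq' : 0 < q' := by exact_mod_cast hq
  obtain ⟨r0, hr0⟩ : ∃ r0 : ℕ, r % (q' : ℤ) = r0 :=
    ⟨_, (Int.toNat_of_nonneg (Int.emod_nonneg _ hq.ne')).symm⟩
  have hr0q : r0 < q' := by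
    have := Int.emod_lt_of_pos r hq
    rw [hr0] at this
    exact_mod_cast this
  have hr0r : (r0 : ℤ) ≡ r [ZMOD q'] := by
    rw [← hr0]; exact Int.mod_modEq _ _
  -- the new polynomial
  refine K_one (a * q' ^ 2) (2 * a * q' * r0 + b * q') (a * r0 ^ 2 + b * r0 + c) (by positivity)
    ?_ s hs δ hδ0 hδ (C * ((2 * q' : ℕ) : ℝ) ^ δ) (by positivity) ?_
  · rintro ⟨m, hm⟩
    apply hD
    have h1 : (q' : ℤ) ^ 2 * (b ^ 2 - 4 * a * c) = m ^ 2 := by rw [sq m, ← hm]; ring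
    have h2 : (q' : ℤ) ∣ m := by
      have : (q' : ℤ) ^ 2 ∣ m ^ 2 := ⟨_, h1.symm⟩
      exact (Int.pow_dvd_pow_iff two_ne_zero).mp this
    obtain ⟨m', rfl⟩ := h2
    refine ⟨m', ?_⟩
    have h3 : (q' : ℤ) ^ 2 * (b ^ 2 - 4 * a * c) = (q' : ℤ) ^ 2 * (m' * m') := by rw [h1]; ring
    exact mul_left_cancel₀ (by positivity) h3
  · intro X hX
    have hinj : ({t ∈ Icc (1 : ℤ) (X : ℤ) | lam (a * q' ^ 2 * t ^ 2 +
        (2 * a * q' * r0 + b * q') * t + (a * r0 ^ 2 + b * r0 + c)) = s}).card ≤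
        ({t ∈ Icc (1 : ℤ) ((q' * X + r0 : ℕ) : ℤ) | t ≡ r [ZMOD q'] ∧
          lam (a * t ^ 2 + b * t + c) = s}).card := by
      refine Finset.card_le_card_of_injOn (fun t => (q' : ℤ) * t + r0) ?_ ?_
      · intro t ht
        rw [Finset.mem_coe, mem_filter, mem_Icc] at ht
        rw [Finset.mem_coe, mem_filter, mem_Icc]
        obtain ⟨⟨ht1, ht2⟩, ht3⟩ := ht
        refine ⟨⟨?_, ?_⟩, ?_, ?_⟩
        · have : (1 : ℤ) ≤ q' := by exact_mod_cast hq'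
          have h0 : (0 : ℤ) ≤ r0 := by positivity
          nlinarith
        · push_cast
          have : (q' : ℤ) * t ≤ q' * X := mul_le_mul_of_nonneg_left ht2 (by positivity)
          linarith
        · have h1 : (q' : ℤ) * t + r0 ≡ r0 [ZMOD q'] := by
            have : (q' : ℤ) * t ≡ 0 [ZMOD q'] := (Int.modEq_zero_iff_dvd).mpr (dvd_mul_right _ _)
            have h2 := this.add_right (r0 : ℤ)
            rwa [zero_add] at h2
          exact h1.trans hr0r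
        · rw [← ht3]
          congr 1
          ring
      · intro t _ t' _ htt
        have h1 : (q' : ℤ) * t = q' * t' := by simpa using htt
        exact mul_left_cancel₀ hq.ne' h1
    have h1 := h (q' * X + r0) (by nlinarith)
    calc (({t ∈ Icc (1 : ℤ) (X : ℤ) | lam (a * q' ^ 2 * t ^ 2 +
        (2 * a * q' * r0 + b * q') * t + (a * r0 ^ 2 + b * r0 + c)) = s}).card : ℝ)
        ≤ (({t ∈ Icc (1 : ℤ) ((q' * X + r0 : ℕ) : ℤ) | t ≡ r [ZMOD q'] ∧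
          lam (a * t ^ 2 + b * t + c) = s}).card : ℝ) := by exact_mod_cast hinj
      _ ≤ C * ((q' * X + r0 : ℕ) : ℝ) ^ δ := h1
      _ ≤ C * (((2 * q' : ℕ) : ℝ) * X) ^ δ := by
          apply mul_le_mul_of_nonneg_left _ hC.le
          apply Real.rpow_le_rpow (Nat.cast_nonneg _) _ hδ0
          have h2 : q' * X + r0 ≤ (2 * q') * X := by nlinarith
          exact_mod_cast h2
      _ = C * ((2 * q' : ℕ) : ℝ) ^ δ * (X : ℝ) ^ δ := by
          rw [Real.mul_rpow (Nat.cast_nonneg _) (Nat.cast_nonneg _), mul_assoc]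

/-- ROW K.  Reduction of the general case.
Proof.  Suppose `#{1 ≤ t ≤ X : t ≡ r (q), λ(f(t)) = s} ≤ C X^δ` for all `X ≥ 1`, `f = aT²+bT+c`.  Passing to
`f(qk + r₀)` (`r₀ ≡ r`, `r₀ ≥ 0`; discriminant `q²Δ`, still not a square) we may take `q = 1`; changing the sign of
`f` we may take `a > 0` (`a ≠ 0` since otherwise the discriminant is a square).  Choose `r ≥ 1` with
`f(r) > 0`, `2ar + b > 0`, `λ(f(r)) = -s` (all large `r` but few: the exceptional ones up to `X` are at most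
`C X^δ < X/2`).  `c₀ = f(r)`, `N = 4|Δ|ac₀`, `A = a c₀ N²`, `B = N(2ar+b)`; then
`f(c₀ N n + r) = c₀ (A n² + B n + 1)`, `B² - 4A = N²Δ` and the divisibilities hold (a prime `p ∣ A` divides `N`
because `a c₀ ∣ N`).  `Exc n` means `λ(f(c₀Nn+r)) ≠ λ(c₀) = -s`, i.e. `= s`; so
`#{n ≤ X : Exc n} ≤ C (c₀ N X + r)^δ ≤ C' X^δ`: `Sparse δ`. -/
theorem main (a b c : ℤ) (hD : ¬ IsSquare (b ^ 2 - 4 * a * c)) (r q : ℤ) (hq : 0 < q) (s : ℤ)
    (hs : s = 1 ∨ s = -1) (δ : ℝ) (hδ0 : 0 ≤ δ) (hδ : δ < 1 / 2) :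
    ¬ ∃ C : ℝ, 0 < C ∧ ∀ X : ℕ, 1 ≤ X →
      (({t ∈ Icc (1 : ℤ) X | t ≡ r [ZMOD q] ∧ lam (a * t ^ 2 + b * t + c) = s}).card : ℝ) ≤
        C * (X : ℝ) ^ δ := by
  rintro ⟨C, hC, h⟩
  rcases lt_trichotomy a 0 with ha | ha | ha
  · refine K_pos (-a) (-b) (-c) (by linarith) ?_ r q hq s hs δ hδ0 hδ C hC fun X hX => ?_
    · have : (-b) ^ 2 - 4 * (-a) * (-c) = b ^ 2 - 4 * a * c := by ring
      rw [this]; exact hD
    · have h1 : ∀ t : ℤ, lam (-a * t ^ 2 + -b * t + -c) = lam (a * t ^ 2 + b * t + c) := by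
        intro t
        rw [← lam_neg (a * t ^ 2 + b * t + c)]
        congr 1
        ring
      simp only [h1]
      exact h X hX
  · exact hD ⟨b, by rw [ha]; ring⟩
  · exact K_pos a b c ha hD r q hq s hs δ hδ0 hδ C hC h

end Pool.Agent.Lib.MP_648c71_nt.Qap
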